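import Pool.Agent.MP_f7db47_al.GF.AD
import Pool.Agent.MP_f7db47_al.PT.ZAbq

/-!
Linear groups over the rational numbers.
-/

namespace Pool.Agent.MP_f7db47_al.GF

open Matrix

universe v

variable {R : Type v} [Ring R]

/-- Quasi-unipotent elements of a ring. -/
def BMainQ {A : Type} [Ring A] (x : A) : Prop := ∃ m : ℕ, 0 < m ∧ IsNilpotent (x ^ m - 1)

/-- The hypothesis of the induction. -/
def BMainHyp (R : Type v) [Ring R] {G A : Type} [Group G] [Ring A] (ρ : G →* A) : Prop :=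
  ∀ (H : Type) [Group H] (j : H →* G), Function.Injective j → ∀ φ : H →* GN.MZ,
    (∀ g, φ g = 1 → BMainQ (ρ (j g))) → QQ R H

theorem BMain_comp {G H A : Type} [Group G] [Group H] [Ring A] {ρ : G →* A} (h : BMainHyp R ρ)
    (j : H →* G) (hj : Function.Injective j) : BMainHyp R (ρ.comp j) :=
  fun K _ i hi φ hφ => h K (j.comp i) (hj.comp hi) φ hφ

theorem BMain_nil {A : Type} [Ring A] {x : A} (h : IsNilpotent (x - 1)) (k : ℕ) :
    IsNilpotent (x ^ k - 1) := by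
  rw [← mul_geom_sum]
  refine Commute.isNilpotent_mul_right ?_ h
  exact Commute.sum_right _ _ _ fun i _ =>
    ((Commute.refl x).sub_left (Commute.one_left x)).pow_right i

theorem BMain_pw {V W : Type} [AddCommGroup V] [Module ℚ V] [AddCommGroup W] [Module ℚ W]
    (i : V →ₗ[ℚ] W) (A : Module.End ℚ V) (B : Module.End ℚ W) (h : ∀ u, i (A u) = B (i u))
    (k : ℕ) : ∀ u, i ((A ^ k) u) = (B ^ k) (i u) := by
  induction k with
  | zero => intro u; simp
  | succ k ih => intro u; rw [pow_succ, pow_succ, Module.End.mul_apply, Module.End.mul_apply, ih, h]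

theorem BMain_int {V W : Type} [AddCommGroup V] [Module ℚ V] [AddCommGroup W] [Module ℚ W]
    (i : V →ₗ[ℚ] W) (A : Module.End ℚ V) (B : Module.End ℚ W) (h : ∀ u, i (A u) = B (i u))
    (m a : ℕ) : ∀ u, i (((A ^ m - 1) ^ a) u) = ((B ^ m - 1) ^ a) (i u) := by
  refine BMain_pw i _ _ (fun u => ?_) a
  rw [LinearMap.sub_apply, LinearMap.sub_apply, map_sub, BMain_pw i A B h]
  rfl

theorem BMain_blk {V : Type} [AddCommGroup V] [Module ℚ V] (W : Submodule ℚ V)
    (A : Module.End ℚ V) (A₁ : Module.End ℚ W) (A₂ : Module.End ℚ (V ⧸ W))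
    (h₁ : ∀ u, W.subtype (A₁ u) = A (W.subtype u)) (h₂ : ∀ u, W.mkQ (A u) = A₂ (W.mkQ u))
    (q₁ : BMainQ A₁) (q₂ : BMainQ A₂) : BMainQ A := by
  obtain ⟨m₁, p₁, n₁⟩ := q₁
  obtain ⟨m₂, p₂, n₂⟩ := q₂
  have n₃ := BMain_nil n₁ m₂
  have n₄ := BMain_nil n₂ m₁
  rw [← pow_mul] at n₃ n₄
  rw [mul_comm] at n₄
  obtain ⟨a, ha⟩ := n₃
  obtain ⟨b, hb⟩ := n₄
  refine ⟨m₁ * m₂, Nat.mul_pos p₁ p₂, a + b, LinearMap.ext fun u => ?_⟩
  have e₂ := BMain_int W.mkQ A A₂ h₂ (m₁ * m₂) b u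
  rw [hb, LinearMap.zero_apply, Submodule.mkQ_apply, Submodule.Quotient.mk_eq_zero] at e₂
  have e₁ := BMain_int W.subtype A₁ A h₁ (m₁ * m₂) a ⟨_, e₂⟩
  rw [ha, LinearMap.zero_apply, map_zero] at e₁
  rw [pow_add, Module.End.mul_apply]
  exact e₁.symm

theorem BMain_tf (q : GN.MZ × GN.MZ) (hq : IsOfFinOrder q) : q = 1 := by
  have h : ∀ z : GN.MZ, IsOfFinOrder z → z = 1 := fun z hz => by
    obtain ⟨k, hk, e⟩ := isOfFinOrder_iff_pow_eq_one.1 hz
    have e' := congrArg Multiplicative.toAdd e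
    rw [toAdd_pow, toAdd_one, smul_eq_zero] at e'
    rcases e' with e' | e'
    · omega
    · exact e'
  exact Prod.ext (h _ ((MonoidHom.fst _ _).isOfFinOrder hq))
    (h _ ((MonoidHom.snd _ _).isOfFinOrder hq))

theorem BMain_red {d : ℕ}
    (ih : ∀ (V : Type) [AddCommGroup V] [Module ℚ V] [FiniteDimensional ℚ V],
      Module.finrank ℚ V ≤ d → ∀ (G : Type) [Group G] (ρ : G →* Module.End ℚ V),
        BMainHyp R ρ → QQ R G)
    {V : Type} [AddCommGroup V] [Module ℚ V] [FiniteDimensional ℚ V]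
    (hV : Module.finrank ℚ V ≤ d + 1) {H : Type} [Group H] (ρ : H →* Module.End ℚ V)
    (hρ : BMainHyp R ρ) (W : Submodule ℚ V) (hb : W ≠ ⊥) (ht : W ≠ ⊤)
    (hW : ∀ g, W ≤ W.comap (ρ g)) : QQ R H := by
  have d₁ : Module.finrank ℚ W ≤ d := by
    have := Submodule.finrank_lt ht
    omega
  have d₂ : Module.finrank ℚ (V ⧸ W) ≤ d := by
    have h1 := W.finrank_quotient_add_finrank
    have h2 : Module.finrank ℚ W ≠ 0 := fun e => hb (Submodule.finrank_eq_zero.1 e)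
    omega
  let ρ₁ : H →* Module.End ℚ W := Representation.subrepresentation ρ W hW
  let ρ₂ : H →* Module.End ℚ (V ⧸ W) := Representation.quotient ρ W hW
  refine ih W d₁ H ρ₁ fun H₁ _ j₁ i₁ φ₁ q₁ => ?_
  refine ih (V ⧸ W) d₂ H₁ (ρ₂.comp j₁) fun H₂ _ j₂ i₂ φ₂ q₂ => ?_
  refine PT.qq_abq' BMain_tf ((φ₁.comp j₂).prod φ₂) fun H₃ ψ hψ => ?_
  refine hρ H₃ (j₁.comp (j₂.comp H₃.subtype)) (i₁.comp (i₂.comp H₃.subtype_injective)) ψ
    fun g hg => ?_
  have e := hψ g hg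
  exact BMain_blk W _ (ρ₁ (j₁ (j₂ g))) (ρ₂ (j₁ (j₂ g))) (fun _ => rfl) (fun _ => rfl)
    (q₁ _ (congrArg Prod.fst e)) (q₂ _ (congrArg Prod.snd e))

theorem BMain_land {K : Type} [Group K] (hK : Group.FG K) {n : ℕ} (f : K →* GL (Fin n) ℚ) :
    ∃ F : Finset ℚ, ∀ Z : Subring ℚ, (∀ a ∈ F, a ∈ Z) → ∀ g, f g ∈ GLZ Z (Fin n) := by
  classical
  obtain ⟨S, hS⟩ := hK.out
  refine ⟨(S ×ˢ (Finset.univ : Finset (Fin n × Fin n))).image (fun p => (f p.1).val p.2.1 p.2.2) ∪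
    (S ×ˢ (Finset.univ : Finset (Fin n × Fin n))).image (fun p => (f p.1)⁻¹.val p.2.1 p.2.2),
    fun Z hZ g => ?_⟩
  have h : Subgroup.closure (S : Set K) ≤ (GLZ Z (Fin n)).comap f := by
    rw [Subgroup.closure_le]
    intro s hs
    refine ⟨fun i j => hZ _ (Finset.mem_union_left _ ?_),
      fun i j => hZ _ (Finset.mem_union_right _ ?_)⟩
    · exact Finset.mem_image.2 ⟨(s, i, j), Finset.mem_product.2 ⟨hs, Finset.mem_univ _⟩, rfl⟩
    · exact Finset.mem_image.2 ⟨(s, i, j), Finset.mem_product.2 ⟨hs, Finset.mem_univ _⟩, rfl⟩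
  rw [hS] at h
  exact h (Subgroup.mem_top g)

theorem BMain_ind (hF : FlowStmt R) (hP : PackStmt) (d : ℕ) :
    ∀ (V : Type) [AddCommGroup V] [Module ℚ V] [FiniteDimensional ℚ V],
      Module.finrank ℚ V ≤ d → ∀ (G : Type) [Group G] (ρ : G →* Module.End ℚ V),
        BMainHyp R ρ → QQ R G := by
  have z : ∀ (V : Type) [AddCommGroup V] [Module ℚ V] [FiniteDimensional ℚ V],
      Module.finrank ℚ V = 0 → ∀ (G : Type) [Group G] (ρ : G →* Module.End ℚ V),
        BMainHyp R ρ → QQ R G := by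
    intro V _ _ _ hV G _ ρ hρ
    have : Subsingleton V := Module.finrank_zero_iff.1 hV
    exact hρ G (MonoidHom.id G) Function.injective_id 1 fun g _ =>
      ⟨1, one_pos, 1, LinearMap.ext fun u => Subsingleton.elim _ _⟩
  induction d with
  | zero => intro V _ _ _ hV; exact z V (Nat.le_zero.1 hV)
  | succ d ih =>
    intro V _ _ _ hV G _ ρ₀ hρ₀
    rcases Nat.eq_zero_or_pos (Module.finrank ℚ V) with h0 | h0
    · exact z V h0 G ρ₀ hρ₀
    obtain ⟨n, hn⟩ : ∃ n, Module.finrank ℚ V = n + 1 := ⟨_, (Nat.succ_pred_eq_of_pos h0).symm⟩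
    refine PT.qq_loc fun K hK => ?_
    have hρ := BMain_comp hρ₀ K.subtype K.subtype_injective
    generalize ρ₀.comp K.subtype = ρ at hρ
    let b : Module.Basis (Fin (n + 1)) ℚ V := Module.finBasisOfFinrankEq ℚ V hn
    let e := LinearMap.toMatrixAlgEquiv b
    let f₀ : K →* GL (Fin (n + 1)) ℚ :=
      ((e : Module.End ℚ V →* Matrix (Fin (n + 1)) (Fin (n + 1)) ℚ).comp ρ).toHomUnits
    have hf₀ : ∀ g, (f₀ g).val = e (ρ g) := fun g => rfl
    obtain ⟨F, hFZ⟩ := BMain_land ((Group.fg_iff_subgroup_fg K).2 hK) f₀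
    obtain ⟨Z, hZ, hpk⟩ := hP n F
    let f : K →* GLZ Z (Fin (n + 1)) × GN.MZ := (f₀.codRestrict _ (hFZ Z hZ)).prod 1
    have hf : ∀ g, (f g).1.1.val = e (ρ g) := fun g => rfl
    refine hF _ K _ hpk f (fun B φ hφ => ?_) (fun B hB => ?_)
    · let r : B.comap f →* B := (f.comp (B.comap f).subtype).codRestrict B fun g => g.2
      refine hρ _ (B.comap f).subtype (B.comap f).subtype_injective (φ.comp r) fun g hg => ?_
      obtain ⟨k, hk, ek⟩ := isOfFinOrder_iff_pow_eq_one.1 (hφ _ hg)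
      have e1 : f (g.1 ^ k) = 1 := by
        rw [map_pow]
        exact congrArg Subtype.val ek
      have e2 : e (ρ (g.1 ^ k)) = e 1 := by
        rw [← hf, e1, map_one]
        rfl
      refine ⟨k, hk, ?_⟩
      have e3 := e.injective e2
      rw [map_pow] at e3
      change IsNilpotent (ρ g.1 ^ k - 1)
      rw [e3, sub_self]
      exact IsNilpotent.zero
    · obtain ⟨W₀, hb, ht, hW⟩ := hB
      refine BMain_red ih hV (ρ.comp (B.comap f).subtype)
        (BMain_comp hρ _ (B.comap f).subtype_injective)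
        (W₀.comap (b.equivFun : V →ₗ[ℚ] (Fin (n + 1) → ℚ))) ?_ ?_ ?_
      · intro h
        apply hb
        rw [eq_bot_iff] at h ⊢
        intro u hu
        have : b.equivFun.symm u ∈ W₀.comap (b.equivFun : V →ₗ[ℚ] (Fin (n + 1) → ℚ)) := by
          change b.equivFun (b.equivFun.symm u) ∈ W₀
          rwa [LinearEquiv.apply_symm_apply]
        have h2 := h this
        rw [Submodule.mem_bot] at h2 ⊢
        exact b.equivFun.symm.map_eq_zero_iff.1 h2
      · intro h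
        apply ht
        rw [eq_top_iff] at h ⊢
        intro u _
        have h2 : b.equivFun (b.equivFun.symm u) ∈ W₀ :=
          h (Submodule.mem_top (x := b.equivFun.symm u))
        rwa [LinearEquiv.apply_symm_apply] at h2
      · intro g u hu
        have h1 := hW (f g.1) g.2 _ hu
        rw [hf] at h1
        have h2 : e (ρ g.1) *ᵥ b.repr u = b.repr (ρ g.1 u) :=
          LinearMap.toMatrix_mulVec_repr b b _ u
        change b.equivFun (ρ g.1 u) ∈ W₀
        rw [Module.Basis.equivFun_apply, ← h2]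
        exact h1

theorem qq_glQ_of (hF : FlowStmt R) (hP : PackStmt) {G : Type} [Group G] {n : ℕ}
    (f : G →* GL (Fin n) ℚ)
    (h : ∀ (H : Subgroup G) (φ : H →* GN.MZ), (∀ g : H, φ g = 1 → QU (f g).val) → QQ R H) :
    QQ R G := by
  let e : Matrix (Fin n) (Fin n) ℚ ≃ₐ[ℚ] Module.End ℚ (Fin n → ℚ) := Matrix.toLinAlgEquiv'
  let ρ : G →* Module.End ℚ (Fin n → ℚ) :=
    (e : Matrix (Fin n) (Fin n) ℚ →* Module.End ℚ (Fin n → ℚ)).comp ((Units.coeHom _).comp f)
  refine BMain_ind hF hP _ (Fin n → ℚ) le_rfl G ρ fun H _ j hj φ hφ => ?_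
  let t := MonoidHom.ofInjective hj
  refine QQ.sub (h j.range (φ.comp t.symm.toMonoidHom) fun g hg => ?_) t.toMonoidHom t.injective
  obtain ⟨m, hm, hn⟩ := hφ _ hg
  refine ⟨m, hm, ?_⟩
  have e1 : j (t.symm g) = g.1 := MonoidHom.apply_ofInjective_symm hj g
  have e2 : ρ (j (t.symm.toMonoidHom g)) ^ m - 1 = e ((f g).val ^ m - 1) := by
    rw [map_sub, map_pow, map_one]
    change e (f (j (t.symm g))).val ^ m - 1 = _
    rw [e1]
  rw [e2] at hn
  exact (IsNilpotent.map_iff e.injective).1 hn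

end Pool.Agent.MP_f7db47_al.GF
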