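import Pool.Agent.MP_f7db47_al.GF.DF

/-!
Polynomial covering numbers.
-/

namespace Pool.Agent.MP_f7db47_al.GF

open Metric

theorem Cov.subset {P : Type} [PseudoMetricSpace P] {s t : Set P} {m : ℕ} (h : Cov s m)
    (ht : t ⊆ s) : Cov t m := by
  obtain ⟨A, hA⟩ := h
  refine ⟨A, fun ε h0 h1 => ?_⟩
  obtain ⟨E, hE, hc⟩ := hA ε h0 h1
  exact ⟨E, hE, fun x hx => hc x (ht hx)⟩

theorem Cov.mono {P : Type} [PseudoMetricSpace P] {s : Set P} {m m' : ℕ} (h : Cov s m)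
    (hm : m ≤ m') : Cov s m' := by
  obtain ⟨A, hA⟩ := h
  refine ⟨A, fun ε h0 h1 => ?_⟩
  obtain ⟨E, hE, hc⟩ := hA ε h0 h1
  exact ⟨E, (mul_le_mul_of_nonneg_left (pow_le_pow_of_le_one h0.le h1 hm)
    (Nat.cast_nonneg _)).trans hE, hc⟩

theorem Cov.image {P Q : Type} [PseudoMetricSpace P] [PseudoMetricSpace Q] {s : Set P} {m : ℕ}
    (h : Cov s m) (f : P → Q) (A : ℝ) (hf : ∀ x ∈ s, ∀ y ∈ s, dist (f x) (f y) ≤ A * dist x y) :
    Cov (f '' s) m := by
  classical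
  obtain ⟨A₀, hA⟩ := h
  have hB : (1 : ℝ) ≤ max A 1 := le_max_right _ _
  have hB2 : (0 : ℝ) < 2 * max A 1 := by linarith
  refine ⟨A₀ * (2 * max A 1) ^ m, fun ε h0 h1 => ?_⟩
  obtain ⟨E, hE, hc⟩ := hA (ε / (2 * max A 1)) (div_pos h0 hB2)
    ((div_le_one hB2).2 (by linarith))
  have key : ∀ e : P, ∃ y : P, (∃ x ∈ s, dist x e ≤ ε / (2 * max A 1)) →
      y ∈ s ∧ dist y e ≤ ε / (2 * max A 1) := fun e => by
    by_cases he : ∃ x ∈ s, dist x e ≤ ε / (2 * max A 1)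
    · exact ⟨he.choose, fun _ => he.choose_spec⟩
    · exact ⟨e, fun h => (he h).elim⟩
  choose c hcs using key
  refine ⟨E.image fun e => f (c e), ?_, ?_⟩
  · have h2 : ε ^ m = (ε / (2 * max A 1)) ^ m * (2 * max A 1) ^ m := by
      rw [← mul_pow, div_mul_cancel₀ _ hB2.ne']
    calc ((E.image fun e => f (c e)).card : ℝ) * ε ^ m ≤ E.card * ε ^ m :=
          mul_le_mul_of_nonneg_right (Nat.cast_le.2 Finset.card_image_le) (pow_nonneg h0.le _)
      _ ≤ _ := by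
          rw [h2, ← mul_assoc]
          exact mul_le_mul_of_nonneg_right hE (pow_nonneg hB2.le _)
  · rintro _ ⟨x, hx, rfl⟩
    obtain ⟨e, he, hd⟩ := hc x hx
    obtain ⟨h2, h3⟩ := hcs e ⟨x, hx, hd⟩
    refine ⟨f (c e), Finset.mem_image_of_mem _ he, (hf x hx _ h2).trans ?_⟩
    have h4 : dist x (c e) ≤ 2 * (ε / (2 * max A 1)) := by
      linarith [dist_triangle_right x (c e) e]
    calc A * dist x (c e) ≤ max A 1 * (2 * (ε / (2 * max A 1))) :=
          mul_le_mul (le_max_left _ _) h4 dist_nonneg (by linarith)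
      _ = ε := by field_simp

theorem Cov.prod {P Q : Type} [PseudoMetricSpace P] [PseudoMetricSpace Q] {s : Set P} {t : Set Q}
    {m m' : ℕ} (h : Cov s m) (h' : Cov t m') : Cov (s ×ˢ t) (m + m') := by
  obtain ⟨A, hA⟩ := h
  obtain ⟨A', hA'⟩ := h'
  refine ⟨A * A', fun ε h0 h1 => ?_⟩
  obtain ⟨E, hE, hc⟩ := hA ε h0 h1
  obtain ⟨E', hE', hc'⟩ := hA' ε h0 h1
  refine ⟨E ×ˢ E', ?_, fun x hx => ?_⟩
  · rw [Finset.card_product, Nat.cast_mul, pow_add, mul_mul_mul_comm]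
    exact mul_le_mul hE hE' (by positivity) (le_trans (by positivity) hE)
  · obtain ⟨e, he, hd⟩ := hc x.1 hx.1
    obtain ⟨e', he', hd'⟩ := hc' x.2 hx.2
    exact ⟨(e, e'), Finset.mem_product.2 ⟨he, he'⟩, max_le hd hd'⟩

theorem Cov.pi {J : Type} [Fintype J] {P : J → Type} [∀ j, PseudoMetricSpace (P j)]
    {s : ∀ j, Set (P j)} {m : J → ℕ} (h : ∀ j, Cov (s j) (m j)) :
    Cov (Set.univ.pi s) (∑ j, m j) := by
  classical
  choose A hA using h
  refine ⟨∏ j, A j, fun ε h0 h1 => ?_⟩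
  choose E hE hc using fun j => hA j ε h0 h1
  refine ⟨Fintype.piFinset E, ?_, fun x hx => ?_⟩
  · rw [Fintype.card_piFinset, Nat.cast_prod, ← Finset.prod_pow_eq_pow_sum,
      ← Finset.prod_mul_distrib]
    exact Finset.prod_le_prod (fun j _ => by positivity) fun j _ => hE j
  · choose e he hd using fun j => hc j (x j) (hx j trivial)
    exact ⟨e, Fintype.mem_piFinset.2 he, (dist_pi_le_iff h0.le).2 hd⟩

theorem cov_real (r : ℝ) : Cov (closedBall (0 : ℝ) r) 1 := by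
  classical
  refine ⟨2 * |r| + 5, fun ε h0 h1 => ?_⟩
  have hq : 0 ≤ |r| / ε := by positivity
  have h2 := Nat.le_ceil (|r| / ε)
  have h3 := Nat.ceil_lt_add_one hq
  set N := ⌈|r| / ε⌉₊
  refine ⟨(Finset.Icc (-(N + 1 : ℤ)) (N + 1)).image fun j : ℤ => ε * j, ?_, fun x hx => ?_⟩
  · have h4 : ((Finset.Icc (-(N + 1 : ℤ)) (N + 1)).image fun j : ℤ => ε * j).card ≤ 2 * N + 3 := by
      refine Finset.card_image_le.trans ?_
      rw [Int.card_Icc]
      omega
    have h5 : (N : ℝ) * ε ≤ |r| + ε := by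
      have := mul_le_mul_of_nonneg_right h3.le h0.le
      rwa [add_mul, div_mul_cancel₀ _ h0.ne', one_mul] at this
    have h6 := mul_le_mul_of_nonneg_right ((Nat.cast_le (α := ℝ)).2 h4) h0.le
    push_cast at h6
    rw [pow_one]
    nlinarith
  · have h4 : |x / ε| ≤ N := by
      rw [abs_div, abs_of_pos h0]
      refine (div_le_div_of_nonneg_right ?_ h0.le).trans h2
      exact (show |x| ≤ r by simpa using hx).trans (le_abs_self r)
    have h5 := abs_le.1 h4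
    have h6 := Int.floor_le (x / ε)
    have h7 := Int.lt_floor_add_one (x / ε)
    refine ⟨ε * ⌊x / ε⌋, Finset.mem_image_of_mem _ (Finset.mem_Icc.2 ⟨?_, ?_⟩), ?_⟩
    · rw [← Int.cast_le (R := ℝ)]
      push_cast
      linarith [h5.1]
    · rw [← Int.cast_le (R := ℝ)]
      push_cast
      linarith [h5.2]
    · have h8 : x = ε * (x / ε) := by field_simp
      rw [Real.dist_eq, abs_le]
      constructor <;> nlinarith

theorem cov_padic (p : ℕ) [Fact p.Prime] (r : ℝ) : Cov (closedBall (0 : ℚ_[p]) r) 1 := by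
  classical
  have hp : (1 : ℝ) < p := Nat.one_lt_cast.2 (Fact.out : p.Prime).one_lt
  have hp0 : (0 : ℝ) < p := by linarith
  obtain ⟨s, hs⟩ := pow_unbounded_of_one_lt r hp
  refine ⟨(p : ℝ) ^ (s + 1), fun ε h0 h1 => ?_⟩
  obtain ⟨n, h2, h3⟩ := exists_nat_pow_near ((one_le_inv₀ h0).2 h1) hp
  refine ⟨(Finset.range (p ^ (s + (n + 1)))).image fun j : ℕ => (j : ℚ_[p]) / p ^ s, ?_,
    fun x hx => ?_⟩
  · have h4 := (Nat.cast_le (α := ℝ)).2 ((Finset.card_image_le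
      (f := fun j : ℕ => (j : ℚ_[p]) / p ^ s)).trans (Finset.card_range (p ^ (s + (n + 1)))).le)
    have h5 : (p : ℝ) ^ n * ε ≤ 1 := by
      rw [← inv_mul_cancel₀ h0.ne']
      exact mul_le_mul_of_nonneg_right h2 h0.le
    rw [pow_one]
    refine (mul_le_mul_of_nonneg_right h4 h0.le).trans ?_
    rw [Nat.cast_pow, show s + (n + 1) = s + 1 + n by ring, pow_add _ (s + 1), mul_assoc]
    exact mul_le_of_le_one_right (by positivity) h5
  · have hn : ‖(p : ℚ_[p]) ^ s‖ = ((p : ℝ) ^ s)⁻¹ := by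
      rw [norm_pow, Padic.norm_p, inv_pow]
    have hx' : ‖x‖ ≤ (p : ℝ) ^ s := (mem_closedBall_zero_iff.1 hx).trans hs.le
    have h4 : ‖(p : ℚ_[p]) ^ s * x‖ ≤ 1 := by
      rw [norm_mul, hn, inv_mul_le_iff₀ (by positivity), mul_one]
      exact hx'
    let z : ℤ_[p] := ⟨_, h4⟩
    have h5 := (PadicInt.norm_le_pow_iff_mem_span_pow _ _).2 (PadicInt.appr_spec (s + (n + 1)) z)
    refine ⟨_, Finset.mem_image_of_mem _ (Finset.mem_range.2 (PadicInt.appr_lt z (s + (n + 1)))),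
      ?_⟩
    have h6 : (p : ℚ_[p]) ^ s ≠ 0 :=
      pow_ne_zero _ (Nat.cast_ne_zero.2 (Fact.out : p.Prime).ne_zero)
    have h7 : x - (z.appr (s + (n + 1)) : ℚ_[p]) / p ^ s =
        ((z - z.appr (s + (n + 1)) : ℤ_[p]) : ℚ_[p]) / p ^ s := by
      push_cast
      rw [sub_div, show (z : ℚ_[p]) = p ^ s * x from rfl, mul_div_cancel_left₀ _ h6]
    rw [dist_eq_norm, h7, norm_div, hn, div_inv_eq_mul, ← PadicInt.norm_def]
    refine (mul_le_mul_of_nonneg_right h5 (by positivity)).trans ?_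
    rw [zpow_neg, zpow_natCast, pow_add, mul_inv, mul_right_comm, inv_mul_cancel₀ (by positivity),
      one_mul]
    exact inv_le_of_inv_le₀ h0 h3.le

end Pool.Agent.MP_f7db47_al.GF
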