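import Pool.Agent.MP_f7db47_al.GF.FLine
import Pool.Agent.MP_f7db47_al.GF.FCov

/-!
The flow space of lines.
-/

namespace Pool.Agent.MP_f7db47_al.GF

open Metric

/-- The lines of speed at most one. -/
def FFlow_Y (S : Sp) : Type := {c : ℝ → S.X // c ∈ S.L ∧ dist (c 0) (c 1) ≤ 1}

/-- The weighted distance of two lines. -/
noncomputable def FFlow_d {S : Sp} (κ : ℝ) (c c' : FFlow_Y S) : ℝ :=
  ⨆ t : ℝ, Real.exp (-(κ * |t|)) * dist (c.1 t) (c'.1 t)

theorem FFlow_spd {S : Sp} (h : S.Geo) (c : FFlow_Y S) (s t : ℝ) :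
    dist (c.1 s) (c.1 t) ≤ |s - t| := by
  rw [h.speed c.2.1]
  exact mul_le_of_le_one_right (abs_nonneg _) c.2.2

theorem FFlow_iff {κ r x t : ℝ} :
    Real.exp (-(κ * |t|)) * x ≤ r ↔ x ≤ r * Real.exp (κ * |t|) := by
  rw [Real.exp_neg, inv_mul_le_iff₀ (Real.exp_pos _), mul_comm]

theorem FFlow_one {κ : ℝ} (hκ : 0 < κ) (t : ℝ) : 1 ≤ Real.exp (κ * |t|) :=
  Real.one_le_exp (mul_nonneg hκ.le (abs_nonneg t))

theorem FFlow_bdd {S : Sp} (h : S.Geo) {κ : ℝ} (hκ : 0 < κ) (c c' : FFlow_Y S) :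
    BddAbove (Set.range fun t : ℝ => Real.exp (-(κ * |t|)) * dist (c.1 t) (c'.1 t)) := by
  refine ⟨dist (c.1 0) (c'.1 0) + 2 / κ, ?_⟩
  rintro _ ⟨t, rfl⟩
  refine FFlow_iff.mpr ?_
  have h1 := FFlow_spd h c t 0
  have h2 := FFlow_spd h c' 0 t
  rw [sub_zero] at h1
  rw [zero_sub, abs_neg] at h2
  have h3 := dist_triangle4 (c.1 t) (c.1 0) (c'.1 0) (c'.1 t)
  have h4 := FFlow_one hκ t
  have h5 : κ * |t| ≤ Real.exp (κ * |t|) := by linarith [Real.add_one_le_exp (κ * |t|)]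
  have h6 : 2 * |t| ≤ 2 / κ * Real.exp (κ * |t|) := by
    rw [div_mul_eq_mul_div, le_div_iff₀ hκ]
    nlinarith
  have h7 : dist (c.1 0) (c'.1 0) ≤ dist (c.1 0) (c'.1 0) * Real.exp (κ * |t|) :=
    le_mul_of_one_le_right dist_nonneg h4
  rw [add_mul]
  linarith

theorem FFlow_le {S : Sp} (h : S.Geo) {κ : ℝ} (hκ : 0 < κ) (c c' : FFlow_Y S) (r : ℝ) :
    FFlow_d κ c c' ≤ r ↔ ∀ t, dist (c.1 t) (c'.1 t) ≤ r * Real.exp (κ * |t|) := by
  unfold FFlow_d
  rw [ciSup_le_iff (FFlow_bdd h hκ c c')]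
  exact forall_congr' fun t => FFlow_iff

theorem FFlow_pt {S : Sp} (h : S.Geo) {κ : ℝ} (hκ : 0 < κ) (c c' : FFlow_Y S) (t : ℝ) :
    dist (c.1 t) (c'.1 t) ≤ FFlow_d κ c c' * Real.exp (κ * |t|) :=
  (FFlow_le h hκ c c' _).mp le_rfl t

theorem FFlow_zero {S : Sp} (h : S.Geo) {κ : ℝ} (hκ : 0 < κ) (c c' : FFlow_Y S) :
    dist (c.1 0) (c'.1 0) ≤ FFlow_d κ c c' := by
  simpa using FFlow_pt h hκ c c' 0

/-- The metric on the space of lines. -/
@[reducible] noncomputable def FFlow_met {S : Sp} (h : S.Geo) {κ : ℝ} (hκ : 0 < κ) :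
    MetricSpace (FFlow_Y S) where
  dist := FFlow_d κ
  dist_self c := le_antisymm ((FFlow_le h hκ c c 0).mpr fun t => by simp)
    (dist_nonneg.trans (FFlow_zero h hκ c c))
  dist_comm c c' := by
    unfold FFlow_d
    simp only [dist_comm]
  dist_triangle c c' c'' := (FFlow_le h hκ c c'' _).mpr fun t => by
    rw [add_mul]
    exact (dist_triangle _ (c'.1 t) _).trans
      (add_le_add (FFlow_pt h hκ c c' t) (FFlow_pt h hκ c' c'' t))
  eq_of_dist_eq_zero := fun {c c'} e => Subtype.ext (funext fun t => by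
    have h1 := FFlow_pt h hκ c c' t
    rw [show FFlow_d κ c c' = 0 from e, zero_mul] at h1
    exact dist_le_zero.mp h1)

/-- The action on the space of lines. -/
@[reducible] def FFlow_act {Γ : Type} [Group Γ] {S : Sp} (A : Act Γ S) :
    MulAction Γ (FFlow_Y S) where
  smul γ c := ⟨fun t => A.ρ γ (c.1 t), A.line γ _ c.2.1, by rw [A.iso]; exact c.2.2⟩
  one_smul c := Subtype.ext (funext fun t => by
    show A.ρ 1 (c.1 t) = c.1 t
    rw [map_one]
    rfl)
  mul_smul a b c := Subtype.ext (funext fun t => by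
    show A.ρ (a * b) (c.1 t) = A.ρ a (A.ρ b (c.1 t))
    rw [map_mul]
    rfl)

/-- The shift of a line. -/
def FFlow_sh {S : Sp} (h : S.Geo) (s : ℝ) (c : FFlow_Y S) : FFlow_Y S :=
  ⟨fun t => c.1 (t + s), by simpa using h.aff _ c.2.1 1 s, by
    simpa using FFlow_spd h c (0 + s) (1 + s)⟩

theorem FFlow_ball {S : Sp} (h : S.Geo) {κ : ℝ} (hκ : 0 < κ) {m : ℕ} (hp : S.Par κ m)
    (y : FFlow_Y S) (r : ℝ) :
    letI := FFlow_met h hκ
    IsCompact (closedBall y r) ∧ Cov (closedBall y r) m := by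
  classical
  let _ := FFlow_met h hκ
  obtain ⟨P, _, s, π, A, h1, h2, h3, h4, h5⟩ := hp (r + dist (y.1 0) S.o)
  let f : P → FFlow_Y S := fun p => if hp : p ∈ s then ⟨π p, h3 p hp⟩ else y
  have hf : ∀ p ∈ s, ∀ p' ∈ s, dist (f p) (f p') ≤ A * dist p p' := fun p hp p' hp' => by
    simp only [f, dif_pos hp, dif_pos hp']
    exact (FFlow_le h hκ _ _ _).mpr fun t => h4 p hp p' hp' t
  have hs : closedBall y r ⊆ f '' s := fun c hc => by
    have h6 : dist (c.1 0) (y.1 0) ≤ r := (FFlow_zero h hκ c y).trans (mem_closedBall.mp hc)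
    obtain ⟨p, hp, e⟩ := h5 c.1 c.2.1
      ((dist_triangle _ (y.1 0) _).trans (add_le_add h6 le_rfl)) c.2.2
    refine ⟨p, hp, ?_⟩
    simp only [f, dif_pos hp]
    exact Subtype.ext e
  have hc : ContinuousOn f s :=
    (LipschitzOnWith.of_dist_le' (K := A) hf).continuousOn
  exact ⟨(h1.image_of_continuousOn hc).of_isClosed_subset isClosed_closedBall hs,
    (h2.image f A hf).subset hs⟩

theorem exists_flow {Γ : Type} [Group Γ] {S : Sp} (hS : S.Good) (A : Act Γ S) :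
    ∃ (Y : Type) (_ : MetricSpace Y) (_ : MulAction Γ Y) (F : Flow Γ Y) (ev : Y → ℝ → S.X),
      Ev A F ev := by
  obtain ⟨κ, m, hκ, hp⟩ := hS.par
  have h := hS.geo
  let _ := FFlow_met h hκ
  let _ := FFlow_act A
  have hle : ∀ (c c' : FFlow_Y S) (r : ℝ), dist c c' ≤ r ↔
      ∀ t, dist (c.1 t) (c'.1 t) ≤ r * Real.exp (κ * |t|) := FFlow_le h hκ
  have hsm : ∀ (γ : Γ) (c : FFlow_Y S) (t : ℝ), (γ • c).1 t = A.ρ γ (c.1 t) := fun _ _ _ => rfl
  refine ⟨FFlow_Y S, inferInstance, inferInstance,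
    { Φ := FFlow_sh h
      κ := κ
      m := m
      hκ := hκ.le
      zero := fun y => Subtype.ext (funext fun t => congrArg y.1 (add_zero t))
      add := fun s t y => Subtype.ext (funext fun u => congrArg y.1 (add_assoc u s t).symm)
      smul := fun γ s y => rfl
      iso := fun γ y y' => ?_
      lip := fun s y y' => (hle _ _ _).mpr fun t => ?_
      spd := fun s t y => (hle _ _ _).mpr fun u => ?_
      prp := fun y r => ?_
      cpt := fun y r => (FFlow_ball h hκ hp y r).1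
      cov := fun y r => (FFlow_ball h hκ hp y r).2 }, fun c => c.1,
    ⟨hκ, fun y => y.2, fun c h1 h2 => ⟨⟨c, h1, h2⟩, rfl⟩, fun _ _ _ => rfl, hsm, hle⟩⟩
  · show FFlow_d κ _ _ = FFlow_d κ _ _
    unfold FFlow_d
    simp only [hsm, A.iso]
  · have h1 := (hle y y' _).mp le_rfl (t + s)
    have h2 : Real.exp (κ * |t + s|) ≤ Real.exp (κ * |s|) * Real.exp (κ * |t|) := by
      rw [← Real.exp_add, Real.exp_le_exp, ← mul_add, add_comm |s|]
      exact mul_le_mul_of_nonneg_left (abs_add_le t s) hκ.le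
    refine h1.trans ((mul_le_mul_of_nonneg_left h2 dist_nonneg).trans_eq ?_)
    ring
  · have h1 := FFlow_spd h y (u + s) (u + t)
    rw [add_sub_add_left_eq_sub] at h1
    exact h1.trans (le_mul_of_one_le_right (abs_nonneg _) (FFlow_one hκ u))
  · refine (A.prp (r + 2 * dist (y.1 0) S.o)).subset fun γ hγ => ?_
    have h1 : dist (A.ρ γ (y.1 0)) (y.1 0) ≤ r := (FFlow_zero h hκ (γ • y) y).trans hγ
    have h2 := dist_triangle4 (A.ρ γ S.o) (A.ρ γ (y.1 0)) (y.1 0) S.o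
    rw [A.iso, dist_comm S.o] at h2
    show dist (A.ρ γ S.o) S.o ≤ _
    linarith

end Pool.Agent.MP_f7db47_al.GF
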