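import Pool.Agent.MP_f7db47_al.GF.FHa

/-!
Control of the homotopy action over the flow space.
-/

namespace Pool.Agent.MP_f7db47_al.GF

open Metric

theorem FHb_lip {S : Sp} (h : S.Geo) {r : ℝ} (hr : 0 < r) (L : ℝ) {y : S.X}
    (hy : y ∈ closedBall S.o r) (s t : ℝ) :
    dist (h.ctl r L y s) (h.ctl r L y t) ≤ |s - t| := by
  obtain ⟨hm, hs⟩ := h.ctl_mem hr L hy
  rw [h.speed hm s t]
  exact mul_le_of_le_one_right (abs_nonneg _) hs

theorem FHb_exp {κ ε t : ℝ} (hκ : 0 < κ) (hε : 0 < ε) (ht : 4 / (ε * κ ^ 2) ≤ |t|) :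
    ε + 2 * |t| ≤ 2 * ε * Real.exp (κ * |t|) := by
  have h0 : 0 ≤ κ * |t| := by positivity
  have h1 := Real.quadratic_le_exp_of_nonneg h0
  have h2 : 4 ≤ |t| * (ε * κ ^ 2) := by
    rwa [div_le_iff₀ (by positivity)] at ht
  have h3 : 0 ≤ |t| := abs_nonneg t
  have h4 : ε * (1 + κ * |t| + (κ * |t|) ^ 2 / 2) ≤ ε * Real.exp (κ * |t|) :=
    mul_le_mul_of_nonneg_left h1 hε.le
  have h5 : 4 * |t| ≤ |t| * (ε * κ ^ 2) * |t| := mul_le_mul_of_nonneg_right h2 h3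
  have h6 : 0 ≤ ε * (κ * |t|) := by positivity
  nlinarith

theorem FHb_one {κ ε : ℝ} (hκ : 0 < κ) (hε : 0 < ε) (t : ℝ) :
    ε ≤ 2 * ε * Real.exp (κ * |t|) := by
  have h0 : 0 ≤ κ * |t| := by positivity
  have h1 : 1 ≤ Real.exp (κ * |t|) := Real.one_le_exp h0
  nlinarith

theorem FHb_tail {X : Type} [MetricSpace X] {a b : ℝ → X} {κ ε : ℝ} (hκ : 0 < κ) (hε : 0 < ε)
    (ha : ∀ t, dist (a t) (a 0) ≤ |t|) (hb : ∀ t, dist (b 0) (b t) ≤ |t|)
    (hab : ∀ t, |t| ≤ 4 / (ε * κ ^ 2) → dist (a t) (b t) ≤ ε) (t : ℝ) :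
    dist (a t) (b t) ≤ 2 * ε * Real.exp (κ * |t|) := by
  rcases le_total |t| (4 / (ε * κ ^ 2)) with ht | ht
  · exact (hab t ht).trans (FHb_one hκ hε t)
  · have h0 := hab 0 (by rw [abs_zero]; positivity)
    have h1 := dist_triangle4 (a t) (a 0) (b 0) (b t)
    have h2 := FHb_exp hκ hε ht
    linarith [ha t, hb t]

theorem FHb_lam {G : Type} [Group G] {μ : ℝ} (hμ : 0 ≤ μ) (g : G) :
    1 - μ ≤ lam μ g ∧ lam μ g ≤ 1 := by
  unfold lam
  split_ifs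
  · constructor <;> linarith
  · constructor <;> linarith

theorem FHb_core {S : Sp} (h : S.Geo) (o p q v : S.X) {C r l1 l2 T : ℝ} (τ : ℝ)
    (hp : dist p o ≤ C) (hq : dist q o ≤ C) (hv : dist q v ≤ r)
    (h10 : 0 ≤ l1) (h11 : l1 ≤ 1) (h20 : 0 ≤ l2) (h21 : l2 ≤ 1) (hT0 : 0 ≤ T) (hT1 : T ≤ 1) :
    dist (h.ln o (h.ln o (h.ln p v l1) l2) T) (h.ln q v τ) ≤
      3 * C * (1 - l1 * l2 * T) + |l1 * l2 * T - τ| * r := by
  have hC : 0 ≤ C := dist_nonneg.trans hp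
  have ha0 : 0 ≤ l2 * T := mul_nonneg h20 hT0
  have ha1 : l2 * T ≤ 1 := mul_le_one₀ h21 hT0 hT1
  have hb0 : 0 ≤ l1 * (l2 * T) := mul_nonneg h10 ha0
  have hb1 : l1 * (l2 * T) ≤ l2 * T := mul_le_of_le_one_left ha0 h11
  rw [h.ln_ln o _ l2 hT0 hT1]
  have e1 := h.ln_conv o (h.ln p v l1) p (h.ln p v l1) ha0 ha1
  rw [h.ln_ln p v l1 ha0 ha1, dist_self, mul_zero, add_zero, dist_comm o p] at e1
  have e2 := h.ln_conv p v q v hb0 (hb1.trans ha1)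
  rw [dist_self, mul_zero, add_zero] at e2
  have e3 := h.ln_dist q v (l1 * (l2 * T)) τ
  have e4 : dist p q ≤ 2 * C := by
    have := dist_triangle_right p q o
    linarith
  have e5 := dist_triangle4 (h.ln o (h.ln p v l1) (l2 * T)) (h.ln p v (l1 * (l2 * T)))
    (h.ln q v (l1 * (l2 * T))) (h.ln q v τ)
  have e6 : (1 - l2 * T) * dist p o ≤ (1 - l1 * (l2 * T)) * C :=
    mul_le_mul (by linarith) hp dist_nonneg (by linarith)
  have e7 : (1 - l1 * (l2 * T)) * dist p q ≤ (1 - l1 * (l2 * T)) * (2 * C) :=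
    mul_le_mul_of_nonneg_left e4 (by linarith)
  have e8 : |l1 * (l2 * T) - τ| * dist q v ≤ |l1 * (l2 * T) - τ| * r :=
    mul_le_mul_of_nonneg_left hv (abs_nonneg _)
  rw [mul_assoc l1 l2 T]
  linarith

theorem FHb_num {C r L L0 Λ ε : ℝ} (hC : 0 ≤ C) (hr : 0 < r) (hL0 : 0 ≤ L0)
    (hL : L = L0 + 8 * C) (hr1 : 2 * L ≤ r) (hr2 : 10 * C * L ≤ ε * r)
    (hΛ0 : 1 - 4 * C / r ≤ Λ) (hΛ1 : Λ ≤ 1) :
    ∃ s : ℝ, |s| ≤ 8 * C ∧ ∀ t, |t| ≤ L0 →
      0 ≤ (r - L + (t + s)) / r ∧ (r - L + (t + s)) / r ≤ 1 ∧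
      3 * C * (1 - Λ * ((r - L + (t + s)) / r)) +
        |Λ * ((r - L + (t + s)) / r) - (r - L + t) / r| * r ≤ ε := by
  have hd : (1 - Λ) * r ≤ 4 * C := by
    have : 1 - Λ ≤ 4 * C / r := by linarith
    rwa [le_div_iff₀ hr] at this
  have hhalf : 1 / 2 ≤ Λ := by
    by_contra hlt
    have hlt' : 1 / 2 < 1 - Λ := by linarith [not_le.mp hlt]
    have := mul_lt_mul_of_pos_right hlt' hr
    linarith
  have hΛ : 0 < Λ := by linarith
  have hrL : 0 ≤ r - L := by linarith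
  have hs0 : 0 ≤ (r - L) * (1 - Λ) / Λ := div_nonneg (mul_nonneg hrL (by linarith)) hΛ.le
  have hs1 : (r - L) * (1 - Λ) / Λ ≤ 8 * C := by
    rw [div_le_iff₀ hΛ]
    have a1 : (r - L) * (1 - Λ) ≤ r * (1 - Λ) :=
      mul_le_mul_of_nonneg_right (by linarith) (by linarith)
    have a2 : 8 * C * (1 / 2) ≤ 8 * C * Λ := mul_le_mul_of_nonneg_left hhalf (by linarith)
    linarith
  refine ⟨(r - L) * (1 - Λ) / Λ, by rwa [abs_of_nonneg hs0], fun t ht => ?_⟩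
  obtain ⟨ht0, ht1⟩ := abs_le.mp ht
  refine ⟨div_nonneg (by linarith) hr.le, by rw [div_le_one hr]; linarith, ?_⟩
  have e1 : Λ * ((r - L + (t + (r - L) * (1 - Λ) / Λ)) / r) = (r - L + Λ * t) / r := by
    field_simp
    ring
  have e2 : (r - L + Λ * t) / r - (r - L + t) / r = -((1 - Λ) * t) / r := by
    field_simp
    ring
  have e3 : |-((1 - Λ) * t) / r| * r = (1 - Λ) * |t| := by
    rw [abs_div, abs_neg, abs_mul, abs_of_pos hr, abs_of_nonneg (by linarith : 0 ≤ 1 - Λ),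
      div_mul_cancel₀ _ hr.ne']
  have e4 : 1 - (r - L + Λ * t) / r = (L - Λ * t) / r := by
    field_simp
    ring
  rw [e1, e2, e3, e4]
  have hLt : |t| ≤ L := by linarith
  have b1 : L - Λ * t ≤ 2 * L := by
    have c1 : Λ * (-t) ≤ Λ * L := mul_le_mul_of_nonneg_left (by linarith) hΛ.le
    have c2 : Λ * L ≤ L := mul_le_of_le_one_left (by linarith) hΛ1
    linarith
  have b2 : 3 * C * (L - Λ * t) ≤ 3 * C * (2 * L) := mul_le_mul_of_nonneg_left b1 (by linarith)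
  have b3 : (1 - Λ) * r * |t| ≤ 4 * C * L :=
    mul_le_mul hd hLt (abs_nonneg t) (by linarith)
  have b4 : 3 * C * ((L - Λ * t) / r) + (1 - Λ) * |t| =
      (3 * C * (L - Λ * t) + (1 - Λ) * r * |t|) / r := by
    field_simp
  rw [b4, div_le_iff₀ hr]
  linarith

theorem Sp.Geo.control {S : Sp} (h : S.Geo) {G : Type} [Group G] {ρ : G →* Equiv.Perm S.X}
    (hρ : S.Isom ρ) (S₀ : Finset G) {C κ ε : ℝ} (hC : 0 ≤ C) (hκ : 0 < κ) (hε : 0 < ε)
    (h1 : ∀ g ∈ S₀, dist (ρ g S.o) S.o ≤ C)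
    (h2 : ∀ g ∈ S₀, ∀ g' ∈ S₀, dist (ρ (g * g') S.o) S.o ≤ C) :
    ∃ (r : ℕ) (L : ℝ), 0 < r ∧ 2 * C ≤ r ∧
      (∀ x ∈ closedBall S.o r, ∀ y ∈ closedBall S.o r, dist x y ≤ ε →
        ∀ t, dist (h.ctl r L x t) (h.ctl r L y t) ≤ 2 * ε * Real.exp (κ * |t|)) ∧
      ∀ g ∈ S₀, ∀ g' ∈ S₀, ∀ u ∈ Set.Icc (0 : ℝ) 1, ∀ y ∈ closedBall S.o r, ∃ s : ℝ,
        |s| ≤ 8 * C ∧ ∀ t, dist (h.ctl r L (h.hom ρ (2 * C / r) g g' u y) (t + s))
          (ρ (g * g') (h.ctl r L y t)) ≤ 2 * ε * Real.exp (κ * |t|) := by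
  have hL0 : 0 < 4 / (ε * κ ^ 2) := by positivity
  obtain ⟨L, hL⟩ : ∃ L : ℝ, L = 4 / (ε * κ ^ 2) + 8 * C := ⟨_, rfl⟩
  have hLp : 0 < L := by linarith
  obtain ⟨r, hr⟩ := exists_nat_ge (2 * L + 10 * C * L / ε)
  have hq : 0 ≤ 10 * C * L / ε := by positivity
  have hr1 : 2 * L ≤ r := by linarith
  have hr0 : (0 : ℝ) < r := by linarith
  have hr2 : 10 * C * L ≤ ε * r := by
    have : 10 * C * L / ε ≤ r := by linarith
    rw [div_le_iff₀ hε] at this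
    linarith
  have hCr : 2 * C ≤ r := by linarith
  have hτ : ∀ t : ℝ, |t| ≤ 4 / (ε * κ ^ 2) →
      0 ≤ ((r : ℝ) - L + t) / r ∧ ((r : ℝ) - L + t) / r ≤ 1 := by
    intro t ht
    obtain ⟨ht0, ht1⟩ := abs_le.mp ht
    exact ⟨div_nonneg (by linarith) hr0.le, by rw [div_le_one hr0]; linarith⟩
  refine ⟨r, L, by exact_mod_cast hr0, hCr, ?_, ?_⟩
  · intro x hx y hy hxy
    refine FHb_tail hκ hε (fun t => ?_) (fun t => ?_) (fun t ht => ?_)
    · simpa using FHb_lip h hr0 L hx t 0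
    · simpa using FHb_lip h hr0 L hy 0 t
    · obtain ⟨a0, a1⟩ := hτ t ht
      have e1 := h.ln_conv S.o x S.o y a0 a1
      rw [dist_self, mul_zero, zero_add] at e1
      exact e1.trans ((mul_le_of_le_one_left dist_nonneg a1).trans hxy)
  · intro g hg g' hg' u hu y hy
    have hz := (h.hact hρ S₀ hC hr0 hCr h1 h2).maps g hg g' hg' u hu y hy
    have hμ0 : 0 ≤ 2 * C / r := by positivity
    have hμ1 : 2 * C / r ≤ 1 := by rwa [div_le_one hr0]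
    have hμ2 : 4 * C / r = 2 * (2 * C / r) := by ring
    obtain ⟨u0, u1⟩ := hu
    obtain ⟨la0, la1⟩ := FHb_lam hμ0 g
    obtain ⟨lb0, lb1⟩ := FHb_lam hμ0 g'
    obtain ⟨lc0, lc1⟩ := FHb_lam hμ0 (g * g')
    obtain ⟨l1, hl1⟩ : ∃ l1 : ℝ, l1 = 1 - u * (1 - lam (2 * C / r) g') := ⟨_, rfl⟩
    obtain ⟨l2, hl2⟩ : ∃ l2 : ℝ,
      l2 = (1 - u) * lam (2 * C / r) (g * g') + u * lam (2 * C / r) g := ⟨_, rfl⟩
    have p10 : 1 - 2 * C / r ≤ l1 := by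
      have : u * (1 - lam (2 * C / r) g') ≤ 1 - lam (2 * C / r) g' :=
        mul_le_of_le_one_left (by linarith) u1
      linarith
    have p11 : l1 ≤ 1 := by
      have : 0 ≤ u * (1 - lam (2 * C / r) g') := mul_nonneg u0 (by linarith)
      linarith
    have p20 : 1 - 2 * C / r ≤ l2 := by
      have a1 := mul_le_mul_of_nonneg_left lc0 (by linarith : 0 ≤ 1 - u)
      have a2 := mul_le_mul_of_nonneg_left la0 u0
      linarith
    have p21 : l2 ≤ 1 := by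
      have a1 := mul_le_mul_of_nonneg_left lc1 (by linarith : 0 ≤ 1 - u)
      have a2 := mul_le_mul_of_nonneg_left la1 u0
      linarith
    have q0 : 1 - 4 * C / r ≤ l1 * l2 := by
      have a1 : 0 ≤ (1 - l1) * (1 - l2) := mul_nonneg (by linarith) (by linarith)
      linarith
    have q1 : l1 * l2 ≤ 1 := mul_le_one₀ p11 (by linarith) p21
    obtain ⟨s, hs, hst⟩ := FHb_num hC hr0 hL0.le hL hr1 hr2 q0 q1
    refine ⟨s, hs, ?_⟩
    refine FHb_tail (a := fun t => h.ctl r L (h.hom ρ (2 * C / r) g g' u y) (t + s))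
      (b := fun t => ρ (g * g') (h.ctl r L y t)) hκ hε (fun t => ?_) (fun t => ?_)
      (fun t ht => ?_)
    · simpa using FHb_lip h hr0 L hz (t + s) (0 + s)
    · have := FHb_lip h hr0 L hy 0 t
      rw [← hρ.iso (g * g')] at this
      simpa using this
    · obtain ⟨a0, a1⟩ := hτ t ht
      obtain ⟨b0, b1, b2⟩ := hst t ht
      have hv : dist (ρ (g * g') S.o) (ρ (g * g') y) ≤ r := by
        rw [hρ.iso, dist_comm]
        exact hy
      have e1 := FHb_core h S.o (ρ g S.o) (ρ (g * g') S.o) (ρ (g * g') y)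
        (((r : ℝ) - L + t) / r) (h1 g hg) (h2 g hg g' hg') hv (by linarith) p11 (by linarith) p21
        b0 b1
      rw [← h.ln_smul hρ (g * g') S.o y a0 a1] at e1
      have e2 := e1.trans b2
      rw [hl1, hl2] at e2
      exact e2

end Pool.Agent.MP_f7db47_al.GF
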