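import Pool.Agent.MP_f7db47_al.GF.DF
import Pool.Agent.MP_f7db47_al.GN.CMain

/-!
The transfer from chain level data.
-/

set_option linter.unusedSectionVars false

namespace Pool.Agent.MP_f7db47_al.GF

open GN Matrix

universe v

variable {R : Type v} [Ring R]

section Tr

variable {G J V : Type} [Group G] [Fintype J] [DecidableEq J] [LinearOrder V]
  {r : J → G → J → Prop} {K : J → Finset V} {Adj : J → V → V → Prop}
  {φ : J → G → J → Finset V → (Finset V →₀ ℤ)}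
  {H : J → G → J → G → J → Finset V → (Finset V →₀ ℤ)} {a b : Matrix J J (MonoidAlgebra R G)}

lemma FTr2_chain (h0 : ∀ i g j, φ i g j ∅ = Finsupp.single ∅ 1)
    (hφ : ∀ i g j σ, r i g j → Clq (Adj j) (K j) σ → σ.Nonempty →
      Ch (Adj i) (K i) σ.card (φ i g j σ) ∧ bd (φ i g j σ) = lin (φ i g j) (bd1 σ))
    (ha : CMainR r a) :
    CMainB (MonoidAlgebra R G) (Subtype.val : CMainP K Adj → _) (Subtype.val : CMainP K Adj → _)
      (fun _ => bd1) * CMainT (Subtype.val : CMainP K Adj → _) (Subtype.val : CMainP K Adj → _) a φ =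
    CMainT (Subtype.val : CMainP K Adj → _) (Subtype.val : CMainP K Adj → _) a φ *
      CMainB (MonoidAlgebra R G) (Subtype.val : CMainP K Adj → _) (Subtype.val : CMainP K Adj → _)
        (fun _ => bd1) := by
  rw [CMainB_mul_T (CMain_sum_P _), CMainT_mul_B (CMain_sum_P _)]
  refine CMainT_congr ?_
  rintro _ g _ hg x y rfl rfl
  have hr := ha _ _ g hg
  obtain ⟨h1, h2⟩ := hφ _ g _ _ hr (CMain_P y).1 (CMain_P y).2
  rw [CMain_C_bd _ _ fun σ hσ => (h1 σ hσ).1, CMain_C_bd' _ (CMain_P y).1, h2, h0]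
  simp [(CMain_P x).2.ne_empty.symm]

lemma FTr2_aug (h0 : ∀ i g j, φ i g j ∅ = Finsupp.single ∅ 1)
    (hφ : ∀ i g j σ, r i g j → Clq (Adj j) (K j) σ → σ.Nonempty →
      Ch (Adj i) (K i) σ.card (φ i g j σ) ∧ bd (φ i g j σ) = lin (φ i g j) (bd1 σ))
    (ha : CMainR r a) :
    CMainB (MonoidAlgebra R G) (fun j => (j, (∅ : Finset V))) (Subtype.val : CMainP K Adj → _)
      (fun _ => bd1) * CMainT (Subtype.val : CMainP K Adj → _) (Subtype.val : CMainP K Adj → _) a φ =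
    a * CMainB (MonoidAlgebra R G) (fun j => (j, (∅ : Finset V))) (Subtype.val : CMainP K Adj → _)
        (fun _ => bd1) := by
  conv_rhs => rw [← CMainT_base (a := a) φ fun i g j => by simp [h0]]
  rw [CMainB_mul_T (CMain_sum_P _), CMainT_mul_B (CMain_sum_J _)]
  refine CMainT_congr ?_
  rintro _ g _ hg x y rfl rfl
  have hr := ha _ _ g hg
  obtain ⟨h1, h2⟩ := hφ _ g _ _ hr (CMain_P y).1 (CMain_P y).2
  rw [CMain_C_bd _ _ fun σ hσ => (h1 σ hσ).1, h2,
    ← sub_add_cancel (lin _ _) (bd1 y.1.2 ∅ • φ x g y.1.1 ∅), ← CMain_C_bd' _ (CMain_P y).1]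
  simp only [CMainC, Finset.sum_singleton, Finsupp.add_apply, Finsupp.finsetSum_apply,
    add_eq_right]
  refine Finset.sum_eq_zero fun σ hσ => ?_
  obtain ⟨h3, h4⟩ := CMain_mem_S.1 hσ
  rw [Finsupp.smul_apply, CMain_ch_empty (hφ _ g _ σ hr h3 h4).1 h4.card_pos, smul_zero]

lemma FTr2_htpy (h1 : ∀ j σ, φ j 1 j σ = Finsupp.single σ 1)
    (hφ : ∀ i g j σ, r i g j → Clq (Adj j) (K j) σ → σ.Nonempty →
      Ch (Adj i) (K i) σ.card (φ i g j σ) ∧ bd (φ i g j σ) = lin (φ i g j) (bd1 σ))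
    (H0 : ∀ i g j g' k, H i g j g' k ∅ = 0)
    (hH : ∀ i g j g' k σ, r i g j → r j g' k → Clq (Adj k) (K k) σ → σ.Nonempty →
      Ch (Adj i) (K i) (σ.card + 1) (H i g j g' k σ) ∧
      bd (H i g j g' k σ) + lin (H i g j g' k) (bd1 σ) =
        lin (φ i g j) (φ j g' k σ) - φ i (g * g') k σ)
    (ha : CMainR r a) (hb : CMainR r b) (hab : a * b = 1) :
    CMainT (Subtype.val : CMainP K Adj → _) (Subtype.val : CMainP K Adj → _) a φ *
      CMainT (Subtype.val : CMainP K Adj → _) (Subtype.val : CMainP K Adj → _) b φ =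
    1 + CMainB (MonoidAlgebra R G) (Subtype.val : CMainP K Adj → _)
      (Subtype.val : CMainP K Adj → _) (fun _ => bd1) *
      CMainW (Subtype.val : CMainP K Adj → _) (Subtype.val : CMainP K Adj → _) a b H +
      CMainW (Subtype.val : CMainP K Adj → _) (Subtype.val : CMainP K Adj → _) a b H *
      CMainB (MonoidAlgebra R G) (Subtype.val : CMainP K Adj → _) (Subtype.val : CMainP K Adj → _)
        (fun _ => bd1) := by
  have e1 : (1 : Matrix (CMainP K Adj) (CMainP K Adj) (MonoidAlgebra R G)) =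
      CMainT Subtype.val Subtype.val (a * b) φ := by
    rw [hab, CMainT_one, ← CMainB_one Subtype.val_injective]
    exact CMainB_congr fun j x y _ _ => by rw [h1]
  rw [e1, CMainT_mul, CMainT_mul_T (CMain_sum_P _), CMainB_mul_W (CMain_sum_P _),
    CMainW_mul_B (CMain_sum_P _), CMainW_add, CMainW_add]
  refine CMainW_congr ?_
  rintro _ g j g' _ hg hg' x y rfl rfl
  have hr := ha _ _ g hg
  have hr' := hb _ _ g' hg'
  obtain ⟨h2, h3⟩ := hH _ g j g' _ _ hr hr' (CMain_P y).1 (CMain_P y).2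
  have h4 := (hφ _ g' _ _ hr' (CMain_P y).1 (CMain_P y).2).1
  simp only [Pi.add_apply]
  rw [CMain_C _ _ _ fun σ hσ => (h4 σ hσ).1, CMain_C_bd _ _ fun σ hσ => (h2 σ hσ).1,
    CMain_C_bd' _ (CMain_P y).1, H0, CMain_ch_empty h4 (CMain_P y).2.card_pos, add_assoc,
    smul_zero, zero_smul, sub_zero, sub_zero, h3, add_sub_cancel]

end Tr

lemma FTr2_contr {V : Type} [LinearOrder V] {Adj : V → V → Prop} {K : Finset V}
    (h : Acyc Adj K) : ∃ (o : V) (s : Finset V → (Finset V →₀ ℤ)),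
      (o ∈ K ∧ s ∅ = Finsupp.single {o} 1) ∧
      ∀ σ, Clq Adj K σ → σ.Nonempty → Ch Adj K (σ.card + 1) (s σ) ∧
        bd (s σ) + lin s (bd1 σ) = Finsupp.single σ 1 := by
  obtain ⟨c, hc1, hc2⟩ := h 0 (Finsupp.single ∅ 1)
    (CExt_ch_single ⟨Finset.empty_subset _, by simp⟩ rfl)
    (by rw [CExt_bd_single, CExt_bd1_empty])
  have hc0 : c ≠ 0 := by
    rintro rfl
    rw [map_zero] at hc2
    exact one_ne_zero (Finsupp.single_eq_zero.1 hc2.symm)
  obtain ⟨τ, hτ⟩ := Finsupp.ne_iff.1 hc0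
  obtain ⟨h1, h2⟩ := hc1 τ hτ
  obtain ⟨o, rfl⟩ := Finset.card_eq_one.1 h2
  obtain ⟨x, hx0, hx⟩ := extend (Adj := Adj) (K := K) (Adj' := Adj) (fun _ => K)
    (fun σ τ _ => subset_rfl) (fun σ _ _ => h) 1 (-1) (fun σ => Finsupp.single σ 1)
    (Finsupp.single {o} 1) (by rw [CExt_bd_single]; simp [bd1, Finset.filter_singleton])
    (fun σ _ _ => CExt_ch_single h1 rfl) (fun σ n hσ hn => CExt_ch_single hσ hn)
    (fun σ _ => by rw [CExt_bd_single, CExt_lin_id, neg_one_smul, add_neg_cancel])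
  refine ⟨o, x, ⟨h1.1 (Finset.mem_singleton_self o), hx0⟩, fun σ hσ hne =>
    ⟨(hx σ hσ hne).1, ?_⟩⟩
  rw [(hx σ hσ hne).2, neg_one_smul, neg_add_cancel_right]

theorem transfer2 (n : ℕ) : ∃ c : ℕ, 0 < c ∧ ∀ (G : Type) [Group G] (J V Λ : Type) [Fintype J]
    [DecidableEq J] [LinearOrder V] (S₀ : Finset G) (K : Finset V) (Adj : V → V → Prop)
    (C : G → Finset V → Finset V) (φ : G → Finset V → (Finset V →₀ ℤ))
    (H : G → G → Finset V → (Finset V →₀ ℤ)) (F : GN.FR G Λ) (pt : V → Λ) (κ : ℕ), 1 ∈ S₀ →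
    ChD S₀ K Adj C n φ H → (∀ x ∈ K, ∀ y ∈ K, Adj x y → F.rel κ (pt x) 1 (pt y)) →
    (∀ g σ, Clq Adj K σ → ∀ x ∈ C g σ, ∀ y ∈ σ, F.rel κ (pt x) g (pt y)) →
    ∀ a b : Matrix J J (MonoidAlgebra R G), a * b = 1 → b * a = 1 → MSup (S₀ : Set G) a →
    MSup (S₀ : Set G) b →
    ∃ (J' : Type) (_ : Fintype J') (_ : DecidableEq J') (l : J' → Λ)
      (A B : Matrix J' J' (MonoidAlgebra R G)), (∀ j, ∃ x ∈ K, l j = pt x) ∧ A * B = 1 ∧
      B * A = 1 ∧ Ctl (F.rel (c * κ)) l l A ∧ Ctl (F.rel (c * κ)) l l B ∧ (T A → T a) := by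
  obtain ⟨c, hc, ht⟩ := torsion (R := R) n
  refine ⟨c, hc, fun G _ J V Λ _ _ _ S₀ K Adj C φ H F pt κ hS hD hA hC a b hab hba ha hb => ?_⟩
  let r : J → G → J → Prop := fun _ g _ => g ∈ S₀
  let K' : J → Finset V := fun _ => K
  let Adj' : J → V → V → Prop := fun _ => Adj
  let φ' : J → G → J → Finset V → (Finset V →₀ ℤ) := fun _ g _ => φ g
  let H' : J → G → J → G → J → Finset V → (Finset V →₀ ℤ) := fun _ g _ g' _ => H g g'
  replace ha : CMainR r a := fun i j g hg => ha i j g hg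
  replace hb : CMainR r b := fun i j g hg => hb i j g hg
  obtain ⟨o, s, ho, hs⟩ := FTr2_contr hD.acyc
  have hφC : ∀ g ∈ S₀, ∀ σ, Clq Adj K σ → σ.Nonempty →
      Ch Adj (C g σ) σ.card (φ g σ) ∧ bd (φ g σ) = lin (φ g) (bd1 σ) := fun g hg σ hσ hne => by
    simpa only [mul_one] using hD.chain g hg 1 hS σ hσ hne
  have h1 : ∀ j σ, φ' j 1 j σ = Finsupp.single σ 1 := fun _ σ => hD.one σ
  have h0 : ∀ i g j, φ' i g j ∅ = Finsupp.single ∅ 1 := fun _ g _ => hD.emp g
  have hφ : ∀ i g j σ, r i g j → Clq (Adj' j) (K' j) σ → σ.Nonempty →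
      Ch (Adj' i) (K' i) σ.card (φ' i g j σ) ∧ bd (φ' i g j σ) = lin (φ' i g j) (bd1 σ) :=
    fun _ g _ σ hg hσ hne =>
      ⟨CExt_ch_mono (hφC g hg σ hσ hne).1 (hD.sub g σ), (hφC g hg σ hσ hne).2⟩
  have H0 : ∀ i g j g' k, H' i g j g' k ∅ = 0 := fun _ g _ g' _ => hD.H0 g g'
  have hH : ∀ i g j g' k σ, r i g j → r j g' k → Clq (Adj' k) (K' k) σ → σ.Nonempty →
      Ch (Adj' i) (K' i) (σ.card + 1) (H' i g j g' k σ) ∧
      bd (H' i g j g' k σ) + lin (H' i g j g' k) (bd1 σ) =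
        lin (φ' i g j) (φ' j g' k σ) - φ' i (g * g') k σ :=
    fun _ g _ g' _ σ hg hg' hσ hne =>
      ⟨CExt_ch_mono (hD.htpy g hg g' hg' σ hσ hne).1 (hD.sub _ σ),
        (hD.htpy g hg g' hg' σ hσ hne).2⟩
  let l : CMainP K' Adj' → Λ := fun x => pt (CMainL x).1.2
  have dT : ∀ a : Matrix J J (MonoidAlgebra R G), CMainR r a →
      Dg (fun x : CMainP K' Adj' => x.1.2.card - 1) 0 (CMainT Subtype.val Subtype.val a φ') :=
    fun a ha => CMain_dg (CMainZ_T (by
      rintro _ g _ hg x y rfl rfl h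
      rw [((hφ x.1.1 g y.1.1 _ (ha _ _ g hg) (CMain_P y).1 (CMain_P y).2).1 _ h).2, add_zero]))
  have dW : ∀ a b : Matrix J J (MonoidAlgebra R G), CMainR r a → CMainR r b →
      Dg (fun x : CMainP K' Adj' => x.1.2.card - 1) 1 (CMainW Subtype.val Subtype.val a b H') :=
    fun a b ha hb => CMain_dg (CMainZ_W (by
      rintro _ g j g' _ hg hg' x y rfl rfl h
      rw [((hH x.1.1 g j g' y.1.1 _ (ha _ _ g hg) (hb _ _ g' hg') (CMain_P y).1
        (CMain_P y).2).1 _ h).2]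
      rfl))
  have cT : ∀ a : Matrix J J (MonoidAlgebra R G), CMainR r a →
      Ctl (F.rel κ) l l (CMainT Subtype.val Subtype.val a φ') :=
    fun a ha => CMain_msup_T (by
      rintro _ g _ hg x y rfl rfl h
      have hr := ha _ _ g hg
      exact hC g y.1.2 (CMain_P y).1 _
        (((hφC g hr _ (CMain_P y).1 (CMain_P y).2).1 _ h).1.1 (CMainL_mem x)) _ (CMainL_mem y))
  have cW : ∀ a b : Matrix J J (MonoidAlgebra R G), CMainR r a → CMainR r b →
      Ctl (F.rel κ) l l (CMainW Subtype.val Subtype.val a b H') :=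
    fun a b ha hb => CMain_msup_W (by
      rintro _ g j g' _ hg hg' x y rfl rfl h
      have hr := ha _ _ g hg
      have hr' := hb _ _ g' hg'
      exact hC (g * g') y.1.2 (CMain_P y).1 _
        (((hD.htpy g hr g' hr' _ (CMain_P y).1 (CMain_P y).2).1 _ h).1.1 (CMainL_mem x)) _
        (CMainL_mem y))
  have dd : ∀ (X : Type) (p : X → J × Finset V),
      CMainB (MonoidAlgebra R G) p (Subtype.val : CMainP K' Adj' → _) (fun _ => bd1) *
        CMainB (MonoidAlgebra R G) (Subtype.val : CMainP K' Adj' → _)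
          (Subtype.val : CMainP K' Adj' → _) (fun _ => bd1) = 0 := fun X p => by
    rw [CMainB_mul_B (CMain_sum_P _), ← CMainB_zero (p := p) (q := Subtype.val)]
    refine CMainB_congr ?_
    rintro _ x y - rfl
    rw [CMain_C_bd' _ (CMain_P y).1, CMain_bd1_empty, smul_zero, sub_zero, ← CMain_bd_single]
    exact congrArg (fun c : Finset V →₀ ℤ => c (p x).2) (bd_bd _)
  obtain ⟨A, B, h⟩ := ht G _ (CMainP K' Adj') J F κ l (fun x => x.1.2.card - 1)
    (CMainB _ Subtype.val Subtype.val fun _ => bd1) (CMainT Subtype.val Subtype.val a φ')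
    (CMainT Subtype.val Subtype.val b φ') (CMainW Subtype.val Subtype.val b a H')
    (CMainW Subtype.val Subtype.val a b H') (CMainB _ Subtype.val Subtype.val fun _ => s) a b
    (CMainB _ Subtype.val (fun j => (j, ∅)) fun _ => s)
    (CMainB _ (fun j => (j, ∅)) Subtype.val fun _ => bd1)
    (fun x => (Nat.sub_le _ _).trans (hD.dim _ (CMain_P x).1))
    (CMain_dg (CMainZ_B fun j x y _ _ h => by have := (CMain_bd1 h).2; omega))
    (dT a ha) (dT b hb) (dW b a hb ha) (dW a b ha hb)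
    (CMain_dg (CMainZ_B (by
      rintro _ x y - rfl h
      rw [((hs _ (CMain_P y).1 (CMain_P y).2).1 _ h).2]
      rfl)))
    (CMainZ_B (Q := fun (x : CMainP K' Adj') (_ : J) => x.1.2.card - 1 = 0) (by
      rintro _ x y - rfl h
      rw [ho.2] at h
      rw [(Finsupp.single_apply_ne_zero.1 h).1, Finset.card_singleton]))
    (CMainZ_B (Q := fun (_ : J) (x : CMainP K' Adj') => x.1.2.card - 1 = 0) fun j x y _ _ h => by
      rw [← (CMain_bd1 h).2, Finset.card_empty])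
    (CMain_msup_B (by
      rintro _ x y e rfl h
      have hx := (CMain_bd1 h).1 (CMainL_mem x)
      change F.rel κ (pt (CMainL x).1.2) 1 (pt (CMainL y).1.2)
      by_cases e' : (CMainL x).1.2 = (CMainL y).1.2
      · rw [e']
        exact F.mono (Nat.zero_le _) (F.refl _)
      · exact hA _ (CMainL x).2 _ (CMainL y).2 ((CMain_P y).1.2 _ hx _ (CMainL_mem y) e')))
    (cT a ha) (cT b hb) (cW b a hb ha) (cW a b ha hb) (dd _ _) (FTr2_chain h0 hφ ha)
    (FTr2_chain h0 hφ hb) (FTr2_htpy h1 hφ H0 hH hb ha hba)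
    (FTr2_htpy h1 hφ H0 hH ha hb hab) hab hba
    (by
      rw [CMainB_mul_B (CMain_sum_P _), ← CMainB_one (p := fun j : J => (j, (∅ : Finset V)))
        fun _ _ e => congrArg Prod.fst e]
      refine CMainB_congr ?_
      rintro _ x y - rfl
      have hcl : ∀ σ, s ∅ σ ≠ 0 → Clq (Adj' y) (K' y) σ := fun σ hσ => by
        rw [ho.2] at hσ
        rw [(Finsupp.single_apply_ne_zero.1 hσ).1]
        exact ⟨Finset.singleton_subset_iff.2 ho.1, by simp⟩
      rw [CMain_C_bd _ _ hcl, ho.2, CMain_bd_single]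
      simp [bd1, Finset.filter_singleton])
    (dd _ _)
    (by
      rw [eq_sub_iff_add_eq, CMainB_mul_B (CMain_sum_P _), CMainB_mul_B (CMain_sum_P _),
        CMainB_mul_B (CMain_sum_J _), CMainB_add, CMainB_add, ← CMainB_one Subtype.val_injective]
      refine CMainB_congr ?_
      rintro _ x y - rfl
      obtain ⟨h2, h3⟩ := hs _ (CMain_P y).1 (CMain_P y).2
      simp only [Pi.add_apply]
      rw [CMain_C_bd _ _ fun σ hσ => (h2 σ hσ).1, CMain_C_bd' _ (CMain_P y).1, ← h3, CMainC,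
        Finset.sum_singleton, add_assoc, sub_add_cancel])
    (FTr2_aug h0 hφ ha) (CMainB_map _ _) (CMainB_map _ _) (CMainB_map _ _) (CMainB_map _ _)
  exact ⟨_, inferInstance, inferInstance, l, A, B, fun x => ⟨_, (CMainL x).2, rfl⟩, h⟩

end Pool.Agent.MP_f7db47_al.GF
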