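import Pool.Agent.MP_f7db47_al.GF.FChain
import Pool.Agent.MP_f7db47_al.GF.FTr2

/-!
The transfer for homotopy actions.
-/

namespace Pool.Agent.MP_f7db47_al.GF

open GN Matrix

universe v

variable {R : Type v} [Ring R]

theorem transfer3 (n : ℕ) : ∃ c : ℕ, ∀ (G : Type) [Group G] (X F J : Type) [MetricSpace X]
    [Fintype F] [Fintype J] [DecidableEq J] (D : Set X) (e : X → F → ℝ) (S₀ : Finset G)
    (φ : G → X → X) (H : G → G → ℝ → X → X) (Fr : GN.FR G X) (η : ℝ), IsCompact D →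
    D.Nonempty → ContinuousOn e D → Set.InjOn e D → TropC (e '' D) n → 1 ∈ S₀ →
    HAct S₀ D φ H → 0 < η → (∀ x ∈ D, ∀ y ∈ D, dist x y ≤ η → Fr.rel 1 x 1 y) →
    (∀ g ∈ S₀, ∀ g' ∈ S₀, ∀ u ∈ Set.Icc (0 : ℝ) 1, ∀ y ∈ D, Fr.rel 1 (H g g' u y) (g * g') y) →
    ∀ a b : Matrix J J (MonoidAlgebra R G), a * b = 1 → b * a = 1 → MSup (S₀ : Set G) a →
    MSup (S₀ : Set G) b →
    ∃ (J' : Type) (_ : Fintype J') (_ : DecidableEq J') (l : J' → X)
      (A B : Matrix J' J' (MonoidAlgebra R G)), (∀ j, l j ∈ D) ∧ A * B = 1 ∧ B * A = 1 ∧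
      Ctl (Fr.rel c) l l A ∧ Ctl (Fr.rel c) l l B ∧ (T A → T a) := by
  obtain ⟨c, -, hc⟩ := transfer2 (R := R) (n + 1)
  refine ⟨c * 2, ?_⟩
  intro G _ X F J _ _ _ _ D e S₀ φ H Fr η hD hne he hinj hT h1 hH hη hr1 hr2 a b hab hba ha hb
  have : Nonempty X := hne.nonempty
  obtain ⟨inv, hinv⟩ : ∃ inv : (F → ℝ) → X, ∀ x ∈ D, inv (e x) = x :=
    ⟨Function.invFunOn e D, fun x hx => hinj.leftInvOn_invFunOn hx⟩
  have hm : ∀ y ∈ e '' D, inv y ∈ D := by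
    rintro _ ⟨x, hx, rfl⟩
    rwa [hinv x hx]
  have hD' : IsCompact (e '' D) := hD.image_of_continuousOn he
  have hci : ContinuousOn inv (e '' D) := by
    refine continuousOn_iff_isClosed.2 fun t ht => ⟨e '' (t ∩ D),
      ((hD.inter_left ht).image_of_continuousOn (he.mono Set.inter_subset_right)).isClosed, ?_⟩
    ext y
    constructor
    · rintro ⟨h, x, hx, rfl⟩
      rw [Set.mem_preimage, hinv x hx] at h
      exact ⟨⟨x, ⟨h, hx⟩, rfl⟩, x, hx, rfl⟩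
    · rintro ⟨⟨x, hx, rfl⟩, h⟩
      exact ⟨by rw [Set.mem_preimage, hinv x hx.2]; exact hx.1, h⟩
  obtain ⟨δ, hδ, hu⟩ :=
    Metric.uniformContinuousOn_iff.1 (hD'.uniformContinuousOn_of_continuous hci) η hη
  have hφ : ∀ g ∈ S₀, ∀ y ∈ D, φ g y ∈ D := fun g hg y hy => by
    have h := hH.maps 1 h1 g hg 0 ⟨le_rfl, zero_le_one⟩ y hy
    rwa [hH.zero 1 h1 g hg y hy, one_mul] at h
  have hH' : HAct S₀ (e '' D) (fun g y => e (φ g (inv y))) fun g g' u y => e (H g g' u (inv y)) := by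
    refine ⟨?_, fun g hg g' hg' u hu y hy => ⟨_, hH.maps g hg g' hg' u hu _ (hm y hy), rfl⟩,
      fun g hg g' hg' => ?_, fun g hg g' hg' y hy => by rw [hH.zero g hg g' hg' _ (hm y hy)],
      fun g hg g' hg' y hy => by
        rw [hH.fin g hg g' hg' _ (hm y hy), hinv _ (hφ g' hg' _ (hm y hy))]⟩
    · rintro _ ⟨x, hx, rfl⟩
      rw [hinv x hx, hH.one x hx]
    · refine he.comp (f := fun p : ℝ × (F → ℝ) => H g g' p.1 (inv p.2)) ?_
        fun p hp => hH.maps g hg g' hg' _ hp.1 _ (hm _ hp.2)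
      exact (hH.cont g hg g' hg').comp (f := fun p : ℝ × (F → ℝ) => (p.1, inv p.2))
        (continuousOn_fst.prodMk (hci.comp continuousOn_snd fun p hp => hp.2))
        fun p hp => ⟨hp.1, hm _ hp.2⟩
  obtain ⟨V, _, K, Adj, C, φ', H', pt, hch, hpt, hadj, hC⟩ :=
    exists_chd hD' (hne.image e) hT h1 hH' (δ / 2) (half_pos hδ)
  have hn : ∀ x ∈ e '' D, ∀ y ∈ e '' D, dist x y ≤ δ / 2 → Fr.rel 1 (inv x) 1 (inv y) :=
    fun x hx y hy h => hr1 _ (hm x hx) _ (hm y hy) (hu x hx y hy (by linarith)).le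
  obtain ⟨J', i1, i2, l, A, B, hl, h⟩ := hc G J V X S₀ K Adj C φ' H' Fr (fun x => inv (pt x)) 2 h1
    hch (fun x hx y hy h => Fr.mono one_le_two (hn _ (hpt x hx) _ (hpt y hy) (hadj x hx y hy h)))
    (fun g σ hσ x hx y hy => by
      obtain ⟨g₁, h₁, g₂, h₂, u, hu', rfl, hd⟩ := hC g σ hσ x hx y hy
      have hy' := hm _ (hpt y (hσ.1 hy))
      have hz := hH.maps g₁ h₁ g₂ h₂ u hu' _ hy'
      have h := hn _ (hpt x (hch.sub _ _ hx)) _ ⟨_, hz, rfl⟩ hd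
      rw [hinv _ hz] at h
      simpa only [one_mul] using Fr.comp h (hr2 g₁ h₁ g₂ h₂ u hu' _ hy')) a b hab hba ha hb
  refine ⟨J', i1, i2, l, A, B, fun j => ?_, h⟩
  obtain ⟨x, hx, hj⟩ := hl j
  rw [hj]
  exact hm _ (hpt x hx)

end Pool.Agent.MP_f7db47_al.GF
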