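import Pool.Agent.MP_f7db47_al.GF.DF
import Pool.Agent.MP_f7db47_al.GN.AMain

/-!
Controlled vanishing for families of spiders of bounded multiplicity.
-/

namespace Pool.Agent.MP_f7db47_al.GF

open GN Matrix

universe v

variable {R : Type v} [Ring R]

section

variable {ι : Type} [Finite ι] {h h' : ι → ℕ} {q t k : ℕ}

/-- The level below which more than `q` heights survive. -/
noncomputable def FVan_u (h : ι → ℕ) (q : ℕ) : ℕ := sInf {t | {i | t < h i}.ncard ≤ q}

theorem FVan_sub {t' : ℕ} (H : ∀ i, t < h i → t' < h' i) :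
    {i | t < h i}.ncard ≤ {i | t' < h' i}.ncard :=
  Set.ncard_le_ncard H (Set.toFinite _)

theorem FVan_le : FVan_u h q ≤ t ↔ {i | t < h i}.ncard ≤ q := by
  refine ⟨fun H => le_trans (FVan_sub fun i hi => H.trans_lt hi)
    (Nat.sInf_mem (s := {t | {i | t < h i}.ncard ≤ q}) ?_), fun H => Nat.sInf_le H⟩
  obtain ⟨M, hM⟩ := (Set.finite_range h).bddAbove
  have e : {i | M < h i} = ∅ :=
    Set.eq_empty_of_forall_notMem fun i hi => absurd (hM ⟨i, rfl⟩) (not_le.2 hi)
  exact ⟨M, by simp [e]⟩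

theorem FVan_lip (H : ∀ i, h i ≤ h' i + k) : FVan_u h q ≤ FVan_u h' q + k :=
  FVan_le.2 <| le_trans (FVan_sub fun i hi => by have := H i; omega)
    ((FVan_le (h := h')).1 le_rfl)

theorem FVan_key (H : ∀ i, h i ≤ h' i + k) (H' : ∀ i, h' i ≤ h i + k)
    (hq : FVan_u h (q + 1) + 2 * k < FVan_u h q) :
    {i | FVan_u h (q + 1) < h i} = {i | FVan_u h' (q + 1) < h' i} ∧
      ∀ i, FVan_u h (q + 1) < h i → k < h i := by
  have a1 : q + 1 ≤ {i | FVan_u h (q + 1) + 2 * k < h i}.ncard :=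
    not_le.1 fun e => absurd (FVan_le.2 e) (not_le.2 hq)
  have a2 := FVan_lip (q := q + 1) H'
  have e1 : {i | FVan_u h (q + 1) + 2 * k < h i} = {i | FVan_u h (q + 1) < h i} :=
    Set.eq_of_subset_of_ncard_le (fun i (hi : _ < h i) => show _ < h i by omega)
      ((FVan_le.1 le_rfl).trans a1) (Set.toFinite _)
  have e2 : {i | FVan_u h (q + 1) + 2 * k < h i} = {i | FVan_u h' (q + 1) < h' i} :=
    Set.eq_of_subset_of_ncard_le (fun i (hi : _ < h i) => show _ < h' i by have := H i; omega)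
      ((FVan_le.1 le_rfl).trans a1) (Set.toFinite _)
  refine ⟨e1.symm.trans e2, fun i hi => ?_⟩
  have a3 : FVan_u h (q + 1) + 2 * k < h i := e1.ge hi
  omega

theorem FVan_cover {N r : ℕ} (hN : {i | 0 < h i}.ncard ≤ N) {i : ι} (hi : N * r + 1 ≤ h i) :
    ∃ q : Fin N, r ≤ FVan_u h q - FVan_u h (q + 1) := by
  by_contra hn
  have a1 : ∀ n ≤ N, FVan_u h 0 ≤ FVan_u h n + n * r := by
    intro n hn'
    induction n with
    | zero => simp
    | succ n ih =>
      have b1 := ih (by omega)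
      have b2 : FVan_u h n - FVan_u h (n + 1) < r := not_le.1 fun e => hn ⟨⟨n, hn'⟩, e⟩
      rw [add_mul, one_mul]
      omega
  have a2 := a1 N le_rfl
  have a3 := FVan_le.1 (a2.trans (Nat.add_le_add_right (FVan_le.2 hN) _))
  rw [Nat.le_zero, Set.ncard_eq_zero (Set.toFinite _)] at a3
  exact a3.le (show 0 + N * r < h i by omega)

end

/-- The spiders of the barycentric subdivision. -/
noncomputable def FVan_S {G : Type} [Group G] {Λ J ι : Type} (S : ι → Spi G Λ) (l : J → Λ)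
    (q : ℕ) : Spi G J where
  ht j := FVan_u (fun i => (S i).ht (l j)) q - FVan_u (fun i => (S i).ht (l j)) (q + 1)
  leg :=
    { r x g y := {i | FVan_u (fun i => (S i).ht (l x)) (q + 1) < (S i).ht (l x)} =
          {i | FVan_u (fun i => (S i).ht (l y)) (q + 1) < (S i).ht (l y)} ∧
        ∀ i ∈ {i | FVan_u (fun i => (S i).ht (l x)) (q + 1) < (S i).ht (l x)},
          (S i).leg.r (l x) g (l y)
      refl _ := ⟨rfl, fun i _ => (S i).leg.refl _⟩
      symm h := ⟨h.1.symm, fun i hi => (S i).leg.symm (h.2 i (h.1.ge hi))⟩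
      trans h h' := ⟨h.1.trans h'.1, fun i hi => (S i).leg.trans (h.2 i hi) (h'.2 i (h.1.le hi))⟩ }

theorem FVan_rel {G : Type} [Group G] {Λ J ι : Type} [Finite ι] {S : ι → Spi G Λ} {l : J → Λ}
    {k : ℕ} {x y : J} {g : G} (H : ∀ i, (S i).rel k (l x) g (l y)) (q : ℕ) :
    (FVan_S S l q).rel (4 * k) x g y := by
  have h1 := fun i => (H i).1
  have h2 := fun i => (H i).2.1
  have a1 := FVan_lip (q := q) h1
  have a2 := FVan_lip (q := q) h2
  have a3 := FVan_lip (q := q + 1) h1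
  have a4 := FVan_lip (q := q + 1) h2
  simp only [Spi.rel, FVan_S]
  refine ⟨by omega, by omega, fun e => ?_⟩
  by_contra hn
  refine e ?_
  by_cases hx : FVan_u (fun i => (S i).ht (l x)) (q + 1) + 2 * k <
      FVan_u (fun i => (S i).ht (l x)) q
  · obtain ⟨b1, b2⟩ := FVan_key h1 h2 hx
    refine ⟨b1, fun i hi => by_contra fun e' => ?_⟩
    have := (H i).2.2 e'
    have := b2 i hi
    omega
  · obtain ⟨b1, b2⟩ := FVan_key (q := q) h2 h1 (by omega)
    refine ⟨b1.symm, fun i hi => by_contra fun e' => ?_⟩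
    have := (H i).2.2 e'
    have := b2 i (b1.ge hi)
    omega

theorem vanish2 (h1 : QQ R PUnit.{1}) (N k : ℕ) : ∃ r : ℕ, ∀ (G : Type) [Group G]
    (Λ J ι : Type) [Fintype J] [DecidableEq J] [Finite ι] (S : ι → Spi G Λ) (l : J → Λ),
    (∀ j, {i | 0 < (S i).ht (l j)}.ncard ≤ N) →
    (∀ i j, 0 < (S i).ht (l j) → QQ R ((S i).leg.grp (l j))) → (∀ j, ∃ i, r ≤ (S i).ht (l j)) →
    ∀ a b : Matrix J J (MonoidAlgebra R G), a * b = 1 → b * a = 1 →
    Ctl (fun x g y => ∀ i, (S i).rel k x g y) l l a →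
    Ctl (fun x g y => ∀ i, (S i).rel k x g y) l l b → T a := by
  obtain ⟨r, hr⟩ := vanish h1 N (4 * k)
  refine ⟨N * r + 1, fun G _ Λ J ι _ _ _ S l hN hQ hc a b hab hba ha hb => ?_⟩
  refine hr G J (Fin N) (fun q => FVan_S S l q) (by simp) (fun q j hj => ?_) (fun j => ?_) a b
    hab hba (fun x y => (ha x y).mono fun g hg q => FVan_rel hg q)
    fun x y => (hb x y).mono fun g hg q => FVan_rel hg q
  · have a1 : ¬ FVan_u (fun i => (S i).ht (l j)) q ≤ FVan_u (fun i => (S i).ht (l j)) (q + 1) :=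
      not_le.2 (Nat.sub_pos_iff_lt.1 hj)
    rw [FVan_le, not_le] at a1
    obtain ⟨i, hi⟩ := Set.nonempty_of_ncard_ne_zero (Nat.zero_lt_of_lt a1).ne'
    exact AMain_le (fun g hg => hg.2 i hi) (hQ i j (Nat.zero_lt_of_lt hi))
  · obtain ⟨i, hi⟩ := hc j
    exact FVan_cover (hN j) hi

end Pool.Agent.MP_f7db47_al.GF
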