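import Pool.Agent.MP_f7db47_al.GF.FCusp
import Pool.Agent.MP_f7db47_al.GF.FFlow
import Pool.Agent.MP_f7db47_al.GF.FHb
import Pool.Agent.MP_f7db47_al.GF.FTr3
import Pool.Agent.MP_f7db47_al.GF.FVan

/-!
The flow space theorem.
-/

namespace Pool.Agent.MP_f7db47_al.GF

open GN

universe v

variable {R : Type v} [Ring R]

/-- Distance at most `k` in all spiders of a family. -/
def FMain_FR {G Λ ι : Type} [Group G] (S : ι → Spi G Λ) : GN.FR G Λ where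
  rel k a g b := ∀ i, (S i).rel k a g b
  refl a := fun i => ⟨le_rfl, le_rfl, fun h => absurd ((S i).leg.refl a) h⟩
  mono h h' := fun i => ⟨(h' i).1.trans (by omega), (h' i).2.1.trans (by omega),
    fun e => ((h' i).2.2 e).trans h⟩
  comp {k k' a g b g' c} h h' := fun i => by
    obtain ⟨a1, a2, a3⟩ := h i
    obtain ⟨b1, b2, b3⟩ := h' i
    refine ⟨by omega, by omega, fun e => ?_⟩
    by_cases e1 : (S i).leg.r a g b
    · have := b3 fun e2 => e ((S i).leg.trans e1 e2)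
      omega
    · have := a3 e1
      omega

theorem FMain_bound {G : Type} [Group G] (S₀ : Finset G) (d : G → ℝ) :
    ∃ C : ℝ, 0 ≤ C ∧ (∀ g ∈ S₀, d g ≤ C) ∧ ∀ g ∈ S₀, ∀ g' ∈ S₀, d (g * g') ≤ C := by
  obtain ⟨C1, h1⟩ := (S₀.finite_toSet.image d).bddAbove
  obtain ⟨C2, h2⟩ := ((S₀.finite_toSet.prod S₀.finite_toSet).image
    fun p : G × G => d (p.1 * p.2)).bddAbove
  refine ⟨max 0 (max C1 C2), le_max_left _ _, fun g hg => ?_, fun g hg g' hg' => ?_⟩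
  · exact (h1 ⟨g, hg, rfl⟩).trans ((le_max_left _ _).trans (le_max_right _ _))
  · exact (h2 ⟨(g, g'), ⟨hg, hg'⟩, rfl⟩).trans ((le_max_right _ _).trans (le_max_right _ _))

theorem flow_thm (h1 : QQ R PUnit.{1}) {Γ G : Type} [Group Γ] [Group G]
    {Fam : Set (Subgroup Γ)} (hP : HasPack Γ Fam) (f : G →* Γ)
    (hc : ∀ (B : Subgroup Γ) (φ : B →* MZ), (∀ g, φ g = 1 → IsOfFinOrder g) →
      QQ R (B.comap f))
    (hF : ∀ B ∈ Fam, QQ R (B.comap f)) : QQ R G := by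
  classical
  obtain ⟨S, hS, ⟨Pk⟩⟩ := hP
  intro P _ hPz Δ _ j hj J _ _ a b hab hba
  let f' : Δ →* Γ := f.comp ((MonoidHom.fst G P).comp j)
  let ρ' : Δ →* Equiv.Perm S.X := Pk.ρ.comp f'
  have hρ : S.Isom ρ' := ⟨fun γ x y => Pk.iso (f' γ) x y, fun γ c hc => Pk.line (f' γ) c hc⟩
  obtain ⟨sA, hsA, -⟩ := exists_finset_msup a
  obtain ⟨sB, hsB, -⟩ := exists_finset_msup b
  let S₀ : Finset Δ := insert 1 (sA ∪ sB)
  have ha : MSup (S₀ : Set Δ) a := hsA.mono fun x hx => by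
    simp only [S₀, Finset.coe_insert, Finset.coe_union, Set.mem_insert_iff, Set.mem_union]
    exact Or.inr (Or.inl hx)
  have hb : MSup (S₀ : Set Δ) b := hsB.mono fun x hx => by
    simp only [S₀, Finset.coe_insert, Finset.coe_union, Set.mem_insert_iff, Set.mem_union]
    exact Or.inr (Or.inr hx)
  obtain ⟨C, hC0, hC1, hC2⟩ := FMain_bound S₀ fun g => dist (ρ' g S.o) S.o
  obtain ⟨Y, _, _, F, ev, hE⟩ := exists_flow hS Pk.toAct
  obtain ⟨N, hN⟩ := Pack.spiders hS.geo Pk hE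
  obtain ⟨n, hn⟩ := hS.fine
  obtain ⟨c, hc3⟩ := transfer3 (R := R) n
  obtain ⟨r, hr⟩ := vanish2 h1 N c
  obtain ⟨ε, hε, ι, _, Tt, hT1, hT2, hT3, hT4⟩ := hN (8 * C) r (by positivity)
  obtain ⟨r0, L, hr0, hCr, hct1, hct2⟩ :=
    hS.geo.control hρ S₀ hC0 hE.pos (half_pos hε) hC1 hC2
  have hr0' : (0 : ℝ) < r0 := by exact_mod_cast hr0
  obtain ⟨Fi, _, e, he1, he2, he3⟩ := hn r0 hr0
  have hk0 : ∀ x ∈ Metric.closedBall S.o (r0 : ℝ), ∃ y : Y, ev y = hS.geo.ctl r0 L x :=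
    fun x hx => hE.surj _ (hS.geo.ctl_mem hr0' L hx).1 (hS.geo.ctl_mem hr0' L hx).2
  have ho : S.o ∈ Metric.closedBall S.o (r0 : ℝ) := Metric.mem_closedBall_self hr0'.le
  have : Nonempty Y := ⟨(hk0 _ ho).choose⟩
  choose! k hk using hk0
  have hA := hS.geo.hact hρ S₀ hC0 hr0' hCr hC1 hC2
  let T' : ι → Spi Δ S.X := fun i => (Tt i).pull f' k
  have h2e : 2 * (ε / 2) = ε := by ring
  rw [h2e] at hct1 hct2
  obtain ⟨J', _, _, l, A, B, -, hAB, hBA, hcA, hcB, hT⟩ :=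
    hc3 Δ S.X Fi J (Metric.closedBall S.o (r0 : ℝ)) e S₀ _ _ (FMain_FR T') (ε / 2)
      (hS.cpt _ _) ⟨_, ho⟩ he1 he2 he3 (Finset.mem_insert_self _ _) hA (half_pos hε)
      (fun x hx y hy hxy i => hT2 i (k x) (f' 1) (k y) ⟨0, by rw [abs_zero]; positivity, by
        rw [F.zero, map_one, one_smul, hE.dist_le, hk x hx, hk y hy]
        exact hct1 x hx y hy hxy⟩)
      (fun g hg g' hg' u hu y hy i => by
        obtain ⟨s, hs, hs'⟩ := hct2 g hg g' hg' u hu y hy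
        refine hT2 i (k _) (f' (g * g')) (k y) ⟨s, hs, ?_⟩
        rw [hE.dist_le]
        intro t
        rw [hE.flow, hE.smul, hk _ (hA.maps g hg g' hg' u hu y hy), hk y hy]
        exact hs' t)
      a b hab hba ha hb
  refine hT (hr Δ S.X J' ι T' l (fun j' => hT1 (k (l j'))) (fun i j' hij => ?_)
    (fun j' => hT4 (k (l j'))) A B hAB hBA hcA hcB)
  obtain ⟨B₀, hB₀, hB⟩ := hT3 i (k (l j')) hij
  refine PT.Ab_le hPz j hj (B₀.comap f) ?_ _ fun x hx => hB₀ hx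
  rcases hB with hB | ⟨φ, hφ⟩
  · exact hF B₀ hB
  · exact hc B₀ φ hφ

end Pool.Agent.MP_f7db47_al.GF
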