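import Pool.Agent.MP_f7db47_al.GF.FCov

/-!
Products of good spaces.
-/

namespace Pool.Agent.MP_f7db47_al.GF

open Metric

variable {J : Type} [Fintype J] {S : J → Sp}

theorem FPi_le (x y : (Sp.pi S).X) {r : ℝ} (hr : 0 ≤ r) (h : ∀ j, dist (x j) (y j) ≤ r) :
    dist x y ≤ r :=
  (dist_pi_le_iff (f := x) (g := y) hr).2 h

theorem FPi_ge (x y : (Sp.pi S).X) (j : J) : dist (x j) (y j) ≤ dist x y :=
  dist_le_pi_dist (f := x) (g := y) j

theorem Sp.Geo.pi (h : ∀ j, (S j).Geo) : (Sp.pi S).Geo := by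
  refine ⟨fun c hc a s j => (h j).aff _ (hc j) a s, fun x y => ?_, ?_⟩
  · choose c hc h0 h1 using fun j => (h j).join (x j) (y j)
    exact ⟨fun t j => c j t, hc, funext h0, funext h1⟩
  · intro c hc c' hc' l h0 h1
    have h2 : 0 ≤ 1 - l := by linarith
    refine FPi_le _ _ (by positivity) fun j => ?_
    refine ((h j).conv _ (hc j) _ (hc' j) l h0 h1).trans ?_
    exact add_le_add (mul_le_mul_of_nonneg_left (FPi_ge _ _ j) h2)
      (mul_le_mul_of_nonneg_left (FPi_ge _ _ j) h0)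

theorem Sp.Par.mono {S : Sp} {κ κ' : ℝ} {m : ℕ} (h : S.Par κ m) (hκ : κ ≤ κ') :
    S.Par κ' m := by
  intro C
  obtain ⟨P, inst, s, π, A, h1, h2, h3, h4, h5⟩ := h C
  refine ⟨P, inst, s, π, max A 0, h1, h2, h3, fun p hp p' hp' t => ?_, h5⟩
  refine (h4 p hp p' hp' t).trans ?_
  have e1 : Real.exp (κ * |t|) ≤ Real.exp (κ' * |t|) :=
    Real.exp_le_exp.2 (mul_le_mul_of_nonneg_right hκ (abs_nonneg t))
  have e2 : A * dist p p' ≤ max A 0 * dist p p' :=
    mul_le_mul_of_nonneg_right (le_max_left _ _) dist_nonneg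
  have e3 : 0 ≤ max A 0 * dist p p' := mul_nonneg (le_max_right _ _) dist_nonneg
  exact mul_le_mul e2 e1 (Real.exp_pos _).le e3

theorem Sp.Par.pi {κ : ℝ} {m : J → ℕ} (h : ∀ j, (S j).Par κ (m j)) :
    (Sp.pi S).Par κ (∑ j, m j) := by
  intro C
  choose P inst s π A h1 h2 h3 h4 h5 using fun j => h j C
  refine ⟨∀ j, P j, inferInstance, Set.univ.pi s, fun p t j => π j (p j) t, ∑ j, |A j|,
    isCompact_univ_pi h1, Cov.pi h2, fun p hp => ⟨fun j => (h3 j _ (hp j trivial)).1, ?_⟩,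
    fun p hp p' hp' t => ?_, fun c hc hC hd => ?_⟩
  · exact FPi_le _ _ zero_le_one fun j => (h3 j _ (hp j trivial)).2
  · have hA : 0 ≤ ∑ j, |A j| := Finset.sum_nonneg fun j _ => abs_nonneg _
    refine FPi_le _ _ (by positivity) fun j => ?_
    refine (h4 j _ (hp j trivial) _ (hp' j trivial) t).trans ?_
    refine mul_le_mul_of_nonneg_right ?_ (Real.exp_pos _).le
    have e1 : A j ≤ ∑ j, |A j| := (le_abs_self _).trans
      (Finset.single_le_sum (f := fun j => |A j|) (fun j _ => abs_nonneg _) (Finset.mem_univ j))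
    exact mul_le_mul e1 (dist_le_pi_dist p p' j) dist_nonneg hA
  · choose p hp e using fun j => h5 j _ (hc j) ((FPi_ge _ _ j).trans hC) ((FPi_ge _ _ j).trans hd)
    exact ⟨p, fun j _ => hp j, funext fun t => funext fun j => congrFun (e j) t⟩

theorem FPi_trop {F : J → Type} {D : ∀ j, Set (F j → ℝ)} {n : J → ℕ}
    (h : ∀ j, TropC (D j) (n j)) :
    TropC {z : (Σ j, F j) → ℝ | ∀ j, (fun i => z ⟨j, i⟩) ∈ D j} (∑ j, n j) := by
  classical
  refine ⟨fun x hx y hy c hc j => (h j).min _ (hx j) _ (hy j) c hc,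
    fun Q hQ x hx j => (h j).floor Q hQ _ (hx j), fun Q hQ z M hz hD hM => ?_⟩
  have key : ∀ j, ((Finset.range M).filter
      fun k => (fun i : F j => z (k + 1) ⟨j, i⟩) ≠ fun i => z k ⟨j, i⟩).card ≤ n j := by
    intro j
    have := (h j).chain Q hQ (fun k i => z k ⟨j, i⟩) M (fun a b hab i => hz hab ⟨j, i⟩)
      (fun k => hD k j) (fun i => hM ⟨j, i⟩)
    convert this
  refine le_trans (Finset.card_le_card (t := Finset.univ.biUnion fun j => (Finset.range M).filter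
      fun k => (fun i : F j => z (k + 1) ⟨j, i⟩) ≠ fun i => z k ⟨j, i⟩) ?_)
    (Finset.card_biUnion_le.trans (Finset.sum_le_sum fun j _ => key j))
  intro k hk
  rw [Finset.mem_filter] at hk
  by_contra hn
  refine hk.2 (funext fun a => ?_)
  obtain ⟨j, i⟩ := a
  by_contra hne
  exact hn (Finset.mem_biUnion.2 ⟨j, Finset.mem_univ j,
    Finset.mem_filter.2 ⟨hk.1, fun e => hne (congrFun e i)⟩⟩)

theorem Sp.Fine.pi {n : J → ℕ} (h : ∀ j, (S j).Fine (n j)) : (Sp.pi S).Fine (∑ j, n j) := by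
  intro r hr
  choose F inst e h1 h2 h3 using fun j => h j r hr
  have hb : ∀ x : (Sp.pi S).X, x ∈ closedBall (Sp.pi S).o (r : ℝ) ↔
      ∀ j, x j ∈ closedBall (S j).o (r : ℝ) := fun x =>
    ⟨fun hx j => (FPi_ge x _ j).trans hx, fun hx => FPi_le _ _ (Nat.cast_nonneg r) hx⟩
  refine ⟨Σ j, F j, inferInstance, fun x a => e a.1 (x a.1) a.2, ?_, ?_, ?_⟩
  · refine continuousOn_pi.2 fun a => ?_
    have c1 : Continuous fun x : (Sp.pi S).X => x a.1 :=
      (LipschitzWith.of_dist_le_mul (K := 1) fun x y => by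
        simpa using FPi_ge x y a.1).continuous
    exact (continuousOn_pi.1 ((h1 a.1).comp c1.continuousOn fun x hx => (hb x).1 hx a.1)) a.2
  · intro x hx y hy hxy
    exact funext fun j => h2 j ((hb x).1 hx j) ((hb y).1 hy j)
      (funext fun i => congrFun hxy ⟨j, i⟩)
  · convert FPi_trop h3 using 1
    ext z
    constructor
    · rintro ⟨x, hx, rfl⟩ j
      exact ⟨x j, (hb x).1 hx j, rfl⟩
    · intro hz
      choose x hx ex using hz
      exact ⟨x, (hb x).2 hx, funext fun a => congrFun (ex a.1) a.2⟩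

theorem Sp.Good.pi (h : ∀ j, (S j).Good) : (Sp.pi S).Good := by
  choose κ m hκ hp using fun j => (h j).par
  choose n hn using fun j => (h j).fine
  have h0 : 0 ≤ ∑ j, κ j := Finset.sum_nonneg fun j _ => (hκ j).le
  refine ⟨Sp.Geo.pi fun j => (h j).geo, ⟨1 + ∑ j, κ j, ∑ j, m j, by linarith,
    Sp.Par.pi fun j => (hp j).mono ?_⟩, ⟨_, Sp.Fine.pi hn⟩⟩
  have := Finset.single_le_sum (f := κ) (fun j _ => (hκ j).le) (Finset.mem_univ j)
  linarith

end Pool.Agent.MP_f7db47_al.GF
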