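import Pool.Agent.MP_f7db47_al.GF.PPNet

/-!
Balls in the space of ultrametric norms.
-/

namespace Pool.Agent.MP_f7db47_al.GF

open Metric

section aux

variable {p : ℕ} [Fact p.Prime] {ι : Type} [Fintype ι] [DecidableEq ι]

theorem PPFine_hb (p : ℕ) [hp : Fact p.Prime] : (1 : ℝ) < p := by exact_mod_cast hp.out.one_lt

theorem PPFine_b0 (p : ℕ) [Fact p.Prime] : (0 : ℝ) < p := zero_lt_one.trans (PPFine_hb p)

theorem PPFine_le {s t : ℝ} : (p : ℝ) ^ s ≤ (p : ℝ) ^ t ↔ s ≤ t :=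
  Real.rpow_le_rpow_left_iff (PPFine_hb p)

theorem PPFine_zero (x : (plcP p ι).X) : x.1 (0 : ι → ℚ_[p]) = 0 := by
  obtain ⟨_, g, a, rfl⟩ := x
  have h := Plc.nrm_smul (P := plcP p ι) g a 0 0
  rw [norm_zero, zero_mul, zero_smul] at h
  exact h

theorem PPFine_pos {r : ℝ} (hr : 0 ≤ r) {x : (plcP p ι).X}
    (hx : x ∈ closedBall (plcP p ι).sp.o r) {u : ι → ℚ_[p]} (hu : u ≠ 0) : 0 < x.1 u := by
  have h := ((plcP_ball r hr x).1 hx u).2
  have h1 : 0 < ‖u‖ := norm_pos_iff.2 hu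
  exact pos_of_mul_pos_right (h1.trans_le h) (Real.rpow_nonneg (PPFine_b0 p).le _)

theorem PPFine_exp {r : ℝ} (hr : 0 ≤ r) {x : (plcP p ι).X}
    (hx : x ∈ closedBall (plcP p ι).sp.o r) {u : ι → ℚ_[p]} (hu : u ≠ 0) :
    x.1 u = (p : ℝ) ^ (Real.logb p (x.1 u)) :=
  (Real.rpow_logb (PPFine_b0 p) (PPFine_hb p).ne' (PPFine_pos hr hx hu)).symm

theorem PPFine_log (t : ℝ) : Real.logb p ((p : ℝ) ^ t) = t :=
  Real.logb_rpow (PPFine_b0 p) (PPFine_hb p).ne'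

omit [DecidableEq ι] in
theorem PPFine_norm {u : ι → ℚ_[p]} (hu : u ≠ 0) : ∃ z : ℤ, ‖u‖ = (p : ℝ) ^ (z : ℝ) := by
  obtain ⟨i0, -⟩ := Function.ne_iff.1 hu
  obtain ⟨i, -, hi⟩ := Finset.exists_max_image Finset.univ (fun i => ‖u i‖)
    ⟨i0, Finset.mem_univ _⟩
  have e : ‖u‖ = ‖u i‖ := le_antisymm
    ((pi_norm_le_iff_of_nonneg (norm_nonneg _)).2 fun j => hi j (Finset.mem_univ _))
    (norm_le_pi_norm u i)
  have h0 : u i ≠ 0 := by
    intro h
    rw [h, norm_zero] at e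
    exact hu (norm_eq_zero.1 e)
  exact ⟨-(u i).valuation, by rw [e, Real.rpow_intCast, Padic.norm_eq_zpow_neg_valuation h0]⟩

theorem PPFine_lip {r : ℝ} (hr : 0 ≤ r) {x y : (plcP p ι).X}
    (hx : x ∈ closedBall (plcP p ι).sp.o r) (hy : y ∈ closedBall (plcP p ι).sp.o r)
    {u : ι → ℚ_[p]} (hu : u ≠ 0) :
    Real.logb p (x.1 u) ≤ dist x y + Real.logb p (y.1 u) := by
  have h := ((Plc.dist_le_iff (x := x) (y := y) dist_nonneg).1 le_rfl).1 u
  change x.1 u ≤ (p : ℝ) ^ dist x y * y.1 u at h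
  rw [PPFine_exp hr hx hu, PPFine_exp hr hy hu, ← Real.rpow_add (PPFine_b0 p), PPFine_le] at h
  exact h

theorem PPFine_lip2 {r : ℝ} (hr : 0 ≤ r) {x y : (plcP p ι).X}
    (hx : x ∈ closedBall (plcP p ι).sp.o r) (hy : y ∈ closedBall (plcP p ι).sp.o r)
    {u : ι → ℚ_[p]} (hu : u ≠ 0) :
    dist (-Real.logb p (x.1 u)) (-Real.logb p (y.1 u)) ≤ dist x y := by
  have h1 := PPFine_lip hr hx hy hu
  have h2 := PPFine_lip hr hy hx hu
  rw [dist_comm] at h2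
  rw [Real.dist_eq, abs_le]
  exact ⟨by linarith, by linarith⟩

theorem PPFine_max {r : ℝ} (hr : 0 ≤ r) {x y w : (plcP p ι).X} {c : ℝ} (hc : 0 ≤ c)
    (hx : x ∈ closedBall (plcP p ι).sp.o r) (hy : y ∈ closedBall (plcP p ι).sp.o r)
    (hw : ∀ u, w.1 u = max (x.1 u) ((p : ℝ) ^ (-c) * y.1 u)) :
    w ∈ closedBall (plcP p ι).sp.o r := by
  refine (plcP_ball r hr w).2 fun u => ⟨?_, ?_⟩
  · rw [hw]
    refine max_le ((plcP_ball r hr x).1 hx u).1 (le_trans ?_ ((plcP_ball r hr y).1 hy u).1)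
    exact mul_le_of_le_one_left (y.nonneg u)
      (Real.rpow_le_one_of_one_le_of_nonpos (PPFine_hb p).le (neg_nonpos.2 hc))
  · rw [hw]
    exact ((plcP_ball r hr x).1 hx u).2.trans (mul_le_mul_of_nonneg_left (le_max_left _ _)
      (Real.rpow_nonneg (PPFine_b0 p).le _))

theorem PPFine_round {r Q : ℕ} (hQ : 0 < Q) {x w : (plcP p ι).X}
    (hx : x ∈ closedBall (plcP p ι).sp.o r)
    (hw : ∀ (u : ι → ℚ_[p]) (t : ℝ), x.1 u = (p : ℝ) ^ t →
      w.1 u = (p : ℝ) ^ ((⌈(Q : ℝ) * t⌉ : ℝ) / Q)) :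
    w ∈ closedBall (plcP p ι).sp.o r := by
  have hr : (0 : ℝ) ≤ r := r.cast_nonneg
  have hQ' : (0 : ℝ) < Q := by exact_mod_cast hQ
  refine (plcP_ball r hr w).2 fun u => ?_
  by_cases hu : u = 0
  · subst hu
    have h0 := PPFine_zero w
    exact ⟨h0.trans_le (by rw [norm_zero, mul_zero]), by rw [h0, norm_zero, mul_zero]⟩
  obtain ⟨z, hz⟩ := PPFine_norm hu
  have h := (plcP_ball r hr x).1 hx u
  have e := PPFine_exp hr hx hu
  rw [hw u _ e]
  generalize Real.logb p (x.1 u) = t at e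
  rw [e, hz, ← Real.rpow_add (PPFine_b0 p), ← Real.rpow_add (PPFine_b0 p), PPFine_le,
    PPFine_le] at h
  rw [hz, ← Real.rpow_add (PPFine_b0 p), ← Real.rpow_add (PPFine_b0 p), PPFine_le, PPFine_le]
  constructor
  · rw [div_le_iff₀ hQ']
    have h1 : ⌈(Q : ℝ) * t⌉ ≤ ((r : ℤ) + z) * Q := by
      rw [Int.ceil_le]
      push_cast
      nlinarith [h.1]
    exact_mod_cast h1
  · have h1 : t ≤ (⌈(Q : ℝ) * t⌉ : ℝ) / Q := by
      rw [le_div_iff₀ hQ', mul_comm]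
      exact Int.le_ceil _
    linarith [h.2]

end aux

theorem plcP_fine (p : ℕ) [Fact p.Prime] {ι : Type} [Fintype ι] [DecidableEq ι] :
    (plcP p ι).sp.Fine (Fintype.card ι) := by
  intro r _
  have hr : (0 : ℝ) ≤ r := r.cast_nonneg
  obtain ⟨F, hF, hnet⟩ := plcP_net (p := p) (ι := ι) r
  refine ⟨{f // f ∈ F}, inferInstance,
    fun (x : (plcP p ι).X) f => -Real.logb p (x.1 f.1), ?_, ?_, ?_, ?_, ?_⟩
  · refine (LipschitzOnWith.of_dist_le_mul (K := 1) fun x hx y hy => ?_).continuousOn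
    rw [NNReal.coe_one, one_mul]
    refine (dist_pi_le_iff dist_nonneg).2 fun f => ?_
    exact PPFine_lip2 hr hx hy (hF f.1 f.2)
  · intro x hx y hy h
    refine Subtype.ext (funext fun u => ?_)
    by_cases hu : u = 0
    · subst hu
      exact (PPFine_zero x).trans (PPFine_zero y).symm
    obtain ⟨f, hf, z, hz⟩ := hnet u hu
    have h1 := neg_injective (congrFun h ⟨f, hf⟩)
    rw [hz x hx, hz y hy, PPFine_exp hr hx (hF f hf), PPFine_exp hr hy (hF f hf)]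
    exact congrArg _ (congrArg _ h1)
  · rintro _ ⟨x, hx, rfl⟩ _ ⟨y, hy, rfl⟩ c hc
    obtain ⟨w, hw⟩ := plcP_max x y c
    refine ⟨w, PPFine_max hr hc hx hy hw, funext fun f => ?_⟩
    have hm : Monotone fun t : ℝ => (p : ℝ) ^ t := fun s t h => PPFine_le.2 h
    have e : w.1 f.1 = (p : ℝ) ^ (max (Real.logb p (x.1 f.1)) (-c + Real.logb p (y.1 f.1))) := by
      rw [hm.map_max, Real.rpow_add (PPFine_b0 p), ← PPFine_exp hr hx (hF f.1 f.2),
        ← PPFine_exp hr hy (hF f.1 f.2), hw]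
    change -Real.logb p (w.1 f.1) = min (-Real.logb p (x.1 f.1)) (-Real.logb p (y.1 f.1) + c)
    rw [e, PPFine_log, ← min_neg_neg]
    congr 1
    ring
  · rintro Q hQ _ ⟨x, hx, rfl⟩
    obtain ⟨w, hw⟩ := plcP_round Q hQ x
    refine ⟨w, PPFine_round hQ hx hw, funext fun f => ?_⟩
    change -Real.logb p (w.1 f.1) = (⌊(Q : ℝ) * -Real.logb p (x.1 f.1)⌋ : ℝ) / Q
    rw [hw _ _ (PPFine_exp hr hx (hF f.1 f.2)), PPFine_log, mul_neg, Int.floor_neg]
    push_cast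
    ring
  · intro Q hQ z M hmono hmem hM
    have hQ' : (0 : ℝ) < Q := by exact_mod_cast hQ
    choose x hx hxe using hmem
    have hval : ∀ j (f : {f // f ∈ F}), (x j).1 f.1 = (p : ℝ) ^ (-((z j f : ℝ) / Q)) := by
      intro j f
      rw [PPFine_exp hr (hx j) (hF f.1 f.2), ← congrFun (hxe j) f, neg_neg]
    have key := plcP_chain (p := p) (ι := ι) Q hQ x M ?_ ?_ ?_
    · refine le_trans (Finset.card_le_card fun j hj => ?_) key
      simp only [Finset.mem_filter] at hj ⊢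
      refine ⟨hj.1, fun h => hj.2 (funext fun f => ?_)⟩
      have h1 := (congrFun (hxe (j + 1)) f).symm.trans (h ▸ congrFun (hxe j) f)
      have h2 : ((z (j + 1) f : ℤ) : ℝ) = z j f := (div_left_inj' hQ'.ne').1 h1
      exact_mod_cast h2
    · intro j u
      by_cases hu : u = 0
      · subst hu
        exact ((PPFine_zero _).trans (PPFine_zero _).symm).le
      obtain ⟨f, hf, t, ht⟩ := hnet u hu
      rw [ht _ (hx _), ht _ (hx _), hval _ ⟨f, hf⟩, hval _ ⟨f, hf⟩]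
      refine mul_le_mul_of_nonneg_left (PPFine_le.2 (neg_le_neg ?_))
        (Real.rpow_nonneg (PPFine_b0 p).le _)
      refine div_le_div_of_nonneg_right ?_ hQ'.le
      exact_mod_cast hmono (Nat.le_succ j) ⟨f, hf⟩
    · intro j u hu
      obtain ⟨f, hf, t, ht⟩ := hnet u hu
      refine ⟨t * Q - z j ⟨f, hf⟩, ?_⟩
      rw [ht _ (hx _), hval _ ⟨f, hf⟩, ← Real.rpow_add (PPFine_b0 p)]
      congr 1
      push_cast
      field_simp
      ring
    · intro u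
      by_cases hu : u = 0
      · subst hu
        exact (PPFine_zero _).trans_le (mul_nonneg (Real.rpow_nonneg (PPFine_b0 p).le _)
          (Plc.X.nonneg (P := plcP p ι) (x M) _))
      obtain ⟨f, hf, t, ht⟩ := hnet u hu
      rw [ht _ (hx _), ht _ (hx _), hval _ ⟨f, hf⟩, hval _ ⟨f, hf⟩,
        ← Real.rpow_add (PPFine_b0 p), ← Real.rpow_add (PPFine_b0 p),
        ← Real.rpow_add (PPFine_b0 p), PPFine_le]
      have h1 : ((z M ⟨f, hf⟩ : ℤ) : ℝ) ≤ z 0 ⟨f, hf⟩ + 1 := by exact_mod_cast hM ⟨f, hf⟩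
      have h2 : ((z M ⟨f, hf⟩ : ℤ) : ℝ) / Q ≤ (z 0 ⟨f, hf⟩ : ℝ) / Q + 1 / Q := by
        rw [← add_div]
        exact div_le_div_of_nonneg_right h1 hQ'.le
      linarith

end Pool.Agent.MP_f7db47_al.GF
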