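import Pool.Agent.MP_f7db47_al.GF.DF

/-!
Convex bodies are homeomorphic to tropically convex sets.
-/

namespace Pool.Agent.MP_f7db47_al.GF

theorem tropC_box (F : Type) [Fintype F] :
    TropC (Set.Icc (0 : F → ℝ) 1) (Fintype.card F) := by
  refine ⟨fun x hx y hy c hc => ⟨fun i => ?_, fun i => ?_⟩,
    fun Q hQ x hx => ⟨fun i => ?_, fun i => ?_⟩, fun Q _ z M hz _ hM => ?_⟩
  · exact le_min (hx.1 i) (add_nonneg (hy.1 i) hc)
  · exact (min_le_left _ _).trans (hx.2 i)
  · have h : (0 : ℝ) ≤ Q * x i := mul_nonneg Q.cast_nonneg (hx.1 i)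
    exact div_nonneg (Int.cast_nonneg (Int.floor_nonneg.2 h)) Q.cast_nonneg
  · have hQ' : (0 : ℝ) < Q := by exact_mod_cast hQ
    have h : x i ≤ 1 := hx.2 i
    change (⌊(Q : ℝ) * x i⌋ : ℝ) / Q ≤ 1
    rw [div_le_one hQ']
    exact (Int.floor_le _).trans (by nlinarith)
  · have h1 : ∑ j ∈ Finset.range M, (∑ i, z (j + 1) i - ∑ i, z j i) =
        ∑ i, z M i - ∑ i, z 0 i := Finset.sum_range_sub (fun j => ∑ i, z j i) M
    have h2 : ∑ i, z M i - ∑ i, z 0 i ≤ Fintype.card F := by
      rw [← Finset.sum_sub_distrib]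
      refine (Finset.sum_le_sum (g := fun _ => (1 : ℤ)) fun i _ => by linarith [hM i]).trans ?_
      simp
    have h3 : ∀ j, z (j + 1) ≠ z j → 1 ≤ ∑ i, z (j + 1) i - ∑ i, z j i := fun j hj => by
      have hle : z j ≤ z (j + 1) := hz (Nat.le_succ j)
      obtain ⟨i, hi⟩ := Function.ne_iff.1 hj
      have := Finset.sum_lt_sum (s := Finset.univ) (fun i _ => hle i)
        ⟨i, Finset.mem_univ i, lt_of_le_of_ne (hle i) hi.symm⟩
      omega
    have h4 : ∀ j, 0 ≤ ∑ i, z (j + 1) i - ∑ i, z j i := fun j =>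
      sub_nonneg.2 (Finset.sum_le_sum fun i _ => hz (Nat.le_succ j) i)
    refine Int.ofNat_le.1 (le_trans ?_ (h1.le.trans h2))
    rw [Finset.card_eq_sum_ones, Nat.cast_sum]
    refine (Finset.sum_le_sum fun j hj => ?_).trans
      (Finset.sum_le_sum_of_subset_of_nonneg (fun j hj => ?_) fun j _ _ => h4 j)
    · simp only [Finset.mem_filter] at hj
      exact_mod_cast h3 j hj.2
    · simp only [Finset.mem_filter] at hj
      exact hj.1

theorem convex_fine {E : Type} [NormedAddCommGroup E] [NormedSpace ℝ E] [FiniteDimensional ℝ E]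
    {s : Set E} (hc : Convex ℝ s) (hk : IsCompact s) (hi : (interior s).Nonempty) :
    ∃ e : E → Fin (Module.finrank ℝ E) → ℝ, Continuous e ∧ Function.Injective e ∧
      TropC (e '' s) (Module.finrank ℝ E) := by
  let L : E ≃L[ℝ] (Fin (Module.finrank ℝ E) → ℝ) :=
    ContinuousLinearEquiv.ofFinrankEq (by simp)
  have h1 : Convex ℝ (L '' s) := hc.linear_image L.toLinearEquiv.toLinearMap
  have h2 : IsCompact (L '' s) := hk.image L.continuous
  have h3 : (interior (L '' s)).Nonempty := by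
    have := L.toHomeomorph.image_interior s
    rw [ContinuousLinearEquiv.coe_toHomeomorph] at this
    rw [← this]
    exact hi.image _
  have h4 : (interior (Set.Icc (0 : Fin (Module.finrank ℝ E) → ℝ) 1)).Nonempty := by
    refine ⟨fun _ => 1 / 2, mem_interior_iff_mem_nhds.2 (pi_Icc_mem_nhds ?_ ?_)⟩ <;>
      intro i <;> norm_num
  obtain ⟨e, -, he, -⟩ := exists_homeomorph_image_eq h1 h3
    (NormedSpace.isVonNBounded_of_isBounded _ h2.isBounded) (convex_Icc 0 1) h4
    (NormedSpace.isVonNBounded_of_isBounded _ isCompact_Icc.isBounded)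
  rw [h2.isClosed.closure_eq, isClosed_Icc.closure_eq] at he
  refine ⟨e ∘ L, e.continuous.comp L.continuous, e.injective.comp L.injective, ?_⟩
  rw [Set.image_comp, he]
  simpa using tropC_box (Fin (Module.finrank ℝ E))

end Pool.Agent.MP_f7db47_al.GF
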