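import Pool.Agent.MP_f7db47_al.GF.PRJoin
import Pool.Agent.MP_f7db47_al.GF.PConv

/-!
Balls in the space of Euclidean norms.
-/

namespace Pool.Agent.MP_f7db47_al.GF

section

open Matrix Metric

variable {ι : Type} [Fintype ι] [DecidableEq ι]

/-- The symmetric matrix with the given entries. -/
def PRFine_mat (f : Sym2 ι → ℝ) : Matrix ι ι ℝ := Matrix.of fun i j => f s(i, j)

/-- The quadratic form with the given coefficients. -/
def PRFine_Q (f : Sym2 ι → ℝ) (u : ι → ℝ) : ℝ := u ⬝ᵥ PRFine_mat f *ᵥ u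

/-- Polarisation. -/
noncomputable def PRFine_pol (q : (ι → ℝ) → ℝ) : Sym2 ι → ℝ :=
  Sym2.lift ⟨fun i j => (q (Pi.single i 1 + Pi.single j 1) - q (Pi.single i 1) -
    q (Pi.single j 1)) / 2, fun i j => by
      beta_reduce
      rw [add_comm (Pi.single i 1 : ι → ℝ)]; ring⟩

omit [Fintype ι] [DecidableEq ι] in
theorem PRFine_symm (f : Sym2 ι → ℝ) : (PRFine_mat f).IsSymm := by
  ext i j
  simp only [PRFine_mat, transpose_apply, of_apply]
  rw [Sym2.eq_swap]

theorem PRFine_pol_eq {A : Matrix ι ι ℝ} (hA : A.IsSymm) {q : (ι → ℝ) → ℝ}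
    (hq : ∀ u, q u = u ⬝ᵥ A *ᵥ u) (i j : ι) : PRFine_pol q s(i, j) = A i j := by
  simp only [PRFine_pol, Sym2.lift_mk, hq, mulVec_add, add_dotProduct, dotProduct_add,
    single_dotProduct, mulVec_single_one, one_mul, col_apply]
  rw [hA.apply i j]
  ring

theorem PRFine_pol_Q (f : Sym2 ι → ℝ) : PRFine_pol (PRFine_Q f) = f := by
  funext z
  induction z using Sym2.ind with
  | h i j => exact PRFine_pol_eq (PRFine_symm f) (fun _ => rfl) i j

/-- The Gram matrix of a Euclidean norm. -/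
noncomputable def PRFine_gr (x : (plcR ι).X) : Sym2 ι → ℝ :=
  PRFine_pol fun u : ι → ℝ => x.1 u ^ 2

theorem PRFine_gr_Q (x : (plcR ι).X) (u : ι → ℝ) : PRFine_Q (PRFine_gr x) u = x.1 u ^ 2 := by
  obtain ⟨A, hA, h⟩ := plcR_gram x
  have e : PRFine_mat (PRFine_gr x) = A := by
    ext i j
    exact PRFine_pol_eq hA h i j
  rw [PRFine_Q, e, h]

theorem PRFine_inj : Function.Injective (PRFine_gr (ι := ι)) := fun x y h =>
  Subtype.ext (funext fun u => (sq_eq_sq₀ (x.nonneg u) (y.nonneg u)).1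
    ((PRFine_gr_Q x u).symm.trans (h ▸ PRFine_gr_Q y u)))

theorem PRFine_cont (P : Plc ι) (u : ι → P.k) : Continuous fun x : P.X => x.1 u := by
  refine continuous_iff_continuousAt.2 fun y => ?_
  have hb := Plc.b_pos (P := P)
  have h1 : Continuous fun x : P.X => P.b ^ dist x y :=
    continuous_const.rpow (continuous_id.dist continuous_const) fun _ => Or.inl hb.ne'
  have h2 : Filter.Tendsto (fun x : P.X => P.b ^ dist x y) (nhds y) (nhds 1) := by
    simpa using h1.tendsto y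
  have h3 : Filter.Tendsto (fun x : P.X => y.1 u / P.b ^ dist x y) (nhds y) (nhds (y.1 u)) := by
    have h := (tendsto_const_nhds (x := y.1 u)).div h2 one_ne_zero
    rwa [div_one] at h
  have h4 : Filter.Tendsto (fun x : P.X => P.b ^ dist x y * y.1 u) (nhds y) (nhds (y.1 u)) := by
    simpa using h2.mul_const (y.1 u)
  refine tendsto_of_tendsto_of_tendsto_of_le_of_le h3 h4 (fun x => ?_) fun x => ?_
  · have h := ((Plc.dist_le_iff (x := x) (y := y) dist_nonneg).1 le_rfl).2 u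
    exact (div_le_iff₀' (Real.rpow_pos_of_pos hb _)).2 h
  · exact ((Plc.dist_le_iff (x := x) (y := y) dist_nonneg).1 le_rfl).1 u

theorem PRFine_gr_cont : Continuous (PRFine_gr (ι := ι)) := by
  refine continuous_pi fun z => ?_
  induction z using Sym2.ind with
  | h i j =>
    simp only [PRFine_gr, PRFine_pol, Sym2.lift_mk]
    exact ((((PRFine_cont (plcR ι) _).pow 2).sub ((PRFine_cont (plcR ι) _).pow 2)).sub
      ((PRFine_cont (plcR ι) _).pow 2)).div_const 2

omit [DecidableEq ι] in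
theorem PRFine_Q_sum (f : Sym2 ι → ℝ) (u : ι → ℝ) :
    PRFine_Q f u = ∑ i, ∑ j, u i * (f s(i, j) * u j) := by
  simp only [PRFine_Q, PRFine_mat, dotProduct, mulVec, of_apply, Finset.mul_sum]

omit [DecidableEq ι] in
theorem PRFine_Q_lin (f g : Sym2 ι → ℝ) (a b : ℝ) (u : ι → ℝ) :
    PRFine_Q (a • f + b • g) u = a * PRFine_Q f u + b * PRFine_Q g u := by
  simp only [PRFine_Q_sum, Finset.mul_sum, ← Finset.sum_add_distrib, Pi.add_apply, Pi.smul_apply,
    smul_eq_mul]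
  refine Finset.sum_congr rfl fun i _ => Finset.sum_congr rfl fun j _ => by ring

omit [DecidableEq ι] in
theorem PRFine_Q_cont (u : ι → ℝ) : Continuous fun f : Sym2 ι → ℝ => PRFine_Q f u := by
  simp only [PRFine_Q_sum]
  fun_prop

omit [DecidableEq ι] in
theorem PRFine_Q_le (g : Sym2 ι → ℝ) (u : ι → ℝ) :
    |PRFine_Q g u| ≤ ‖g‖ * Fintype.card ι * (u ⬝ᵥ u) := by
  have h : ∀ i j, |u i * (g s(i, j) * u j)| ≤ ‖g‖ / 2 * (u i * u i) + ‖g‖ / 2 * (u j * u j) :=
    fun i j => by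
      have h1 : |g s(i, j)| ≤ ‖g‖ := norm_le_pi_norm g s(i, j)
      have h2 : |u i| * |u j| ≤ (u i * u i + u j * u j) / 2 := by
        nlinarith [sq_nonneg (|u i| - |u j|), sq_abs (u i), sq_abs (u j)]
      rw [abs_mul, abs_mul]
      calc |u i| * (|g s(i, j)| * |u j|) = |g s(i, j)| * (|u i| * |u j|) := by ring
        _ ≤ ‖g‖ * ((u i * u i + u j * u j) / 2) :=
          mul_le_mul h1 h2 (by positivity) (norm_nonneg g)
        _ = _ := by ring
  rw [PRFine_Q_sum]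
  refine (Finset.abs_sum_le_sum_abs _ _).trans ((Finset.sum_le_sum fun i _ =>
    (Finset.abs_sum_le_sum_abs _ _).trans (Finset.sum_le_sum fun j _ => h i j)).trans
    (le_of_eq ?_))
  simp only [Finset.sum_add_distrib, Finset.sum_const, Finset.card_univ, nsmul_eq_mul,
    ← Finset.mul_sum, dotProduct]
  ring

/-- The quadratic forms that are comparable with the standard one. -/
def PRFine_s (ι : Type) [Fintype ι] (c : ℝ) : Set (Sym2 ι → ℝ) :=
  {f | ∀ u : ι → ℝ, PRFine_Q f u ≤ c * (u ⬝ᵥ u) ∧ u ⬝ᵥ u ≤ c * PRFine_Q f u}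

omit [DecidableEq ι] in
theorem PRFine_convex (c : ℝ) : Convex ℝ (PRFine_s ι c) := by
  intro f hf g hg a b ha hb hab u
  obtain ⟨h1, h2⟩ := hf u
  obtain ⟨h3, h4⟩ := hg u
  rw [PRFine_Q_lin]
  obtain rfl : b = 1 - a := by linarith
  constructor
  · nlinarith [mul_le_mul_of_nonneg_left h1 ha, mul_le_mul_of_nonneg_left h3 hb]
  · nlinarith [mul_le_mul_of_nonneg_left h2 ha, mul_le_mul_of_nonneg_left h4 hb]

omit [DecidableEq ι] in
theorem PRFine_uu (u : ι → ℝ) : 0 ≤ u ⬝ᵥ u := Finset.sum_nonneg fun _ _ => mul_self_nonneg _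

theorem PRFine_compact {c : ℝ} (hc : 0 < c) : IsCompact (PRFine_s ι c) := by
  refine (isCompact_closedBall (0 : Sym2 ι → ℝ) (4 * c)).of_isClosed_subset ?_ fun f hf => ?_
  · rw [PRFine_s, Set.ofPred_forall]
    exact isClosed_iInter fun u => (isClosed_le (PRFine_Q_cont u) continuous_const).inter
      (isClosed_le continuous_const (continuous_const.mul (PRFine_Q_cont u)))
  · have h0 : ∀ u, 0 ≤ PRFine_Q f u := fun u =>
      nonneg_of_mul_nonneg_right ((PRFine_uu u).trans (hf u).2) hc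
    rw [mem_closedBall_zero_iff, pi_norm_le_iff_of_nonneg (by positivity)]
    intro z
    rw [← PRFine_pol_Q f]
    induction z using Sym2.ind with
    | h i j =>
      have h1 := (hf (Pi.single i 1)).1
      have h2 := (hf (Pi.single j 1)).1
      have h3 := (hf (Pi.single i 1 + Pi.single j 1)).1
      have h4 : (Pi.single i 1 + Pi.single j 1 : ι → ℝ) ⬝ᵥ (Pi.single i 1 + Pi.single j 1) ≤ 4 := by
        by_cases h : i = j
        · subst h; simp; norm_num
        · simp [h, Ne.symm h]; norm_num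
      have h5 := mul_le_mul_of_nonneg_left h4 hc.le
      simp only [single_dotProduct, Pi.single_eq_same, mul_one] at h1 h2
      simp only [PRFine_pol, Sym2.lift_mk, Real.norm_eq_abs, abs_le]
      constructor <;> linarith [h0 (Pi.single i 1), h0 (Pi.single j 1),
        h0 (Pi.single i 1 + Pi.single j 1)]

theorem PRFine_o (u : ι → ℝ) : (plcR ι).nrm 1 0 u ^ 2 = u ⬝ᵥ u := by
  refine (plcR_sq 1 0 u).trans (Finset.sum_congr rfl fun i _ => ?_)
  simp [sq]

theorem PRFine_int {c : ℝ} (hc : 2 ≤ c) : (interior (PRFine_s ι c)).Nonempty := by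
  have hn : (0 : ℝ) ≤ Fintype.card ι := Nat.cast_nonneg _
  refine ⟨PRFine_gr (plcR ι).sp.o, mem_interior_iff_mem_nhds.2 (Filter.mem_of_superset
    (closedBall_mem_nhds _ (show (0 : ℝ) < 1 / (2 * (Fintype.card ι + 1)) by positivity))
    fun f hf u => ?_)⟩
  have h1 := PRFine_Q_le (f - PRFine_gr (plcR ι).sp.o) u
  have h2 := PRFine_Q_lin f (PRFine_gr (plcR ι).sp.o) 1 (-1) u
  have h3 : PRFine_Q (PRFine_gr (plcR ι).sp.o) u = u ⬝ᵥ u :=
    (PRFine_gr_Q _ u).trans (PRFine_o u)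
  rw [one_smul, neg_one_smul, ← sub_eq_add_neg, h3] at h2
  rw [mem_closedBall, dist_eq_norm, le_div_iff₀ (by positivity)] at hf
  have h4 := norm_nonneg (f - PRFine_gr (plcR ι).sp.o)
  have h5 := PRFine_uu u
  rw [h2, abs_le] at h1
  generalize ‖f - PRFine_gr (plcR ι).sp.o‖ = δ at h1 hf h4
  have h6 : δ * Fintype.card ι * (u ⬝ᵥ u) ≤ 1 / 2 * (u ⬝ᵥ u) :=
    mul_le_mul_of_nonneg_right (by nlinarith) h5
  have h7 := mul_le_mul_of_nonneg_right hc h5
  have h8 : 1 / 2 * (u ⬝ᵥ u) ≤ PRFine_Q f u := by linarith [h1.1]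
  constructor
  · linarith [h1.2]
  · nlinarith [mul_le_mul_of_nonneg_left h8 (show 0 ≤ c by linarith)]

theorem PRFine_ball {r : ℝ} (hr : 0 ≤ r) (x : (plcR ι).X) :
    dist x (plcR ι).sp.o ≤ r ↔ PRFine_gr x ∈ PRFine_s ι (((2 : ℝ) ^ r) ^ 2) := by
  have h : ∀ a b : ℝ, 0 ≤ a → 0 ≤ b → (a ≤ 2 ^ r * b ↔ a ^ 2 ≤ (2 ^ r) ^ 2 * b ^ 2) :=
    fun a b ha hb => by rw [← mul_pow, sq_le_sq₀ ha (by positivity)]
  refine (Plc.dist_le_iff (P := plcR ι) (x := x) (y := (plcR ι).sp.o) hr).trans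
    (forall_and.symm.trans (forall_congr' fun u => ?_))
  rw [PRFine_gr_Q, ← PRFine_o]
  exact and_congr (h _ _ (x.nonneg u) (Plc.nrm_nonneg (P := plcR ι) 1 0 u))
    (h _ _ (Plc.nrm_nonneg (P := plcR ι) 1 0 u) (x.nonneg u))

theorem PRFine_image {r : ℝ} (hr : 0 ≤ r) :
    PRFine_gr '' {x : (plcR ι).X | dist x (plcR ι).sp.o ≤ r} =
      PRFine_s ι (((2 : ℝ) ^ r) ^ 2) := by
  refine Set.Subset.antisymm ?_ fun f hf => ?_
  · rintro _ ⟨x, hx, rfl⟩
    exact (PRFine_ball hr x).1 hx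
  · obtain ⟨U, a, -, h⟩ := plcR_of_gram (PRFine_mat f) (PRFine_symm f) fun u hu =>
      pos_of_mul_pos_right (((PRFine_uu u).lt_of_ne' fun e =>
        hu (dotProduct_self_eq_zero.1 e)).trans_le (hf u).2) (sq_nonneg _)
    have e : PRFine_gr (ι := ι) ⟨_, U, a, rfl⟩ = f :=
      (congrArg PRFine_pol (funext h)).trans (PRFine_pol_Q f)
    exact ⟨_, (PRFine_ball hr _).2 (e ▸ hf), e⟩

end

theorem plcR_fine {ι : Type} [Fintype ι] [DecidableEq ι] : ∃ n, (plcR ι).sp.Fine n := by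
  refine ⟨Module.finrank ℝ (Sym2 ι → ℝ), fun r hr => ?_⟩
  have h1 : (2 : ℝ) ≤ 2 ^ (r : ℝ) := by
    rw [Real.rpow_natCast]
    exact le_self_pow₀ one_le_two hr.ne'
  have h2 : (2 : ℝ) ≤ (2 ^ (r : ℝ)) ^ 2 := by nlinarith
  obtain ⟨e, hc, hi, ht⟩ := convex_fine (PRFine_convex (ι := ι) _)
    (PRFine_compact (two_pos.trans_le h2)) (PRFine_int h2)
  rw [← PRFine_image (Nat.cast_nonneg r), ← Set.image_comp] at ht
  exact ⟨_, inferInstance, e ∘ PRFine_gr, (hc.comp PRFine_gr_cont).continuousOn,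
    (hi.comp PRFine_inj).injOn, ht⟩

end Pool.Agent.MP_f7db47_al.GF
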