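import Pool.Agent.MP_f7db47_al.GF.PBase

/-!
Interpolation for Euclidean norms.
-/

set_option linter.unusedSectionVars false

namespace Pool.Agent.MP_f7db47_al.GF

open Matrix
open scoped Matrix.Norms.L2Operator

theorem PRInt_pow {s t K : ℝ} (ht : 0 ≤ t) (hK : 0 ≤ K)
    (h : ∀ k : ℕ, s ^ 2 ^ k ≤ K * t ^ 2 ^ k) : s ≤ t := by
  by_contra hc
  rw [not_le] at hc
  have hs : 0 < s := ht.trans_lt hc
  have hr : t / s < 1 := (div_lt_one hs).2 hc
  have hr0 : 0 ≤ t / s := div_nonneg ht hs.le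
  obtain ⟨n, hn⟩ := exists_pow_lt_of_lt_one (x := 1 / (K + 1)) (by positivity) hr
  have h1 : (t / s) ^ 2 ^ n ≤ (t / s) ^ n :=
    pow_le_pow_of_le_one hr0 hr.le Nat.lt_two_pow_self.le
  have h2 : 1 ≤ K * (t / s) ^ 2 ^ n := by
    rw [div_pow, ← mul_div_assoc, le_div_iff₀ (pow_pos hs _), one_mul]
    exact h n
  have h3 : (t / s) ^ n * (K + 1) < 1 := (lt_div_iff₀ (by positivity)).1 hn
  have h4 : K * (t / s) ^ 2 ^ n ≤ K * (t / s) ^ n := mul_le_mul_of_nonneg_left h1 hK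
  have h5 : 0 ≤ (t / s) ^ n := pow_nonneg hr0 n
  nlinarith

theorem PRInt_max {F : ℝ → ℝ} (hF : Continuous F) (h0 : ∀ l, 0 ≤ F l)
    (hm : ∀ m η, F m * F m ≤ F (m - η) * F (m + η)) (ha : F 0 ≤ 1) (hb : F 1 ≤ 1) {l : ℝ}
    (hl : l ∈ Set.Icc (0 : ℝ) 1) : F l ≤ 1 := by
  obtain ⟨x, hx, hmax⟩ := isCompact_Icc.exists_isMaxOn ⟨l, hl⟩ hF.continuousOn
  refine (hmax hl).trans ?_
  by_contra hc
  rw [not_le] at hc
  have hS : IsCompact (Set.Icc (0 : ℝ) 1 ∩ {y | F y = F x}) :=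
    isCompact_Icc.inter_right (isClosed_eq hF continuous_const)
  obtain ⟨y, ⟨hy, hy'⟩, hleast⟩ := hS.exists_isLeast ⟨x, hx, rfl⟩
  have hyx : F y = F x := hy'
  have hy0 : 0 < y := lt_of_le_of_ne hy.1 fun e => by rw [← e] at hyx; linarith
  have hy1 : y < 1 := lt_of_le_of_ne hy.2 fun e => by rw [e] at hyx; linarith
  have hη : 0 < min y (1 - y) := lt_min hy0 (sub_pos.2 hy1)
  have hη1 := min_le_left y (1 - y)
  have hη2 := min_le_right y (1 - y)
  have m1 : y - min y (1 - y) ∈ Set.Icc (0 : ℝ) 1 := ⟨by linarith, by linarith⟩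
  have m2 : y + min y (1 - y) ∈ Set.Icc (0 : ℝ) 1 := ⟨by linarith, by linarith⟩
  have e1 : F (y - min y (1 - y)) < F x := lt_of_le_of_ne (hmax m1) fun e => by
    have := hleast ⟨m1, e⟩
    linarith
  have e2 : F (y + min y (1 - y)) ≤ F x := hmax m2
  have e3 := hm y (min y (1 - y))
  rw [hyx] at e3
  have e4 := mul_le_mul_of_nonneg_left e2 (h0 (y - min y (1 - y)))
  nlinarith

section

variable {ι : Type} [Fintype ι] [DecidableEq ι]

/-- Positive diagonal matrices. -/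
noncomputable def PRInt_D (x : ι → ℝ) : Matrix ι ι ℝ := diagonal fun i => (2 : ℝ) ^ x i

theorem PRInt_D_mul (x y : ι → ℝ) : PRInt_D x * PRInt_D y = PRInt_D (x + y) := by
  rw [PRInt_D, PRInt_D, PRInt_D, diagonal_mul_diagonal]
  congr 1
  funext i
  rw [Pi.add_apply, Real.rpow_add two_pos]

theorem PRInt_D_zero : PRInt_D (0 : ι → ℝ) = 1 := by
  simp [PRInt_D]

theorem PRInt_D_inv (x : ι → ℝ) : PRInt_D (-x) * PRInt_D x = 1 := by
  rw [PRInt_D_mul, neg_add_cancel, PRInt_D_zero]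

theorem PRInt_D_inv' (x : ι → ℝ) : PRInt_D x * PRInt_D (-x) = 1 := by
  rw [PRInt_D_mul, add_neg_cancel, PRInt_D_zero]

theorem PRInt_D_star (x : ι → ℝ) : (PRInt_D x)ᴴ = PRInt_D x := by
  rw [PRInt_D, diagonal_conjTranspose]
  rfl

theorem PRInt_mid (X : Matrix ι ι ℝ) (x y : ι → ℝ) :
    ‖X‖ * ‖X‖ ≤ ‖PRInt_D (-x) * X * PRInt_D y‖ * ‖PRInt_D x * X * PRInt_D (-y)‖ := by
  have hT : (PRInt_D (-x) * X * PRInt_D y)ᴴ * (PRInt_D x * X * PRInt_D (-y)) =
      PRInt_D y * (Xᴴ * X) * PRInt_D (-y) := by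
    rw [conjTranspose_mul, conjTranspose_mul, PRInt_D_star, PRInt_D_star]
    simp only [Matrix.mul_assoc]
    rw [← Matrix.mul_assoc (PRInt_D (-x)), PRInt_D_inv, Matrix.one_mul]
  have hp : ∀ n : ℕ, (Xᴴ * X) ^ n =
      PRInt_D (-y) * (PRInt_D y * (Xᴴ * X) * PRInt_D (-y)) ^ n * PRInt_D y := by
    intro n
    induction n with
    | zero => rw [pow_zero, pow_zero, Matrix.mul_one, PRInt_D_inv]
    | succ n ih =>
      rw [pow_succ, pow_succ, ih]
      simp only [Matrix.mul_assoc]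
      rw [PRInt_D_inv, Matrix.mul_one]
  have hsa : IsSelfAdjoint (Xᴴ * X) := IsSelfAdjoint.star_mul_self X
  rw [← l2_opNorm_conjTranspose_mul_self, ← l2_opNorm_conjTranspose (PRInt_D (-x) * X * PRInt_D y)]
  refine le_trans ?_ (norm_mul_le _ _)
  rw [hT]
  refine PRInt_pow (K := ‖PRInt_D (-y)‖ * ‖PRInt_D y‖) (norm_nonneg _) (by positivity) fun k => ?_
  rw [← hsa.norm_pow_two_pow, hp]
  refine (norm_mul_le _ _).trans ?_
  rw [mul_right_comm]
  refine mul_le_mul_of_nonneg_right ((norm_mul_le _ _).trans ?_) (norm_nonneg _)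
  exact mul_le_mul_of_nonneg_left (norm_pow_le' _ (by positivity)) (norm_nonneg _)

theorem PRInt_nrm (g : GL ι ℝ) (a u : ι → ℝ) :
    (plcR ι).nrm g a u =
      ‖(WithLp.toLp 2 (PRInt_D a *ᵥ (g.val *ᵥ u)) : EuclideanSpace ℝ ι)‖ := by
  change ‖(WithLp.toLp 2 (fun i => ‖(g.val *ᵥ u) i‖ * (2 : ℝ) ^ a i) : EuclideanSpace ℝ ι)‖ = _
  rw [EuclideanSpace.norm_eq, EuclideanSpace.norm_eq]
  congr 1
  refine Finset.sum_congr rfl fun i _ => ?_
  simp only [PRInt_D, mulVec_diagonal, norm_mul, norm_norm, mul_comm]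

theorem PRInt_iff (g h : GL ι ℝ) (a c : ι → ℝ) :
    (∀ u : ι → ℝ, ‖(WithLp.toLp 2 (PRInt_D a *ᵥ (g.val *ᵥ u)) : EuclideanSpace ℝ ι)‖ ≤
      ‖(WithLp.toLp 2 (PRInt_D c *ᵥ (h.val *ᵥ u)) : EuclideanSpace ℝ ι)‖) ↔
      ‖PRInt_D a * (g.val * (h⁻¹).val) * PRInt_D (-c)‖ ≤ 1 := by
  have e : ∀ u : ι → ℝ, (PRInt_D a * (g.val * (h⁻¹).val) * PRInt_D (-c)) *ᵥ
      (PRInt_D c *ᵥ (h.val *ᵥ u)) = PRInt_D a *ᵥ (g.val *ᵥ u) := fun u => by
    simp only [mulVec_mulVec, Matrix.mul_assoc]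
    rw [← Matrix.mul_assoc (PRInt_D (-c)), PRInt_D_inv, Matrix.one_mul, Units.inv_mul,
      Matrix.mul_one]
  constructor
  · intro H
    rw [← l2_opNorm_toEuclideanCLM]
    refine ContinuousLinearMap.opNorm_le_bound _ zero_le_one fun v => ?_
    have e1 : PRInt_D c *ᵥ (h.val *ᵥ ((h⁻¹).val *ᵥ (PRInt_D (-c) *ᵥ v.ofLp))) = v.ofLp := by
      simp only [mulVec_mulVec]
      rw [← Matrix.mul_assoc h.val, Units.mul_inv, Matrix.one_mul, PRInt_D_inv', one_mulVec]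
    have h1 := H ((h⁻¹).val *ᵥ (PRInt_D (-c) *ᵥ v.ofLp))
    rw [← e, e1] at h1
    rw [one_mul]
    exact h1
  · intro H u
    rw [← e, ← toEuclideanCLM_toLp]
    refine (ContinuousLinearMap.le_opNorm _ _).trans ?_
    rw [l2_opNorm_toEuclideanCLM]
    exact mul_le_of_le_one_left (norm_nonneg _) H

theorem PRInt_cont (x y : ι → ℝ) : Continuous fun l : ℝ => PRInt_D (x + l • y) := by
  refine Continuous.matrix_diagonal (continuous_pi fun i => ?_)
  exact continuous_const.rpow (by fun_prop) fun _ => Or.inl two_ne_zero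

end

theorem PRInt_main {ι : Type} [Fintype ι] [DecidableEq ι] (M : Matrix ι ι ℝ) (a a' c c' : ι → ℝ)
    {l : ℝ} (h0 : 0 ≤ l) (h1 : l ≤ 1) (H : ‖PRInt_D a * M * PRInt_D (-c)‖ ≤ 1)
    (H' : ‖PRInt_D a' * M * PRInt_D (-c')‖ ≤ 1) :
    ‖PRInt_D ((1 - l) • a + l • a') * M * PRInt_D (-((1 - l) • c + l • c'))‖ ≤ 1 := by
  let F : ℝ → ℝ := fun t => ‖PRInt_D (a + t • (a' - a)) * M * PRInt_D (-c + t • (c - c'))‖
  have hF : Continuous F :=
    (((PRInt_cont _ _).mul continuous_const).mul (PRInt_cont _ _)).norm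
  have hm : ∀ m η, F m * F m ≤ F (m - η) * F (m + η) := fun m η => by
    refine (PRInt_mid _ (η • (a' - a)) (-(η • (c - c')))).trans_eq ?_
    simp only [F, ← Matrix.mul_assoc, PRInt_D_mul]
    simp only [Matrix.mul_assoc, PRInt_D_mul]
    congr 4
    · module
    · congr 1
      module
    · module
    · congr 1
      module
  have ha : F 0 ≤ 1 := by simpa [F] using H
  have hb : F 1 ≤ 1 := by
    have e : -c + (c - c') = -c' := by abel
    simpa [F, e] using H'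
  have h2 := PRInt_max hF (fun _ => norm_nonneg _) hm ha hb ⟨h0, h1⟩
  have e1 : (1 - l) • a + l • a' = a + l • (a' - a) := by module
  have e2 : -((1 - l) • c + l • c') = -c + l • (c - c') := by module
  rw [e1, e2]
  exact h2

theorem plcR_interp {ι : Type} [Fintype ι] [DecidableEq ι] : (plcR ι).Interp := by
  intro g h a a' c c' l h0 h1 H H' u
  have H1 := (PRInt_iff g h a c).1 fun v =>
    (PRInt_nrm g a v).symm.trans_le ((H v).trans_eq (PRInt_nrm h c v))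
  have H2 := (PRInt_iff g h a' c').1 fun v =>
    (PRInt_nrm g a' v).symm.trans_le ((H' v).trans_eq (PRInt_nrm h c' v))
  exact (PRInt_nrm g _ u).trans_le (((PRInt_iff g h _ _).2
    (PRInt_main _ a a' c c' h0 h1 H1 H2) u).trans_eq (PRInt_nrm h _ u).symm)

end Pool.Agent.MP_f7db47_al.GF
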