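import Pool.Agent.MP_f7db47_al.GF.PPar
import Pool.Agent.MP_f7db47_al.GF.PRInt
import Pool.Agent.MP_f7db47_al.GF.PRFine
import Pool.Agent.MP_f7db47_al.GF.PPFine

/-!
The spaces of norms at the places of the rational numbers.
-/

namespace Pool.Agent.MP_f7db47_al.GF

theorem plcR_loc (ι : Type) [Fintype ι] : (plcR ι).Loc := by
  refine ⟨fun r => isCompact_closedBall (0 : ℝ) r, fun r => cov_real r, fun a => ?_⟩
  have h : (0 : ℝ) < 2 ^ a := Real.rpow_pos_of_pos two_pos a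
  refine ⟨((2 : ℝ) ^ a : ℝ), h.ne', ?_, ?_⟩
  · show ‖(2 : ℝ) ^ a‖ ≤ (2 : ℝ) ^ a
    rw [Real.norm_of_nonneg h.le]
  · show (2 : ℝ) ^ a ≤ 2 * ‖(2 : ℝ) ^ a‖
    rw [Real.norm_of_nonneg h.le]
    linarith

theorem plcP_loc (p : ℕ) [Fact p.Prime] (ι : Type) [Fintype ι] : (plcP p ι).Loc := by
  have hp : p.Prime := Fact.out
  have h1 : (1 : ℝ) < p := by exact_mod_cast hp.one_lt
  have h0 : (0 : ℝ) < p := zero_lt_one.trans h1
  refine ⟨fun r => isCompact_closedBall (0 : ℚ_[p]) r, fun r => cov_padic p r, fun a => ?_⟩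
  have hn : ‖(p : ℚ_[p]) ^ (-⌊a⌋)‖ = (p : ℝ) ^ ((⌊a⌋ : ℤ) : ℝ) := by
    rw [Padic.norm_p_zpow, neg_neg, Real.rpow_intCast]
  have hz : (p : ℚ_[p]) ^ (-⌊a⌋) ≠ 0 := zpow_ne_zero _ (Nat.cast_ne_zero.2 hp.ne_zero)
  refine ⟨((p : ℚ_[p]) ^ (-⌊a⌋) : ℚ_[p]), hz, ?_, ?_⟩
  · show ‖(p : ℚ_[p]) ^ (-⌊a⌋)‖ ≤ (p : ℝ) ^ a
    rw [hn]
    exact Real.rpow_le_rpow_of_exponent_le h1.le (Int.floor_le a)
  · show (p : ℝ) ^ a ≤ p * ‖(p : ℚ_[p]) ^ (-⌊a⌋)‖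
    rw [hn, mul_comm, ← Real.rpow_add_one h0.ne']
    exact Real.rpow_le_rpow_of_exponent_le h1.le (Int.lt_floor_add_one a).le

theorem nspR (ι : Type) [Fintype ι] [DecidableEq ι] :
    Nonempty (NSp ι (fun a => |(a : ℝ)|) 2) := by
  have hg : (plcR ι).sp.Good :=
    ⟨Plc.geo plcR_join plcR_interp, Plc.par (plcR_loc ι), plcR_fine⟩
  have hd : DenseRange (Rat.castHom ℝ) := Rat.denseRange_cast
  exact Plc.nsp (P := plcR ι) hg (Rat.castHom ℝ) hd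

theorem nspP (p : ℕ) [Fact p.Prime] (ι : Type) [Fintype ι] [DecidableEq ι] :
    Nonempty (NSp ι (fun a => (padicNorm p a : ℝ)) p) := by
  have hg : (plcP p ι).sp.Good :=
    ⟨Plc.geo (plcP_join p) plcP_interp, Plc.par (plcP_loc p ι), ⟨_, plcP_fine p⟩⟩
  have h := Plc.nsp (P := plcP p ι) hg (Rat.castHom ℚ_[p]) (Padic.denseRange_ratCast p)
  have e : (fun a : ℚ => (padicNorm p a : ℝ)) = fun a : ℚ => ‖(a : ℚ_[p])‖ :=
    funext fun a => (Padic.eq_padicNorm a).symm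
  rw [e]
  exact h

end Pool.Agent.MP_f7db47_al.GF
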