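import Pool.Agent.MP_f7db47_al.GN.DA
import Pool.Agent.MP_f7db47_al.GN.DC

/-!
Flow spaces: definitions.
-/

namespace Pool.Agent.MP_f7db47_al.GF

open Metric

/-- Polynomial covering numbers. -/
def Cov {P : Type} [PseudoMetricSpace P] (s : Set P) (m : ℕ) : Prop :=
  ∃ A : ℝ, ∀ ε : ℝ, 0 < ε → ε ≤ 1 →
    ∃ E : Finset P, (E.card : ℝ) * ε ^ m ≤ A ∧ ∀ x ∈ s, ∃ e ∈ E, dist x e ≤ ε

/-- A flow on a proper metric space of finite dimension with a proper isometric action. -/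
structure Flow (Γ : Type) [Group Γ] (Y : Type) [MetricSpace Y] [MulAction Γ Y] where
  Φ : ℝ → Y → Y
  κ : ℝ
  m : ℕ
  hκ : 0 ≤ κ
  zero : ∀ y, Φ 0 y = y
  add : ∀ s t y, Φ (s + t) y = Φ s (Φ t y)
  smul : ∀ (γ : Γ) s y, Φ s (γ • y) = γ • Φ s y
  iso : ∀ (γ : Γ) (y y' : Y), dist (γ • y) (γ • y') = dist y y'
  lip : ∀ s y y', dist (Φ s y) (Φ s y') ≤ Real.exp (κ * |s|) * dist y y'
  spd : ∀ s t y, dist (Φ s y) (Φ t y) ≤ |s - t|
  prp : ∀ (y : Y) (r : ℝ), {γ : Γ | dist (γ • y) y ≤ r}.Finite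
  cpt : ∀ (y : Y) (r : ℝ), IsCompact (closedBall y r)
  cov : ∀ (y : Y) (r : ℝ), Cov (closedBall y r) m

namespace Flow

variable {Γ : Type} [Group Γ] {Y : Type} [MetricSpace Y] [MulAction Γ Y] (F : Flow Γ Y)

/-- The elements that preserve the flow line. -/
def Per (z : Y) : Subgroup Γ where
  carrier := {γ | ∃ t, γ • z = F.Φ t z}
  one_mem' := ⟨0, by rw [one_smul, F.zero]⟩
  mul_mem' := by
    rintro a b ⟨s, hs⟩ ⟨t, ht⟩
    exact ⟨t + s, by rw [mul_smul, ht, ← F.smul, hs, F.add]⟩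
  inv_mem' := by
    rintro a ⟨s, hs⟩
    refine ⟨-s, ?_⟩
    rw [inv_smul_eq_iff, ← F.smul, hs, ← F.add, neg_add_cancel, F.zero]

/-- Closeness up to the flow. -/
def Mv (β ε : ℝ) (y y' : Y) : Prop := ∃ s, |s| ≤ β ∧ dist (F.Φ s y) y' ≤ ε

end Flow

open Classical in
/-- Tropically convex sets of dimension at most `n`. -/
structure TropC {F : Type} (D : Set (F → ℝ)) (n : ℕ) : Prop where
  min : ∀ x ∈ D, ∀ y ∈ D, ∀ c : ℝ, 0 ≤ c → (fun i => min (x i) (y i + c)) ∈ D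
  floor : ∀ Q : ℕ, 0 < Q → ∀ x ∈ D, (fun i => (⌊(Q : ℝ) * x i⌋ : ℝ) / Q) ∈ D
  chain : ∀ Q : ℕ, 0 < Q → ∀ (z : ℕ → F → ℤ) (M : ℕ), Monotone z →
    (∀ j, (fun i => (z j i : ℝ) / Q) ∈ D) → (∀ i, z M i ≤ z 0 i + 1) →
    ((Finset.range M).filter fun j => z (j + 1) ≠ z j).card ≤ n

/-- A metric space with a base point and a set of lines. -/
structure Sp where
  X : Type
  [met : MetricSpace X]
  o : X
  L : Set (ℝ → X)

attribute [instance] Sp.met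

namespace Sp

/-- The lines of speed at most one near the base point form a compact family of finite
dimension. -/
def Par (S : Sp) (κ : ℝ) (m : ℕ) : Prop :=
  ∀ C : ℝ, ∃ (P : Type) (_ : PseudoMetricSpace P) (s : Set P) (π : P → ℝ → S.X) (A : ℝ),
    IsCompact s ∧ Cov s m ∧ (∀ p ∈ s, π p ∈ S.L ∧ dist (π p 0) (π p 1) ≤ 1) ∧
    (∀ p ∈ s, ∀ p' ∈ s, ∀ t, dist (π p t) (π p' t) ≤ A * dist p p' * Real.exp (κ * |t|)) ∧
    ∀ c ∈ S.L, dist (c 0) S.o ≤ C → dist (c 0) (c 1) ≤ 1 → ∃ p ∈ s, π p = c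

/-- Balls are homeomorphic to tropically convex sets of bounded dimension. -/
def Fine (S : Sp) (n : ℕ) : Prop :=
  ∀ r : ℕ, 0 < r → ∃ (F : Type) (_ : Fintype F) (e : S.X → F → ℝ),
    ContinuousOn e (closedBall S.o r) ∧ Set.InjOn e (closedBall S.o r) ∧
    TropC (e '' closedBall S.o r) n

/-- The lines behave like geodesics in a space of nonpositive curvature. -/
structure Geo (S : Sp) : Prop where
  aff : ∀ c ∈ S.L, ∀ a s : ℝ, (fun t => c (a * t + s)) ∈ S.L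
  join : ∀ x y, ∃ c ∈ S.L, c 0 = x ∧ c 1 = y
  conv : ∀ c ∈ S.L, ∀ c' ∈ S.L, ∀ l : ℝ, 0 ≤ l → l ≤ 1 →
    dist (c l) (c' l) ≤ (1 - l) * dist (c 0) (c' 0) + l * dist (c 1) (c' 1)

/-- All the axioms. -/
structure Good (S : Sp) : Prop where
  geo : S.Geo
  par : ∃ κ m, 0 < κ ∧ S.Par κ m
  fine : ∃ n, S.Fine n

/-- Finite products. -/
noncomputable def pi {J : Type} [Fintype J] (S : J → Sp) : Sp where
  X := ∀ j, (S j).X
  o := fun j => (S j).o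
  L := {c | ∀ j, (fun t => c t j) ∈ (S j).L}

end Sp

/-- A proper action by isometries that preserve the lines. -/
structure Act (Γ : Type) [Group Γ] (S : Sp) where
  ρ : Γ →* Equiv.Perm S.X
  iso : ∀ γ x y, dist (ρ γ x) (ρ γ y) = dist x y
  line : ∀ γ, ∀ c ∈ S.L, (fun t => ρ γ (c t)) ∈ S.L
  prp : ∀ r : ℝ, {γ | dist (ρ γ S.o) S.o ≤ r}.Finite

/-- An action that is cocompact away from finitely many types of cusps. -/
structure Pack (Γ : Type) [Group Γ] (S : Sp) (Fam : Set (Subgroup Γ)) extends Act Γ S where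
  ι : Type
  [fin : Fintype ι]
  h : ι → S.X → ℝ
  E : ι → S.X → S.X → Prop
  eqv : ∀ i, Equivalence (E i)
  E_inv : ∀ i γ x y, E i x y → E i (ρ γ x) (ρ γ y)
  h_inv : ∀ i γ x, h i (ρ γ x) = h i x
  h_lip : ∀ i x y, h i x ≤ h i y + dist x y
  near : ∀ i x y, dist x y < h i x → E i x y
  cc : ∀ T : ℝ, ∃ C : ℝ, ∀ x, (∀ i, h i x ≤ T) → ∃ γ, dist (ρ γ x) S.o ≤ C
  cusp : ∀ i x, 0 < h i x → ∃ B ∈ Fam, ∀ γ, E i x (ρ γ x) → γ ∈ B

attribute [instance] Pack.fin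

/-- The group acts on a good space, with cusp groups in the given family. -/
def HasPack (Γ : Type) [Group Γ] (Fam : Set (Subgroup Γ)) : Prop :=
  ∃ S : Sp, S.Good ∧ Nonempty (Pack Γ S Fam)

/-- A homotopy action of the finite set `S₀` on `D`. -/
structure HAct {G X : Type} [Group G] [MetricSpace X] (S₀ : Finset G) (D : Set X)
    (φ : G → X → X) (H : G → G → ℝ → X → X) : Prop where
  one : ∀ y ∈ D, φ 1 y = y
  maps : ∀ g ∈ S₀, ∀ g' ∈ S₀, ∀ u ∈ Set.Icc (0 : ℝ) 1, ∀ y ∈ D, H g g' u y ∈ D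
  cont : ∀ g ∈ S₀, ∀ g' ∈ S₀,
    ContinuousOn (fun p : ℝ × X => H g g' p.1 p.2) (Set.Icc 0 1 ×ˢ D)
  zero : ∀ g ∈ S₀, ∀ g' ∈ S₀, ∀ y ∈ D, H g g' 0 y = φ (g * g') y
  fin : ∀ g ∈ S₀, ∀ g' ∈ S₀, ∀ y ∈ D, H g g' 1 y = φ g (φ g' y)

open GN in
/-- Chain level data for the transfer. -/
structure ChD {G V : Type} [Group G] [LinearOrder V] (S₀ : Finset G) (K : Finset V)
    (Adj : V → V → Prop) (C : G → Finset V → Finset V) (n : ℕ)
    (φ : G → Finset V → (Finset V →₀ ℤ)) (H : G → G → Finset V → (Finset V →₀ ℤ)) : Prop where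
  dim : ∀ σ, Clq Adj K σ → σ.card ≤ n
  acyc : Acyc Adj K
  sub : ∀ g σ, C g σ ⊆ K
  one : ∀ σ, φ 1 σ = Finsupp.single σ 1
  emp : ∀ g, φ g ∅ = Finsupp.single ∅ 1
  chain : ∀ g ∈ S₀, ∀ g' ∈ S₀, ∀ σ, Clq Adj K σ → σ.Nonempty →
    Ch Adj (C (g * g') σ) σ.card (φ (g * g') σ) ∧ bd (φ (g * g') σ) = lin (φ (g * g')) (bd1 σ)
  H0 : ∀ g g', H g g' ∅ = 0
  htpy : ∀ g ∈ S₀, ∀ g' ∈ S₀, ∀ σ, Clq Adj K σ → σ.Nonempty →
    Ch Adj (C (g * g') σ) (σ.card + 1) (H g g' σ) ∧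
    bd (H g g' σ) + lin (H g g') (bd1 σ) = lin (φ g) (φ g' σ) - φ (g * g') σ

/-- Quasi-unipotent matrices. -/
def QU {ι K : Type} [Fintype ι] [DecidableEq ι] [CommRing K] (A : Matrix ι ι K) : Prop :=
  ∃ m : ℕ, 0 < m ∧ IsNilpotent (A ^ m - 1)

end Pool.Agent.MP_f7db47_al.GF
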