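import Pool.Agent.MP_f7db47_al.GF.AFin
import Pool.Agent.MP_f7db47_al.GF.BMain
import Pool.Agent.MP_f7db47_al.GF.FMain
import Pool.Agent.MP_f7db47_al.GF.FPi
import Pool.Agent.MP_f7db47_al.GF.PMain
import Pool.Agent.MP_f7db47_al.GS.Lin

/-!
Linear groups in characteristic zero.
-/

namespace Pool.Agent.MP_f7db47_al.GF

universe v

variable {R : Type v} [Ring R]

theorem packStmt : PackStmt :=
  packStmt_of (fun _ _ _ h => Sp.Good.pi h) (fun n => nspR (Fin n)) fun p _ n => nspP p (Fin n)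

theorem qq_glQ {G : Type} [Group G] {n : ℕ} (f : G →* GL (Fin n) ℚ)
    (h : ∀ (H : Subgroup G) (φ : H →* GN.MZ), (∀ g : H, φ g = 1 → QU (f g).val) → QQ R H) :
    QQ R G := by
  have h1 : QQ R PUnit.{1} := (h ⊥ 1 fun g _ => ⟨1, one_pos, by
    rw [Subgroup.mem_bot.1 g.2]; simp⟩).sub 1 fun _ _ _ => rfl
  exact qq_glQ_of (fun _ _ _ _ _ hP f hc hF => flow_thm h1 hP f hc hF) packStmt f h

theorem stB : GS.StB R := fun _ _ _ f h => qq_glQ f h

theorem qq_gl0 {G K : Type} [Group G] [Field K] [CharZero K] {n : ℕ}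
    (f : G →* GL (Fin n) K) (h : ∀ (H : Subgroup G) (φ : H →* Multiplicative ℤ),
      (∀ g : H, φ g = 1 → QU (f g).val) → QQ R H) : QQ R G := GS.qq_glQU stB f h

theorem qq_lin0 (hR : RegularRing R) {G K : Type} [Group G] [Field K] [CharZero K]
    {n : ℕ} (f : G →* GL (Fin n) K) (hf : Function.Injective f)
    (hT : ∀ g : G, IsOfFinOrder g → g = 1) : QQ R G := GS.qq_lin0 hR stB f hf hT

end Pool.Agent.MP_f7db47_al.GF
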