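import Mathlib

/-!
Approximation, and bases of lattices.
-/

namespace Pool.Agent.MP_f7db47_al.GF

open Matrix

theorem ADir_close (Q : ℕ) (hQ : 0 < Q) (x y : ℚ) (h : ⌊(Q : ℚ) * x⌋ = ⌊(Q : ℚ) * y⌋) :
    |x - y| ≤ 1 / Q := by
  have hQ' : (0 : ℚ) < Q := by exact_mod_cast hQ
  have h1 := Int.floor_le ((Q : ℚ) * x)
  have h2 := Int.lt_floor_add_one ((Q : ℚ) * x)
  have h3 := Int.floor_le ((Q : ℚ) * y)
  have h4 := Int.lt_floor_add_one ((Q : ℚ) * y)
  rw [h] at h1 h2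
  have h5 : |(x - y) * Q| ≤ 1 := by
    rw [abs_le]
    constructor <;> nlinarith
  rw [abs_mul, abs_of_pos hQ'] at h5
  rwa [le_div_iff₀ hQ']

theorem ADir_pair {ι : Type} (Q : ℕ) (hQ : 0 < Q) (a : ι → ℚ) (m₁ m₂ : ℕ) (hlt : m₁ < m₂)
    (h : ∀ j, ⌊(Q : ℚ) * Int.fract ((m₂ : ℚ) * a j)⌋ = ⌊(Q : ℚ) * Int.fract ((m₁ : ℚ) * a j)⌋) :
    ∃ z : ι → ℤ, ∀ j, |((m₂ - m₁ : ℕ) : ℚ) * a j - z j| ≤ 1 / Q := by
  refine ⟨fun j => ⌊(m₂ : ℚ) * a j⌋ - ⌊(m₁ : ℚ) * a j⌋, fun j => ?_⟩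
  have := ADir_close Q hQ _ _ (h j)
  rw [Nat.cast_sub hlt.le]
  convert this using 2
  simp only [Int.fract]
  push_cast
  ring

theorem dir {ι : Type} [Fintype ι] (Q : ℕ) (hQ : 0 < Q) (a : ι → ℚ) :
    ∃ m : ℕ, 1 ≤ m ∧ m ≤ Q ^ Fintype.card ι ∧ ∃ z : ι → ℤ, ∀ j, |(m : ℚ) * a j - z j| ≤ 1 / Q := by
  classical
  have hQ' : (0 : ℚ) < Q := by exact_mod_cast hQ
  have hmaps : ∀ m ∈ Finset.range (Q ^ Fintype.card ι + 1),
      (fun j => ⌊(Q : ℚ) * Int.fract ((m : ℚ) * a j)⌋) ∈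
        Fintype.piFinset (fun _ : ι => Finset.Ico (0 : ℤ) Q) := by
    intro m _
    rw [Fintype.mem_piFinset]
    intro j
    rw [Finset.mem_Ico]
    have h0 := Int.fract_nonneg ((m : ℚ) * a j)
    have h1 := Int.fract_lt_one ((m : ℚ) * a j)
    constructor
    · exact Int.floor_nonneg.mpr (by positivity)
    · rw [Int.floor_lt]
      push_cast
      nlinarith
  have hcard : (Fintype.piFinset (fun _ : ι => Finset.Ico (0 : ℤ) Q)).card <
      (Finset.range (Q ^ Fintype.card ι + 1)).card := by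
    simp [Fintype.card_piFinset]
  obtain ⟨m₁, hm₁, m₂, hm₂, hne, heq⟩ :=
    Finset.exists_ne_map_eq_of_card_lt_of_maps_to hcard hmaps
  rw [Finset.mem_range] at hm₁ hm₂
  rcases lt_or_gt_of_ne hne with hlt | hlt
  · obtain ⟨z, hz⟩ := ADir_pair Q hQ a m₁ m₂ hlt (fun j => (congrFun heq j).symm)
    exact ⟨m₂ - m₁, by omega, by omega, z, hz⟩
  · obtain ⟨z, hz⟩ := ADir_pair Q hQ a m₂ m₁ hlt (fun j => congrFun heq j)
    exact ⟨m₁ - m₂, by omega, by omega, z, hz⟩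

theorem ADir_not_dvd (p : ℕ) [hp : Fact p.Prime] {w : ℚ} (hw : padicNorm p w ≤ 1) :
    ¬ p ∣ w.den := by
  intro hd
  have h1 : padicNorm p (w.den : ℚ) < 1 := (padicNorm.nat_lt_one_iff _).mpr hd
  have h2 : padicNorm p (w.num : ℚ) < 1 := by
    rw [← Rat.mul_den_eq_num, padicNorm.mul]
    have := padicNorm.nonneg (p := p) w
    have := padicNorm.nonneg (p := p) (w.den : ℚ)
    nlinarith
  have h3 : (p : ℤ) ∣ w.num := (padicNorm.int_lt_one_iff _).mp h2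
  have h4 : p ∣ w.num.natAbs := Int.natCast_dvd.mp h3
  have h5 : p ∣ Nat.gcd w.num.natAbs w.den := Nat.dvd_gcd h4 hd
  rw [w.reduced] at h5
  exact hp.out.one_lt.ne' (Nat.dvd_one.mp h5)

theorem padic_approx (p : ℕ) [Fact p.Prime] (E : ℕ) {w : ℚ} (hw : padicNorm p w ≤ 1) :
    ∃ r : ℤ, padicNorm p ((w - r) / (p : ℚ) ^ E) ≤ 1 := by
  have hp : p.Prime := Fact.out
  have hnd := ADir_not_dvd p hw
  have hcop : Nat.Coprime w.den (p ^ E) :=
    Nat.Coprime.pow_right E ((Nat.Prime.coprime_iff_not_dvd hp).mpr hnd).symm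
  have hic : IsCoprime (w.den : ℤ) ((p : ℤ) ^ E) := by
    have := Nat.isCoprime_iff_coprime.mpr hcop
    simpa using this
  obtain ⟨u, v, huv⟩ := hic
  refine ⟨w.num * u, ?_⟩
  have hden : (w.den : ℚ) ≠ 0 := by exact_mod_cast w.den_nz
  have hpE : ((p : ℚ)) ^ E ≠ 0 := pow_ne_zero _ (by exact_mod_cast hp.ne_zero)
  have huv' : (u : ℚ) * w.den + v * (p : ℚ) ^ E = 1 := by exact_mod_cast huv
  have hw' : w * w.den = w.num := Rat.mul_den_eq_num w
  have key : (w - ((w.num * u : ℤ) : ℚ)) / (p : ℚ) ^ E = w * v := by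
    rw [div_eq_iff hpE]
    push_cast
    rw [← hw']
    linear_combination (-w) * huv'
  rw [key, padicNorm.mul]
  have h1 := padicNorm.of_int (p := p) v
  have h2 := padicNorm.nonneg (p := p) w
  have h3 := padicNorm.nonneg (p := p) (v : ℚ)
  nlinarith

theorem ADir_one (ι : Type) [Fintype ι] [DecidableEq ι] (m : ℕ) (hm : 0 < m)
    (L : Submodule ℤ (ι → ℤ)) (hL : ∀ z, (m : ℤ) • z ∈ L) :
    ∃ B : Matrix ι ι ℤ, B.det ≠ 0 ∧ ∀ z, z ∈ L ↔ ∃ y, B *ᵥ y = z := by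
  have hm' : (m : ℤ) ≠ 0 := by exact_mod_cast hm.ne'
  have hrank : Module.finrank ℤ L = Fintype.card ι := by
    apply le_antisymm
    · have := Submodule.finrank_le L
      simpa using this
    · let f : (ι → ℤ) →ₗ[ℤ] L :=
        LinearMap.codRestrict L ((m : ℤ) • LinearMap.id) (fun z => hL z)
      have hf : Function.Injective f := by
        intro x y hxy
        have h1 : (m : ℤ) • x = (m : ℤ) • y := congrArg Subtype.val hxy
        exact smul_right_injective _ hm' h1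
      have := LinearMap.finrank_le_finrank_of_injective hf
      simpa using this
  let b : Module.Basis ι ℤ L :=
    (Module.finBasisOfFinrankEq ℤ L hrank).reindex (Fintype.equivFin ι).symm
  let B : Matrix ι ι ℤ := fun i j => (b j : ι → ℤ) i
  have hB : ∀ y, B *ᵥ y = ((∑ j, y j • b j : L) : ι → ℤ) := by
    intro y
    funext i
    simp [B, Matrix.mulVec, dotProduct, Finset.sum_apply, mul_comm]
  refine ⟨B, ?_, fun z => ⟨fun hz => ?_, ?_⟩⟩
  · intro hdet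
    obtain ⟨y, hy0, hy⟩ := Matrix.exists_mulVec_eq_zero_iff.mpr hdet
    rw [hB] at hy
    have h1 : (∑ j, y j • b j : L) = 0 := Subtype.ext hy
    apply hy0
    funext j
    exact Fintype.linearIndependent_iff.mp b.linearIndependent y h1 j
  · refine ⟨fun j => b.repr ⟨z, hz⟩ j, ?_⟩
    rw [hB, b.sum_repr]
  · rintro ⟨y, rfl⟩
    rw [hB]
    exact Subtype.property _

theorem ADir_fin (ι : Type) [Fintype ι] [DecidableEq ι] (m : ℕ) (hm : 0 < m) :
    {L : Submodule ℤ (ι → ℤ) | ∀ z, (m : ℤ) • z ∈ L}.Finite := by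
  classical
  have hm' : (0 : ℤ) < m := by exact_mod_cast hm
  let T := Fintype.piFinset (fun _ : ι => Finset.Ico (0 : ℤ) m)
  have hmem : ∀ L : Submodule ℤ (ι → ℤ), (∀ z, (m : ℤ) • z ∈ L) → ∀ z : ι → ℤ,
      z ∈ L ↔ (fun i => z i % m) ∈ L := by
    intro L hL z
    have hz : z = (m : ℤ) • (fun i => z i / m) + fun i => z i % m := by
      funext i
      simp [Int.mul_ediv_add_emod]
    constructor
    · intro h
      rw [hz] at h
      exact (Submodule.add_mem_iff_right L (hL _)).mp h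
    · intro h
      rw [hz]
      exact L.add_mem (hL _) h
  have hT : ∀ z : ι → ℤ, (fun i => z i % m) ∈ T := by
    intro z
    rw [Fintype.mem_piFinset]
    intro i
    exact Finset.mem_Ico.mpr ⟨Int.emod_nonneg _ hm'.ne', Int.emod_lt_of_pos _ hm'⟩
  refine Set.Finite.of_finite_image (f := fun L => T.filter (fun r => r ∈ L))
    ((T.powerset.finite_toSet).subset ?_) ?_
  · rintro _ ⟨L, _, rfl⟩
    exact Finset.mem_coe.mpr (Finset.mem_powerset.mpr (Finset.filter_subset _ _))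
  · intro L hL L' hL' h
    ext z
    rw [hmem L hL z, hmem L' hL' z]
    have h1 := congrArg (fun s => (fun i => z i % m) ∈ s) h
    simpa [hT z] using h1

theorem lat_basis (ι : Type) [Fintype ι] [DecidableEq ι] (m : ℕ) (hm : 0 < m) :
    ∃ C : ℕ, ∀ L : Submodule ℤ (ι → ℤ), (∀ z, (m : ℤ) • z ∈ L) → ∃ B : Matrix ι ι ℤ,
      (∀ i j, |B i j| ≤ C) ∧ B.det ≠ 0 ∧ ∀ z, z ∈ L ↔ ∃ y, B *ᵥ y = z := by
  classical
  have hfin := ADir_fin ι m hm
  have : Finite {L : Submodule ℤ (ι → ℤ) | ∀ z, (m : ℤ) • z ∈ L} := hfin.to_subtype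
  choose B hB using fun L : {L : Submodule ℤ (ι → ℤ) | ∀ z, (m : ℤ) • z ∈ L} =>
    ADir_one ι m hm L.1 L.2
  obtain ⟨C, hC⟩ := (Set.finite_range
    (fun t : {L : Submodule ℤ (ι → ℤ) | ∀ z, (m : ℤ) • z ∈ L} × ι × ι =>
      (B t.1 t.2.1 t.2.2).natAbs)).bddAbove
  refine ⟨C, fun L hL => ⟨B ⟨L, hL⟩, fun i j => ?_, hB ⟨L, hL⟩⟩⟩
  have := hC ⟨(⟨L, hL⟩, i, j), rfl⟩
  rw [Int.abs_eq_natAbs]
  exact_mod_cast this

end Pool.Agent.MP_f7db47_al.GF
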