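import Pool.Agent.MP_f7db47_al.GF.AInt
import Pool.Agent.MP_f7db47_al.GF.ADir

/-!
Approximation at one place.
-/

namespace Pool.Agent.MP_f7db47_al.GF

theorem AApp_nat {p : ℕ} [hp : Fact p.Prime] {n : ℕ} (hn : n ≠ 0) :
    1 ≤ padicNorm p n * n := by
  have h1 : (p : ℚ) ^ padicValNat p n ≤ n := by
    exact_mod_cast Nat.le_of_dvd (Nat.pos_of_ne_zero hn) pow_padicValNat_dvd
  have h2 : (0 : ℚ) < (p : ℚ) ^ padicValNat p n := pow_pos (by exact_mod_cast hp.out.pos) _
  rw [padicNorm.eq_zpow_of_nonzero (by exact_mod_cast hn), padicValRat.of_nat, zpow_neg,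
    zpow_natCast, inv_mul_eq_div, one_le_div h2]
  exact h1

theorem AApp_pow {p : ℕ} [hp : Fact p.Prime] (E : ℕ) :
    padicNorm p ((p : ℚ) ^ E) = ((p : ℚ) ^ E)⁻¹ := by
  rw [IsAbsoluteValue.abv_pow (padicNorm p), padicNorm.padicNorm_p_of_prime, inv_pow]

theorem AApp_int {p : ℕ} [Fact p.Prime] {T x : ℚ} {ε : ℝ} (hT : (padicNorm p T : ℝ) ≤ ε)
    (hx : padicNorm p x ≤ 1) (m : ℕ) (z : ℤ) : (padicNorm p (T * (m * x - z)) : ℝ) ≤ ε := by
  have h1 : padicNorm p (m * x - z) ≤ 1 := by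
    refine padicNorm.sub.trans (max_le ?_ (padicNorm.of_int z))
    rw [padicNorm.mul]
    exact mul_le_one₀ (padicNorm.of_nat m) (padicNorm.nonneg x) hx
  refine le_trans ?_ hT
  rw [padicNorm.mul]
  exact_mod_cast mul_le_of_le_one_right (padicNorm.nonneg T) h1

theorem AApp_abs {T Q : ℕ} {ε : ℝ} (h : (T : ℝ) / Q ≤ ε) {x : ℚ} (hx : |x| ≤ 1 / Q) :
    |((T * x : ℚ) : ℝ)| ≤ ε := by
  have h1 : |(x : ℝ)| ≤ 1 / Q := by simpa using (Rat.cast_le (K := ℝ)).2 hx
  push_cast
  rw [abs_mul, Nat.abs_cast]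
  refine le_trans ?_ h
  rw [div_eq_mul_one_div]
  exact mul_le_mul_of_nonneg_left h1 (Nat.cast_nonneg T)

theorem avQ_app {q : ℕ} (hq : 0 < q) : App (avQ q) (ZQ q) := by
  intro ι _ ε hε
  obtain ⟨e, he⟩ := ZQ_shrink q ε hε
  rw [← Nat.cast_pow] at he
  have hT : 0 < q ^ e := pow_pos hq e
  generalize q ^ e = T at he hT
  obtain ⟨Q, hQ⟩ := exists_nat_gt ((T : ℝ) / ε)
  have hQ0 : (0 : ℝ) < Q := lt_of_le_of_lt (by positivity) hQ
  have hQ1 : (T : ℝ) / Q ≤ ε := by
    rw [div_le_iff₀ hQ0, mul_comm]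
    exact ((div_lt_iff₀ hε).1 hQ).le
  obtain ⟨E, hE⟩ : ∃ E, E = T * Q ^ Fintype.card ι := ⟨_, rfl⟩
  refine ⟨max E (q ^ E), fun v₀ w hw => ?_⟩
  rcases v₀ with _ | ⟨p, hp⟩
  · obtain ⟨m, h1, h2, z, hz⟩ := dir Q (by exact_mod_cast hQ0) w
    refine ⟨(T * m : ℕ), fun j => (T * z j : ℤ), fun j => intCast_mem _ _, ?_, ?_, fun j => ?_,
      fun v hv j => ?_⟩
    · simp only [avQ, Rat.cast_natCast, Nat.abs_cast]
      exact_mod_cast Nat.mul_pos hT h1
    · simp only [avQ, Rat.cast_natCast, Nat.abs_cast]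
      refine le_max_of_le_left ?_
      exact_mod_cast hE ▸ Nat.mul_le_mul_left T h2
    · convert AApp_abs hQ1 (hz j) using 1
      simp only [avQ]
      congr 2
      push_cast
      ring
    · rcases v with _ | ⟨p, hp⟩
      · exact absurd rfl hv
      · have := Fact.mk (Nat.prime_of_mem_primeFactors hp)
        convert AApp_int (he p hp) (padicNorm.of_int 0) 0 (-z j) using 1
        simp [avQ]
  · have := Fact.mk (Nat.prime_of_mem_primeFactors hp)
    have hp0 : (0 : ℚ) < (p : ℚ) ^ E := pow_pos (by exact_mod_cast this.out.pos) _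
    choose r hr using fun j => padic_approx p E (w := w j) (by
      have h := hw j
      simp only [avQ] at h
      exact_mod_cast h)
    obtain ⟨m, h1, h2, z, hz⟩ := dir Q (by exact_mod_cast hQ0) fun j => r j / (p : ℚ) ^ E
    have hc : avQ q (some ⟨p, hp⟩) ((T * m : ℕ) / (p : ℚ) ^ E) =
        (padicNorm p (T * m : ℕ) * (p : ℚ) ^ E : ℚ) := by
      simp only [avQ]
      rw [padicNorm.div, AApp_pow, div_inv_eq_mul]
    refine ⟨(T * m : ℕ) / (p : ℚ) ^ E, fun j => T * (m * (r j / (p : ℚ) ^ E) - z j),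
      fun j => mul_mem (natCast_mem _ _) (sub_mem (mul_mem (natCast_mem _ _) (ZQ_div hq hp E _))
        (intCast_mem _ _)), ?_, ?_, fun j => ?_, fun v hv j => ?_⟩
    · have h3 : T * m ≤ p ^ E := ((hE ▸ Nat.mul_le_mul_left T h2).trans
        Nat.lt_two_pow_self.le).trans (Nat.pow_le_pow_left this.out.two_le E)
      rw [hc]
      exact_mod_cast (AApp_nat (p := p) (Nat.mul_pos hT h1).ne').trans
        (mul_le_mul_of_nonneg_left (by exact_mod_cast h3) (padicNorm.nonneg _))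
    · have h3 : p ^ E ≤ q ^ E := Nat.pow_le_pow_left (Nat.le_of_mem_primeFactors hp) E
      rw [hc]
      refine le_max_of_le_right ?_
      exact_mod_cast (mul_le_of_le_one_left hp0.le (padicNorm.of_nat (T * m))).trans
        (show (p : ℚ) ^ E ≤ (q : ℚ) ^ E by exact_mod_cast h3)
    · convert AApp_int (he p hp) (hr j) m (-z j) using 1
      simp only [avQ]
      congr 2
      push_cast
      ring
    · rcases v with _ | ⟨p', hp'⟩
      · exact AApp_abs hQ1 (hz j)
      · have h' := Fact.mk (Nat.prime_of_mem_primeFactors hp')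
        have hne : p' ≠ p := fun h => hv (by subst h; rfl)
        refine AApp_int (he p' hp') ?_ m (z j)
        rw [padicNorm.div, IsAbsoluteValue.abv_pow (padicNorm p'),
          padicNorm.padicNorm_of_prime_of_ne hne, one_pow, div_one]
        exact padicNorm.of_int _

end Pool.Agent.MP_f7db47_al.GF
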