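import Pool.Agent.MP_f7db47_al.GF.AInt
import Pool.Agent.MP_f7db47_al.GF.ADir

/-!
Bounded bases.
-/

namespace Pool.Agent.MP_f7db47_al.GF

open Matrix

/-- Vectors that are integral at the primes dividing `q` and have an image over `ℤ[1/q]`. -/
def ABasL (q : ℕ) {ι : Type} [Fintype ι] (U : Matrix ι ι ℚ) : AddSubgroup (ι → ℚ) where
  carrier := {a | (∀ i, (U *ᵥ a) i ∈ ZQ q) ∧ ∀ p ∈ q.primeFactors, ∀ j, padicNorm p (a j) ≤ 1}
  add_mem' := by
    rintro a b ⟨a1, a2⟩ ⟨b1, b2⟩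
    refine ⟨fun i => ?_, fun p hp j => ?_⟩
    · rw [mulVec_add]
      exact add_mem (a1 i) (b1 i)
    · have := Fact.mk (Nat.prime_of_mem_primeFactors hp)
      exact padicNorm.nonarchimedean.trans (max_le (a2 p hp j) (b2 p hp j))
  zero_mem' := ⟨fun i => by rw [mulVec_zero]; exact zero_mem _, fun p _ j => by simp⟩
  neg_mem' := by
    rintro a ⟨a1, a2⟩
    refine ⟨fun i => ?_, fun p hp j => (padicNorm.neg _).trans_le (a2 p hp j)⟩
    rw [mulVec_neg]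
    exact neg_mem (a1 i)

theorem ABas_int {q : ℕ} {ι : Type} [Fintype ι] {U : Matrix ι ι ℚ} (hU : ∀ i j, U i j ∈ ZQ q)
    (z : ι → ℤ) : (fun j => (z j : ℚ)) ∈ ABasL q U :=
  ⟨fun i => sum_mem fun j _ => mul_mem (hU i j) (intCast_mem _ _), fun _ hp _ =>
    have := Fact.mk (Nat.prime_of_mem_primeFactors hp)
    padicNorm.of_int _⟩

theorem ABas_den {q : ℕ} (hq : 0 < q) (ι : Type) [Fintype ι] {ε : ℝ} (hε : 0 < ε) :
    ∃ m : ℕ, 0 < m ∧ ∀ U : Matrix ι ι ℚ, (∀ i j, U i j ∈ ZQ q) →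
      (∀ a : ι → ℚ, (∀ i, (U *ᵥ a) i ∈ ZQ q) → (∀ v j, avQ q v (a j) ≤ ε) → a = 0) →
      ∀ a ∈ ABasL q U, ∃ y : ι → ℤ, ∀ j, (m : ℚ) * a j = y j := by
  obtain ⟨e, he⟩ := ZQ_shrink q ε hε
  obtain ⟨Q, hQ⟩ := exists_nat_gt ((q : ℝ) ^ e / ε)
  have hQ0 : (0 : ℝ) < Q := lt_of_le_of_lt (by positivity) hQ
  refine ⟨(Q ^ Fintype.card ι).factorial, Nat.factorial_pos _, fun U hU hk a ha => ?_⟩
  obtain ⟨m, h1, h2, z, hz⟩ := dir Q (Nat.cast_pos.1 hQ0) a
  obtain ⟨b, hb⟩ : ∃ b : ι → ℚ, b = m • a - fun j => (z j : ℚ) := ⟨_, rfl⟩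
  have h3 : b ∈ ABasL q U := hb ▸ sub_mem (nsmul_mem ha m) (ABas_int hU z)
  have h4 : ∀ j, b j = m * a j - z j := fun j => by simp [hb]
  have h5 := hk (((q : ℚ) ^ e) • b) (fun i => ?_) fun v j => ?_
  · obtain ⟨t, ht⟩ := Nat.dvd_factorial h1 h2
    refine ⟨fun j => t * z j, fun j => ?_⟩
    have h6 : b j = 0 := congrFun ((smul_eq_zero.1 h5).resolve_left (by positivity)) j
    rw [ht]
    push_cast
    linear_combination t * h6 - t * h4 j
  · rw [mulVec_smul]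
    exact mul_mem (pow_mem (natCast_mem _ _) _) (h3.1 i)
  · rw [Pi.smul_apply, smul_eq_mul, avQ_mul]
    rcases v with _ | p
    · have h6 : |(b j : ℝ)| ≤ 1 / Q := by
        have h7 := (Rat.cast_le (K := ℝ)).2 (hz j)
        rwa [← h4, Rat.cast_abs, Rat.cast_div, Rat.cast_one, Rat.cast_natCast] at h7
      change |(((q : ℚ) ^ e : ℚ) : ℝ)| * |(b j : ℝ)| ≤ ε
      push_cast
      rw [abs_of_nonneg (by positivity)]
      refine (mul_le_mul_of_nonneg_left h6 (by positivity)).trans ?_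
      rw [mul_one_div, div_le_iff₀ hQ0, mul_comm]
      exact ((div_lt_iff₀ hε).1 hQ).le
    · have h6 : (padicNorm p.1 (b j) : ℝ) ≤ 1 := by exact_mod_cast h3.2 p.1 p.2 j
      exact (mul_le_of_le_one_right (avQ_nonneg q _ _) h6).trans (he p.1 p.2)

theorem avQ_bas {q : ℕ} (hq : 0 < q) : Bas (avQ q) (ZQ q) := by
  intro ι _ _ ε hε
  obtain ⟨m, hm, hden⟩ := ABas_den hq ι hε
  obtain ⟨C, hC⟩ := lat_basis ι m hm
  have hm0 : (m : ℚ) ≠ 0 := Nat.cast_ne_zero.2 hm.ne'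
  refine ⟨C + 1, fun U hU hk => ?_⟩
  let φ : (ι → ℤ) →+ ι → ℚ := AddMonoidHom.mk' (fun y j => (y j : ℚ) / m) fun y y' =>
    funext fun j => by simp [add_div]
  obtain ⟨B, h1, h2, h3⟩ := hC ((ABasL q U.val).comap φ).toIntSubmodule fun z => by
    have h : φ ((m : ℤ) • z) = fun j => (z j : ℚ) := funext fun j => by
      change (((m : ℤ) * z j : ℤ) : ℚ) / m = _
      push_cast
      field_simp
    change φ _ ∈ ABasL q U.val
    rw [h]
    exact ABas_int hU z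
  have h4 : ((m : ℚ)⁻¹ • B.map fun x => (x : ℚ)).det ≠ 0 := by
    rw [det_smul, ← Int.cast_det]
    exact mul_ne_zero (pow_ne_zero _ (inv_ne_zero hm0)) (Int.cast_ne_zero.2 h2)
  obtain ⟨M, hM⟩ : ∃ M : GL ι ℚ, ∀ i j, M.val i j = (B i j : ℚ) / m :=
    ⟨GeneralLinearGroup.mkOfDetNeZero _ h4, fun i j => (div_eq_inv_mul _ _).symm⟩
  have h5 : ∀ j, (fun i => M.val i j) ∈ ABasL q U.val := fun j => by
    have h : φ (B *ᵥ Pi.single j 1) ∈ ABasL q U.val := (h3 _).2 ⟨_, rfl⟩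
    rw [mulVec_single_one] at h
    rw [funext fun i => hM i j]
    exact h
  refine ⟨U * M, ⟨fun i j => (h5 j).1 i, fun i j => ?_⟩, fun v i j => ?_⟩
  · obtain ⟨e, he⟩ := ZQ_scale q fun k => (U⁻¹).val k j
    have h6 : (((q : ℚ) ^ e) • fun k => (U⁻¹).val k j) ∈ ABasL q U.val := by
      refine ⟨fun k => ?_, he⟩
      have h : (U * U⁻¹).val k j ∈ ZQ q := by
        rw [mul_inv_cancel]
        exact (GLZ (ZQ q) ι).one_mem.1 k j
      rw [mulVec_smul]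
      exact mul_mem (pow_mem (natCast_mem _ _) _) h
    obtain ⟨y₀, hy₀⟩ := hden U.val hU hk _ h6
    have h7 : φ y₀ = ((q : ℚ) ^ e) • fun k => (U⁻¹).val k j := funext fun k => by
      change (y₀ k : ℚ) / m = _
      rw [← hy₀ k, mul_div_cancel_left₀ _ hm0]
    obtain ⟨y, rfl⟩ := (h3 y₀).1 (show φ y₀ ∈ ABasL q U.val from h7 ▸ h6)
    have h8 : M.val *ᵥ (fun k => (y k : ℚ)) = φ (B *ᵥ y) := funext fun k => by
      change ∑ l, M.val k l * (y l : ℚ) = ((∑ l, B k l * y l : ℤ) : ℚ) / m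
      push_cast
      rw [Finset.sum_div]
      exact Finset.sum_congr rfl fun l _ => by rw [hM, div_mul_eq_mul_div]
    have h9 := congrArg (fun w => ((M⁻¹).val *ᵥ w) i) (h8.trans h7)
    simp only [mulVec_mulVec, Units.inv_mul, one_mulVec, mulVec_smul] at h9
    refine ⟨e, y i, ?_⟩
    rw [_root_.mul_inv_rev]
    exact h9.symm
  · rw [inv_mul_cancel_left]
    have h0 : (0 : ℝ) ≤ C := C.cast_nonneg
    rcases v with _ | p
    · have h6 : |(B i j : ℝ)| ≤ C := by exact_mod_cast h1 i j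
      have h7 : (1 : ℝ) ≤ m := Nat.one_le_cast.2 hm
      change |(M.val i j : ℝ)| ≤ _
      rw [hM]
      push_cast
      rw [abs_div, Nat.abs_cast]
      linarith [div_le_self (abs_nonneg (B i j : ℝ)) h7]
    · have h6 : (padicNorm p.1 (M.val i j) : ℝ) ≤ 1 := by exact_mod_cast (h5 j).2 p.1 p.2 i
      exact h6.trans (by linarith)

end Pool.Agent.MP_f7db47_al.GF
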