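import Pool.Agent.MP_f7db47_al.GF.DP

/-!
Arithmetic groups: definitions.
-/

namespace Pool.Agent.MP_f7db47_al.GF

open Matrix

universe v

/-- Invertible matrices over a subring. -/
def GLZ (Z : Subring ℚ) (ι : Type) [Fintype ι] [DecidableEq ι] : Subgroup (GL ι ℚ) where
  carrier := {g | (∀ i j, g.val i j ∈ Z) ∧ ∀ i j, (g⁻¹).val i j ∈ Z}
  one_mem' := by
    have h : ∀ i j : ι, (1 : Matrix ι ι ℚ) i j ∈ Z := fun i j => by
      rw [Matrix.one_apply]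
      split_ifs
      · exact Z.one_mem
      · exact Z.zero_mem
    exact ⟨h, h⟩
  mul_mem' := by
    rintro a b ⟨a1, a2⟩ ⟨b1, b2⟩
    refine ⟨fun i j => ?_, fun i j => ?_⟩
    · rw [Units.val_mul, Matrix.mul_apply]
      exact Z.sum_mem fun k _ => Z.mul_mem (a1 i k) (b1 k j)
    · rw [_root_.mul_inv_rev, Units.val_mul, Matrix.mul_apply]
      exact Z.sum_mem fun k _ => Z.mul_mem (b2 i k) (a2 k j)
  inv_mem' := fun h => ⟨h.2, by rw [inv_inv]; exact h.1⟩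

/-- Subgroups that preserve a proper nonzero subspace. -/
def FamZ (Z : Subring ℚ) (ι : Type) [Fintype ι] [DecidableEq ι] :
    Set (Subgroup (GLZ Z ι × GN.MZ)) :=
  {B | ∃ W : Submodule ℚ (ι → ℚ), W ≠ ⊥ ∧ W ≠ ⊤ ∧ ∀ γ ∈ B, ∀ u ∈ W, γ.1.1.val *ᵥ u ∈ W}

/-- Approximation at one place. -/
def App {J : Type} (av : J → ℚ → ℝ) (Z : Subring ℚ) : Prop :=
  ∀ (ι : Type) [Fintype ι] (ε : ℝ), 0 < ε → ∃ K : ℝ, ∀ (v₀ : J) (w : ι → ℚ),
    (∀ j, av v₀ (w j) ≤ 1) → ∃ (c : ℚ) (z : ι → ℚ), (∀ j, z j ∈ Z) ∧ 1 ≤ av v₀ c ∧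
      av v₀ c ≤ K ∧ (∀ j, av v₀ (c * w j - z j) ≤ ε) ∧ ∀ v, v ≠ v₀ → ∀ j, av v (z j) ≤ ε

/-- Existence of bounded bases. -/
def Bas {J : Type} (av : J → ℚ → ℝ) (Z : Subring ℚ) : Prop :=
  ∀ (ι : Type) [Fintype ι] [DecidableEq ι] (ε : ℝ), 0 < ε → ∃ C : ℝ, ∀ U : GL ι ℚ,
    (∀ i j, U.val i j ∈ Z) →
    (∀ a : ι → ℚ, (∀ i, (U.val *ᵥ a) i ∈ Z) → (∀ v j, av v (a j) ≤ ε) → a = 0) →
    ∃ g ∈ GLZ Z ι, ∀ v i j, av v ((U⁻¹ * g).val i j) ≤ C

/-- A finite set of places, and the ring of numbers that are integral at all other places. -/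
structure Plcs where
  J : Type
  [fin : Fintype J]
  av : J → ℚ → ℝ
  b : J → ℝ
  Z : Subring ℚ
  hb : ∀ v, 1 < b v
  av_nonneg : ∀ v a, 0 ≤ av v a
  av_zero : ∀ v, av v 0 = 0
  av_one : ∀ v, av v 1 = 1
  av_neg : ∀ v a, av v (-a) = av v a
  av_mul : ∀ v a a', av v (a * a') = av v a * av v a'
  disc : ∀ a ∈ Z, (∀ v, av v a < 1) → a = 0
  finite : ∀ C : ℝ, {a | a ∈ Z ∧ ∀ v, av v a ≤ C}.Finite
  app : App av Z
  bas : Bas av Z

attribute [instance] Plcs.fin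

/-- The ring `ℤ[1/q]`. -/
def ZQ (q : ℕ) : Subring ℚ where
  carrier := {a | ∃ (e : ℕ) (z : ℤ), (q : ℚ) ^ e * a = z}
  zero_mem' := ⟨0, 0, by simp⟩
  one_mem' := ⟨0, 1, by simp⟩
  add_mem' := by
    rintro a a' ⟨e, z, h⟩ ⟨e', z', h'⟩
    refine ⟨e + e', q ^ e' * z + q ^ e * z', ?_⟩
    push_cast
    rw [← h, ← h']
    ring
  neg_mem' := by
    rintro a ⟨e, z, h⟩
    exact ⟨e, -z, by rw [mul_neg, h, Int.cast_neg]⟩
  mul_mem' := by
    rintro a a' ⟨e, z, h⟩ ⟨e', z', h'⟩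
    refine ⟨e + e', z * z', ?_⟩
    push_cast
    rw [← h, ← h']
    ring

/-- The absolute values at infinity and at the primes dividing `q`. -/
noncomputable def avQ (q : ℕ) : Option q.primeFactors → ℚ → ℝ
  | none => fun a => |(a : ℝ)|
  | some p => fun a => (padicNorm p.1 a : ℝ)

/-- The bases of the logarithms. -/
noncomputable def bQ (q : ℕ) : Option q.primeFactors → ℝ
  | none => 2
  | some p => (p.1 : ℝ)

namespace Plcs

variable {ι : Type} [Fintype ι] [DecidableEq ι] {D : Plcs} (N : ∀ v, NSp ι (D.av v) (D.b v))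

/-- The product of the spaces of norms. -/
noncomputable def sp : Sp := Sp.pi fun v => (N v).S

/-- The diagonal action. -/
noncomputable def act : GLZ D.Z ι × GN.MZ →* Equiv.Perm (sp N).X where
  toFun γ := Equiv.piCongrRight fun v => (N v).ρ (γ.1.1, γ.2)
  map_one' := Equiv.ext fun x => funext fun v => by
    change (N v).ρ 1 (x v) = x v
    rw [map_one]; rfl
  map_mul' γ γ' := Equiv.ext fun x => funext fun v => by
    change (N v).ρ ((γ.1.1, γ.2) * (γ'.1.1, γ'.2)) (x v) = _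
    rw [map_mul]; rfl

/-- Integral vectors of bounded size. -/
def Box (x : (sp N).X) (s : ℝ) : Set (ι → ℚ) :=
  {u | (∀ i, u i ∈ D.Z) ∧ ∀ v, (N v).ν (x v) u ≤ D.b v ^ s}

/-- The span of the integral vectors of bounded size. -/
def Wd (x : (sp N).X) (s : ℝ) : Submodule ℚ (ι → ℚ) := Submodule.span ℚ (Box N x s)

/-- The successive minima. -/
noncomputable def lam (r : ℕ) (x : (sp N).X) : ℝ :=
  sInf {s | r ≤ Module.finrank ℚ (Wd N x s)}

end Plcs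

/-- The statement of the theorem on flow spaces. -/
def FlowStmt (R : Type v) [Ring R] : Prop :=
  ∀ (Γ G : Type) [Group Γ] [Group G] (Fam : Set (Subgroup Γ)), HasPack Γ Fam → ∀ f : G →* Γ,
    (∀ (B : Subgroup Γ) (φ : B →* GN.MZ), (∀ g, φ g = 1 → IsOfFinOrder g) → QQ R (B.comap f)) →
    (∀ B ∈ Fam, QQ R (B.comap f)) → QQ R G

/-- The statement of reduction theory. -/
def PackStmt : Prop :=
  ∀ (n : ℕ) (F : Finset ℚ), ∃ Z : Subring ℚ, (∀ a ∈ F, a ∈ Z) ∧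
    HasPack (GLZ Z (Fin (n + 1)) × GN.MZ) (FamZ Z (Fin (n + 1)))

end Pool.Agent.MP_f7db47_al.GF
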