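import Pool.Agent.MP_f7db47_al.GF.APack
import Pool.Agent.MP_f7db47_al.GF.AApp
import Pool.Agent.MP_f7db47_al.GF.ABas

/-!
Reduction theory for the groups `GL_n(ℤ[1/q])`.
-/

namespace Pool.Agent.MP_f7db47_al.GF

/-- The places attached to `q`. -/
noncomputable def plcsQ {q : ℕ} (hq : 0 < q) : Plcs where
  J := Option q.primeFactors
  av := avQ q
  b := bQ q
  Z := ZQ q
  hb := bQ_lt q
  av_nonneg := avQ_nonneg q
  av_zero := avQ_zero q
  av_one := avQ_one q
  av_neg := avQ_neg q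
  av_mul := avQ_mul q
  disc := avQ_disc hq
  finite := avQ_finite hq
  app := avQ_app hq
  bas := avQ_bas hq

theorem packStmt_of
    (hpi : ∀ (J : Type) [Fintype J] (S : J → Sp), (∀ j, (S j).Good) → (Sp.pi S).Good)
    (hR : ∀ n : ℕ, Nonempty (NSp (Fin n) (fun a => |(a : ℝ)|) 2))
    (hp : ∀ (p : ℕ) [Fact p.Prime] (n : ℕ),
      Nonempty (NSp (Fin n) (fun a => (padicNorm p a : ℝ)) p)) : PackStmt := by
  intro n F
  obtain ⟨q, hq, hF⟩ := exists_ZQ F
  have h : ∀ v : (plcsQ hq).J,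
      Nonempty (NSp (Fin (n + 1)) ((plcsQ hq).av v) ((plcsQ hq).b v)) := by
    rintro (_ | p)
    · exact hR _
    · have : Fact p.1.Prime := ⟨Nat.prime_of_mem_primeFactors p.2⟩
      exact hp p.1 _
  exact ⟨ZQ q, hF, Plcs.hasPack (D := plcsQ hq) (fun v => (h v).some)
    (hpi _ _ fun v => (h v).some.good)⟩

end Pool.Agent.MP_f7db47_al.GF
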