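import Pool.Agent.MP_f7db47_al.GF.AD

/-!
The ring `ℤ[1/q]` and its places.
-/

namespace Pool.Agent.MP_f7db47_al.GF

theorem ZQ_int {q : ℕ} (hq : 0 < q) {a : ℚ} (ha : a ∈ ZQ q)
    (h : ∀ p ∈ q.primeFactors, padicNorm p a ≤ 1) : ∃ z : ℤ, a = z := by
  obtain ⟨e, z, hz⟩ := ha
  refine ⟨a.num, ((Rat.den_eq_one_iff a).1 (by_contra fun hd => ?_)).symm⟩
  obtain ⟨p, hp, hpd⟩ := Nat.exists_prime_and_dvd hd
  have := Fact.mk hp
  have h1 : ¬ (p : ℤ) ∣ a.num := fun h1 =>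
    hp.one_lt.ne' (Nat.eq_one_of_dvd_coprimes a.reduced (Int.natCast_dvd.1 h1) hpd)
  have h2 : (q : ℤ) ^ e * a.num = a.den * z := by
    apply Int.cast_injective (α := ℚ)
    push_cast
    rw [← hz, ← Rat.den_mul_eq_num]
    ring
  have h3 : (p : ℤ) ∣ (q : ℤ) ^ e * a.num := h2 ▸ (Int.natCast_dvd_natCast.2 hpd).mul_right z
  have h4 := (Nat.prime_iff_prime_int.1 hp).dvd_of_dvd_pow
    (((Nat.prime_iff_prime_int.1 hp).dvd_or_dvd h3).resolve_right h1)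
  have h5 := h p (Nat.mem_primeFactors.2 ⟨hp, Int.natCast_dvd_natCast.1 h4, hq.ne'⟩)
  have h6 := (padicNorm.int_eq_one_iff (p := p) a.num).2 h1
  rw [← Rat.den_mul_eq_num, padicNorm.mul] at h6
  nlinarith [(padicNorm.nat_lt_one_iff (p := p) a.den).2 hpd, padicNorm.nonneg (p := p) a.den]

theorem ZQ_div {q : ℕ} (hq : 0 < q) {p : ℕ} (hp : p ∈ q.primeFactors) (E : ℕ) (z : ℤ) :
    (z : ℚ) / (p : ℚ) ^ E ∈ ZQ q := by
  obtain ⟨c, rfl⟩ := Nat.dvd_of_mem_primeFactors hp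
  have h1 : (p : ℚ) ≠ 0 := by exact_mod_cast (Nat.prime_of_mem_primeFactors hp).ne_zero
  refine ⟨E, c ^ E * z, ?_⟩
  push_cast
  rw [mul_pow]
  field_simp

theorem ZQ_shrink (q : ℕ) (ε : ℝ) (hε : 0 < ε) :
    ∃ e : ℕ, ∀ p ∈ q.primeFactors, (padicNorm p ((q : ℚ) ^ e) : ℝ) ≤ ε := by
  refine Filter.Eventually.exists (f := Filter.atTop) ((Filter.eventually_all_finset _).2
    fun p hp => ?_)
  have := Fact.mk (Nat.prime_of_mem_primeFactors hp)
  have h1 : (padicNorm p q : ℝ) < 1 := by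
    exact_mod_cast (padicNorm.nat_lt_one_iff q).2 (Nat.dvd_of_mem_primeFactors hp)
  refine ((tendsto_pow_atTop_nhds_zero_of_lt_one (Rat.cast_nonneg.2 (padicNorm.nonneg _))
    h1).eventually_le_const hε).mono fun e he => ?_
  rw [IsAbsoluteValue.abv_pow (padicNorm p), Rat.cast_pow]
  exact he

theorem ZQ_scale {ι : Type} [Fintype ι] (q : ℕ) (a : ι → ℚ) :
    ∃ e : ℕ, ∀ p ∈ q.primeFactors, ∀ j, padicNorm p ((q : ℚ) ^ e * a j) ≤ 1 := by
  have h0 : ∀ p j, (0 : ℝ) ≤ padicNorm p (a j) := fun p j => Rat.cast_nonneg.2 (padicNorm.nonneg _)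
  have h1 : (0 : ℝ) < 1 + ∑ p ∈ q.primeFactors, ∑ j, (padicNorm p (a j) : ℝ) :=
    add_pos_of_pos_of_nonneg one_pos (Finset.sum_nonneg fun p _ => Finset.sum_nonneg fun j _ =>
      h0 p j)
  obtain ⟨e, he⟩ := ZQ_shrink q _ (inv_pos.2 h1)
  refine ⟨e, fun p hp j => ?_⟩
  have := Fact.mk (Nat.prime_of_mem_primeFactors hp)
  have h2 := (Finset.single_le_sum (fun j _ => h0 p j) (Finset.mem_univ j)).trans
    (Finset.single_le_sum (f := fun p => ∑ j, (padicNorm p (a j) : ℝ))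
      (fun p _ => Finset.sum_nonneg fun j _ => h0 p j) hp)
  rw [padicNorm.mul, ← Rat.cast_le (K := ℝ), Rat.cast_mul, Rat.cast_one]
  refine (mul_le_mul_of_nonneg_right (he p hp) (h0 p j)).trans ((inv_mul_le_one₀ h1).2 ?_)
  linarith

theorem exists_ZQ (F : Finset ℚ) : ∃ q : ℕ, 0 < q ∧ ∀ a ∈ F, a ∈ ZQ q := by
  refine ⟨∏ a ∈ F, a.den, Finset.prod_pos fun a _ => a.den_pos, fun a ha => ?_⟩
  obtain ⟨c, hc⟩ := Finset.dvd_prod_of_mem (fun a : ℚ => a.den) ha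
  refine ⟨1, c * a.num, ?_⟩
  rw [hc]
  push_cast
  rw [← Rat.den_mul_eq_num]
  ring

theorem avQ_disc {q : ℕ} (hq : 0 < q) : ∀ a ∈ ZQ q, (∀ v, avQ q v a < 1) → a = 0 := by
  intro a ha h
  obtain ⟨z, rfl⟩ := ZQ_int hq ha fun p hp => by
    have : (padicNorm p a : ℝ) < 1 := h (some ⟨p, hp⟩)
    exact_mod_cast this.le
  have h1 : |((z : ℚ) : ℝ)| < 1 := h none
  rw [Int.abs_lt_one_iff.1 (by exact_mod_cast h1 : |z| < 1), Int.cast_zero]

theorem avQ_finite {q : ℕ} (hq : 0 < q) (C : ℝ) :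
    {a | a ∈ ZQ q ∧ ∀ v, avQ q v a ≤ C}.Finite := by
  have h0 : 0 < |C| + 1 := by positivity
  obtain ⟨e, he⟩ := ZQ_shrink q _ (inv_pos.2 h0)
  have h1 : (q : ℚ) ^ e ≠ 0 := by positivity
  refine ((Set.finite_Icc (-⌈(q : ℝ) ^ e * C⌉) ⌈(q : ℝ) ^ e * C⌉).image
    fun z : ℤ => (z : ℚ) / (q : ℚ) ^ e).subset fun a ha => ?_
  obtain ⟨z, hz⟩ := ZQ_int (a := (q : ℚ) ^ e * a) hq
    ((ZQ q).mul_mem ((ZQ q).pow_mem (natCast_mem _ q) e) ha.1) fun p hp => by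
      have := Fact.mk (Nat.prime_of_mem_primeFactors hp)
      have h2 : (padicNorm p a : ℝ) ≤ C := ha.2 (some ⟨p, hp⟩)
      rw [padicNorm.mul, ← Rat.cast_le (K := ℝ), Rat.cast_mul, Rat.cast_one]
      refine (mul_le_mul_of_nonneg_right (he p hp) (Rat.cast_nonneg.2 (padicNorm.nonneg _))).trans
        ((inv_mul_le_one₀ h0).2 ?_)
      linarith [le_abs_self C]
  refine ⟨z, abs_le.1 (Int.cast_le (R := ℝ).1 (le_trans ?_ (Int.le_ceil _))), ?_⟩
  · have h2 : |(a : ℝ)| ≤ C := ha.2 none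
    have h3 : (z : ℝ) = (q : ℝ) ^ e * a := by exact_mod_cast congrArg (Rat.cast (K := ℝ)) hz.symm
    rw [Int.cast_abs, h3, abs_mul, abs_of_nonneg (by positivity)]
    gcongr
  · simp only [← hz]
    field_simp

theorem bQ_lt (q : ℕ) (v : Option q.primeFactors) : 1 < bQ q v := by
  cases v with
  | none => exact one_lt_two
  | some p => exact Nat.one_lt_cast.2 (Nat.prime_of_mem_primeFactors p.2).one_lt

theorem avQ_nonneg (q : ℕ) (v : Option q.primeFactors) (a : ℚ) : 0 ≤ avQ q v a := by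
  cases v with
  | none => exact abs_nonneg _
  | some p => exact Rat.cast_nonneg.2 (padicNorm.nonneg _)

theorem avQ_zero (q : ℕ) (v : Option q.primeFactors) : avQ q v 0 = 0 := by
  cases v <;> simp [avQ]

theorem avQ_one (q : ℕ) (v : Option q.primeFactors) : avQ q v 1 = 1 := by
  cases v <;> simp [avQ]

theorem avQ_neg (q : ℕ) (v : Option q.primeFactors) (a : ℚ) : avQ q v (-a) = avQ q v a := by
  cases v <;> simp [avQ]

theorem avQ_mul (q : ℕ) (v : Option q.primeFactors) (a a' : ℚ) :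
    avQ q v (a * a') = avQ q v a * avQ q v a' := by
  cases v with
  | none => simp [avQ, abs_mul]
  | some p =>
    have := Fact.mk (Nat.prime_of_mem_primeFactors p.2)
    simp [avQ]

end Pool.Agent.MP_f7db47_al.GF
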