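import Pool.Agent.MP_f7db47_al.GF.AD

/-!
Successive minima.
-/

set_option linter.unusedSectionVars false

namespace Pool.Agent.MP_f7db47_al.GF

open Matrix Module

namespace NSp

variable {ι : Type} [Fintype ι] [DecidableEq ι] {av : ℚ → ℝ} {b : ℝ} (N : NSp ι av b)

theorem iso_le (hb : 1 < b) (γ : GL ι ℚ × Multiplicative ℤ) (x y : N.S.X) :
    dist (N.ρ γ x) (N.ρ γ y) ≤ dist x y := by
  have hb0 : 0 < b := zero_lt_one.trans hb
  refine (N.dist_le _ _ _ dist_nonneg).2 fun u => ?_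
  obtain ⟨w, rfl⟩ : ∃ w, u = γ.1.val *ᵥ w := ⟨(γ.1⁻¹).val *ᵥ u, by
    rw [mulVec_mulVec, Units.mul_inv, one_mulVec]⟩
  obtain ⟨h1, h2⟩ := (N.dist_le x y _ dist_nonneg).1 le_rfl w
  rw [N.ν_ρ, N.ν_ρ]
  have hp : 0 ≤ b ^ ((γ.2.toAdd : ℤ) : ℝ) := Real.rpow_nonneg hb0.le _
  constructor
  · rw [mul_left_comm]; exact mul_le_mul_of_nonneg_left h1 hp
  · rw [mul_left_comm]; exact mul_le_mul_of_nonneg_left h2 hp

theorem iso (hb : 1 < b) (γ : GL ι ℚ × Multiplicative ℤ) (x y : N.S.X) :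
    dist (N.ρ γ x) (N.ρ γ y) = dist x y := by
  refine le_antisymm (N.iso_le hb γ x y) ?_
  have := N.iso_le hb γ⁻¹ (N.ρ γ x) (N.ρ γ y)
  simpa using this

end NSp

namespace Plcs

variable {ι : Type} [Fintype ι] [DecidableEq ι] {D : Plcs} (N : ∀ v, NSp ι (D.av v) (D.b v))

theorem b_pos (D : Plcs) (v : D.J) : 0 < D.b v := zero_lt_one.trans (D.hb v)

theorem act_apply (γ : GLZ D.Z ι × GN.MZ) (x : (sp N).X) (v : D.J) :
    act N γ x v = (N v).ρ (γ.1.1, γ.2) (x v) := rfl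

theorem dist_le {x y : (sp N).X} {r : ℝ} (hr : 0 ≤ r) :
    dist x y ≤ r ↔ ∀ v, dist (x v) (y v) ≤ r := dist_pi_le_iff hr

theorem act_iso (γ : GLZ D.Z ι × GN.MZ) (x y : (sp N).X) :
    dist (act N γ x) (act N γ y) = dist x y := by
  refine le_antisymm ((dist_le N dist_nonneg).2 fun v => ?_) ((dist_le N dist_nonneg).2 fun v => ?_)
  · rw [act_apply, act_apply, (N v).iso (D.hb v)]
    exact (dist_le N dist_nonneg).1 le_rfl v
  · rw [← (N v).iso (D.hb v) (γ.1.1, γ.2)]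
    exact (dist_le N (x := act N γ x) (y := act N γ y) dist_nonneg).1 le_rfl v

theorem box_near {x y : (sp N).X} {r : ℝ} (h : dist x y ≤ r) (s : ℝ) :
    Box N x s ⊆ Box N y (s + r) := by
  rintro u ⟨h1, h2⟩
  have hr : 0 ≤ r := dist_nonneg.trans h
  refine ⟨h1, fun v => ?_⟩
  refine (((N v).dist_le _ _ _ hr).1 ((dist_le N hr).1 h v) u).2.trans ?_
  rw [add_comm s, Real.rpow_add (D.b_pos v)]
  exact mul_le_mul_of_nonneg_left (h2 v) (Real.rpow_nonneg (D.b_pos v).le _)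

theorem wd_near {x y : (sp N).X} {r : ℝ} (h : dist x y ≤ r) (s : ℝ) :
    Wd N x s ≤ Wd N y (s + r) := Submodule.span_mono (box_near N h s)

theorem wd_mono (x : (sp N).X) {s s' : ℝ} (h : s ≤ s') : Wd N x s ≤ Wd N x s' := by
  have := wd_near N (x := x) (y := x) (r := s' - s) (by rw [dist_self]; linarith) s
  rwa [add_sub_cancel] at this

theorem mem_Z {g : Matrix ι ι ℚ} (hg : ∀ i j, g i j ∈ D.Z) {u : ι → ℚ} (hu : ∀ i, u i ∈ D.Z)
    (i : ι) : (g *ᵥ u) i ∈ D.Z :=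
  D.Z.sum_mem fun j _ => D.Z.mul_mem (hg i j) (hu j)

theorem box_act (γ : GLZ D.Z ι × GN.MZ) {x : (sp N).X} {s : ℝ} {u : ι → ℚ} (h : u ∈ Box N x s) :
    γ.1.1.val *ᵥ u ∈ Box N (act N γ x) (s + ((γ.2.toAdd : ℤ) : ℝ)) := by
  refine ⟨mem_Z γ.1.2.1 h.1, fun v => ?_⟩
  rw [act_apply, (N v).ν_ρ (γ.1.1, γ.2), add_comm s, Real.rpow_add (D.b_pos v)]
  exact mul_le_mul_of_nonneg_left (h.2 v) (Real.rpow_nonneg (D.b_pos v).le _)

/-- The linear automorphism given by an element. -/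
noncomputable def lin (γ : GLZ D.Z ι × GN.MZ) : (ι → ℚ) ≃ₗ[ℚ] (ι → ℚ) :=
  Matrix.toLin'OfInv (M := γ.1.1.val) (M' := (γ.1.1⁻¹).val) (Units.mul_inv _) (Units.inv_mul _)
    |>.symm

theorem lin_apply (γ : GLZ D.Z ι × GN.MZ) (u : ι → ℚ) : lin γ u = γ.1.1.val *ᵥ u := rfl

theorem wd_act_le (γ : GLZ D.Z ι × GN.MZ) (x : (sp N).X) (s : ℝ) {u : ι → ℚ}
    (h : u ∈ Wd N x s) : γ.1.1.val *ᵥ u ∈ Wd N (act N γ x) (s + ((γ.2.toAdd : ℤ) : ℝ)) := by
  have : (Wd N x s).map (lin γ).toLinearMap ≤ Wd N (act N γ x) (s + ((γ.2.toAdd : ℤ) : ℝ)) := by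
    rw [Wd, Submodule.map_span_le]
    exact fun w hw => Submodule.subset_span (box_act N γ hw)
  exact this ⟨u, h, rfl⟩

theorem wd_act (γ : GLZ D.Z ι × GN.MZ) (x : (sp N).X) (s : ℝ) :
    Wd N (act N γ x) (s + ((γ.2.toAdd : ℤ) : ℝ)) = (Wd N x s).map (lin γ).toLinearMap := by
  refine le_antisymm (fun u hu => ?_) ?_
  · have h := wd_act_le N γ⁻¹ _ _ hu
    have e1 : act N γ⁻¹ (act N γ x) = x := by simp
    have e2 : s + ((γ.2.toAdd : ℤ) : ℝ) + (((γ⁻¹).2.toAdd : ℤ) : ℝ) = s := by simp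
    rw [e1, e2] at h
    refine ⟨_, h, ?_⟩
    change γ.1.1.val *ᵥ ((γ.1.1⁻¹).val *ᵥ u) = u
    rw [mulVec_mulVec, Units.mul_inv, one_mulVec]
  · rintro _ ⟨u, hu, rfl⟩
    exact wd_act_le N γ x s hu

theorem rk_act (γ : GLZ D.Z ι × GN.MZ) (x : (sp N).X) (s : ℝ) :
    finrank ℚ (Wd N (act N γ x) (s + ((γ.2.toAdd : ℤ) : ℝ))) = finrank ℚ (Wd N x s) := by
  rw [wd_act, LinearEquiv.finrank_map_eq]

theorem box_o (s : ℝ) (hs : s < 0) : Box N (sp N).o s ⊆ {0} := by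
  rintro u ⟨h1, h2⟩
  refine funext fun i => D.disc _ (h1 i) fun v => ?_
  exact (((N v).le_o u i).trans (h2 v)).trans_lt (Real.rpow_lt_one_of_one_lt_of_neg (D.hb v) hs)

theorem wd_bot (x : (sp N).X) : ∃ s, Wd N x s = ⊥ := by
  refine ⟨-1 - dist x (sp N).o, ?_⟩
  rw [Wd, Submodule.span_eq_bot]
  intro u hu
  exact box_o N _ (by linarith) (box_near N le_rfl _ hu)

theorem single_mem (j : ι) : Pi.single j (1 : ℚ) ∈ Box N (sp N).o 0 := by
  refine ⟨fun i => ?_, fun v => ((N v).o_le _).trans ?_⟩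
  · rw [Pi.single_apply]
    split_ifs
    · exact D.Z.one_mem
    · exact D.Z.zero_mem
  · rw [Finset.sum_eq_single j (fun i _ hi => by rw [Pi.single_eq_of_ne hi, D.av_zero])
      (fun h => absurd (Finset.mem_univ j) h), Pi.single_eq_same, D.av_one, Real.rpow_zero]

theorem wd_top (x : (sp N).X) : ∃ s, Wd N x s = ⊤ := by
  refine ⟨0 + dist (sp N).o x, eq_top_iff.2 (le_trans ?_ (wd_near N le_rfl 0))⟩
  rw [← (Pi.basisFun ℚ ι).span_eq]
  refine Submodule.span_mono ?_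
  rintro _ ⟨j, rfl⟩
  rw [Pi.basisFun_apply]
  exact single_mem N j

theorem rk_mono (x : (sp N).X) {s s' : ℝ} (h : s ≤ s') :
    finrank ℚ (Wd N x s) ≤ finrank ℚ (Wd N x s') := Submodule.finrank_mono (wd_mono N x h)

theorem lam_ne {r : ℕ} (hr : r ≤ Fintype.card ι) (x : (sp N).X) :
    {s | r ≤ finrank ℚ (Wd N x s)}.Nonempty := by
  obtain ⟨s, hs⟩ := wd_top N x
  refine ⟨s, ?_⟩
  change r ≤ _
  rw [hs, finrank_top, finrank_fintype_fun_eq_card]
  exact hr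

theorem lam_bdd {r : ℕ} (hr : 0 < r) (x : (sp N).X) :
    BddBelow {s | r ≤ finrank ℚ (Wd N x s)} := by
  obtain ⟨s, hs⟩ := wd_bot N x
  refine ⟨s, fun s' h => le_of_not_gt fun h' => ?_⟩
  have := le_trans h (rk_mono N x h'.le)
  rw [hs, finrank_bot] at this
  omega

theorem le_rk {r : ℕ} (hr : r ≤ Fintype.card ι) {x : (sp N).X} {s : ℝ} (h : lam N r x < s) :
    r ≤ finrank ℚ (Wd N x s) := by
  obtain ⟨s', h1, h2⟩ := exists_lt_of_csInf_lt (lam_ne N hr x) h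
  exact le_trans h1 (rk_mono N x h2.le)

theorem lam_le {r : ℕ} (hr : 0 < r) {x : (sp N).X} {s : ℝ} (h : r ≤ finrank ℚ (Wd N x s)) :
    lam N r x ≤ s := csInf_le (lam_bdd N hr x) h

theorem rk_lt {r : ℕ} (hr : 0 < r) {x : (sp N).X} {s : ℝ} (h : s < lam N r x) :
    finrank ℚ (Wd N x s) < r := lt_of_not_ge fun h' => h.not_ge (lam_le N hr h')

theorem lam_lip {r : ℕ} (h0 : 0 < r) (hr : r ≤ Fintype.card ι) (x y : (sp N).X) :
    lam N r y ≤ lam N r x + dist x y := by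
  refine le_of_forall_pos_le_add fun ε hε => ?_
  have h := le_rk N hr (x := x) (s := lam N r x + ε) (by linarith)
  have := lam_le N h0 (h.trans (Submodule.finrank_mono (wd_near N (y := y) le_rfl _)))
  linarith

theorem lam_act {r : ℕ} (h0 : 0 < r) (hr : r ≤ Fintype.card ι) (γ : GLZ D.Z ι × GN.MZ)
    (x : (sp N).X) : lam N r (act N γ x) = lam N r x + ((γ.2.toAdd : ℤ) : ℝ) := by
  refine le_antisymm (le_of_forall_pos_le_add fun ε hε => ?_)
    (le_of_forall_pos_le_add fun ε hε => ?_)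
  · have h := le_rk N hr (x := x) (s := lam N r x + ε) (by linarith)
    rw [← rk_act N γ] at h
    have := lam_le N h0 h
    linarith
  · have h := le_rk N hr (x := act N γ x)
      (s := (lam N r (act N γ x) + ε - ((γ.2.toAdd : ℤ) : ℝ)) + ((γ.2.toAdd : ℤ) : ℝ)) (by linarith)
    rw [rk_act N γ] at h
    have := lam_le N h0 h
    linarith

theorem rk_eq {r : ℕ} (hr : r ≤ Fintype.card ι) {x : (sp N).X} {s : ℝ} (h1 : lam N r x < s)
    (h2 : s < lam N (r + 1) x) : finrank ℚ (Wd N x s) = r :=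
  le_antisymm (Nat.lt_succ_iff.1 (rk_lt N r.succ_pos h2)) (le_rk N hr h1)

theorem wd_eq {r : ℕ} (hr : r ≤ Fintype.card ι) {x : (sp N).X} {s s' : ℝ} (h1 : lam N r x < s)
    (h2 : s < lam N (r + 1) x) (h3 : lam N r x < s') (h4 : s' < lam N (r + 1) x) :
    Wd N x s = Wd N x s' := by
  have e := (rk_eq N hr h1 h2).trans (rk_eq N hr h3 h4).symm
  rcases le_total s s' with h | h
  · exact Submodule.eq_of_le_of_finrank_eq (wd_mono N x h) e
  · exact (Submodule.eq_of_le_of_finrank_eq (wd_mono N x h) e.symm).symm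

theorem box_finite (s : ℝ) : (Box N (sp N).o s).Finite := by
  refine (Set.Finite.pi' fun _ : ι => D.finite (∑ v, D.b v ^ s)).subset ?_
  rintro u ⟨h1, h2⟩ i
  refine ⟨h1 i, fun v => (((N v).le_o u i).trans (h2 v)).trans ?_⟩
  exact Finset.single_le_sum (f := fun v => D.b v ^ s)
    (fun w _ => Real.rpow_nonneg (D.b_pos w).le _) (Finset.mem_univ v)

theorem act_prp (hι : 1 ≤ Fintype.card ι) (r : ℝ) :
    {γ | dist (act N γ (sp N).o) (sp N).o ≤ r}.Finite := by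
  have hk : ∀ γ, dist (act N γ (sp N).o) (sp N).o ≤ r → |((γ.2.toAdd : ℤ) : ℝ)| ≤ r := by
    intro γ h
    have h1 := lam_lip N one_pos hι (act N γ (sp N).o) (sp N).o
    have h2 := lam_lip N one_pos hι (sp N).o (act N γ (sp N).o)
    rw [dist_comm] at h2
    rw [lam_act N one_pos hι] at h1 h2
    exact abs_le.2 ⟨by linarith, by linarith⟩
  let Φ : GLZ D.Z ι × GN.MZ → (ι → ι → ℚ) × ℤ :=
    fun γ => (fun j => γ.1.1.val *ᵥ Pi.single j 1, γ.2.toAdd)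
  have hΦ : Function.Injective Φ := fun γ γ' h => by
    refine Prod.ext (Subtype.ext (Units.ext ?_))
      (congrArg (fun z : (ι → ι → ℚ) × ℤ => Multiplicative.ofAdd z.2) h)
    ext i j
    simpa [Φ] using congrFun (congrFun (congrArg Prod.fst h) j) i
  refine Set.Finite.of_finite_image (f := Φ) ?_ hΦ.injOn
  refine ((Set.Finite.pi' fun _ : ι => box_finite N (r + r)).prod
    (Set.finite_Icc (-⌈r⌉) ⌈r⌉)).subset ?_
  rintro _ ⟨γ, hγ, rfl⟩
  have h := abs_le.1 (hk γ hγ)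
  refine ⟨fun j => ?_, ?_, ?_⟩
  · have h1 := box_near N hγ _ (box_act N γ (single_mem N j))
    have h2 := box_near N (x := (sp N).o) (y := (sp N).o)
      (r := r - ((γ.2.toAdd : ℤ) : ℝ)) (by rw [dist_self]; linarith) _ h1
    convert h2 using 2
    ring
  · have : ((-⌈r⌉ : ℤ) : ℝ) ≤ ((γ.2.toAdd : ℤ) : ℝ) := by
      push_cast
      linarith [Int.le_ceil r]
    exact_mod_cast this
  · have : ((γ.2.toAdd : ℤ) : ℝ) ≤ ((⌈r⌉ : ℤ) : ℝ) := h.2.trans (Int.le_ceil r)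
    exact_mod_cast this

end Plcs

end Pool.Agent.MP_f7db47_al.GF
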