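import Pool.Agent.MP_f7db47_al.GF.AD

/-!
Reduction theory.
-/

namespace Pool.Agent.MP_f7db47_al.GF

open Matrix

theorem ARed_zero (D : Plcs) {ι : Type} {v : D.J} {ν : (ι → ℚ) → ℝ}
    (hs : ∀ (a : ℚ) u, ν (a • u) = D.av v a * ν u) : ν 0 = 0 := by
  have h := hs 0 0
  rwa [zero_smul, D.av_zero, zero_mul] at h

theorem ARed_neg (D : Plcs) {ι : Type} {v : D.J} {ν : (ι → ℚ) → ℝ}
    (hs : ∀ (a : ℚ) u, ν (a • u) = D.av v a * ν u) (u : ι → ℚ) : ν (-u) = ν u := by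
  have h := hs (-1) u
  rwa [neg_one_smul, D.av_neg, D.av_one, one_mul] at h

theorem ARed_nonneg (D : Plcs) {ι : Type} {v : D.J} {ν : (ι → ℚ) → ℝ}
    (ha : ∀ u u', ν (u + u') ≤ ν u + ν u')
    (hs : ∀ (a : ℚ) u, ν (a • u) = D.av v a * ν u) (u : ι → ℚ) : 0 ≤ ν u := by
  have h := ha u (-u)
  rw [add_neg_cancel, ARed_zero D hs, ARed_neg D hs] at h
  linarith

theorem ARed_sum (D : Plcs) {ι κ : Type} {v : D.J} {ν : (ι → ℚ) → ℝ}
    (ha : ∀ u u', ν (u + u') ≤ ν u + ν u')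
    (hs : ∀ (a : ℚ) u, ν (a • u) = D.av v a * ν u) (s : Finset κ) (f : κ → ι → ℚ) :
    ν (∑ k ∈ s, f k) ≤ ∑ k ∈ s, ν (f k) := by
  classical
  induction s using Finset.induction_on with
  | empty => simp [ARed_zero D hs]
  | insert k s hk ih =>
    rw [Finset.sum_insert hk, Finset.sum_insert hk]
    exact (ha _ _).trans (by linarith)

theorem ARed_mulVec {ι : Type} [Fintype ι] (U : Matrix ι ι ℚ) (a : ι → ℚ) :
    U *ᵥ a = ∑ k, a k • fun i => U i k := by
  funext i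
  simp [Matrix.mulVec, dotProduct, Finset.sum_apply, mul_comm]

theorem ARed_basis {ι : Type} [Fintype ι] [DecidableEq ι] {S : Set (ι → ℚ)}
    (h : Submodule.span ℚ S = ⊤) : ∃ U : GL ι ℚ, ∀ k, (fun i => U.val i k) ∈ S := by
  obtain ⟨b, hb, hsp, hli⟩ := exists_linearIndependent ℚ S
  let B : Module.Basis b ℚ (ι → ℚ) := Module.Basis.mk hli (by
    rw [Subtype.range_coe, hsp, h])
  let e : b ≃ ι := B.indexEquiv (Pi.basisFun ℚ ι)
  let B' := B.reindex e
  have := (Pi.basisFun ℚ ι).invertibleToMatrix B'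
  refine ⟨unitOfInvertible ((Pi.basisFun ℚ ι).toMatrix B'), fun k => ?_⟩
  have : (fun i => (unitOfInvertible ((Pi.basisFun ℚ ι).toMatrix B')).val i k) = B' k := by
    funext i
    simp [Module.Basis.toMatrix_apply]
  rw [this]
  simp only [B', B, Module.Basis.reindex_apply, Module.Basis.mk_apply]
  exact hb (e.symm k).2

theorem ARed_pow (D : Plcs) (A : ℝ) : ∃ C : ℝ, 0 ≤ C ∧ ∀ v, A ≤ D.b v ^ C := by
  choose n hn using fun v => pow_unbounded_of_one_lt A (D.hb v)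
  refine ⟨((∑ v, n v : ℕ) : ℝ), Nat.cast_nonneg _, fun v => ?_⟩
  rw [Real.rpow_natCast]
  exact (hn v).le.trans (pow_le_pow_right₀ (D.hb v).le
    (Finset.single_le_sum (fun w _ => Nat.zero_le (n w)) (Finset.mem_univ v)))

theorem ARed_int {Z : Subring ℚ} {ι : Type} [Fintype ι] {U : Matrix ι ι ℚ} {a : ι → ℚ}
    (hU : ∀ i j, U i j ∈ Z) (ha : ∀ j, a j ∈ Z) (i : ι) : (U *ᵥ a) i ∈ Z :=
  Z.sum_mem fun j _ => Z.mul_mem (hU i j) (ha j)

theorem ARed_inj {ι : Type} [Fintype ι] [DecidableEq ι] (U : GL ι ℚ) {a : ι → ℚ}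
    (h : U.val *ᵥ a = 0) : a = 0 := by
  have h2 : (U⁻¹).val *ᵥ (U.val *ᵥ a) = a := by
    rw [Matrix.mulVec_mulVec, ← Units.val_mul, inv_mul_cancel, Units.val_one, Matrix.one_mulVec]
  rw [← h2, h, Matrix.mulVec_zero]

theorem red (D : Plcs) (ι : Type) [Fintype ι] [DecidableEq ι] [Nonempty ι] (T : ℝ) :
    ∃ C : ℝ, 0 ≤ C ∧
    ∀ ν o : D.J → (ι → ℚ) → ℝ, (∀ v u u', ν v (u + u') ≤ ν v u + ν v u') →
      (∀ v (a : ℚ) u, ν v (a • u) = D.av v a * ν v u) → (∀ v u i, D.av v (u i) ≤ o v u) →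
      (∀ v u, o v u ≤ ∑ i, D.av v (u i)) →
      (∀ u : ι → ℚ, (∀ i, u i ∈ D.Z) → (∀ v, ν v u ≤ 1) → u = 0) →
      Submodule.span ℚ {u : ι → ℚ | (∀ i, u i ∈ D.Z) ∧ ∀ v, ν v u ≤ D.b v ^ T} = ⊤ →
      ∃ g ∈ GLZ D.Z ι, ∀ v u, ν v (g.val *ᵥ u) ≤ D.b v ^ C * o v u ∧
        o v u ≤ D.b v ^ C * ν v (g.val *ᵥ u) := by
  set N : ℝ := (Fintype.card ι : ℝ) with hN
  have hN0 : 0 ≤ N := Nat.cast_nonneg _
  set bT : ℝ := ∑ v, D.b v ^ T with hbT
  have hb0 : ∀ v, 0 ≤ D.b v ^ T := fun v => Real.rpow_nonneg (by linarith [D.hb v]) _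
  have hbT0 : 0 ≤ bT := Finset.sum_nonneg fun v _ => hb0 v
  have hbT1 : ∀ v, D.b v ^ T ≤ bT := fun v =>
    Finset.single_le_sum (fun w _ => hb0 w) (Finset.mem_univ v)
  have hNb : 0 ≤ N * bT := mul_nonneg hN0 hbT0
  obtain ⟨C0, hC0⟩ := D.bas ι (1 / (N * bT + 1)) (by positivity)
  set C1 : ℝ := N * |C0| * bT with hC1
  have hC10 : 0 ≤ C1 := by positivity
  have hNC : 0 ≤ N * C1 := mul_nonneg hN0 hC10
  obtain ⟨K, hK⟩ := D.app ι (1 / (2 * (N * C1) + 2)) (by positivity)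
  obtain ⟨C, hC, hCb⟩ := ARed_pow D (max (N * C1) (2 * N * |K|))
  refine ⟨C, hC, fun ν o ha hs ho1 ho2 hd hsp => ?_⟩
  obtain ⟨U, hU⟩ := ARed_basis hsp
  have hcol : ∀ v k, ν v (fun i => U.val i k) ≤ bT := fun v k => ((hU k).2 v).trans (hbT1 v)
  obtain ⟨g, hg, hM⟩ := hC0 U (fun i j => (hU j).1 i) (fun a h1 h2 => by
    refine ARed_inj U (hd _ h1 fun v => ?_)
    rw [ARed_mulVec]
    refine (ARed_sum D (ha v) (hs v) _ _).trans ?_
    calc ∑ k, ν v (a k • fun i => U.val i k) ≤ ∑ _k : ι, 1 / (N * bT + 1) * bT := by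
          refine Finset.sum_le_sum fun k _ => ?_
          rw [hs]
          exact mul_le_mul (h2 v k) (hcol v k) (ARed_nonneg D (ha v) (hs v) _) (by positivity)
      _ = N * bT / (N * bT + 1) := by
          rw [Finset.sum_const, Finset.card_univ, nsmul_eq_mul]; ring
      _ ≤ 1 := by rw [div_le_one (by positivity)]; linarith)
  have hgc : ∀ v j, ν v (fun i => g.val i j) ≤ C1 := fun v j => by
    have e : (fun i => g.val i j) = U.val *ᵥ fun k => (U⁻¹ * g).val k j := by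
      funext i
      change _ = (U.val * (U⁻¹ * g).val) i j
      rw [← Units.val_mul, mul_inv_cancel_left]
    rw [e, ARed_mulVec]
    refine (ARed_sum D (ha v) (hs v) _ _).trans ?_
    calc _ ≤ ∑ _k : ι, |C0| * bT := by
          refine Finset.sum_le_sum fun k _ => ?_
          rw [hs]
          exact mul_le_mul ((hM v k j).trans (le_abs_self _)) (hcol v k)
            (ARed_nonneg D (ha v) (hs v) _) (abs_nonneg _)
      _ = C1 := by rw [Finset.sum_const, Finset.card_univ, nsmul_eq_mul]; ring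
  have hA : ∀ v (u : ι → ℚ) (r : ℝ), (∀ j, D.av v (u j) ≤ r) →
      ν v (g.val *ᵥ u) ≤ N * C1 * r := fun v u r hr => by
    rw [ARed_mulVec]
    refine (ARed_sum D (ha v) (hs v) _ _).trans ?_
    calc _ ≤ ∑ _k : ι, r * C1 := by
          refine Finset.sum_le_sum fun k _ => ?_
          rw [hs]
          exact mul_le_mul (hr k) (hgc v k) (ARed_nonneg D (ha v) (hs v) _)
            ((D.av_nonneg v _).trans (hr k))
      _ = _ := by rw [Finset.sum_const, Finset.card_univ, nsmul_eq_mul]; ring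
  refine ⟨g, hg, fun v u => ⟨?_, ?_⟩⟩
  · refine (hA v u _ (ho1 v u)).trans (mul_le_mul_of_nonneg_right
      ((le_max_left _ _).trans (hCb v)) ?_)
    exact (D.av_nonneg v _).trans (ho1 v u (Classical.arbitrary ι))
  · have hn := ARed_nonneg D (ha v) (hs v) (g.val *ᵥ u)
    refine le_trans ?_ (mul_le_mul_of_nonneg_right ((le_max_right _ _).trans (hCb v)) hn)
    obtain ⟨i, -, hi⟩ := Finset.exists_max_image Finset.univ (fun i => D.av v (u i))
      Finset.univ_nonempty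
    have h1 : o v u ≤ N * D.av v (u i) := (ho2 v u).trans (by
      calc _ ≤ ∑ _k : ι, D.av v (u i) := Finset.sum_le_sum fun k _ => hi k (Finset.mem_univ k)
        _ = _ := by rw [Finset.sum_const, Finset.card_univ, nsmul_eq_mul])
    refine h1.trans ?_
    by_cases hui : u i = 0
    · rw [hui, D.av_zero, mul_zero]; positivity
    have hinv : D.av v (u i)⁻¹ * D.av v (u i) = 1 := by
      rw [← D.av_mul, inv_mul_cancel₀ hui, D.av_one]
    have hw : ∀ j, D.av v (((u i)⁻¹ • u) j) ≤ 1 := fun j => by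
      rw [Pi.smul_apply, smul_eq_mul, D.av_mul, ← hinv]
      exact mul_le_mul_of_nonneg_left (hi j (Finset.mem_univ j)) (D.av_nonneg _ _)
    obtain ⟨c, z, hz, hc1, hcK, hcz, hzv⟩ := hK v _ hw
    have heps : N * C1 * (1 / (2 * (N * C1) + 2)) ≤ 1 / 2 := by
      rw [mul_one_div, div_le_div_iff₀ (by positivity) (by norm_num)]; linarith
    have hz0 : z ≠ 0 := fun h0 => by
      have h2 := hcz i
      rw [h0, Pi.smul_apply, smul_eq_mul, inv_mul_cancel₀ hui, Pi.zero_apply, mul_one,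
        sub_zero] at h2
      have : 1 / (2 * (N * C1) + 2) < 1 := by rw [div_lt_one (by positivity)]; linarith
      linarith
    have hgz : 1 < ν v (g.val *ᵥ z) := by
      by_contra hle
      refine hz0 (ARed_inj g (hd _ (ARed_int hg.1 hz) fun v' => ?_))
      by_cases hv : v' = v
      · rw [hv]; exact not_lt.1 hle
      · exact (hA v' z _ (hzv v' hv)).trans (heps.trans (by norm_num))
    have e : g.val *ᵥ z = (c * (u i)⁻¹) • (g.val *ᵥ u) +
        -(g.val *ᵥ fun j => c * ((u i)⁻¹ • u) j - z j) := by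
      rw [← Matrix.mulVec_smul, ← Matrix.mulVec_neg, ← Matrix.mulVec_add]
      congr 1
      funext j
      simp only [Pi.add_apply, Pi.smul_apply, Pi.neg_apply, smul_eq_mul]
      ring
    have h3 := ha v ((c * (u i)⁻¹) • (g.val *ᵥ u))
      (-(g.val *ᵥ fun j => c * ((u i)⁻¹ • u) j - z j))
    rw [← e, hs, ARed_neg D (hs v), D.av_mul] at h3
    have h4 := (hA v (fun j => c * ((u i)⁻¹ • u) j - z j) _ hcz).trans heps
    have h5 : D.av v c * D.av v (u i)⁻¹ * ν v (g.val *ᵥ u) ≤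
        |K| * D.av v (u i)⁻¹ * ν v (g.val *ᵥ u) :=
      mul_le_mul_of_nonneg_right (mul_le_mul_of_nonneg_right (hcK.trans (le_abs_self _))
        (D.av_nonneg _ _)) hn
    have h6 : 1 / 2 ≤ |K| * D.av v (u i)⁻¹ * ν v (g.val *ᵥ u) := by linarith
    have h7 := mul_le_mul_of_nonneg_left h6 (mul_nonneg hN0 (D.av_nonneg v (u i)))
    have h8 : N * D.av v (u i) * (|K| * D.av v (u i)⁻¹ * ν v (g.val *ᵥ u)) =
        N * |K| * ν v (g.val *ᵥ u) := by
      calc _ = N * |K| * ν v (g.val *ᵥ u) * (D.av v (u i)⁻¹ * D.av v (u i)) := by ring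
        _ = _ := by rw [hinv, mul_one]
    rw [h8] at h7
    linarith

end Pool.Agent.MP_f7db47_al.GF
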