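import Pool.Agent.MP_f7db47_al.GF.AMin
import Pool.Agent.MP_f7db47_al.GF.ARed

/-!
The action of the arithmetic group is cocompact away from the cusps.
-/

namespace Pool.Agent.MP_f7db47_al.GF

open Matrix Module

namespace Plcs

variable {n : ℕ} {D : Plcs} (N : ∀ v, NSp (Fin (n + 1)) (D.av v) (D.b v))

/-- Half the gap between two successive minima. -/
noncomputable def gap (i : Fin n) (x : (sp N).X) : ℝ :=
  (lam N (i + 1 + 1) x - lam N (i + 1) x) / 2

/-- The subspace spanned by the short vectors. -/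
noncomputable def Wm (i : Fin n) (x : (sp N).X) : Submodule ℚ (Fin (n + 1) → ℚ) :=
  Wd N x ((lam N (i + 1) x + lam N (i + 1 + 1) x) / 2)

theorem i1 (i : Fin n) : (i : ℕ) + 1 ≤ Fintype.card (Fin (n + 1)) := by
  rw [Fintype.card_fin]; omega

theorem i2 (i : Fin n) : (i : ℕ) + 1 + 1 ≤ Fintype.card (Fin (n + 1)) := by
  rw [Fintype.card_fin]; omega

theorem Wm_act (i : Fin n) (γ : GLZ D.Z (Fin (n + 1)) × GN.MZ) (x : (sp N).X) :
    Wm N i (act N γ x) = (Wm N i x).map (lin γ).toLinearMap := by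
  rw [Wm, Wm, ← wd_act, lam_act N (by omega) (i1 i), lam_act N (by omega) (i2 i)]
  congr 1
  ring

theorem Wm_near (i : Fin n) (x y : (sp N).X) (h : dist x y < gap N i x) :
    Wm N i x = Wm N i y := by
  unfold gap at h
  have d0 : 0 ≤ dist x y := dist_nonneg
  have h1 := lam_lip N (r := i + 1) (by omega) (i1 i) x y
  have h2 := lam_lip N (r := i + 1 + 1) (by omega) (i2 i) y x
  rw [dist_comm y x] at h2
  set m := (lam N (i + 1) x + lam N (i + 1 + 1) x) / 2 with hm
  have e1 : Wd N y m = Wm N i y :=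
    wd_eq N (i1 i) (by linarith) (by linarith) (by linarith) (by linarith)
  have e2 : Wm N i x = Wd N x (m - dist x y) :=
    wd_eq N (i1 i) (by linarith) (by linarith) (by linarith) (by linarith)
  have e3 : Wm N i x = Wd N x (m + dist x y) :=
    wd_eq N (i1 i) (by linarith) (by linarith) (by linarith) (by linarith)
  rw [← e1]
  refine le_antisymm ?_ ?_
  · have := wd_near N (x := x) (y := y) le_rfl (m - dist x y)
    rwa [sub_add_cancel, ← e2] at this
  · rw [e3]
    exact wd_near N (dist_comm y x).le m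

theorem lam_top {x : (sp N).X} {T : ℝ} (h : ∀ i, gap N i x ≤ T) (k : ℕ) (hk : k ≤ n) :
    lam N (k + 1) x ≤ lam N 1 x + k * (2 * T) := by
  induction k with
  | zero => simp
  | succ k ih =>
    have h1 := ih (by omega)
    have h2 := h ⟨k, hk⟩
    unfold gap at h2
    push_cast at h2 ⊢
    linarith

theorem act_cc (T : ℝ) : ∃ C : ℝ, ∀ x, (∀ i, gap N i x ≤ T) →
    ∃ γ, dist (act N γ x) (sp N).o ≤ C := by
  obtain ⟨C, hC, hred⟩ := red D (Fin (n + 1)) (3 + n * (2 * T))
  refine ⟨C, fun x hx => ?_⟩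
  have c1 : 1 ≤ Fintype.card (Fin (n + 1)) := by rw [Fintype.card_fin]; omega
  let γ₀ : GLZ D.Z (Fin (n + 1)) × GN.MZ := (1, Multiplicative.ofAdd (1 - ⌊lam N 1 x⌋))
  have l1 : ∀ r, 0 < r → r ≤ Fintype.card (Fin (n + 1)) →
      lam N r (act N γ₀ x) = lam N r x + (1 - ⌊lam N 1 x⌋) := fun r h0 hr => by
    rw [lam_act N h0 hr]
    simp [γ₀]
  have f1 := Int.floor_le (lam N 1 x)
  have f2 := Int.lt_floor_add_one (lam N 1 x)
  obtain ⟨g, hg, H⟩ := hred (fun v => (N v).ν (act N γ₀ x v)) (fun v => (N v).ν (N v).S.o)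
    (fun v => (N v).add _) (fun v => (N v).smul _) (fun v => (N v).le_o) (fun v => (N v).o_le)
    (fun u h1 h2 => by
      have h3 : finrank ℚ (Wd N (act N γ₀ x) 0) < 1 :=
        rk_lt N one_pos (by rw [l1 1 one_pos c1]; linarith)
      have h4 : Wd N (act N γ₀ x) 0 = ⊥ := Submodule.finrank_eq_zero.1 (by omega)
      have h5 : u ∈ Wd N (act N γ₀ x) 0 :=
        Submodule.subset_span ⟨h1, fun v => by rw [Real.rpow_zero]; exact h2 v⟩
      rwa [h4] at h5)
    (by
      have h3 := le_rk N (r := n + 1) (Fintype.card_fin _).ge (x := act N γ₀ x)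
        (s := 3 + n * (2 * T)) (by
          rw [l1 _ n.succ_pos (Fintype.card_fin _).ge]
          linarith [lam_top N hx n le_rfl])
      refine Submodule.eq_top_of_finrank_eq (le_antisymm (Submodule.finrank_le _) ?_)
      rw [finrank_fintype_fun_eq_card, Fintype.card_fin]
      exact h3)
  let γ₁ : GLZ D.Z (Fin (n + 1)) × GN.MZ := (⟨g, hg⟩⁻¹, 1)
  refine ⟨γ₁ * γ₀, (dist_le N hC).2 fun v => ((N v).dist_le _ _ _ hC).2 fun u => ?_⟩
  have e : (N v).ν (act N (γ₁ * γ₀) x v) u = (N v).ν (act N γ₀ x v) (g.val *ᵥ u) := by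
    have h := (N v).ν_ρ (γ₁.1.1, γ₁.2) (act N γ₀ x v) (g.val *ᵥ u)
    have e1 : (γ₁.1.1, γ₁.2).1.val *ᵥ (g.val *ᵥ u) = u := by
      change (g⁻¹).val *ᵥ (g.val *ᵥ u) = u
      rw [mulVec_mulVec, Units.inv_mul, one_mulVec]
    rw [e1] at h
    rw [map_mul, Equiv.Perm.mul_apply, act_apply, h]
    simp [γ₁]
  rw [e]
  exact H v u

theorem hasPack (h : (sp N).Good) :
    HasPack (GLZ D.Z (Fin (n + 1)) × GN.MZ) (FamZ D.Z (Fin (n + 1))) := by
  refine ⟨sp N, h, ⟨{
    ρ := act N
    iso := act_iso N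
    line := fun γ c hc v => (N v).line (γ.1.1, γ.2) _ (hc v)
    prp := act_prp N (by rw [Fintype.card_fin]; omega)
    ι := Fin n
    h := gap N
    E := fun i x y => Wm N i x = Wm N i y
    eqv := fun i => ⟨fun _ => rfl, Eq.symm, Eq.trans⟩
    E_inv := fun i γ x y e => by rw [Wm_act, Wm_act, e]
    h_inv := fun i γ x => by
      rw [gap, gap, lam_act N (by omega) (i1 i), lam_act N (by omega) (i2 i)]
      ring
    h_lip := fun i x y => by
      have h1 := lam_lip N (r := i + 1) (by omega) (i1 i) x y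
      have h2 := lam_lip N (r := i + 1 + 1) (by omega) (i2 i) y x
      rw [dist_comm y x] at h2
      unfold gap
      linarith
    near := Wm_near N
    cc := act_cc N
    cusp := fun i x hx => ?_ }⟩⟩
  unfold gap at hx
  have hr : finrank ℚ (Wm N i x) = i + 1 := rk_eq N (i1 i) (by linarith) (by linarith)
  let B : Subgroup (GLZ D.Z (Fin (n + 1)) × GN.MZ) :=
    { carrier := {γ | Wm N i x = Wm N i (act N γ x)}
      one_mem' := by simp
      mul_mem' := fun {a b} ha hb => by
        change Wm N i x = _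
        rw [map_mul, Equiv.Perm.mul_apply, Wm_act, ← hb, ← Wm_act]
        exact ha
      inv_mem' := fun {a} ha => by
        change Wm N i x = _
        rw [Wm_act, ha, ← Wm_act]
        simpa using ha.symm }
  refine ⟨B, ⟨Wm N i x, fun e => ?_, fun e => ?_, fun γ hγ u hu => ?_⟩, fun γ hγ => hγ⟩
  · rw [e, finrank_bot] at hr
    omega
  · rw [e, finrank_top, finrank_fintype_fun_eq_card, Fintype.card_fin] at hr
    omega
  · have e : Wm N i x = (Wm N i x).map (lin γ).toLinearMap := by rw [← Wm_act]; exact hγ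
    rw [e]
    exact ⟨u, hu, rfl⟩

end Plcs

end Pool.Agent.MP_f7db47_al.GF
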