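import Pool.Agent.MP_f7db47_al.GF.DF

/-!
Homotopy actions and flow spaces of lines: definitions.
-/

namespace Pool.Agent.MP_f7db47_al.GF

open Metric

/-- A chosen line through two points. -/
noncomputable def Sp.Geo.ln {S : Sp} (h : S.Geo) (x y : S.X) : ℝ → S.X := (h.join x y).choose

open Classical in
/-- The contraction factors. -/
noncomputable def lam {G : Type} [Group G] (μ : ℝ) (g : G) : ℝ := if g = 1 then 1 else 1 - μ

/-- The action followed by a contraction towards the base point. -/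
noncomputable def Sp.Geo.phi {S : Sp} (h : S.Geo) {G : Type} [Group G]
    (ρ : G →* Equiv.Perm S.X) (μ : ℝ) (g : G) (y : S.X) : S.X :=
  h.ln S.o (ρ g y) (lam μ g)

/-- The homotopies. -/
noncomputable def Sp.Geo.hom {S : Sp} (h : S.Geo) {G : Type} [Group G]
    (ρ : G →* Equiv.Perm S.X) (μ : ℝ) (g g' : G) (u : ℝ) (y : S.X) : S.X :=
  h.ln S.o (h.ln (ρ g S.o) (ρ (g * g') y) (1 - u * (1 - lam μ g')))
    ((1 - u) * lam μ (g * g') + u * lam μ g)

/-- The control map to the space of lines. -/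
noncomputable def Sp.Geo.ctl {S : Sp} (h : S.Geo) (r L : ℝ) (y : S.X) (t : ℝ) : S.X :=
  h.ln S.o y ((r - L + t) / r)

/-- An action by isometries that preserve the lines. -/
structure Sp.Isom (S : Sp) {G : Type} [Group G] (ρ : G →* Equiv.Perm S.X) : Prop where
  iso : ∀ γ x y, dist (ρ γ x) (ρ γ y) = dist x y
  line : ∀ γ, ∀ c ∈ S.L, (fun t => ρ γ (c t)) ∈ S.L

/-- The flow space is the space of lines of speed at most one. -/
structure Ev {Γ : Type} [Group Γ] {S : Sp} (A : Act Γ S) {Y : Type} [MetricSpace Y]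
    [MulAction Γ Y] (F : Flow Γ Y) (ev : Y → ℝ → S.X) : Prop where
  pos : 0 < F.κ
  mem : ∀ y, ev y ∈ S.L ∧ dist (ev y 0) (ev y 1) ≤ 1
  surj : ∀ c ∈ S.L, dist (c 0) (c 1) ≤ 1 → ∃ y, ev y = c
  flow : ∀ s y t, ev (F.Φ s y) t = ev y (t + s)
  smul : ∀ (γ : Γ) y t, ev (γ • y) t = A.ρ γ (ev y t)
  dist_le : ∀ y y' (r : ℝ),
    dist y y' ≤ r ↔ ∀ t, dist (ev y t) (ev y' t) ≤ r * Real.exp (F.κ * |t|)

open GN in
/-- A fine triangulation of `D` in which all boxes are acyclic. -/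
structure Grid {F V : Type} [Fintype F] [LinearOrder V] (D : Set (F → ℝ)) (n : ℕ) (ρ : ℝ)
    (K : Finset V) (Adj : V → V → Prop) (pt : V → F → ℝ) : Prop where
  mem : ∀ x ∈ K, pt x ∈ D
  adj : ∀ x ∈ K, ∀ y ∈ K, Adj x y → dist (pt x) (pt y) ≤ ρ
  near : ∀ x ∈ D, ∃ z ∈ K, dist (pt z) x ≤ ρ
  dim : ∀ σ, Clq Adj K σ → σ.card ≤ n + 1
  box : ∀ (lo hi : F → ℝ) (B : Finset V),
    (∀ z, z ∈ B ↔ z ∈ K ∧ ∀ i, lo i ≤ pt z i ∧ pt z i ≤ hi i) → B.Nonempty → Acyc Adj B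

end Pool.Agent.MP_f7db47_al.GF
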