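import Pool.Agent.MP_f7db47_al.GF.DF

/-!
Spaces of norms: definitions.
-/

set_option linter.unusedSectionVars false

namespace Pool.Agent.MP_f7db47_al.GF

open Matrix Metric

/-- A normed field, a base for the logarithm, and a way to combine norms of coordinates. -/
structure Plc (ι : Type) [Fintype ι] where
  k : Type
  [nf : NormedField k]
  b : ℝ
  hb : 1 < b
  ω : (ι → ℝ) → ℝ
  ω_mono : ∀ {x y : ι → ℝ}, 0 ≤ x → x ≤ y → ω x ≤ ω y
  ω_smul : ∀ {c : ℝ} {x : ι → ℝ}, 0 ≤ c → 0 ≤ x → ω (c • x) = c * ω x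
  ω_add : ∀ {x y : ι → ℝ}, 0 ≤ x → 0 ≤ y → ω (x + y) ≤ ω x + ω y
  le_ω : ∀ {x : ι → ℝ} (i : ι), 0 ≤ x → x i ≤ ω x
  ω_le : ∀ {x : ι → ℝ}, 0 ≤ x → ω x ≤ ∑ i, x i

attribute [instance] Plc.nf

namespace Plc

variable {ι : Type} [Fintype ι] [DecidableEq ι] (P : Plc ι)

/-- The norm given by a basis and weights. -/
noncomputable def nrm (g : GL ι P.k) (a : ι → ℝ) (u : ι → P.k) : ℝ :=
  P.ω fun i => ‖(g.val *ᵥ u) i‖ * P.b ^ a i

/-- The space of norms. -/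
def X : Type := {ν : (ι → P.k) → ℝ // ∃ g a, ν = P.nrm g a}

/-- Comparison of norms. -/
def Le (r : ℝ) (ν ν' : (ι → P.k) → ℝ) : Prop := ∀ u, ν u ≤ P.b ^ r * ν' u

variable {P}

theorem b_pos : 0 < P.b := zero_lt_one.trans P.hb

theorem co_nonneg (g : GL ι P.k) (a : ι → ℝ) (u : ι → P.k) :
    (0 : ι → ℝ) ≤ fun i => ‖(g.val *ᵥ u) i‖ * P.b ^ a i :=
  fun _ => mul_nonneg (norm_nonneg _) (Real.rpow_nonneg b_pos.le _)

theorem ω_nonneg {x : ι → ℝ} (hx : 0 ≤ x) : 0 ≤ P.ω x := by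
  have h := P.ω_smul (c := 0) le_rfl hx
  rw [zero_smul, zero_mul] at h
  exact h ▸ P.ω_mono le_rfl hx

theorem nrm_nonneg (g : GL ι P.k) (a : ι → ℝ) (u : ι → P.k) : 0 ≤ P.nrm g a u :=
  ω_nonneg (co_nonneg g a u)

theorem X.nonneg (x : P.X) (u : ι → P.k) : 0 ≤ x.1 u := by
  obtain ⟨_, g, a, rfl⟩ := x
  exact nrm_nonneg g a u

theorem Le.mono {r s : ℝ} {x : (ι → P.k) → ℝ} {y : P.X} (h : P.Le r x y.1) (hrs : r ≤ s) :
    P.Le s x y.1 := fun u => (h u).trans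
  (mul_le_mul_of_nonneg_right (Real.rpow_le_rpow_of_exponent_le P.hb.le hrs) (y.nonneg u))

theorem Le.trans {r s : ℝ} {x y z : (ι → P.k) → ℝ} (h : P.Le r x y) (h' : P.Le s y z) :
    P.Le (r + s) x z := fun u => by
  rw [Real.rpow_add b_pos, mul_assoc]
  exact (h u).trans (mul_le_mul_of_nonneg_left (h' u) (Real.rpow_nonneg b_pos.le _))

theorem le_refl' (x : (ι → P.k) → ℝ) : P.Le 0 x x := fun u => by simp

theorem exists_le (x y : P.X) : ∃ r, 0 ≤ r ∧ P.Le r x.1 y.1 := by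
  obtain ⟨_, g, a, rfl⟩ := x
  obtain ⟨_, h, c, rfl⟩ := y
  let M : Matrix ι ι P.k := g.val * (h⁻¹).val
  let A : ℝ := ∑ i, ∑ j, ‖M i j‖ * P.b ^ a i * P.b ^ (-c j)
  have hA : ∀ u, P.nrm g a u ≤ A * P.nrm h c u := fun u => by
    have e : g.val *ᵥ u = M *ᵥ (h.val *ᵥ u) := by
      simp only [M, mulVec_mulVec, mul_assoc, Units.inv_mul, mul_one]
    refine (P.ω_le (co_nonneg g a u)).trans ?_
    rw [Finset.sum_mul]
    refine Finset.sum_le_sum fun i _ => ?_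
    rw [e, Finset.sum_mul]
    refine (mul_le_mul_of_nonneg_right (norm_sum_le _ _) (Real.rpow_nonneg b_pos.le _)).trans ?_
    rw [Finset.sum_mul]
    refine Finset.sum_le_sum fun j _ => ?_
    have h1 := P.le_ω j (co_nonneg h c u)
    have h2 : P.b ^ (-c j) * P.b ^ c j = 1 := by rw [← Real.rpow_add b_pos]; simp
    have h3 : 0 ≤ ‖M i j‖ * P.b ^ a i * P.b ^ (-c j) := by
      have := b_pos (P := P); positivity
    calc ‖M i j * (h.val *ᵥ u) j‖ * P.b ^ a i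
        = ‖M i j‖ * P.b ^ a i * P.b ^ (-c j) * (‖(h.val *ᵥ u) j‖ * P.b ^ c j) := by
          rw [norm_mul]; linear_combination (-(‖M i j‖ * ‖(h.val *ᵥ u) j‖ * P.b ^ a i)) * h2
      _ ≤ _ := mul_le_mul_of_nonneg_left h1 h3
  obtain ⟨n, hn⟩ := pow_unbounded_of_one_lt A P.hb
  refine ⟨n, n.cast_nonneg, fun u => (hA u).trans ?_⟩
  rw [Real.rpow_natCast]
  exact mul_le_mul_of_nonneg_right hn.le (nrm_nonneg _ _ _)

/-- The set of bounds for the distance. -/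
def Bd (x y : P.X) : Set ℝ := {r | 0 ≤ r ∧ P.Le r x.1 y.1 ∧ P.Le r y.1 x.1}

theorem Bd_ne (x y : P.X) : (Bd x y).Nonempty := by
  obtain ⟨r, hr, h⟩ := exists_le x y
  obtain ⟨s, -, h'⟩ := exists_le y x
  exact ⟨max r s, le_max_of_le_left hr, h.mono (le_max_left _ _), h'.mono (le_max_right _ _)⟩

theorem Bd_bdd (x y : P.X) : BddBelow (Bd x y) := ⟨0, fun _ h => h.1⟩

theorem le_of_forall {r : ℝ} {x y : (ι → P.k) → ℝ} (h : ∀ s, r < s → P.Le s x y) :
    P.Le r x y := fun u => by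
  have hc : Continuous fun s : ℝ => P.b ^ s * y u :=
    (continuous_const.rpow continuous_id fun _ => Or.inl b_pos.ne').mul continuous_const
  exact ge_of_tendsto (hc.continuousWithinAt (s := Set.Ioi r) (x := r)).tendsto
    (eventually_nhdsWithin_of_forall fun s hs => h s hs u)

theorem sInf_mem (x y : P.X) : sInf (Bd x y) ∈ Bd x y := by
  refine ⟨le_csInf (Bd_ne x y) fun _ h => h.1, le_of_forall fun s hs => ?_,
    le_of_forall fun s hs => ?_⟩
  · obtain ⟨r, hr, h⟩ := exists_lt_of_csInf_lt (Bd_ne x y) hs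
    exact hr.2.1.mono h.le
  · obtain ⟨r, hr, h⟩ := exists_lt_of_csInf_lt (Bd_ne x y) hs
    exact hr.2.2.mono h.le

noncomputable instance : MetricSpace P.X where
  dist x y := sInf (Bd x y)
  dist_self x := le_antisymm (csInf_le (Bd_bdd x x) ⟨le_rfl, le_refl' _, le_refl' _⟩)
    (sInf_mem x x).1
  dist_comm x y := congrArg sInf (Set.ext fun _ => and_congr_right fun _ => and_comm)
  dist_triangle x y z := csInf_le (Bd_bdd x z)
    ⟨add_nonneg (sInf_mem x y).1 (sInf_mem y z).1, (sInf_mem x y).2.1.trans (sInf_mem y z).2.1,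
      add_comm (sInf (Bd y z)) _ ▸ (sInf_mem y z).2.2.trans (sInf_mem x y).2.2⟩
  eq_of_dist_eq_zero := fun {x y} h => by
    have h1 := sInf_mem x y
    rw [show sInf (Bd x y) = 0 from h] at h1
    exact Subtype.ext (funext fun u => le_antisymm (by simpa using h1.2.1 u)
      (by simpa using h1.2.2 u))

theorem dist_le_iff {x y : P.X} {r : ℝ} (hr : 0 ≤ r) :
    dist x y ≤ r ↔ P.Le r x.1 y.1 ∧ P.Le r y.1 x.1 :=
  ⟨fun h => ⟨(sInf_mem x y).2.1.mono h, (sInf_mem x y).2.2.mono h⟩,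
    fun h => csInf_le (Bd_bdd x y) ⟨hr, h⟩⟩

variable (P)

/-- The space of norms with its lines. -/
noncomputable def sp : Sp where
  X := P.X
  o := ⟨P.nrm 1 0, 1, 0, rfl⟩
  L := {c | ∃ (g : GL ι P.k) (a w : ι → ℝ), ∀ t, (c t).1 = P.nrm g (a + t • w)}

/-- Two norms have a common orthogonal basis. -/
def Join : Prop :=
  ∀ x y : P.X, ∃ (g : GL ι P.k) (a c : ι → ℝ), x.1 = P.nrm g a ∧ y.1 = P.nrm g c

/-- Interpolation of inequalities between norms. -/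
def Interp : Prop :=
  ∀ (g h : GL ι P.k) (a a' c c' : ι → ℝ) (l : ℝ), 0 ≤ l → l ≤ 1 →
    (∀ u, P.nrm g a u ≤ P.nrm h c u) → (∀ u, P.nrm g a' u ≤ P.nrm h c' u) →
    ∀ u, P.nrm g ((1 - l) • a + l • a') u ≤ P.nrm h ((1 - l) • c + l • c') u

/-- The field is locally compact of dimension one. -/
structure Loc : Prop where
  cpt : ∀ r : ℝ, IsCompact (closedBall (0 : P.k) r)
  cov : ∀ r : ℝ, Cov (closedBall (0 : P.k) r) 1
  gap : ∀ a : ℝ, ∃ d : P.k, d ≠ 0 ∧ ‖d‖ ≤ P.b ^ a ∧ P.b ^ a ≤ P.b * ‖d‖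

end Plc

/-- The real place. -/
noncomputable def plcR (ι : Type) [Fintype ι] : Plc ι where
  k := ℝ
  b := 2
  hb := one_lt_two
  ω x := ‖(WithLp.toLp 2 x : EuclideanSpace ℝ ι)‖
  ω_mono := fun {x y} hx hxy => by
    rw [EuclideanSpace.norm_eq, EuclideanSpace.norm_eq]
    refine Real.sqrt_le_sqrt (Finset.sum_le_sum fun i _ => ?_)
    have h1 : 0 ≤ x i := hx i
    have h2 : x i ≤ y i := hxy i
    simp only [Real.norm_eq_abs, sq_abs]
    nlinarith
  ω_smul := fun {c x} hc _ => by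
    rw [WithLp.toLp_smul, norm_smul, Real.norm_of_nonneg hc]
  ω_add := fun {x y} _ _ => by
    rw [WithLp.toLp_add]; exact norm_add_le _ _
  le_ω := fun {x} i _ => (le_abs_self _).trans
    (EuclideanSpace.norm_eq (WithLp.toLp 2 x : EuclideanSpace ℝ ι) ▸ Real.abs_le_sqrt (by
      refine le_trans (le_of_eq ?_) (Finset.single_le_sum
        (f := fun j => ‖(WithLp.toLp 2 x : EuclideanSpace ℝ ι) j‖ ^ 2)
        (fun j _ => sq_nonneg _) (Finset.mem_univ i))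
      simp))
  ω_le := fun {x} hx => by
    rw [EuclideanSpace.norm_eq]
    refine Real.sqrt_le_iff.2 ⟨Finset.sum_nonneg fun i _ => hx i, ?_⟩
    simp only [Real.norm_eq_abs, sq_abs]
    exact Finset.sum_sq_le_sq_sum_of_nonneg fun i _ => hx i

/-- The place given by a prime. -/
noncomputable def plcP (p : ℕ) [hp : Fact p.Prime] (ι : Type) [Fintype ι] : Plc ι where
  k := ℚ_[p]
  b := p
  hb := by exact_mod_cast hp.out.one_lt
  ω x := ‖x‖
  ω_mono := fun {x y} hx hxy => (pi_norm_le_iff_of_nonneg (norm_nonneg y)).2 fun i => by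
    rw [Real.norm_of_nonneg (hx i)]
    exact (hxy i).trans ((le_abs_self _).trans (norm_le_pi_norm y i))
  ω_smul := fun {c x} hc _ => by rw [norm_smul, Real.norm_of_nonneg hc]
  ω_add := fun _ _ => norm_add_le _ _
  le_ω := fun {x} i _ => (le_abs_self _).trans (norm_le_pi_norm x i)
  ω_le := fun {x} hx => (pi_norm_le_iff_of_nonneg (Finset.sum_nonneg fun i _ => hx i)).2
    fun i => by
      rw [Real.norm_of_nonneg (hx i)]
      exact Finset.single_le_sum (fun j _ => hx j) (Finset.mem_univ i)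

/-- A space of norms on a rational vector space, for the absolute value `av`. -/
structure NSp (ι : Type) [Fintype ι] [DecidableEq ι] (av : ℚ → ℝ) (b : ℝ) where
  S : Sp
  good : S.Good
  ν : S.X → (ι → ℚ) → ℝ
  ρ : GL ι ℚ × Multiplicative ℤ →* Equiv.Perm S.X
  line : ∀ γ, ∀ c ∈ S.L, (fun t => ρ γ (c t)) ∈ S.L
  ν_ρ : ∀ γ x u, ν (ρ γ x) (γ.1.val *ᵥ u) = b ^ ((γ.2.toAdd : ℤ) : ℝ) * ν x u
  dist_le : ∀ x y (r : ℝ), 0 ≤ r →
    (dist x y ≤ r ↔ ∀ u, ν x u ≤ b ^ r * ν y u ∧ ν y u ≤ b ^ r * ν x u)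
  add : ∀ x u u', ν x (u + u') ≤ ν x u + ν x u'
  smul : ∀ x (a : ℚ) u, ν x (a • u) = av a * ν x u
  le_o : ∀ u i, av (u i) ≤ ν S.o u
  o_le : ∀ u, ν S.o u ≤ ∑ i, av (u i)

end Pool.Agent.MP_f7db47_al.GF
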