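import Pool.Agent.MP_f7db47_al.GF.DF

/-!
Long thin boxes, shadows and periodic lines.
-/

namespace Pool.Agent.MP_f7db47_al.GF

variable {Γ : Type} [Group Γ] {Y : Type} [MetricSpace Y] [MulAction Γ Y] (F : Flow Γ Y)

theorem FBox_move (t : ℝ) (y : Y) : dist (F.Φ t y) y ≤ |t| := by
  have h := F.spd t 0 y
  rwa [F.zero, sub_zero] at h

theorem FBox_cont (y z : Y) : Continuous fun t : ℝ => dist (F.Φ t y) z := by
  have h : LipschitzWith 1 fun t : ℝ => F.Φ t y :=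
    LipschitzWith.mk_one fun s t => by simpa [Real.dist_eq] using F.spd s t y
  exact h.continuous.dist continuous_const

theorem FBox_lip {a t : ℝ} (ht : |t| ≤ a) (γ : Γ) (x y : Y) :
    dist (F.Φ t (γ • x)) (F.Φ t (γ • y)) ≤ Real.exp (F.κ * a) * dist x y := by
  have h := F.lip t (γ • x) (γ • y)
  rw [F.iso] at h
  refine h.trans (mul_le_mul_of_nonneg_right ?_ dist_nonneg)
  exact Real.exp_le_exp.2 (mul_le_mul_of_nonneg_left ht F.hκ)

theorem FBox_min {a : ℝ} (ha : 0 ≤ a) (y z : Y) :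
    ∃ t, |t| ≤ a ∧ ∀ s, |s| ≤ a → dist (F.Φ t y) z ≤ dist (F.Φ s y) z := by
  obtain ⟨t, ht, hm⟩ := (isCompact_Icc (a := -a) (b := a)).exists_isMinOn
    ⟨0, by constructor <;> linarith⟩ (FBox_cont F y z).continuousOn
  exact ⟨t, abs_le.2 ht, fun s hs => hm (abs_le.1 hs)⟩

theorem FBox_fin {ι : Type} (S : Set ι) (hS : S.Finite) (c : ι → ℝ) (hc : ∀ i ∈ S, 0 < c i) :
    ∃ d, 0 < d ∧ ∀ i ∈ S, d ≤ c i := by
  rcases S.eq_empty_or_nonempty with rfl | hne
  · exact ⟨1, one_pos, by simp⟩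
  · obtain ⟨i, hi, h⟩ := Set.exists_min_image S c hS hne
    exact ⟨c i, hc i hi, h⟩

theorem Flow.box (z : Y) (a : ℝ) : ∃ δ : ℝ, 0 < δ ∧ ∀ (γ : Γ) (t : ℝ) (x : Y), |t| ≤ a →
    dist x z ≤ δ → dist (F.Φ t (γ • x)) z ≤ δ → γ ∈ F.Per z := by
  rcases lt_or_ge a 0 with ha | ha
  · exact ⟨1, one_pos, fun γ t x ht => absurd ((abs_nonneg t).trans ht) (not_le.2 ha)⟩
  choose T hT hm using fun γ : Γ => FBox_min F ha (γ • z) z
  obtain ⟨c, hc, hcS⟩ := FBox_fin {γ : Γ | dist (γ • z) z ≤ a + 2 ∧ γ ∉ F.Per z}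
    ((F.prp z (a + 2)).subset fun γ h => h.1) (fun γ => dist (F.Φ (T γ) (γ • z)) z) (by
      intro γ hγ
      refine dist_pos.2 fun h => hγ.2 ⟨-T γ, ?_⟩
      have h2 := congrArg (F.Φ (-T γ)) h
      rwa [← F.add, neg_add_cancel, F.zero] at h2)
  have hE : 0 < Real.exp (F.κ * a) := Real.exp_pos _
  refine ⟨min 1 (c / (2 * (Real.exp (F.κ * a) + 1))), lt_min one_pos (by positivity), ?_⟩
  intro γ t x ht hx hy
  by_contra hγ
  have h1 := min_le_left 1 (c / (2 * (Real.exp (F.κ * a) + 1)))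
  have h2 := min_le_right 1 (c / (2 * (Real.exp (F.κ * a) + 1)))
  set δ := min 1 (c / (2 * (Real.exp (F.κ * a) + 1))) with hδ
  have hS : dist (γ • z) z ≤ a + 2 := by
    have e1 : dist (γ • z) (γ • x) ≤ 1 := by rw [F.iso, dist_comm]; linarith
    have e2 : dist (γ • x) (F.Φ t (γ • x)) ≤ a := by
      rw [dist_comm]; exact (FBox_move F t _).trans ht
    have e3 := dist_triangle4 (γ • z) (γ • x) (F.Φ t (γ • x)) z
    linarith
  have h3 : c ≤ dist (F.Φ t (γ • z)) z := (hcS γ ⟨hS, hγ⟩).trans (hm γ t ht)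
  have h4 := FBox_lip F ht γ z x
  have h5 := dist_triangle (F.Φ t (γ • z)) (F.Φ t (γ • x)) z
  have h6 : Real.exp (F.κ * a) * dist z x ≤ Real.exp (F.κ * a) * δ := by
    rw [dist_comm]; exact mul_le_mul_of_nonneg_left hx hE.le
  rw [le_div_iff₀ (by positivity)] at h2
  nlinarith

theorem FBox_best {a : ℝ} (ha : 0 ≤ a) (z x : Y) : ∃ (γ : Γ) (t : ℝ), |t| ≤ a ∧
    ∀ (γ' : Γ) (s : ℝ), |s| ≤ a → dist (F.Φ t (γ • x)) z ≤ dist (F.Φ s (γ' • x)) z := by
  choose T hT hm using fun γ : Γ => FBox_min F ha (γ • x) z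
  have h1 : (1 : Γ) ∈ {γ : Γ | dist (γ • x) x ≤ 2 * dist x z + a} := by
    have : (0 : ℝ) ≤ dist x z := dist_nonneg
    simp only [Set.mem_ofPred_eq, one_smul, dist_self]
    linarith
  obtain ⟨γ, -, hγ⟩ := Set.exists_min_image _ (fun γ => dist (F.Φ (T γ) (γ • x)) z)
    (F.prp x (2 * dist x z + a)) ⟨1, h1⟩
  refine ⟨γ, T γ, hT γ, fun γ' s hs => ?_⟩
  by_cases h : dist (γ' • x) x ≤ 2 * dist x z + a
  · exact (hγ γ' h).trans (hm γ' s hs)
  · have e1 := hγ 1 h1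
    have e2 := hm 1 0 (by simpa using ha)
    rw [F.zero, one_smul] at e2
    have e3 : dist (γ' • x) (F.Φ s (γ' • x)) ≤ a := by
      rw [dist_comm]; exact (FBox_move F s _).trans hs
    have e4 := dist_triangle4 (γ' • x) (F.Φ s (γ' • x)) z x
    rw [dist_comm z x] at e4
    simp only [one_smul] at e1
    push Not at h
    linarith

theorem Flow.psi (a : ℝ) (ha : 0 ≤ a) : ∃ ψ : Y → Y → ℝ,
    (∀ z x y, ψ z x ≤ ψ z y + Real.exp (F.κ * a) * dist x y) ∧
    (∀ z x (γ : Γ) (t : ℝ), |t| ≤ a → ψ z x ≤ dist (F.Φ t (γ • x)) z) ∧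
    ∀ z x, ∃ (γ : Γ) (t : ℝ), |t| ≤ a ∧ ψ z x = dist (F.Φ t (γ • x)) z := by
  choose G T hT hm using fun z x : Y => FBox_best F ha z x
  refine ⟨fun z x => dist (F.Φ (T z x) (G z x • x)) z, fun z x y => ?_, fun z x => hm z x,
    fun z x => ⟨G z x, T z x, hT z x, rfl⟩⟩
  have h1 := hm z x (G z y) (T z y) (hT z y)
  have h2 := FBox_lip F (hT z y) (G z y) x y
  have h3 := dist_triangle (F.Φ (T z y) (G z y • x)) (F.Φ (T z y) (G z y • y)) z
  linarith

theorem FBox_back {T : ℝ} {z : Y} (h : F.Φ T z = z) : F.Φ (-T) z = z := by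
  have h2 := congrArg (F.Φ (-T)) h
  rw [← F.add, neg_add_cancel, F.zero] at h2
  exact h2.symm

theorem FBox_int {T : ℝ} {z : Y} (h : F.Φ T z = z) (n : ℤ) : F.Φ (n * T) z = z := by
  induction n using Int.induction_on with
  | zero => simpa using F.zero z
  | succ n ih =>
    have e : (((n : ℤ) + 1 : ℤ) : ℝ) * T = ((n : ℤ) : ℝ) * T + T := by push_cast; ring
    rw [e, F.add, h, ih]
  | pred n ih =>
    have e : ((-(n : ℤ) - 1 : ℤ) : ℝ) * T = ((-(n : ℤ) : ℤ) : ℝ) * T + -T := by push_cast; ring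
    rw [e, F.add, FBox_back F h, ih]

theorem FBox_bdd {T : ℝ} (hT : 0 < T) {z : Y} (h : F.Φ T z = z) (t : ℝ) :
    dist (F.Φ t z) z ≤ T := by
  have e : t = Int.fract (t / T) * T + (⌊t / T⌋ : ℝ) * T := by
    rw [← add_mul, Int.fract_add_floor, div_mul_cancel₀ _ hT.ne']
  rw [e, F.add, FBox_int F h]
  refine (FBox_move F _ _).trans ?_
  have h0 := Int.fract_nonneg (t / T)
  have h1 := Int.fract_lt_one (t / T)
  rw [abs_of_nonneg (by positivity)]
  nlinarith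

theorem FBox_fix (z : Y) (g : F.Per z) (h : (g : Γ) • z = z) : IsOfFinOrder g := by
  have h1 : IsOfFinOrder (g : Γ) := by
    refine finite_powers.1 ((F.prp z 0).subset ?_)
    rintro _ ⟨n, rfl⟩
    have : (g : Γ) ^ n • z = z := MulAction.mem_stabilizer_iff.1
      ((MulAction.stabilizer Γ z).pow_mem (MulAction.mem_stabilizer_iff.2 h) n)
    simp [this]
  exact ((F.Per z).subtype_injective.isOfFinOrder_iff).1 h1

theorem Flow.per (z : Y) : ∃ φ : F.Per z →* GN.MZ, ∀ g, φ g = 1 → IsOfFinOrder g := by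
  by_cases hp : ∃ T : ℝ, 0 < T ∧ F.Φ T z = z
  · obtain ⟨T, hT, h⟩ := hp
    have hf : (F.Per z : Set Γ).Finite := by
      refine (F.prp z T).subset ?_
      rintro γ ⟨t, ht⟩
      simp only [Set.mem_ofPred_eq, ht]
      exact FBox_bdd F hT h t
    have : Finite (F.Per z) := hf
    exact ⟨1, fun g _ => isOfFinOrder_of_finite g⟩
  have hinj : ∀ s t : ℝ, F.Φ s z = F.Φ t z → s = t := by
    intro s t h
    have h2 := congrArg (F.Φ (-t)) h
    rw [← F.add, ← F.add, neg_add_cancel, F.zero] at h2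
    by_contra hne
    rcases lt_or_gt_of_ne hne with hl | hl
    · exact hp ⟨-(-t + s), by linarith, FBox_back F h2⟩
    · exact hp ⟨-t + s, by linarith, h2⟩
  choose τ hτ using fun g : F.Per z => (g.2 : ∃ t, (g : Γ) • z = F.Φ t z)
  have hmul : ∀ g h : F.Per z, τ (g * h) = τ g + τ h := by
    intro g h
    apply hinj
    rw [← hτ, Subgroup.coe_mul, mul_smul, hτ h, ← F.smul, hτ g, ← F.add, add_comm]
  have hzero : ∀ g : F.Per z, τ g = 0 → IsOfFinOrder g := fun g hg =>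
    FBox_fix F z g (by rw [hτ g, hg, F.zero])
  have h1 : τ 1 = 0 := by
    have := hmul 1 1
    rw [mul_one] at this
    linarith
  let H : AddSubgroup ℝ :=
    { carrier := Set.range τ
      zero_mem' := ⟨1, h1⟩
      add_mem' := by
        rintro _ _ ⟨g, rfl⟩ ⟨h, rfl⟩
        exact ⟨g * h, hmul g h⟩
      neg_mem' := by
        rintro _ ⟨g, rfl⟩
        refine ⟨g⁻¹, ?_⟩
        have := hmul g g⁻¹
        rw [mul_inv_cancel, h1] at this
        linarith }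
  have hfin : {g : F.Per z | 0 < τ g ∧ τ g ≤ 1}.Finite := by
    refine ((F.prp z 1).preimage (Subtype.val_injective (p := fun γ => γ ∈ F.Per z)).injOn).subset ?_
    rintro g ⟨h0, h2⟩
    simp only [Set.mem_preimage, Set.mem_ofPred_eq, hτ g]
    exact (FBox_move F _ _).trans (by rwa [abs_of_pos h0])
  obtain ⟨d, hd, hdS⟩ := FBox_fin _ hfin τ fun g hg => hg.1
  obtain ⟨b, hb⟩ := AddSubgroup.cyclic_of_isolated_zero (H := H) (lt_min hd one_pos) (by
    rw [Set.disjoint_left]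
    rintro _ ⟨g, rfl⟩ ⟨h0, h2⟩
    have := hdS g ⟨h0, (h2.trans_le (min_le_right _ _)).le⟩
    exact absurd (h2.trans_le (min_le_left _ _)) (not_lt.2 this))
  have hn : ∀ g : F.Per z, ∃ n : ℤ, (n : ℝ) * b = τ g := by
    intro g
    have hg : τ g ∈ H := ⟨g, rfl⟩
    rw [hb, AddSubgroup.mem_closure_singleton] at hg
    simpa [zsmul_eq_mul] using hg
  choose n hn using hn
  by_cases hb0 : b = 0
  · exact ⟨1, fun g _ => hzero g (by rw [← hn g, hb0, mul_zero])⟩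
  refine ⟨MonoidHom.mk' (fun g => Multiplicative.ofAdd (n g)) fun g h => ?_, fun g hg => ?_⟩
  · rw [← ofAdd_add]
    congr 1
    have e : ((n (g * h) : ℤ) : ℝ) * b = ((n g + n h : ℤ) : ℝ) * b := by
      push_cast
      rw [add_mul, hn, hn, hn, hmul]
    exact_mod_cast mul_right_cancel₀ hb0 e
  · have e : n g = 0 := by simpa using hg
    exact hzero g (by rw [← hn g, e]; simp)

theorem Flow.per_smul (z : Y) (γ g : Γ) (h : g ∈ F.Per z) : γ * g * γ⁻¹ ∈ F.Per (γ • z) := by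
  obtain ⟨t, ht⟩ := h
  exact ⟨t, by rw [mul_smul, mul_smul, inv_smul_smul, ht, F.smul]⟩

end Pool.Agent.MP_f7db47_al.GF
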