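import Pool.Agent.MP_f7db47_al.GF.FGrid
import Pool.Agent.MP_f7db47_al.GN.CExt

/-!
Chain level approximation of homotopy actions.
-/

namespace Pool.Agent.MP_f7db47_al.GF

open GN

section chains

variable {V : Type} [LinearOrder V] {K : Finset V} {Adj : V → V → Prop}
  {C C' C'' : Finset V → Finset V} {ψ ψ' ψ'' : Finset V → (Finset V →₀ ℤ)}

/-- Chain maps carried by `C`. -/
def FChain_Ap (K : Finset V) (Adj : V → V → Prop) (C : Finset V → Finset V)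
    (ψ : Finset V → (Finset V →₀ ℤ)) : Prop :=
  ψ ∅ = Finsupp.single ∅ 1 ∧ ∀ σ, Clq Adj K σ → σ.Nonempty →
    Ch Adj (C σ) σ.card (ψ σ) ∧ bd (ψ σ) = lin ψ (bd1 σ)

/-- Chain homotopies carried by `C`. -/
def FChain_Hp (K : Finset V) (Adj : V → V → Prop) (C : Finset V → Finset V)
    (ψ ψ' : Finset V → (Finset V →₀ ℤ)) : Prop :=
  ∃ h : Finset V → (Finset V →₀ ℤ), h ∅ = 0 ∧ ∀ σ, Clq Adj K σ → σ.Nonempty →
    Ch Adj (C σ) (σ.card + 1) (h σ) ∧ bd (h σ) + lin h (bd1 σ) = ψ' σ - ψ σ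

theorem FChain_ap_mono (h : FChain_Ap K Adj C ψ)
    (hC : ∀ σ, Clq Adj K σ → σ.Nonempty → C σ ⊆ C' σ) : FChain_Ap K Adj C' ψ :=
  ⟨h.1, fun σ h1 h2 => ⟨CExt_ch_mono (h.2 σ h1 h2).1 (hC σ h1 h2), (h.2 σ h1 h2).2⟩⟩

theorem FChain_hp_mono (h : FChain_Hp K Adj C ψ ψ')
    (hC : ∀ σ, Clq Adj K σ → σ.Nonempty → C σ ⊆ C' σ) : FChain_Hp K Adj C' ψ ψ' := by
  obtain ⟨x, h0, h⟩ := h
  exact ⟨x, h0, fun σ h1 h2 => ⟨CExt_ch_mono (h σ h1 h2).1 (hC σ h1 h2), (h σ h1 h2).2⟩⟩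

theorem FChain_hp_trans (h : FChain_Hp K Adj C ψ ψ') (h' : FChain_Hp K Adj C ψ' ψ'') :
    FChain_Hp K Adj C ψ ψ'' := by
  obtain ⟨x, h0, h⟩ := h
  obtain ⟨x', h0', h'⟩ := h'
  refine ⟨fun σ => x σ + (1 : ℤ) • x' σ, by simp only [h0, h0', smul_zero, add_zero],
    fun σ h1 h2 => ⟨CExt_ch_add_smul (h σ h1 h2).1 (h' σ h1 h2).1 1, ?_⟩⟩
  rw [CExt_lin_add_smul, map_add, one_smul, one_smul, add_add_add_comm, (h σ h1 h2).2,
    (h' σ h1 h2).2, sub_add_sub_cancel']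

theorem FChain_ap_ex (hm : ∀ σ τ, τ ⊆ σ → C τ ⊆ C σ)
    (ha : ∀ σ, Clq Adj K σ → σ.Nonempty → Acyc Adj (C σ)) : ∃ ψ, FChain_Ap K Adj C ψ := by
  obtain ⟨x, hx0, hx⟩ := extend (K := K) C hm ha 0 1 (fun _ => 0)
    (Finsupp.single ∅ 1) (by rw [CExt_bd_single, CExt_bd1_empty])
    (fun σ _ _ => CExt_ch_single ⟨Finset.empty_subset _, by simp⟩ rfl)
    (fun σ n _ _ => CExt_ch_zero _ _ _) (fun σ _ => by simp [CExt_lin_eq])
  exact ⟨x, hx0, fun σ hσ hne => by simpa using hx σ hσ hne⟩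

theorem FChain_hp_ex (hm : ∀ σ τ, τ ⊆ σ → C τ ⊆ C σ)
    (ha : ∀ σ, Clq Adj K σ → σ.Nonempty → Acyc Adj (C σ)) (h : FChain_Ap K Adj C ψ)
    (h' : FChain_Ap K Adj C ψ') : FChain_Hp K Adj C ψ ψ' := by
  have h0 : ψ' ∅ - ψ ∅ = 0 := by rw [h.1, h'.1, sub_self]
  obtain ⟨x, hx0, hx⟩ := extend (K := K) C hm ha 1 (-1) (fun σ => ψ' σ - ψ σ) 0
    (by rw [map_zero, h0]) (fun σ _ _ => CExt_ch_zero _ _ _) (fun σ n hσ hn => by
      have hne : σ.Nonempty := Finset.card_pos.1 (by omega)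
      rw [sub_eq_add_neg, ← neg_one_smul ℤ (ψ σ), ← hn]
      exact CExt_ch_add_smul (h'.2 σ hσ hne).1 (h.2 σ hσ hne).1 _)
    (fun σ hσ => by
      rcases σ.eq_empty_or_nonempty with rfl | hne
      · rw [h0, CExt_bd1_empty, map_zero, map_zero, smul_zero, add_zero]
      rw [map_sub, (h.2 σ hσ hne).2, (h'.2 σ hσ hne).2, CExt_lin_sub, neg_one_smul,
        add_neg_cancel])
  refine ⟨x, hx0, fun σ hσ hne => ⟨(hx σ hσ hne).1, ?_⟩⟩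
  rw [(hx σ hσ hne).2, neg_one_smul, neg_add_cancel_right]

theorem FChain_ap_id (h : ∀ σ, Clq Adj K σ → σ ⊆ C σ) :
    FChain_Ap K Adj C fun σ => Finsupp.single σ 1 :=
  ⟨rfl, fun σ hσ _ => ⟨CExt_ch_single ⟨h σ hσ, hσ.2⟩ rfl, by rw [CExt_bd_single, CExt_lin_id]⟩⟩

theorem FChain_ap_comp (h : FChain_Ap K Adj C ψ) (h' : FChain_Ap K Adj C' ψ')
    (hK : ∀ σ, C' σ ⊆ K) (hC : ∀ σ τ, Clq Adj K σ → τ.Nonempty → τ ⊆ C' σ → C τ ⊆ C'' σ) :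
    FChain_Ap K Adj C'' fun σ => lin ψ (ψ' σ) := by
  refine ⟨by simp only [h'.1, CExt_lin_single, h.1], fun σ hσ hne => ?_⟩
  have hsup : ∀ τ, ψ' σ τ ≠ 0 → Clq Adj K τ ∧ τ.Nonempty ∧ τ ⊆ C' σ ∧ τ.card = σ.card := by
    intro τ hτ
    obtain ⟨h4, h5⟩ := (h'.2 σ hσ hne).1 τ hτ
    exact ⟨⟨h4.1.trans (hK σ), h4.2⟩, Finset.card_pos.1 (h5 ▸ hne.card_pos), h4.1, h5⟩
  refine ⟨CExt_ch_lin fun τ hτ => ?_, ?_⟩
  · obtain ⟨h4, h5, h6, h7⟩ := hsup τ hτ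
    rw [← h7]
    exact CExt_ch_mono (h.2 τ h4 h5).1 (hC σ τ hσ h5 h6)
  · have h4 : bd (lin ψ (ψ' σ)) = lin (fun _ => 0) (ψ' σ) + (1 : ℤ) • lin ψ (bd (ψ' σ)) := by
      refine CExt_bd_lin fun τ hτ => ?_
      rw [zero_add, one_smul]
      exact (h.2 τ (hsup τ hτ).1 (hsup τ hτ).2.1).2
    rw [h4, (h'.2 σ hσ hne).2, CExt_map_lin]
    simp [CExt_lin_eq (fun _ => 0)]

variable {F : Type} [Fintype F] {D : Set (F → ℝ)} {n : ℕ} {ρ r r' w : ℝ} {pt a a' : V → F → ℝ}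

open Classical in
/-- The smallest box around the points `a y`, enlarged by `r`. -/
noncomputable def FChain_Car (K : Finset V) (pt a : V → F → ℝ) (r : ℝ) (σ : Finset V) :
    Finset V :=
  K.filter fun z => ∀ i, (∃ y ∈ σ, a y i - r ≤ pt z i) ∧ ∃ y ∈ σ, pt z i ≤ a y i + r

open Classical in
/-- The vertices close to all points `a y`. -/
noncomputable def FChain_B (K : Finset V) (pt a : V → F → ℝ) (r : ℝ) (σ : Finset V) : Finset V :=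
  K.filter fun z => ∀ y ∈ σ, dist (pt z) (a y) ≤ r

omit [LinearOrder V] in
theorem FChain_mem_B {σ : Finset V} {z : V} :
    z ∈ FChain_B K pt a r σ ↔ z ∈ K ∧ ∀ y ∈ σ, dist (pt z) (a y) ≤ r := by
  classical
  exact Finset.mem_filter

omit [LinearOrder V] in
theorem FChain_mem_Car {σ : Finset V} {z : V} : z ∈ FChain_Car K pt a r σ ↔ z ∈ K ∧
    ∀ i, (∃ y ∈ σ, a y i - r ≤ pt z i) ∧ ∃ y ∈ σ, pt z i ≤ a y i + r := by
  classical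
  exact Finset.mem_filter

omit [LinearOrder V] in
theorem FChain_mem {σ : Finset V} {z y : V} (hz : z ∈ K) (hy : y ∈ σ)
    (h : dist (pt z) (a y) ≤ r) : z ∈ FChain_Car K pt a r σ :=
  FChain_mem_Car.2 ⟨hz, fun i => by
    have := abs_le.1 ((dist_le_pi_dist (pt z) (a y) i).trans h)
    exact ⟨⟨y, hy, by linarith [this.1]⟩, y, hy, by linarith [this.2]⟩⟩

omit [LinearOrder V] in
theorem FChain_car_mono (σ τ : Finset V) (h : τ ⊆ σ) :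
    FChain_Car K pt a r τ ⊆ FChain_Car K pt a r σ := fun z hz => by
  rw [FChain_mem_Car] at hz ⊢
  refine ⟨hz.1, fun i => ?_⟩
  obtain ⟨⟨y, hy, h1⟩, y', hy', h2⟩ := hz.2 i
  exact ⟨⟨y, h hy, h1⟩, y', h hy', h2⟩

theorem FChain_car_acyc (hG : Grid D n ρ K Adj pt) (ha : ∀ y ∈ K, a y ∈ D) (hr : ρ ≤ r)
    (σ : Finset V) (hσ : Clq Adj K σ) (hne : σ.Nonempty) : Acyc Adj (FChain_Car K pt a r σ) := by
  refine hG.box (fun i => σ.inf' hne fun y => a y i - r) (fun i => σ.sup' hne fun y => a y i + r) _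
    (fun z => ?_) ?_
  · simp only [FChain_mem_Car, Finset.inf'_le_iff, Finset.le_sup'_iff]
  · obtain ⟨y, hy⟩ := hne
    obtain ⟨z, hz, h⟩ := hG.near _ (ha y (hσ.1 hy))
    exact ⟨z, FChain_mem hz hy (h.trans hr)⟩

omit [LinearOrder V] in
theorem FChain_car_sub (hr : 0 ≤ r) {σ : Finset V}
    (hw : ∀ y ∈ σ, ∀ y' ∈ σ, dist (a y) (a y') ≤ w) :
    FChain_Car K pt a r σ ⊆ FChain_B K pt a (r + w) σ := fun z hz => by
  rw [FChain_mem_Car] at hz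
  refine FChain_mem_B.2 ⟨hz.1, fun y hy => (dist_pi_le_iff
    (add_nonneg hr (dist_nonneg.trans (hw y hy y hy)))).2 fun i => ?_⟩
  obtain ⟨⟨y₁, hy₁, h1⟩, y₂, hy₂, h2⟩ := hz.2 i
  have h3 := abs_le.1 ((dist_le_pi_dist (a y) (a y₁) i).trans (hw y hy y₁ hy₁))
  have h4 := abs_le.1 ((dist_le_pi_dist (a y) (a y₂) i).trans (hw y hy y₂ hy₂))
  exact abs_le.2 ⟨by linarith [h3.2], by linarith [h4.1]⟩

omit [LinearOrder V] in
theorem FChain_B_le {σ : Finset V} (hσ : σ ⊆ K) (h : ∀ y ∈ K, r + dist (a y) (a' y) ≤ r') :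
    FChain_B K pt a r σ ⊆ FChain_B K pt a' r' σ := fun z hz => by
  rw [FChain_mem_B] at hz ⊢
  exact ⟨hz.1, fun y hy => (dist_triangle _ (a y) _).trans
    ((add_le_add (hz.2 y hy) le_rfl).trans (h y (hσ hy)))⟩

theorem FChain_ex (hG : Grid D n ρ K Adj pt) (hρ : 0 ≤ ρ) (ha : ∀ y ∈ K, a y ∈ D)
    (hw : ∀ σ, Clq Adj K σ → ∀ y ∈ σ, ∀ y' ∈ σ, dist (a y) (a y') ≤ w) :
    ∃ ψ, FChain_Ap K Adj (FChain_B K pt a (ρ + w)) ψ := by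
  obtain ⟨ψ, h⟩ := FChain_ap_ex FChain_car_mono (FChain_car_acyc hG ha le_rfl)
  exact ⟨ψ, FChain_ap_mono h fun σ hσ _ => FChain_car_sub hρ (hw σ hσ)⟩

theorem FChain_hp (hG : Grid D n ρ K Adj pt) (hρ : 0 ≤ ρ) (ha : ∀ y ∈ K, a y ∈ D)
    (hw : ∀ σ, Clq Adj K σ → ∀ y ∈ σ, ∀ y' ∈ σ, dist (a y) (a y') ≤ w) (hr : ρ ≤ r)
    (h : FChain_Ap K Adj (FChain_B K pt a r) ψ) (h' : FChain_Ap K Adj (FChain_B K pt a r) ψ') :
    FChain_Hp K Adj (FChain_B K pt a (r + w)) ψ ψ' := by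
  have key : ∀ σ, Clq Adj K σ → σ.Nonempty → FChain_B K pt a r σ ⊆ FChain_Car K pt a r σ :=
    fun σ _ ⟨y, hy⟩ z hz => FChain_mem (FChain_mem_B.1 hz).1 hy ((FChain_mem_B.1 hz).2 y hy)
  exact FChain_hp_mono (FChain_hp_ex FChain_car_mono (FChain_car_acyc hG ha hr)
    (FChain_ap_mono h key) (FChain_ap_mono h' key))
    fun σ hσ _ => FChain_car_sub (hρ.trans hr) (hw σ hσ)

end chains

theorem FChain_uc {G X : Type} [Group G] [MetricSpace X] {D : Set X} (hc : IsCompact D)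
    {S₀ : Finset G} {φ : G → X → X} {H : G → G → ℝ → X → X} (hH : HAct S₀ D φ H) {e : ℝ}
    (he : 0 < e) : ∃ d, (0 < d ∧ d ≤ e) ∧ ∀ g ∈ S₀, ∀ g' ∈ S₀, ∀ u ∈ Set.Icc (0 : ℝ) 1,
      ∀ u' ∈ Set.Icc (0 : ℝ) 1, ∀ y ∈ D, ∀ y' ∈ D, |u - u'| ≤ d → dist y y' ≤ d →
        dist (H g g' u y) (H g g' u' y') ≤ e := by
  refine (Filter.Eventually.and (Ioc_mem_nhdsGT he) ?_).exists
  simp only [Filter.eventually_all_finset]
  intro g hg g' hg'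
  obtain ⟨δ, hδ, h⟩ := Metric.uniformContinuousOn_iff_le.1
    ((isCompact_Icc.prod hc).uniformContinuousOn_of_continuous (hH.cont g hg g' hg')) e he
  filter_upwards [Ioc_mem_nhdsGT hδ] with d hd u hu u' hu' y hy y' hy' h1 h2
  exact h (u, y) ⟨hu, hy⟩ (u', y') ⟨hu', hy'⟩ ((max_le h1 h2).trans hd.2)

theorem exists_chd {G F : Type} [Group G] [Fintype F] {D : Set (F → ℝ)} {n : ℕ}
    (hc : IsCompact D) (hne : D.Nonempty) (hT : TropC D n) {S₀ : Finset G} (h1 : 1 ∈ S₀)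
    {φ : G → (F → ℝ) → F → ℝ} {H : G → G → ℝ → (F → ℝ) → F → ℝ} (hH : HAct S₀ D φ H)
    (η : ℝ) (hη : 0 < η) :
    ∃ (V : Type) (_ : LinearOrder V) (K : Finset V) (Adj : V → V → Prop)
      (C : G → Finset V → Finset V) (φ' : G → Finset V → (Finset V →₀ ℤ))
      (H' : G → G → Finset V → (Finset V →₀ ℤ)) (pt : V → F → ℝ),
      ChD S₀ K Adj C (n + 1) φ' H' ∧ (∀ x ∈ K, pt x ∈ D) ∧
      (∀ x ∈ K, ∀ y ∈ K, Adj x y → dist (pt x) (pt y) ≤ η) ∧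
      ∀ g σ, Clq Adj K σ → ∀ x ∈ C g σ, ∀ y ∈ σ, ∃ g₁ ∈ S₀, ∃ g₂ ∈ S₀,
        ∃ u ∈ Set.Icc (0 : ℝ) 1, g₁ * g₂ = g ∧ dist (pt x) (H g₁ g₂ u (pt y)) ≤ η := by
  classical
  obtain ⟨d, ⟨hd0, hd1⟩, hd⟩ := FChain_uc hc hH (e := η / 3) (by positivity)
  obtain ⟨ρ, ⟨hρ0, hρ1⟩, hρ⟩ := FChain_uc hc hH (half_pos hd0)
  obtain ⟨V, _, K, Adj, pt, hG⟩ := exists_grid hc.isBounded hT ρ hρ0
  have z0 : (0 : ℝ) ∈ Set.Icc (0 : ℝ) 1 := ⟨le_rfl, zero_le_one⟩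
  have hclq : ∀ σ, Clq Adj K σ → ∀ y ∈ σ, ∀ y' ∈ σ, dist (pt y) (pt y') ≤ ρ := by
    intro σ hσ y hy y' hy'
    rcases eq_or_ne y y' with rfl | e
    · rw [dist_self]
      exact hρ0.le
    · exact hG.adj y (hσ.1 hy) y' (hσ.1 hy') (hσ.2 y hy y' hy' e)
  have hosc : ∀ g ∈ S₀, ∀ g' ∈ S₀, ∀ u ∈ Set.Icc (0 : ℝ) 1, ∀ σ, Clq Adj K σ → ∀ y ∈ σ, ∀ y' ∈ σ,
      dist (H g g' u (pt y)) (H g g' u (pt y')) ≤ d / 2 := fun g hg g' hg' u hu σ hσ y hy y' hy' =>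
    hρ g hg g' hg' u hu u hu _ (hG.mem y (hσ.1 hy)) _ (hG.mem y' (hσ.1 hy'))
      (by rw [sub_self, abs_zero]; exact hρ0.le) (hclq σ hσ y hy y' hy')
  have hex : ∀ g ∈ S₀, ∀ g' ∈ S₀, ∀ u ∈ Set.Icc (0 : ℝ) 1,
      ∃ ψ, FChain_Ap K Adj (FChain_B K pt (fun y => H g g' u (pt y)) d) ψ := by
    intro g hg g' hg' u hu
    obtain ⟨ψ, h⟩ := FChain_ex hG hρ0.le (fun y hy => hH.maps g hg g' hg' u hu _ (hG.mem y hy))
      (hosc g hg g' hg' u hu)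
    exact ⟨ψ, FChain_ap_mono h fun σ hσ _ => FChain_B_le hσ.1 fun y _ => by
      rw [dist_self]
      linarith⟩
  have hφ : ∀ p, ∃ ψ : Finset V → (Finset V →₀ ℤ), (p = 1 → ∀ σ, ψ σ = Finsupp.single σ 1) ∧
      ψ ∅ = Finsupp.single ∅ 1 ∧ ∀ g ∈ S₀, ∀ g' ∈ S₀, g * g' = p →
        FChain_Ap K Adj (FChain_B K pt (fun y => H g g' 0 (pt y)) d) ψ := by
    intro p
    by_cases hp : p = 1
    · refine ⟨_, fun _ _ => rfl, rfl, fun g hg g' hg' e => FChain_ap_id fun σ hσ z hz =>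
        FChain_mem_B.2 ⟨hσ.1 hz, fun y hy => ?_⟩⟩
      rw [hH.zero g hg g' hg' _ (hG.mem y (hσ.1 hy)), e, hp, hH.one _ (hG.mem y (hσ.1 hy))]
      linarith [hclq σ hσ z hz y hy]
    by_cases h2 : ∃ g ∈ S₀, ∃ g' ∈ S₀, g * g' = p
    · obtain ⟨g, hg, g', hg', e⟩ := h2
      obtain ⟨ψ, h⟩ := hex g hg g' hg' 0 z0
      refine ⟨ψ, fun h3 => absurd h3 hp, h.1, fun k hk k' hk' e' =>
        FChain_ap_mono h fun σ hσ _ => FChain_B_le hσ.1 fun y hy => ?_⟩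
      rw [hH.zero g hg g' hg' _ (hG.mem y hy), hH.zero k hk k' hk' _ (hG.mem y hy), e, e',
        dist_self, add_zero]
    · exact ⟨fun _ => Finsupp.single ∅ 1, fun h3 => absurd h3 hp, rfl,
        fun g hg g' hg' e => absurd ⟨g, hg, g', hg', e⟩ h2⟩
  choose φ' hφ1 hφ0 hφ using hφ
  obtain ⟨C, hC⟩ : ∃ C : G → Finset V → Finset V, ∀ g σ x, x ∈ C g σ ↔ x ∈ K ∧ ∀ y ∈ σ,
      ∃ g₁ ∈ S₀, ∃ g₂ ∈ S₀, ∃ u ∈ Set.Icc (0 : ℝ) 1, g₁ * g₂ = g ∧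
        dist (pt x) (H g₁ g₂ u (pt y)) ≤ η :=
    ⟨fun g σ => K.filter _, fun g σ x => Finset.mem_filter⟩
  have hBC : ∀ g ∈ S₀, ∀ g' ∈ S₀, ∀ u ∈ Set.Icc (0 : ℝ) 1, ∀ r ≤ η, ∀ σ,
      FChain_B K pt (fun y => H g g' u (pt y)) r σ ⊆ C (g * g') σ :=
    fun g hg g' hg' u hu r hr σ z hz => (hC _ _ _).2 ⟨(FChain_mem_B.1 hz).1, fun y hy =>
      ⟨g, hg, g', hg', u, hu, rfl, ((FChain_mem_B.1 hz).2 y hy).trans hr⟩⟩
  have hstep : ∀ g ∈ S₀, ∀ g' ∈ S₀, ∀ u ∈ Set.Icc (0 : ℝ) 1, ∀ u' ∈ Set.Icc (0 : ℝ) 1,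
      |u' - u| ≤ d → ∀ χ ψ, FChain_Ap K Adj (FChain_B K pt (fun y => H g g' u' (pt y)) d) χ →
        FChain_Ap K Adj (FChain_B K pt (fun y => H g g' u (pt y)) (d + η / 3)) ψ →
          FChain_Hp K Adj (C (g * g')) χ ψ := fun g hg g' hg' u hu u' hu' h χ ψ h2 h3 =>
    FChain_hp_mono (FChain_hp hG hρ0.le (fun y hy => hH.maps g hg g' hg' u hu _ (hG.mem y hy))
      (hosc g hg g' hg' u hu) (by linarith) (FChain_ap_mono h2 fun σ hσ _ =>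
        FChain_B_le hσ.1 fun y hy => add_le_add le_rfl (hd g hg g' hg' u' hu' u hu _ (hG.mem y hy)
          _ (hG.mem y hy) h (by rw [dist_self]; exact hd0.le))) h3)
      fun σ _ _ => hBC g hg g' hg' u hu _ (by linarith) σ
  have hind : ∀ g ∈ S₀, ∀ g' ∈ S₀, ∀ m : ℕ, ∀ u ∈ Set.Icc (0 : ℝ) 1, u ≤ m * d →
      ∀ ψ, FChain_Ap K Adj (FChain_B K pt (fun y => H g g' u (pt y)) (d + η / 3)) ψ →
        FChain_Hp K Adj (C (g * g')) (φ' (g * g')) ψ := by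
    intro g hg g' hg' m
    induction m with
    | zero =>
      intro u hu h ψ hψ
      rw [Nat.cast_zero, zero_mul] at h
      exact hstep g hg g' hg' u hu 0 z0 (abs_le.2 ⟨by linarith, by linarith [hu.1]⟩) _ _
        (hφ _ g hg g' hg' rfl) hψ
    | succ m ih =>
      intro u hu h ψ hψ
      rw [Nat.cast_succ, add_mul, one_mul] at h
      have hu' : max (u - d) 0 ∈ Set.Icc (0 : ℝ) 1 :=
        ⟨le_max_right _ _, max_le (by linarith [hu.2]) zero_le_one⟩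
      obtain ⟨χ, hχ⟩ := hex g hg g' hg' _ hu'
      refine FChain_hp_trans (ih _ hu' (max_le (by linarith) (by positivity)) χ
        (FChain_ap_mono hχ fun σ hσ _ => FChain_B_le hσ.1 fun y _ => ?_))
        (hstep g hg g' hg' u hu _ hu' (abs_le.2 ⟨?_, ?_⟩) χ ψ hχ hψ)
      · rw [dist_self]
        linarith
      · linarith [le_max_left (u - d) 0]
      · linarith [max_le (by linarith : u - d ≤ u) hu.1]
  have hH' : ∀ g g', ∃ h : Finset V → (Finset V →₀ ℤ), h ∅ = 0 ∧ (g ∈ S₀ → g' ∈ S₀ →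
      ∀ σ, Clq Adj K σ → σ.Nonempty → Ch Adj (C (g * g') σ) (σ.card + 1) (h σ) ∧
        bd (h σ) + lin h (bd1 σ) = lin (φ' g) (φ' g' σ) - φ' (g * g') σ) := by
    intro g g'
    by_cases h2 : g ∈ S₀ ∧ g' ∈ S₀
    swap
    · exact ⟨fun _ => 0, rfl, fun h3 h4 => absurd ⟨h3, h4⟩ h2⟩
    obtain ⟨hg, hg'⟩ := h2
    obtain ⟨m, hm⟩ := exists_nat_ge (1 / d)
    obtain ⟨h, h3, h4⟩ := hind g hg g' hg' m 1 ⟨zero_le_one, le_rfl⟩ ((div_le_iff₀ hd0).1 hm) _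
      (FChain_ap_comp (hφ g g hg 1 h1 (mul_one g)) (hφ g' g' hg' 1 h1 (mul_one g'))
        (fun σ z hz => (FChain_mem_B.1 hz).1) fun σ τ hσ ⟨x, hx⟩ hτ z hz =>
          FChain_mem_B.2 ⟨(FChain_mem_B.1 hz).1, fun y hy => by
            have h5 := FChain_mem_B.1 (hτ hx)
            have h6 := hG.mem y (hσ.1 hy)
            have h7 := hH.maps g' hg' 1 h1 0 z0 _ h6
            have h8 := hd g hg 1 h1 0 z0 0 z0 _ (hG.mem x h5.1) _ h7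
              (by rw [sub_self, abs_zero]; exact hd0.le) (h5.2 y hy)
            rw [hH.zero g hg 1 h1 _ h7, hH.zero g' hg' 1 h1 _ h6, mul_one, mul_one,
              ← hH.fin g hg g' hg' _ h6] at h8
            exact (dist_triangle _ _ _).trans (add_le_add ((FChain_mem_B.1 hz).2 x hx) h8)⟩)
    exact ⟨h, h3, fun _ _ => h4⟩
  choose H' hH0 hH' using hH'
  refine ⟨V, inferInstance, K, Adj, C, φ', H', pt, ⟨hG.dim, ?_, fun g σ x hx => ((hC _ _ _).1 hx).1,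
    hφ1 1 rfl, hφ0, fun g hg g' hg' => (FChain_ap_mono (hφ _ g hg g' hg' rfl) fun σ _ _ =>
      hBC g hg g' hg' 0 z0 d (by linarith) σ).2, hH0, fun g hg g' hg' => hH' g g' hg hg'⟩, hG.mem,
    fun x hx y hy h => (hG.adj x hx y hy h).trans (by linarith),
    fun g σ _ x hx => ((hC _ _ _).1 hx).2⟩
  obtain ⟨R, hR⟩ := hc.isBounded.exists_norm_le
  obtain ⟨x, hx⟩ := hne
  obtain ⟨z, hz, -⟩ := hG.near x hx
  exact hG.box (fun _ => -R) (fun _ => R) K (fun z => ⟨fun h => ⟨h, fun i =>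
    abs_le.1 ((norm_le_pi_norm (pt z) i).trans (hR _ (hG.mem z h)))⟩, fun h => h.1⟩) ⟨z, hz⟩

end Pool.Agent.MP_f7db47_al.GF
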