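import Pool.Agent.MP_f7db47_al.GF.FGreedy
import Pool.Agent.MP_f7db47_al.GF.FBox

/-!
Long thin covers of flow spaces.
-/

namespace Pool.Agent.MP_f7db47_al.GF

variable {Γ : Type} [Group Γ] {Y : Type} [MetricSpace Y] [MulAction Γ Y] (F : Flow Γ Y)

theorem FCover_shift (g h : Γ) (t t' : ℝ) (y : Y) :
    F.Φ (t' - t) ((h * g⁻¹) • F.Φ t (g • y)) = F.Φ t' (h • y) := by
  rw [← F.smul, ← F.add, sub_add_cancel, ← mul_smul, inv_mul_cancel_right]

theorem FCover_cont (g : Γ) (t : ℝ) : Continuous fun y : Y => F.Φ t (g • y) := by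
  refine (LipschitzWith.of_dist_le_mul (K := ⟨Real.exp (F.κ * |t|), (Real.exp_pos _).le⟩)
    fun y y' => ?_).continuous
  have h := F.lip t (g • y) (g • y')
  rw [F.iso] at h
  exact h

theorem Flow.cover (y₀ : Y) (ρ α : ℝ) : ∃ δ : ℝ, 0 < δ ∧ ∃ (n : ℕ) (U : Fin n → Set Y)
    (z : Fin n → Y), (∀ i, ∀ γ ∈ F.Per (z i), ∀ y ∈ U i, γ • y ∈ U i) ∧
    (∀ i (γ : Γ), ∀ y ∈ U i, γ • y ∈ U i → γ ∈ F.Per (z i)) ∧
    (∀ y, {i | ∃ γ : Γ, γ • y ∈ U i}.ncard ≤ 4 * (F.m + 1)) ∧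
    ∀ y, dist y y₀ ≤ ρ → ∃ i, ∃ γ : Γ, ∀ s y', |s| ≤ α → dist (F.Φ s y) y' ≤ δ →
      γ • y' ∈ U i := by
  classical
  obtain ⟨a, ha1, haα⟩ : ∃ a : ℝ, 1 ≤ a ∧ α ≤ a := ⟨max α 1, le_max_right _ _, le_max_left _ _⟩
  have ha : 0 ≤ a := by linarith
  choose δz hδz hbox using fun z => F.box z (4 * a)
  have hc := F.cpt y₀ ρ
  obtain ⟨t, -, ht⟩ := hc.elim_nhds_subcover (fun z => Metric.ball z (δz z / 2))
    fun x _ => Metric.ball_mem_nhds x (half_pos (hδz x))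
  obtain ⟨ψ, hψ1, hψ2, hψ3⟩ := F.psi a ha
  let z : Fin t.card → Y := fun i => (t.equivFin.symm i).1
  have hd : ∀ w x, ψ w x ≤ dist x w := fun w x => by
    have h := hψ2 w x 1 0 (by simpa using ha)
    rwa [one_smul, F.zero] at h
  have hz : ∀ x ∈ Metric.closedBall y₀ ρ, ∃ i, dist x (z i) ≤ δz (z i) / 2 := fun x hx => by
    have h := ht hx
    simp only [Set.mem_iUnion] at h
    obtain ⟨w, hw, hx⟩ := h
    refine ⟨t.equivFin ⟨w, hw⟩, ?_⟩
    simp only [z, Equiv.symm_apply_apply]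
    exact (Metric.mem_ball.1 hx).le
  obtain ⟨T, hT1, hT2, hT3⟩ := greedy hc (F.cov y₀ ρ) ψ _ hψ1 hd t.card z
    (fun i => δz (z i) / 2) (fun i => half_pos (hδz _)) hz
  let A : Fin t.card → Set Y := fun i => {x | ∃ c ∈ T i, x ∈ Metric.ball c.1 c.2}
  have hAo : ∀ i, IsOpen (A i) := fun i => by
    have : A i = ⋃ c ∈ T i, Metric.ball c.1 c.2 := by
      ext x
      simp only [A, Set.mem_setOf_eq, Set.mem_iUnion, exists_prop]
    rw [this]
    exact isOpen_biUnion fun _ _ => Metric.isOpen_ball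
  have hAz : ∀ i, ∀ x ∈ A i, dist x (z i) ≤ δz (z i) := fun i x hx => by
    obtain ⟨c, hc, hx⟩ := hx
    have h := Metric.mem_ball.1 (hT1 i c hc hx)
    linarith
  let V : Fin t.card × Γ × {r : ℝ // |r| ≤ a} → Set Y :=
    fun p => {y | F.Φ p.2.2.1 (p.2.1 • y) ∈ A p.1}
  have hVo : ∀ p, IsOpen (V p) := fun p => (hAo p.1).preimage (FCover_cont F p.2.1 p.2.2.1)
  have hVc : Metric.closedBall y₀ ρ ⊆ ⋃ p, V p := fun x hx => by
    obtain ⟨i, c, hc, h⟩ := hT2 x hx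
    obtain ⟨γ, r, hr, e⟩ := hψ3 c.1 x
    refine Set.mem_iUnion.2 ⟨(i, γ, ⟨r, hr⟩), c, hc, ?_⟩
    rw [e] at h
    exact Metric.mem_ball.2 h
  obtain ⟨d, hd0, hdV⟩ := lebesgue_number_lemma_of_metric hc hVo hVc
  refine ⟨d * Real.exp (-(F.κ * a)) / 2, by positivity, t.card,
    fun i => {y | ∃ γ ∈ F.Per (z i), ∃ r : ℝ, |r| ≤ 2 * a ∧ F.Φ r (γ • y) ∈ A i}, z,
    ?_, ?_, ?_, ?_⟩
  · rintro i γ hγ y ⟨g, hg, r, hr, hy⟩
    refine ⟨g * γ⁻¹, mul_mem hg (inv_mem hγ), r, hr, ?_⟩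
    rwa [← mul_smul, inv_mul_cancel_right]
  · rintro i γ y ⟨g, hg, r, hr, hy⟩ ⟨g', hg', r', hr', hy'⟩
    rw [← mul_smul, ← FCover_shift F g (g' * γ) r r' y] at hy'
    have hrr : |r' - r| ≤ 4 * a := by
      rw [abs_le] at hr hr' ⊢
      constructor <;> linarith [hr.1, hr.2, hr'.1, hr'.2]
    have h := hbox (z i) _ _ _ hrr (hAz i _ hy) (hAz i _ hy')
    have e : γ = g'⁻¹ * (g' * γ * g⁻¹) * g := by group
    rw [e]
    exact mul_mem (mul_mem (inv_mem hg') h) hg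
  · intro y
    let S : ℝ → Set (Fin t.card) :=
      fun l => {i | ∃ (γ : Γ) (r : ℝ), l ≤ r ∧ r ≤ l + a ∧ F.Φ r (γ • y) ∈ A i}
    have hS : ∀ l, (S l).ncard ≤ F.m + 1 := fun l => by
      rcases (S l).eq_empty_or_nonempty with h | h
      · rw [h, Set.ncard_empty]
        exact Nat.zero_le _
      obtain ⟨i, ⟨γ, r, hr1, hr2, c, hc, hx⟩, hi⟩ :=
        Set.exists_max_image (S l) id (Set.toFinite _) h
      have h3 := hT3 i c hc _ hx
      refine le_trans (Set.ncard_le_ncard (t := insert i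
        {j | j < i ∧ ∃ c' ∈ T j, ψ c'.1 (F.Φ r (γ • y)) < c'.2}) ?_ (Set.toFinite _)) ?_
      · intro j hj
        rcases (hi j hj).eq_or_lt with e | e
        · exact Or.inl e
        obtain ⟨γ', r', hr1', hr2', c', hc', hx'⟩ := hj
        refine Or.inr ⟨e, c', hc', ?_⟩
        have hrr : |r' - r| ≤ a := by
          rw [abs_le]
          constructor <;> linarith
        have h4 := hψ2 c'.1 (F.Φ r (γ • y)) (γ' * γ⁻¹) (r' - r) hrr
        rw [FCover_shift] at h4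
        exact h4.trans_lt (Metric.mem_ball.1 hx')
      · exact (Set.ncard_insert_le _ _).trans (Nat.add_le_add_right h3 1)
    refine le_trans (Set.ncard_le_ncard
      (t := (S (-2 * a) ∪ S (-a)) ∪ (S 0 ∪ S a)) ?_ (Set.toFinite _)) ?_
    · rintro i ⟨γ, g, -, r, hr, hy⟩
      rw [← mul_smul] at hy
      rw [abs_le] at hr
      by_cases h1 : r ≤ -a
      · exact Or.inl (Or.inl ⟨_, r, by linarith [hr.1], by linarith, hy⟩)
      by_cases h2 : r ≤ 0
      · exact Or.inl (Or.inr ⟨_, r, by linarith, by linarith, hy⟩)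
      by_cases h3 : r ≤ a
      · exact Or.inr (Or.inl ⟨_, r, by linarith, by linarith, hy⟩)
      · exact Or.inr (Or.inr ⟨_, r, by linarith, by linarith [hr.2], hy⟩)
    · have h1 := Set.ncard_union_le (S (-2 * a) ∪ S (-a)) (S 0 ∪ S a)
      have h2 := Set.ncard_union_le (S (-2 * a)) (S (-a))
      have h3 := Set.ncard_union_le (S 0) (S a)
      have h4 := hS (-2 * a)
      have h5 := hS (-a)
      have h6 := hS 0
      have h7 := hS a
      omega
  · intro y hy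
    obtain ⟨⟨i, γ, r, hr⟩, hp⟩ := hdV y (Metric.mem_closedBall.2 hy)
    refine ⟨i, γ, fun s y' hs hy' => ⟨1, one_mem _, r - s, ?_, ?_⟩⟩
    · rw [abs_le] at hr hs ⊢
      constructor <;> linarith [hr.1, hr.2, hs.1, hs.2]
    · have h1 := F.lip (-s) y' (F.Φ s y)
      rw [← F.add, neg_add_cancel, F.zero, abs_neg, dist_comm y'] at h1
      have h2 : Real.exp (F.κ * |s|) ≤ Real.exp (F.κ * a) :=
        Real.exp_le_exp.2 (mul_le_mul_of_nonneg_left (hs.trans haα) F.hκ)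
      have h3 : Real.exp (F.κ * |s|) * dist (F.Φ s y) y' ≤
          Real.exp (F.κ * a) * (d * Real.exp (-(F.κ * a)) / 2) :=
        mul_le_mul h2 hy' dist_nonneg (Real.exp_pos _).le
      have h4 : Real.exp (F.κ * a) * (d * Real.exp (-(F.κ * a)) / 2) = d / 2 := by
        rw [Real.exp_neg]
        field_simp
      have h5 : F.Φ (-s) y' ∈ Metric.ball y d := Metric.mem_ball.2 (by linarith)
      have h6 : F.Φ r (γ • F.Φ (-s) y') ∈ A i := hp h5
      rw [one_smul, sub_eq_add_neg, F.add, F.smul]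
      exact h6

end Pool.Agent.MP_f7db47_al.GF
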