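import Pool.Agent.MP_f7db47_al.GF.DH

/-!
Lines and segments.
-/

namespace Pool.Agent.MP_f7db47_al.GF

open Metric

variable {S : Sp}

theorem FLine_const (h : S.Geo) (x : S.X) : (fun _ => x) ∈ S.L := by
  obtain ⟨c, hc, h0, -⟩ := h.join x x
  simpa [h0] using h.aff c hc 0 0

theorem FLine_seg (h : S.Geo) {c : ℝ → S.X} (hc : c ∈ S.L) {a u b : ℝ} (hab : a < b) (h0 : a ≤ u)
    (h1 : u ≤ b) : (b - a) * dist (c a) (c u) = (u - a) * dist (c a) (c b) ∧
      (b - a) * dist (c u) (c b) = (b - u) * dist (c a) (c b) := by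
  have hp := sub_pos.2 hab
  have l0 : 0 ≤ (u - a) / (b - a) := div_nonneg (sub_nonneg.2 h0) hp.le
  have l1 : (u - a) / (b - a) ≤ 1 := (div_le_one hp).2 (by linarith)
  have e1 := h.conv _ (h.aff c hc (b - a) a) _ (FLine_const h (c a)) _ l0 l1
  have e2 := h.conv _ (h.aff c hc (b - a) a) _ (FLine_const h (c b)) _ l0 l1
  simp only [mul_div_cancel₀ _ hp.ne', sub_add_cancel, mul_zero, zero_add, mul_one, dist_self,
    add_zero, dist_comm _ (c a)] at e1 e2
  have e3 := dist_triangle (c a) (c u) (c b)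
  have e4 : dist (c a) (c u) = (u - a) / (b - a) * dist (c a) (c b) := by linarith
  have e5 : dist (c u) (c b) = (1 - (u - a) / (b - a)) * dist (c a) (c b) := by linarith
  rw [e4, e5]
  constructor <;> field_simp <;> ring

theorem FLine_two (h : S.Geo) {c : ℝ → S.X} (hc : c ∈ S.L) {a s t b : ℝ} (h0 : a < s)
    (h1 : s ≤ t) (h2 : t ≤ b) : (b - a) * dist (c s) (c t) = (t - s) * dist (c a) (c b) := by
  have e1 := (FLine_seg h hc (h0.trans_le (h1.trans h2)) (h0.le.trans h1) h2).1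
  have e2 := (FLine_seg h hc (h0.trans_le h1) h0.le h1).2
  refine mul_left_cancel₀ (sub_pos.2 (h0.trans_le h1)).ne' ?_
  linear_combination (b - a) * e2 + (t - s) * e1

theorem Sp.Geo.speed (h : S.Geo) {c : ℝ → S.X} (hc : c ∈ S.L) (s t : ℝ) :
    dist (c s) (c t) = |s - t| * dist (c 0) (c 1) := by
  wlog hst : s ≤ t generalizing s t
  · rw [dist_comm, abs_sub_comm]
    exact this t s (le_of_not_ge hst)
  have a1 := abs_nonneg s
  have a2 := abs_nonneg t
  have e1 := FLine_two h hc (a := -(|s| + |t| + 1)) (b := |s| + |t| + 1)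
    (by linarith [neg_abs_le s]) hst (by linarith [le_abs_self t])
  have e2 := FLine_two h hc (a := -(|s| + |t| + 1)) (b := |s| + |t| + 1)
    (by linarith) zero_le_one (by linarith)
  rw [abs_of_nonpos (sub_nonpos.2 hst)]
  refine mul_left_cancel₀ (show |s| + |t| + 1 - -(|s| + |t| + 1) ≠ 0 by linarith) ?_
  linear_combination e1 - (t - s) * e2

theorem Sp.Geo.const (h : S.Geo) (x : S.X) : (fun _ => x) ∈ S.L := by
  exact FLine_const h x

theorem Sp.Geo.ln_mem (h : S.Geo) (x y : S.X) : h.ln x y ∈ S.L := by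
  exact (h.join x y).choose_spec.1

theorem Sp.Geo.ln_zero (h : S.Geo) (x y : S.X) : h.ln x y 0 = x := by
  exact (h.join x y).choose_spec.2.1

theorem Sp.Geo.ln_one (h : S.Geo) (x y : S.X) : h.ln x y 1 = y := by
  exact (h.join x y).choose_spec.2.2

theorem Sp.Geo.ln_dist (h : S.Geo) (x y : S.X) (s t : ℝ) :
    dist (h.ln x y s) (h.ln x y t) = |s - t| * dist x y := by
  rw [h.speed (h.ln_mem x y), h.ln_zero, h.ln_one]

theorem Sp.Geo.ln_conv (h : S.Geo) (x y x' y' : S.X) {l : ℝ} (h0 : 0 ≤ l) (h1 : l ≤ 1) :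
    dist (h.ln x y l) (h.ln x' y' l) ≤ (1 - l) * dist x x' + l * dist y y' := by
  simpa only [h.ln_zero, h.ln_one] using h.conv _ (h.ln_mem x y) _ (h.ln_mem x' y') l h0 h1

theorem Sp.Geo.ln_pt (h : S.Geo) (x y z : S.X) {l : ℝ} (h0 : 0 ≤ l) (h1 : l ≤ 1) :
    dist (h.ln x y l) z ≤ (1 - l) * dist x z + l * dist y z := by
  simpa only [h.ln_zero, h.ln_one] using h.conv _ (h.ln_mem x y) _ (h.const z) l h0 h1

theorem Sp.Geo.ln_eq (h : S.Geo) {c : ℝ → S.X} (hc : c ∈ S.L) {l : ℝ} (h0 : 0 ≤ l)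
    (h1 : l ≤ 1) : h.ln (c 0) (c 1) l = c l := by
  simpa [h.ln_zero, h.ln_one] using h.conv _ (h.ln_mem (c 0) (c 1)) _ hc l h0 h1

theorem Sp.Geo.ln_ln (h : S.Geo) (x y : S.X) (m : ℝ) {l : ℝ} (h0 : 0 ≤ l) (h1 : l ≤ 1) :
    h.ln x (h.ln x y m) l = h.ln x y (m * l) := by
  simpa [h.ln_zero] using h.ln_eq (h.aff _ (h.ln_mem x y) m 0) h0 h1

theorem Sp.Geo.ln_smul (h : S.Geo) {G : Type} [Group G] {ρ : G →* Equiv.Perm S.X}
    (hρ : S.Isom ρ) (g : G) (x y : S.X) {l : ℝ} (h0 : 0 ≤ l) (h1 : l ≤ 1) :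
    ρ g (h.ln x y l) = h.ln (ρ g x) (ρ g y) l := by
  simpa only [h.ln_zero, h.ln_one] using (h.ln_eq (hρ.line g _ (h.ln_mem x y)) h0 h1).symm

theorem Sp.Geo.ln_cont (h : S.Geo) :
    ContinuousOn (fun p : (S.X × S.X) × ℝ => h.ln p.1.1 p.1.2 p.2)
      (Set.univ ×ˢ Set.Icc 0 1) := by
  rintro ⟨⟨x, y⟩, l⟩ -
  have h1 : Continuous fun p : (S.X × S.X) × ℝ =>
      dist p.1.1 x + dist p.1.2 y + |p.2 - l| * dist x y := by fun_prop
  refine tendsto_iff_dist_tendsto_zero.2 (squeeze_zero' (.of_forall fun _ => dist_nonneg) ?_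
    (by simpa using (h1.tendsto ((x, y), l)).mono_left nhdsWithin_le_nhds))
  filter_upwards [self_mem_nhdsWithin] with p ⟨_, h2, h3⟩
  have e1 := h.ln_conv p.1.1 p.1.2 x y h2 h3
  have e2 := dist_triangle (h.ln p.1.1 p.1.2 p.2) (h.ln x y p.2) (h.ln x y l)
  rw [h.ln_dist] at e2
  nlinarith [mul_nonneg h2 (dist_nonneg (x := p.1.1) (y := x)),
    mul_nonneg (sub_nonneg.2 h3) (dist_nonneg (x := p.1.2) (y := y))]

theorem Sp.Good.cpt (h : S.Good) (x : S.X) (r : ℝ) : IsCompact (closedBall x r) := by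
  obtain ⟨κ, m, -, hp⟩ := h.par
  obtain ⟨P, _, s, π, A, h1, -, -, h2, h3⟩ := hp (r + dist x S.o)
  have h4 : ContinuousOn (fun p => π p 0) s := by
    refine (LipschitzOnWith.of_dist_le' (K := A) fun p hp p' hp' => ?_).continuousOn
    simpa using h2 p hp p' hp' 0
  refine (h1.image_of_continuousOn h4).of_isClosed_subset isClosed_closedBall fun y hy => ?_
  obtain ⟨p, hp, e⟩ := h3 _ (h.geo.const y)
    ((dist_triangle y x S.o).trans (add_le_add_left (mem_closedBall.1 hy) _)) (by simp)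
  exact ⟨p, hp, congrFun e 0⟩

end Pool.Agent.MP_f7db47_al.GF
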