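import Pool.Agent.MP_f7db47_al.GF.FSpi
import Pool.Agent.MP_f7db47_al.GF.FLine

/-!
Spiders on the flow space, including the cusps.
-/

namespace Pool.Agent.MP_f7db47_al.GF

open GN

/-- The spider attached to a type of cusps. -/
noncomputable def FCusp_spi {Γ : Type} [Group Γ] {S : Sp} {Fam : Set (Subgroup Γ)}
    (P : Pack Γ S Fam) {Y : Type} (ev : Y → ℝ → S.X) (b : ℝ) (i : P.ι) : Spi Γ Y where
  leg :=
    { r := fun y g y' => P.E i (ev y 0) (P.ρ g (ev y' 0))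
      refl := fun y => by
        rw [map_one]
        exact (P.eqv i).refl _
      symm := fun {y g y'} h => by
        have h1 := P.E_inv i g⁻¹ _ _ h
        rw [← Equiv.Perm.mul_apply, ← map_mul, inv_mul_cancel, map_one] at h1
        exact (P.eqv i).symm h1
      trans := fun {y g y' g' y''} h h' => by
        have h1 := P.E_inv i g _ _ h'
        rw [← Equiv.Perm.mul_apply, ← map_mul] at h1
        exact (P.eqv i).trans h h1 }
  ht := fun y => ⌊P.h i (ev y 0) / b⌋₊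

theorem FCusp_floor {a a' b : ℝ} (hb : 0 < b) (h : a ≤ a' + b) :
    ⌊a / b⌋₊ ≤ ⌊a' / b⌋₊ + 1 := by
  have h1 : a / b ≤ a' / b + 1 := by
    rw [div_add_one hb.ne']
    exact div_le_div_of_nonneg_right h hb.le
  have h2 := Nat.lt_floor_add_one (a' / b)
  have h3 : ⌊a / b⌋₊ < ⌊a' / b⌋₊ + 2 := by
    rw [Nat.floor_lt' (by omega)]
    push_cast
    linarith
  omega

theorem FCusp_zero {a b : ℝ} (hb : 0 < b) (h : a < b) : ⌊a / b⌋₊ = 0 := by
  rw [Nat.floor_eq_zero, div_lt_one hb]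
  exact h

theorem FCusp_spd {Γ : Type} [Group Γ] {S : Sp} (hS : S.Geo) {A : Act Γ S} {Y : Type}
    [MetricSpace Y] [MulAction Γ Y] {F : Flow Γ Y} {ev : Y → ℝ → S.X} (hE : Ev A F ev)
    (y : Y) (s : ℝ) : dist (ev y 0) (ev y s) ≤ |s| := by
  rw [hS.speed (hE.mem y).1, zero_sub, abs_neg]
  exact mul_le_of_le_one_right (abs_nonneg s) (hE.mem y).2

theorem FCusp_dist {Γ : Type} [Group Γ] {S : Sp} (hS : S.Geo) {A : Act Γ S} {Y : Type}
    [MetricSpace Y] [MulAction Γ Y] {F : Flow Γ Y} {ev : Y → ℝ → S.X} (hE : Ev A F ev)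
    {β ε : ℝ} (hε : ε ≤ 1) {y y' : Y} {γ : Γ} (h : F.Mv β ε y (γ • y')) :
    dist (ev y 0) (A.ρ γ (ev y' 0)) ≤ β + 1 := by
  obtain ⟨s, hs, hd⟩ := h
  have h1 := (hE.dist_le _ _ _).1 hd 0
  rw [hE.flow, hE.smul, zero_add, abs_zero, mul_zero, Real.exp_zero, mul_one] at h1
  have h2 := FCusp_spd hS hE y s
  have h3 := dist_triangle (ev y 0) (ev y s) (A.ρ γ (ev y' 0))
  linarith

theorem FCusp_rel {Γ : Type} [Group Γ] {S : Sp} {Fam : Set (Subgroup Γ)}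
    (P : Pack Γ S Fam) {Y : Type} (ev : Y → ℝ → S.X) {β : ℝ} (hβ : 0 ≤ β) (i : P.ι)
    {y y' : Y} {γ : Γ} (h : dist (ev y 0) (P.ρ γ (ev y' 0)) ≤ β + 1) :
    (FCusp_spi P ev (β + 2) i).rel 1 y γ y' := by
  have hb : 0 < β + 2 := by linarith
  have hi := P.h_inv i γ (ev y' 0)
  have l1 := P.h_lip i (ev y 0) (P.ρ γ (ev y' 0))
  have l2 := P.h_lip i (P.ρ γ (ev y' 0)) (ev y 0)
  rw [dist_comm] at l2
  refine ⟨FCusp_floor hb (by linarith), FCusp_floor hb (by linarith), fun hn => ?_⟩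
  have n1 : ¬ dist (ev y 0) (P.ρ γ (ev y' 0)) < P.h i (ev y 0) := fun hh =>
    hn (P.near i _ _ hh)
  have n2 : ¬ dist (P.ρ γ (ev y' 0)) (ev y 0) < P.h i (P.ρ γ (ev y' 0)) := fun hh =>
    hn ((P.eqv i).symm (P.near i _ _ hh))
  rw [dist_comm] at n2
  have e1 : (FCusp_spi P ev (β + 2) i).ht y = 0 := FCusp_zero hb (by linarith [not_lt.1 n1])
  have e2 : (FCusp_spi P ev (β + 2) i).ht y' = 0 := FCusp_zero hb (by linarith [not_lt.1 n2])
  omega

theorem FCusp_near {Γ : Type} [Group Γ] {S : Sp} (hS : S.Geo) {A : Act Γ S} {Y : Type}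
    [MetricSpace Y] [MulAction Γ Y] {F : Flow Γ Y} {ev : Y → ℝ → S.X} (hE : Ev A F ev)
    {y₀ : Y} (h0 : ev y₀ = fun _ => S.o) {C : ℝ} {y : Y} (h : dist (ev y 0) S.o ≤ C) :
    dist y y₀ ≤ max C 0 + 1 / F.κ := by
  rw [hE.dist_le]
  intro t
  have hk := hE.pos
  have h1 := FCusp_spd hS hE y t
  have h2 := dist_triangle (ev y t) (ev y 0) S.o
  rw [dist_comm (ev y t) (ev y 0)] at h2
  have h3 : F.κ * |t| + 1 ≤ Real.exp (F.κ * |t|) := Real.add_one_le_exp _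
  have h4 : C ≤ max C 0 := le_max_left _ _
  have h5 : 0 ≤ max C 0 := le_max_right _ _
  have h6 : 0 < 1 / F.κ := by positivity
  have h7 : 0 ≤ F.κ * |t| := by positivity
  have h8 : 1 / F.κ * (F.κ * |t|) = |t| := by field_simp
  have h9 : (max C 0 + 1 / F.κ) * (F.κ * |t| + 1) ≤
      (max C 0 + 1 / F.κ) * Real.exp (F.κ * |t|) :=
    mul_le_mul_of_nonneg_left h3 (by positivity)
  have h10 : 0 ≤ max C 0 * (F.κ * |t|) := mul_nonneg h5 h7
  rw [h0]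
  show dist (ev y t) S.o ≤ _
  nlinarith

theorem Pack.spiders {Γ : Type} [Group Γ] {S : Sp} {Fam : Set (Subgroup Γ)} (hS : S.Geo)
    (P : Pack Γ S Fam) {Y : Type} [MetricSpace Y] [MulAction Γ Y] {F : Flow Γ Y}
    {ev : Y → ℝ → S.X} (hE : Ev P.toAct F ev) : ∃ N : ℕ, ∀ (β : ℝ) (r : ℕ), 0 ≤ β →
    ∃ ε : ℝ, 0 < ε ∧ ∃ (ι : Type) (_ : Finite ι) (T : ι → Spi Γ Y),
      (∀ y, {i | 0 < (T i).ht y}.ncard ≤ N) ∧
      (∀ i y (γ : Γ) y', F.Mv β ε y (γ • y') → (T i).rel 1 y γ y') ∧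
      (∀ i y, 0 < (T i).ht y → ∃ B : Subgroup Γ, (T i).leg.grp y ≤ B ∧
        (B ∈ Fam ∨ ∃ φ : B →* MZ, ∀ g, φ g = 1 → IsOfFinOrder g)) ∧
      ∀ y, ∃ i, r ≤ (T i).ht y := by
  refine ⟨4 * (F.m + 1) + Nat.card P.ι, fun β r hβ => ?_⟩
  have hb : 0 < β + 2 := by linarith
  obtain ⟨C, hC⟩ := P.cc (r * (β + 2))
  obtain ⟨y₀, hy₀⟩ := hE.surj (fun _ => S.o) (hS.const _) (by simp)
  obtain ⟨ε₀, hε₀, n, U, hU1, hU2, hU3, hU4⟩ := F.spiders y₀ (max C 0 + 1 / F.κ) β r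
  refine ⟨min ε₀ 1, lt_min hε₀ one_pos, Fin n ⊕ P.ι, inferInstance,
    Sum.elim U (FCusp_spi P ev (β + 2)), fun y => ?_, fun i y γ y' h => ?_,
    fun i y h => ?_, fun y => ?_⟩
  · have hsub : {i : Fin n ⊕ P.ι | 0 < (Sum.elim U (FCusp_spi P ev (β + 2)) i).ht y} ⊆
        Sum.inl '' {i | 0 < (U i).ht y} ∪ Sum.inr '' Set.univ := by
      rintro (i | i) hi
      · exact Or.inl ⟨i, hi, rfl⟩
      · exact Or.inr ⟨i, trivial, rfl⟩
    refine (Set.ncard_le_ncard hsub (Set.toFinite _)).trans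
      ((Set.ncard_union_le _ _).trans (add_le_add ?_ ?_))
    · rw [Set.ncard_image_of_injective _ Sum.inl_injective]
      exact hU1 y
    · rw [Set.ncard_image_of_injective _ Sum.inr_injective, Set.ncard_univ]
  · rcases i with i | i
    · obtain ⟨s, hs, hd⟩ := h
      exact hU2 i y γ y' ⟨s, hs, hd.trans (min_le_left _ _)⟩
    · exact FCusp_rel P ev hβ i (FCusp_dist hS hE (min_le_right _ _) h)
  · rcases i with i | i
    · obtain ⟨z, hz⟩ := hU3 i y h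
      exact ⟨F.Per z, hz, Or.inr (F.per z)⟩
    · have h1 : 0 < P.h i (ev y 0) := by
        by_contra hh
        have h2 : (FCusp_spi P ev (β + 2) i).ht y = 0 :=
          FCusp_zero hb (by linarith [not_lt.1 hh])
        have h3 : 0 < (FCusp_spi P ev (β + 2) i).ht y := h
        omega
      obtain ⟨B, hB, hB'⟩ := P.cusp i _ h1
      exact ⟨B, fun g hg => hB' g hg, Or.inl hB⟩
  · by_cases hh : ∃ i, r ≤ (FCusp_spi P ev (β + 2) i).ht y
    · obtain ⟨i, hi⟩ := hh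
      exact ⟨Sum.inr i, hi⟩
    · have h1 : ∀ i, P.h i (ev y 0) ≤ r * (β + 2) := by
        intro i
        by_contra hc
        refine hh ⟨i, Nat.le_floor ?_⟩
        rw [le_div_iff₀ hb]
        exact (not_le.1 hc).le
      obtain ⟨γ, hγ⟩ := hC _ h1
      have h2 : dist (ev (γ • y) 0) S.o ≤ C := by
        rw [hE.smul]
        exact hγ
      obtain ⟨i, hi⟩ := hU4 y γ (FCusp_near hS hE hy₀ h2)
      exact ⟨Sum.inl i, hi⟩

end Pool.Agent.MP_f7db47_al.GF
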