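import Pool.Agent.MP_f7db47_al.GF.DF

/-!
General position.
-/

namespace Pool.Agent.MP_f7db47_al.GF

open MeasureTheory Filter Topology Set in
theorem FGen_null {P : Type} [PseudoMetricSpace P] {s : Set P} {m : ℕ} (hs : Cov s m)
    (f : P → Fin (m + 1) → ℝ) {L : ℝ} (hL : 0 ≤ L) (hf : ∀ x y, dist (f x) (f y) ≤ L * dist x y) :
    volume (f '' s) = 0 := by
  obtain ⟨A, hA⟩ := hs
  have h1 : Tendsto (fun ε : ℝ => ENNReal.ofReal (A * ((2 * L) ^ (m + 1) * ε))) (𝓝[>] 0)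
      (𝓝 0) := by
    have h2 : Continuous fun ε : ℝ => ENNReal.ofReal (A * ((2 * L) ^ (m + 1) * ε)) :=
      ENNReal.continuous_ofReal.comp (by fun_prop)
    simpa using (h2.tendsto 0).mono_left (nhdsWithin_le_nhds (s := Ioi 0))
  refine nonpos_iff_eq_zero.1 (ge_of_tendsto h1 ?_)
  filter_upwards [Ioc_mem_nhdsGT (zero_lt_one' ℝ)] with ε hε
  obtain ⟨E, h2, h3⟩ := hA ε hε.1 hε.2
  have h0 := hε.1
  calc volume (f '' s) ≤ volume (⋃ c ∈ E, Metric.closedBall (f c) (L * ε)) := by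
        refine measure_mono ?_
        rintro _ ⟨x, hx, rfl⟩
        obtain ⟨c, hc, h4⟩ := h3 x hx
        exact mem_biUnion hc ((hf x c).trans (mul_le_mul_of_nonneg_left h4 hL))
    _ ≤ ∑ c ∈ E, volume (Metric.closedBall (f c) (L * ε)) := measure_biUnion_finset_le _ _
    _ = ENNReal.ofReal (E.card * (2 * (L * ε)) ^ (m + 1)) := by
        rw [Finset.sum_congr rfl fun c _ => Real.volume_pi_closedBall (f c) (by positivity),
          Finset.sum_const, Fintype.card_fin, nsmul_eq_mul, ENNReal.ofReal_mul (by positivity),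
          ENNReal.ofReal_natCast]
    _ ≤ _ := by
        refine ENNReal.ofReal_le_ofReal (le_trans (le_of_eq (by ring))
          (mul_le_mul_of_nonneg_right h2 (by positivity : 0 ≤ (2 * L) ^ (m + 1) * ε)))

open MeasureTheory in
theorem FGen_ae {k n : ℕ} (e : Fin k ↪ Fin n) {N : Set (Fin k → ℝ)} (hN : volume N = 0) :
    ∀ᵐ θ : Fin n → ℝ, θ ∘ e ∉ N := by
  obtain ⟨N', h1, h2, h3⟩ := exists_measurable_superset_of_null hN
  have h4 := (ae_comp_linearMap_mem_iff (LinearMap.funLeft ℝ ℝ e) volume volume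
    (LinearMap.funLeft_surjective_of_injective ℝ ℝ e e.injective) h2.compl).2
    (measure_eq_zero_iff_ae_notMem.1 h3)
  filter_upwards [h4] with θ h h' using h (h1 h')

theorem generic {P : Type} [PseudoMetricSpace P] {s : Set P} {m : ℕ} (hs : Cov s m) {Z : Type}
    [Countable Z] (ψ : Z → P → ℝ) (L : ℝ) (hψ : ∀ z x y, ψ z x ≤ ψ z y + L * dist x y) (n : ℕ) :
    ∃ θ : Fin n → ℝ, ∀ x ∈ s, {i | ∃ (z : Z) (q : ℚ), ψ z x = θ i + q}.ncard ≤ m := by
  have h1 : ∀ᵐ θ : Fin n → ℝ, ∀ t : (Fin (m + 1) ↪ Fin n) × (Fin (m + 1) → Z × ℚ),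
      θ ∘ t.1 ∉ (fun x k => ψ (t.2 k).1 x - (t.2 k).2) '' s := by
    refine MeasureTheory.ae_all_iff.2 fun t => FGen_ae t.1 (FGen_null hs _ (abs_nonneg L)
      fun x y => (dist_pi_le_iff (by positivity)).2 fun k => ?_)
    have h2 := hψ (t.2 k).1 x y
    have h3 := hψ (t.2 k).1 y x
    have h4 := mul_le_mul_of_nonneg_right (le_abs_self L) (dist_nonneg (x := x) (y := y))
    rw [dist_comm] at h3
    rw [Real.dist_eq, abs_le]
    constructor <;> linarith
  obtain ⟨θ, hθ⟩ := h1.exists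
  refine ⟨θ, fun x hx => not_lt.1 fun h => ?_⟩
  obtain ⟨t, h2, h3⟩ := Set.exists_subset_card_eq (Nat.succ_le_of_lt h)
  have h4 : (Set.toFinite t).toFinset.card = m + 1 := by
    rw [← Set.ncard_eq_toFinset_card, h3]
  let e := (Set.toFinite t).toFinset.orderEmbOfFin h4
  have h5 : ∀ k, ∃ (z : Z) (q : ℚ), ψ z x = θ (e k) + q := fun k =>
    h2 ((Set.Finite.mem_toFinset _).1 (Finset.orderEmbOfFin_mem _ h4 k))
  choose z q h6 using h5
  exact hθ (e.toEmbedding, fun k => (z k, q k)) ⟨x, hx, funext fun k => by simp [h6]⟩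

end Pool.Agent.MP_f7db47_al.GF
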