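import Pool.Agent.MP_f7db47_al.GF.FGen

/-!
The greedy choice of open sets in general position.
-/

namespace Pool.Agent.MP_f7db47_al.GF

open Metric

/-- The invariant of the greedy construction after `k` steps. -/
def FGreedy_Inv {Y : Type} [MetricSpace Y] (s Zs : Set Y) (m : ℕ) (ψ : Y → Y → ℝ) {n : ℕ}
    (θ : Fin n → ℝ) (z : Fin n → Y) (δ : Fin n → ℝ) (k : ℕ) (T : Fin n → Finset (Y × ℝ)) : Prop :=
  (∀ i, ∀ c ∈ T i, c.1 ∈ Zs ∧ ∃ q : ℚ, c.2 = θ i + q) ∧
  (∀ i, ∀ c ∈ T i, ball c.1 c.2 ⊆ ball (z i) (2 * δ i)) ∧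
  (∀ x ∈ s, ∀ i : Fin n, i.val < k → dist x (z i) ≤ δ i → ∃ j, ∃ c ∈ T j, ψ c.1 x < c.2) ∧
  (∀ i, ∀ c ∈ T i, ∀ x ∈ ball c.1 c.2,
    {j | j < i ∧ ∃ c' ∈ T j, ψ c'.1 x < c'.2}.ncard ≤ m) ∧
  (∀ i : Fin n, k ≤ i.val → T i = ∅)

theorem FGreedy_open {Y : Type} [MetricSpace Y] (m : ℕ) (ψ : Y → Y → ℝ)
    (hcont : ∀ c, Continuous (ψ c)) {n : ℕ} (T : Fin n → Finset (Y × ℝ)) :
    IsOpen {x | {j | ∃ c ∈ T j, ψ c.1 x ≤ c.2}.ncard ≤ m} := by
  rw [isOpen_iff_mem_nhds]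
  intro x hx
  have h : ∀ᶠ y in nhds x, ∀ j, ∀ c ∈ T j, c.2 < ψ c.1 x → c.2 < ψ c.1 y := by
    rw [Filter.eventually_all]
    intro j
    rw [Filter.eventually_all_finset]
    intro c _
    by_cases h : c.2 < ψ c.1 x
    · have := (hcont c.1).continuousAt.eventually (lt_mem_nhds h)
      exact this.mono fun y hy _ => hy
    · exact Filter.Eventually.of_forall fun y hy => absurd hy h
  refine h.mono fun y hy => ?_
  refine le_trans (Set.ncard_le_ncard ?_ (Set.toFinite _)) hx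
  rintro j ⟨c, hc, hle⟩
  refine ⟨c, hc, ?_⟩
  by_contra hlt
  exact absurd (hy j c hc (lt_of_not_ge hlt)) (not_lt.mpr hle)

theorem FGreedy_step {Y : Type} [MetricSpace Y] {s Zs : Set Y} {m : ℕ} (hc : IsCompact s)
    (hZ : s ⊆ closure Zs) (ψ : Y → Y → ℝ) (hcont : ∀ c, Continuous (ψ c))
    (hd : ∀ z x, ψ z x ≤ dist x z) {n : ℕ} (θ : Fin n → ℝ)
    (hθ : ∀ x ∈ s, {i | ∃ (c : Zs) (q : ℚ), ψ c x = θ i + q}.ncard ≤ m)
    (z : Fin n → Y) (δ : Fin n → ℝ) (hδ : ∀ i, 0 < δ i) (k : ℕ) (T : Fin n → Finset (Y × ℝ))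
    (hT : FGreedy_Inv s Zs m ψ θ z δ k T) : ∃ T', FGreedy_Inv s Zs m ψ θ z δ (k + 1) T' := by
  classical
  obtain ⟨ha, hb, hcov, hcnt, he⟩ := hT
  by_cases hk : k < n
  swap
  · refine ⟨T, ha, hb, fun x hx i _ hi => hcov x hx i (by have := i.2; omega) hi, hcnt,
      fun i hi => he i (by omega)⟩
  set κ : Fin n := ⟨k, hk⟩ with hκ
  set K : Set Y := s ∩ (closedBall (z κ) (δ κ) ∩ {x | ∀ j, ∀ c ∈ T j, c.2 ≤ ψ c.1 x}) with hK
  set U : Set Y := {x | {j | ∃ c ∈ T j, ψ c.1 x ≤ c.2}.ncard ≤ m} ∩ ball (z κ) (2 * δ κ) with hU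
  have hKc : IsCompact K := by
    refine hc.inter_right (isClosed_closedBall.inter ?_)
    have : {x | ∀ j, ∀ c ∈ T j, c.2 ≤ ψ c.1 x} = ⋂ j, ⋂ c ∈ T j, {x | c.2 ≤ ψ c.1 x} := by
      ext x; simp
    rw [this]
    exact isClosed_iInter fun j => isClosed_biInter fun c _ =>
      isClosed_le continuous_const (hcont c.1)
  have hUo : IsOpen U := (FGreedy_open m ψ hcont T).inter isOpen_ball
  have hKU : K ⊆ U := by
    rintro x ⟨hxs, hxb, hxT⟩
    refine ⟨le_trans (Set.ncard_le_ncard ?_ (Set.toFinite _)) (hθ x hxs), ?_⟩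
    · rintro j ⟨c, hcT, hle⟩
      obtain ⟨hcZ, q, hq⟩ := ha j c hcT
      exact ⟨⟨c.1, hcZ⟩, q, by rw [← hq]; exact le_antisymm hle (hxT j c hcT)⟩
    · rw [mem_closedBall] at hxb
      rw [mem_ball]
      have := hδ κ
      linarith
  let I := {p : Y × ℝ // (p.1 ∈ Zs ∧ ∃ q : ℚ, p.2 = θ κ + q) ∧ ball p.1 p.2 ⊆ U}
  have hcover : K ⊆ ⋃ p : I, ball p.1.1 p.1.2 := by
    intro x hx
    obtain ⟨ε, hε, hεU⟩ := Metric.isOpen_iff.mp hUo x (hKU hx)
    obtain ⟨c, hcZ, hxc⟩ := Metric.mem_closure_iff.mp (hZ hx.1) (ε / 4) (by positivity)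
    obtain ⟨q, hq1, hq2⟩ := exists_rat_btwn (show ε / 4 - θ κ < ε / 2 - θ κ by linarith)
    refine Set.mem_iUnion.mpr ⟨⟨(c, θ κ + q), ⟨hcZ, q, rfl⟩, ?_⟩, ?_⟩
    · intro y hy
      apply hεU
      rw [mem_ball] at hy ⊢
      have h1 := dist_triangle y c x
      rw [dist_comm c x] at h1
      simp only at hy
      linarith
    · rw [mem_ball]
      simp only
      linarith
  obtain ⟨t, ht⟩ := hKc.elim_finite_subcover _ (fun p : I => isOpen_ball) hcover
  set F : Finset (Y × ℝ) := t.image Subtype.val with hF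
  have hFI : ∀ c ∈ F, (c.1 ∈ Zs ∧ ∃ q : ℚ, c.2 = θ κ + q) ∧ ball c.1 c.2 ⊆ U := by
    intro c hcF
    obtain ⟨p, _, rfl⟩ := Finset.mem_image.mp hcF
    exact p.2
  have hTκ : T κ = ∅ := he κ le_rfl
  refine ⟨Function.update T κ F, ?_, ?_, ?_, ?_, ?_⟩
  · intro i c hci
    by_cases hi : i = κ
    · subst hi
      rw [Function.update_self] at hci
      exact (hFI c hci).1
    · rw [Function.update_of_ne hi] at hci
      exact ha i c hci
  · intro i c hci
    by_cases hi : i = κ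
    · subst hi
      rw [Function.update_self] at hci
      exact (hFI c hci).2.trans Set.inter_subset_right
    · rw [Function.update_of_ne hi] at hci
      exact hb i c hci
  · intro x hx i hi hxi
    by_cases hsh : ∃ j, ∃ c ∈ T j, ψ c.1 x < c.2
    · obtain ⟨j, c, hcj, hlt⟩ := hsh
      have hj : j ≠ κ := by
        rintro rfl
        rw [hTκ] at hcj
        exact absurd hcj (Finset.notMem_empty _)
      exact ⟨j, c, by rw [Function.update_of_ne hj]; exact hcj, hlt⟩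
    · have hik : i = κ := by
        by_contra hne
        have : i.val ≠ k := fun h => hne (Fin.ext h)
        exact hsh (hcov x hx i (by omega) hxi)
      subst hik
      have hxK : x ∈ K := by
        refine ⟨hx, hxi, fun j c hcj => ?_⟩
        by_contra hlt
        exact hsh ⟨j, c, hcj, lt_of_not_ge hlt⟩
      obtain ⟨p, hp, hxp⟩ := Set.mem_iUnion₂.mp (ht hxK)
      refine ⟨κ, p.1, ?_, lt_of_le_of_lt (hd _ _) hxp⟩
      rw [Function.update_self]
      exact Finset.mem_image_of_mem _ hp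
  · intro i c hci x hx
    by_cases hi : i = κ
    · subst hi
      rw [Function.update_self] at hci
      refine le_trans (Set.ncard_le_ncard ?_ (Set.toFinite _)) ((hFI c hci).2 hx).1
      rintro j ⟨hj, c', hc', hlt⟩
      rw [Function.update_of_ne hj.ne] at hc'
      exact ⟨c', hc', hlt.le⟩
    · rw [Function.update_of_ne hi] at hci
      have hik : i.val < k := by
        by_contra hge
        rw [he i (not_lt.mp hge)] at hci
        exact absurd hci (Finset.notMem_empty _)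
      refine le_trans (Set.ncard_le_ncard ?_ (Set.toFinite _)) (hcnt i c hci x hx)
      rintro j ⟨hj, c', hc', hlt⟩
      have hjκ : j ≠ κ := by
        rintro rfl
        have : k < i.val := hj
        omega
      rw [Function.update_of_ne hjκ] at hc'
      exact ⟨hj, c', hc', hlt⟩
  · intro i hi
    have hne : i ≠ κ := by
      rintro rfl
      exact absurd (show k + 1 ≤ k from hi) (by omega)
    rw [Function.update_of_ne hne]
    exact he i (by omega)

theorem greedy {Y : Type} [MetricSpace Y] {s : Set Y} {m : ℕ} (hc : IsCompact s) (hs : Cov s m)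
    (ψ : Y → Y → ℝ) (L : ℝ) (hψ : ∀ z x y, ψ z x ≤ ψ z y + L * dist x y)
    (hd : ∀ z x, ψ z x ≤ dist x z) (n : ℕ) (z : Fin n → Y) (δ : Fin n → ℝ) (hδ : ∀ i, 0 < δ i)
    (hz : ∀ x ∈ s, ∃ i, dist x (z i) ≤ δ i) :
    ∃ T : Fin n → Finset (Y × ℝ), (∀ i, ∀ c ∈ T i, ball c.1 c.2 ⊆ ball (z i) (2 * δ i)) ∧
      (∀ x ∈ s, ∃ i, ∃ c ∈ T i, ψ c.1 x < c.2) ∧
      ∀ i, ∀ c ∈ T i, ∀ x ∈ ball c.1 c.2,
        {j | j < i ∧ ∃ c' ∈ T j, ψ c'.1 x < c'.2}.ncard ≤ m := by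
  obtain ⟨Zs, hZc, hZ⟩ := hc.isSeparable
  have : Countable Zs := hZc.to_subtype
  obtain ⟨θ, hθ⟩ := generic hs (Z := Zs) (fun c => ψ c) L (fun c x y => hψ c x y) n
  have hcont : ∀ c, Continuous (ψ c) := fun c =>
    (LipschitzWith.of_le_add_mul' L (hψ c)).continuous
  have key : ∀ k : ℕ, ∃ T, FGreedy_Inv s Zs m ψ θ z δ k T := by
    intro k
    induction k with
    | zero =>
      refine ⟨fun _ => ∅, ?_, ?_, ?_, ?_, fun _ _ => rfl⟩
      · intro i c hc; exact absurd hc (Finset.notMem_empty _)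
      · intro i c hc; exact absurd hc (Finset.notMem_empty _)
      · intro x _ i hi; exact absurd hi (Nat.not_lt_zero _)
      · intro i c hc; exact absurd hc (Finset.notMem_empty _)
    | succ k ih =>
      obtain ⟨T, hT⟩ := ih
      exact FGreedy_step hc hZ ψ hcont hd θ hθ z δ hδ k T hT
  obtain ⟨T, -, hb, hcov, hcnt, -⟩ := key n
  refine ⟨T, hb, fun x hx => ?_, hcnt⟩
  obtain ⟨i, hi⟩ := hz x hx
  exact hcov x hx i i.2 hi

end Pool.Agent.MP_f7db47_al.GF
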