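import Pool.Agent.MP_f7db47_al.GF.DH
import Pool.Agent.MP_f7db47_al.GN.CAcyc

/-!
Grids in tropically convex sets.
-/

namespace Pool.Agent.MP_f7db47_al.GF

open GN

/-- Adjacency in the grid. -/
def FGrid_adj {F : Type} (z w : F → ℤ) : Prop :=
  z ≠ w ∧ ((∀ i, z i ≤ w i ∧ w i ≤ z i + 1) ∨ ∀ i, w i ≤ z i ∧ z i ≤ w i + 1)

theorem FGrid_symm {F : Type} (z w : F → ℤ) (h : FGrid_adj z w) : FGrid_adj w z :=
  ⟨h.1.symm, h.2.symm⟩

theorem FGrid_lt {F : Type} [Fintype F] {x y : F → ℤ} (h : ∀ i, x i ≤ y i) (hne : x ≠ y) :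
    ∑ i, x i < ∑ i, y i := by
  obtain ⟨i, hi⟩ := Function.ne_iff.1 hne
  exact Finset.sum_lt_sum (fun j _ => h j) ⟨i, Finset.mem_univ i, lt_of_le_of_ne (h i) hi⟩

theorem FGrid_cmp {F : Type} [Fintype F] {x y : F → ℤ} (h : x = y ∨ FGrid_adj x y)
    (hs : ∑ i, x i ≤ ∑ i, y i) : ∀ i, x i ≤ y i ∧ y i ≤ x i + 1 := by
  rcases h with rfl | ⟨hne, h | h⟩
  · exact fun i => ⟨le_rfl, by omega⟩
  · exact h
  · exact absurd (FGrid_lt (fun i => (h i).1) hne.symm) hs.not_gt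

theorem FGrid_least {F : Type} (S : Finset (F → ℤ)) (hne : S.Nonempty)
    (hmin : ∀ x ∈ S, ∀ y ∈ S, (fun i => min (x i) (y i)) ∈ S) :
    ∃ l ∈ S, ∀ x ∈ S, ∀ i, l i ≤ x i :=
  ⟨S.inf' hne id, Finset.inf'_mem (S : Set (F → ℤ)) hmin S hne id fun _ h => h,
    fun _ hx i => Finset.inf'_le id hx i⟩

theorem FGrid_dism {F : Type} [Fintype F] (K B : Finset (F → ℤ))
    (hmin : ∀ x ∈ K, ∀ y ∈ K, ∀ c : ℤ, 0 ≤ c → (fun i => min (x i) (y i + c)) ∈ K)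
    (P : F → ℤ → Prop) (hB : ∀ z, z ∈ B ↔ z ∈ K ∧ ∀ i, P i (z i))
    (hP : ∀ i a b c, P i a → P i c → a ≤ b → b ≤ c → P i b) (hne : B.Nonempty) :
    Dism FGrid_adj B := by
  classical
  have hmin0 : ∀ x ∈ K, ∀ y ∈ K, (fun i => min (x i) (y i)) ∈ K := fun x hx y hy => by
    simpa using hmin x hx y hy 0 le_rfl
  obtain ⟨l, hl, hl2⟩ := FGrid_least B hne fun x hx y hy => by
    obtain ⟨x1, x2⟩ := (hB x).1 hx
    obtain ⟨y1, y2⟩ := (hB y).1 hy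
    refine (hB _).2 ⟨hmin0 x x1 y y1, fun i => ?_⟩
    rcases le_total (x i) (y i) with h | h
    · simpa [min_eq_left h] using x2 i
    · simpa [min_eq_right h] using y2 i
  have hf : ∀ z : F → ℤ, ∃ y : F → ℤ, z ∈ B → y ∈ K ∧ (∀ i, z i - 1 ≤ y i ∧ l i ≤ y i) ∧
      ∀ x ∈ K, (∀ i, z i - 1 ≤ x i ∧ l i ≤ x i) → ∀ i, y i ≤ x i := by
    intro z
    by_cases hz : z ∈ B
    · obtain ⟨y, hy, hy2⟩ := FGrid_least (K.filter fun x => ∀ i, z i - 1 ≤ x i ∧ l i ≤ x i)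
        ⟨z, Finset.mem_filter.2 ⟨((hB z).1 hz).1, fun i => ⟨by omega, hl2 z hz i⟩⟩⟩
        fun x hx y hy => by
          obtain ⟨x1, x2⟩ := Finset.mem_filter.1 hx
          obtain ⟨y1, y2⟩ := Finset.mem_filter.1 hy
          exact Finset.mem_filter.2 ⟨hmin0 x x1 y y1, fun i =>
            ⟨le_min (x2 i).1 (y2 i).1, le_min (x2 i).2 (y2 i).2⟩⟩
      exact ⟨y, fun _ => ⟨(Finset.mem_filter.1 hy).1, (Finset.mem_filter.1 hy).2,
        fun x hx h => hy2 x (Finset.mem_filter.2 ⟨hx, h⟩)⟩⟩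
    · exact ⟨z, fun h => absurd h hz⟩
  choose f hf using hf
  refine ⟨fun z => ∑ i, z i, l, f, hl, fun z hz hz0 => ?_⟩
  obtain ⟨y1, y2, y3⟩ := hf z hz
  obtain ⟨z1, z2⟩ := (hB z).1 hz
  obtain ⟨l1, l2⟩ := (hB l).1 hl
  have y4 := y3 z z1 fun i => ⟨by omega, hl2 z hz i⟩
  refine ⟨FGrid_lt (hl2 z hz) hz0.symm,
    (hB _).2 ⟨y1, fun i => hP i _ _ _ (l2 i) (z2 i) (y2 i).2 (y4 i)⟩, ?_, fun w hw hadj hrk => ?_⟩
  · obtain ⟨j, hj⟩ := Function.ne_iff.1 hz0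
    obtain ⟨t, -, hmax⟩ := Finset.univ.exists_max_image (fun i => z i - l i)
      ⟨j, Finset.mem_univ j⟩
    have h1 := hmax j (Finset.mem_univ j)
    have h2 := hl2 z hz j
    have h3 : 0 ≤ z t - l t - 1 := by omega
    have h4 := y3 _ (hmin z z1 l l1 _ h3) (fun i => by
      have := hmax i (Finset.mem_univ i)
      have := hl2 z hz i
      omega) t
    refine FGrid_lt y4 fun e => ?_
    rw [e] at h4
    omega
  · have h1 := FGrid_cmp hadj hrk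
    have h2 := y3 w ((hB w).1 hw).1 fun i => ⟨by have := h1 i; omega, hl2 w hw i⟩
    refine or_iff_not_imp_left.2 fun hne => ⟨hne, Or.inr fun i => ⟨h2 i, ?_⟩⟩
    have := h1 i
    have := y2 i
    omega

theorem FGrid_chain {F : Type} [Fintype F] {K σ : Finset (F → ℤ)} (h : Clq FGrid_adj K σ)
    {M : ℕ} (hM : σ.card = M + 1) : ∃ z : ℕ → F → ℤ, Monotone z ∧ (∀ j, z j ∈ K) ∧
      (∀ i, z M i ≤ z 0 i + 1) ∧ ∀ j < M, z (j + 1) ≠ z j := by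
  have hc : ∀ x ∈ σ, ∀ y ∈ σ, ∑ i, x i ≤ ∑ i, y i → ∀ i, x i ≤ y i ∧ y i ≤ x i + 1 :=
    fun x hx y hy => FGrid_cmp (or_iff_not_imp_left.2 (h.2 x hx y hy))
  have hinj : Set.InjOn (fun x : F → ℤ => ∑ i, x i) σ := fun x hx y hy e =>
    funext fun i => le_antisymm (hc x hx y hy e.le i).1 (hc y hy x hx e.ge i).1
  have hT : (σ.image fun x => ∑ i, x i).card = M + 1 := by
    rw [Finset.card_image_of_injOn hinj, hM]
  have hg : ∀ k : Fin (M + 1), ∃ x ∈ σ,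
      ∑ i, x i = (σ.image fun x => ∑ i, x i).orderEmbOfFin hT k := fun k =>
    Finset.mem_image.1 (Finset.orderEmbOfFin_mem _ hT k)
  choose g hg1 hg2 using hg
  have hle : ∀ a b : Fin (M + 1), a ≤ b → ∀ i, g a i ≤ g b i ∧ g b i ≤ g a i + 1 :=
    fun a b hab => hc _ (hg1 a) _ (hg1 b) (by
      rw [hg2, hg2]
      exact (OrderEmbedding.monotone _) hab)
  refine ⟨fun j => g ⟨min j M, by omega⟩, fun a b hab i => (hle _ _ ?_ i).1,
    fun j => h.1 (hg1 _), fun i => (hle _ _ ?_ i).2, fun j hj e => ?_⟩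
  · exact Fin.mk_le_mk.2 (by omega)
  · exact Fin.mk_le_mk.2 (by omega)
  · have h1 := congrArg (fun x : F → ℤ => ∑ i, x i) e
    simp only [hg2] at h1
    have h2 := Fin.mk.inj ((RelEmbedding.injective _) h1)
    omega

theorem FGrid_mk {F V : Type} [Fintype F] [LinearOrder V] {D : Set (F → ℝ)} {n : ℕ} {ρ : ℝ}
    {K : Finset V} {Adj : V → V → Prop} {pt : V → F → ℝ} (hs : ∀ x y, Adj x y → Adj y x)
    (h1 : ∀ x ∈ K, pt x ∈ D) (h2 : ∀ x ∈ K, ∀ y ∈ K, Adj x y → dist (pt x) (pt y) ≤ ρ)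
    (h3 : ∀ x ∈ D, ∃ z ∈ K, dist (pt z) x ≤ ρ) (h4 : ∀ σ, Clq Adj K σ → σ.card ≤ n + 1)
    (h5 : ∀ (lo hi : F → ℝ) (B : Finset V),
      (∀ z, z ∈ B ↔ z ∈ K ∧ ∀ i, lo i ≤ pt z i ∧ pt z i ≤ hi i) → B.Nonempty → Dism Adj B) :
    Grid D n ρ K Adj pt :=
  ⟨h1, h2, h3, h4, fun lo hi B hB hne => (h5 lo hi B hB hne).acyc hs⟩

theorem exists_grid {F : Type} [Fintype F] {D : Set (F → ℝ)} {n : ℕ}
    (hD : Bornology.IsBounded D) (hT : TropC D n) (ρ : ℝ) (hρ : 0 < ρ) :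
    ∃ (V : Type) (_ : LinearOrder V) (K : Finset V) (Adj : V → V → Prop) (pt : V → F → ℝ),
      Grid D n ρ K Adj pt := by
  classical
  obtain ⟨Q', hQ'⟩ := exists_nat_one_div_lt hρ
  obtain ⟨Q, hQ, hQρ⟩ : ∃ Q : ℕ, 0 < Q ∧ 1 / (Q : ℝ) ≤ ρ :=
    ⟨Q' + 1, Nat.succ_pos _, by exact_mod_cast hQ'.le⟩
  have hQ0 : (0 : ℝ) < Q := by exact_mod_cast hQ
  obtain ⟨R, hR⟩ := hD.exists_norm_le
  have hfin : {z : F → ℤ | (fun i => (z i : ℝ) / Q) ∈ D}.Finite := by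
    refine (Set.Finite.pi' fun _ : F => Set.finite_Icc (-⌈R * Q⌉) ⌈R * Q⌉).subset fun z hz i => ?_
    have h1 := (norm_le_pi_norm (fun i => (z i : ℝ) / Q) i).trans (hR _ hz)
    rw [Real.norm_eq_abs, abs_div, abs_of_pos hQ0, div_le_iff₀ hQ0] at h1
    have h2 : ((|z i| : ℤ) : ℝ) ≤ (⌈R * Q⌉ : ℤ) := by
      rw [Int.cast_abs]
      exact h1.trans (Int.le_ceil _)
    exact abs_le.1 (Int.cast_le.1 h2)
  have hK : ∀ z, z ∈ hfin.toFinset ↔ (fun i => (z i : ℝ) / Q) ∈ D := fun z => hfin.mem_toFinset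
  have hd : ∀ a b : ℝ, |a - b| ≤ 1 → dist (a / Q) (b / Q) ≤ ρ := fun a b h => by
    rw [Real.dist_eq, ← sub_div, abs_div, abs_of_pos hQ0]
    exact (div_le_div_of_nonneg_right h hQ0.le).trans hQρ
  refine ⟨F → ℤ, linearOrderOfSTO WellOrderingRel, hfin.toFinset, FGrid_adj,
    fun z i => (z i : ℝ) / Q, @FGrid_mk F (F → ℤ) _ (linearOrderOfSTO WellOrderingRel) _ _ _ _ _ _
      FGrid_symm (fun x hx => (hK x).1 hx) (fun x _ y _ h => ?_) (fun x hx => ?_) (fun σ hσ => ?_)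
      fun lo hi B hB hne => ?_⟩
  · refine (dist_pi_le_iff hρ.le).2 fun i => hd _ _ ?_
    have h1 : |x i - y i| ≤ 1 := by
      rcases h.2 with h | h <;> have := h i <;> exact abs_le.2 ⟨by omega, by omega⟩
    exact_mod_cast h1
  · refine ⟨fun i => ⌊(Q : ℝ) * x i⌋, (hK _).2 (hT.floor Q hQ x hx), ?_⟩
    refine (dist_pi_le_iff hρ.le).2 fun i => ?_
    have h1 := hd (⌊(Q : ℝ) * x i⌋ : ℤ) (Q * x i) (abs_le.2
      ⟨by linarith [Int.lt_floor_add_one ((Q : ℝ) * x i)],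
        by linarith [Int.floor_le ((Q : ℝ) * x i)]⟩)
    rwa [mul_div_cancel_left₀ _ hQ0.ne'] at h1
  · rcases Nat.eq_zero_or_pos σ.card with h | h
    · omega
    · obtain ⟨M, hM⟩ : ∃ M, σ.card = M + 1 := ⟨σ.card - 1, by omega⟩
      obtain ⟨z, z1, z2, z3, z4⟩ := FGrid_chain hσ hM
      have h1 := hT.chain Q hQ z M z1 (fun j => (hK _).1 (z2 j)) z3
      have h2 := (Finset.card_le_card (s := Finset.range M) fun j hj =>
        (@Finset.mem_filter _ _ (_) _ _).2 ⟨hj, z4 j (Finset.mem_range.1 hj)⟩).trans h1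
      rw [Finset.card_range] at h2
      omega
  · refine FGrid_dism hfin.toFinset B (fun x hx y hy c hc => (hK _).2 ?_)
      (fun i a => lo i ≤ (a : ℝ) / Q ∧ (a : ℝ) / Q ≤ hi i) hB (fun i a b c ha hc hab hbc => ?_) hne
    · have h1 := hT.min _ ((hK x).1 hx) _ ((hK y).1 hy) ((c : ℝ) / Q)
        (div_nonneg (by exact_mod_cast hc) hQ0.le)
      convert h1 using 2 with i
      rw [← add_div, min_div_div_right hQ0.le]
      push_cast
      rfl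
    · exact ⟨ha.1.trans (div_le_div_of_nonneg_right (by exact_mod_cast hab) hQ0.le),
        le_trans (div_le_div_of_nonneg_right (by exact_mod_cast hbc) hQ0.le) hc.2⟩

end Pool.Agent.MP_f7db47_al.GF
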