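import Pool.Agent.MP_f7db47_al.GF.FLine

/-!
The homotopy action on a large ball.
-/

namespace Pool.Agent.MP_f7db47_al.GF

open Metric

theorem FHa_lam {G : Type} [Group G] {μ : ℝ} (h0 : 0 ≤ μ) (h1 : μ ≤ 1) (g : G) :
    0 ≤ lam μ g ∧ lam μ g ≤ 1 := by
  unfold lam
  split_ifs
  · exact ⟨zero_le_one, le_rfl⟩
  · exact ⟨by linarith, by linarith⟩

theorem FHa_lam_one {G : Type} [Group G] (μ : ℝ) : lam μ (1 : G) = 1 := by
  unfold lam
  rw [if_pos rfl]

theorem FHa_lam_ne {G : Type} [Group G] (μ : ℝ) {g : G} (hg : g ≠ 1) : lam μ g = 1 - μ := by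
  unfold lam
  rw [if_neg hg]

theorem FHa_l1 {a u : ℝ} (ha : 0 ≤ a ∧ a ≤ 1) (hu : u ∈ Set.Icc (0 : ℝ) 1) :
    0 ≤ 1 - u * (1 - a) ∧ 1 - u * (1 - a) ≤ 1 := by
  obtain ⟨a0, a1⟩ := ha
  obtain ⟨u0, u1⟩ := hu
  constructor
  · nlinarith [mul_nonneg u0 a0]
  · nlinarith [mul_nonneg u0 (sub_nonneg.2 a1)]

theorem FHa_l2 {a b u : ℝ} (ha : 0 ≤ a ∧ a ≤ 1) (hb : 0 ≤ b ∧ b ≤ 1)
    (hu : u ∈ Set.Icc (0 : ℝ) 1) :
    0 ≤ (1 - u) * a + u * b ∧ (1 - u) * a + u * b ≤ 1 := by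
  obtain ⟨a0, a1⟩ := ha
  obtain ⟨b0, b1⟩ := hb
  obtain ⟨u0, u1⟩ := hu
  constructor
  · exact add_nonneg (mul_nonneg (sub_nonneg.2 u1) a0) (mul_nonneg u0 b0)
  · nlinarith [mul_nonneg (sub_nonneg.2 u1) (sub_nonneg.2 a1), mul_nonneg u0 (sub_nonneg.2 b1)]

theorem FHa_dist {S : Sp} (h : S.Geo) (w : S.X) {l : ℝ} (h0 : 0 ≤ l) :
    dist (h.ln S.o w l) S.o = l * dist w S.o := by
  have e := h.ln_dist S.o w l 0
  rw [h.ln_zero, sub_zero, abs_of_nonneg h0, dist_comm S.o w] at e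
  exact e

theorem Sp.Geo.hact {S : Sp} (h : S.Geo) {G : Type} [Group G] {ρ : G →* Equiv.Perm S.X}
    (hρ : S.Isom ρ) (S₀ : Finset G) {C r : ℝ} (hC : 0 ≤ C) (hr : 0 < r) (hCr : 2 * C ≤ r)
    (h1 : ∀ g ∈ S₀, dist (ρ g S.o) S.o ≤ C)
    (h2 : ∀ g ∈ S₀, ∀ g' ∈ S₀, dist (ρ (g * g') S.o) S.o ≤ C) :
    HAct S₀ (closedBall S.o r) (h.phi ρ (2 * C / r)) (h.hom ρ (2 * C / r)) := by
  obtain ⟨x, rfl⟩ : ∃ x, C = x * r := ⟨C / r, by field_simp⟩
  have hx0 : 0 ≤ x := nonneg_of_mul_nonneg_left hC hr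
  have hx1 : 2 * x ≤ 1 := by
    by_contra hc
    have : 1 < 2 * x := not_le.1 hc
    nlinarith
  have hμ : 2 * (x * r) / r = 2 * x := by field_simp
  rw [hμ]
  have hl : ∀ g : G, 0 ≤ lam (2 * x) g ∧ lam (2 * x) g ≤ 1 :=
    fun g => FHa_lam (by linarith) hx1 g
  refine ⟨?_, ?_, ?_, ?_, ?_⟩
  · intro y _
    unfold Sp.Geo.phi
    rw [FHa_lam_one, h.ln_one, map_one, Equiv.Perm.coe_one, id]
  · intro g hg g' hg' u hu y hy
    have a1 := FHa_l1 (hl g') hu
    have a2 := FHa_l2 (hl (g * g')) (hl g) hu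
    rw [mem_closedBall] at hy ⊢
    unfold Sp.Geo.hom
    rw [FHa_dist h _ a2.1]
    have hw := h.ln_pt (ρ g S.o) (ρ (g * g') y) S.o a1.1 a1.2
    have hb : dist (ρ (g * g') y) S.o ≤ r + dist (ρ (g * g') S.o) S.o := by
      have t := dist_triangle (ρ (g * g') y) (ρ (g * g') S.o) S.o
      rw [hρ.iso] at t
      linarith
    have ha := h1 g hg
    have hb2 := h2 g hg g' hg'
    obtain ⟨u0, u1⟩ := hu
    refine le_trans (mul_le_mul_of_nonneg_left hw a2.1) ?_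
    have hxr : 0 ≤ x * r := hC
    by_cases hgg : g * g' = 1
    · have hb0 : dist (ρ (g * g') S.o) S.o = 0 := by
        rw [hgg, map_one, Equiv.Perm.coe_one, id, dist_self]
      rw [hb0, add_zero] at hb
      have har : dist (ρ g S.o) S.o ≤ r := by linarith
      have t1 := mul_le_mul_of_nonneg_left har (sub_nonneg.2 a1.2)
      have t2 := mul_le_mul_of_nonneg_left hb a1.1
      have t3 : (1 - (1 - u * (1 - lam (2 * x) g'))) * dist (ρ g S.o) S.o +
          (1 - u * (1 - lam (2 * x) g')) * dist (ρ (g * g') y) S.o ≤ r := by linarith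
      refine le_trans (mul_le_mul_of_nonneg_left t3 a2.1) ?_
      nlinarith [mul_nonneg (sub_nonneg.2 a2.2) hr.le]
    · have hb3 : dist (ρ (g * g') y) S.o ≤ (1 + x) * r := by linarith
      by_cases hg1 : g = 1
      · have hg'1 : g' ≠ 1 := by
          intro e
          exact hgg (by rw [hg1, e, mul_one])
        have ha0 : dist (ρ g S.o) S.o = 0 := by
          rw [hg1, map_one, Equiv.Perm.coe_one, id, dist_self]
        have e1 : lam (2 * x) g = 1 := by rw [hg1, FHa_lam_one]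
        rw [ha0, mul_zero, zero_add, ← mul_assoc]
        refine le_trans (mul_le_mul_of_nonneg_left hb3 (mul_nonneg a2.1 a1.1)) ?_
        rw [e1, FHa_lam_ne _ hgg, FHa_lam_ne _ hg'1, ← mul_assoc]
        have t1 : ((1 - u) * (1 - 2 * x) + u * 1) * (1 - u * (1 - (1 - 2 * x))) ≤ (1 - x) ^ 2 := by
          nlinarith [sq_nonneg (x * (1 - 2 * u))]
        have t2 : (1 - x) ^ 2 * (1 + x) ≤ 1 := by
          nlinarith [mul_nonneg hx0 hx0, mul_nonneg (mul_nonneg hx0 hx0) (sub_nonneg.2 hx1)]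
        have t3 := mul_le_mul_of_nonneg_right t1 (by linarith : (0 : ℝ) ≤ 1 + x)
        have t4 := mul_le_mul_of_nonneg_right (le_trans t3 t2) hr.le
        linarith
      · have har : dist (ρ g S.o) S.o ≤ (1 + x) * r := by linarith
        have t1 := mul_le_mul_of_nonneg_left har (sub_nonneg.2 a1.2)
        have t2 := mul_le_mul_of_nonneg_left hb3 a1.1
        have t3 : (1 - (1 - u * (1 - lam (2 * x) g'))) * dist (ρ g S.o) S.o +
            (1 - u * (1 - lam (2 * x) g')) * dist (ρ (g * g') y) S.o ≤ (1 + x) * r := by linarith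
        refine le_trans (mul_le_mul_of_nonneg_left t3 a2.1) ?_
        rw [FHa_lam_ne _ hgg, FHa_lam_ne _ hg1]
        nlinarith [mul_nonneg hx0 hxr]
  · intro g _ g' _
    have hc : Continuous (ρ (g * g')) := (Isometry.of_dist_eq (hρ.iso (g * g'))).continuous
    have c1 : ContinuousOn (fun p : ℝ × S.X =>
        h.ln (ρ g S.o) (ρ (g * g') p.2) (1 - p.1 * (1 - lam (2 * x) g')))
        (Set.Icc 0 1 ×ˢ closedBall S.o r) := by
      refine h.ln_cont.comp (f := fun p : ℝ × S.X =>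
        ((ρ g S.o, ρ (g * g') p.2), 1 - p.1 * (1 - lam (2 * x) g'))) ?_ ?_
      · exact Continuous.continuousOn (by fun_prop)
      · intro p hp
        exact ⟨Set.mem_univ _, FHa_l1 (hl g') hp.1⟩
    refine h.ln_cont.comp (f := fun p : ℝ × S.X =>
        ((S.o, h.ln (ρ g S.o) (ρ (g * g') p.2) (1 - p.1 * (1 - lam (2 * x) g'))),
          (1 - p.1) * lam (2 * x) (g * g') + p.1 * lam (2 * x) g)) ?_ ?_
    · exact (continuousOn_const.prodMk c1).prodMk (Continuous.continuousOn (by fun_prop))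
    · intro p hp
      exact ⟨Set.mem_univ _, FHa_l2 (hl (g * g')) (hl g) hp.1⟩
  · intro g _ g' _ y _
    unfold Sp.Geo.hom Sp.Geo.phi
    rw [zero_mul, sub_zero, h.ln_one, one_mul, zero_mul, add_zero]
  · intro g _ g' _ y _
    unfold Sp.Geo.hom Sp.Geo.phi
    rw [h.ln_smul hρ g _ _ (hl g').1 (hl g').2, one_mul, sub_sub_cancel, sub_self, zero_mul,
      zero_add, one_mul, map_mul, Equiv.Perm.mul_apply]

theorem Sp.Geo.ctl_mem {S : Sp} (h : S.Geo) {r : ℝ} (hr : 0 < r) (L : ℝ) {y : S.X}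
    (hy : y ∈ closedBall S.o r) :
    h.ctl r L y ∈ S.L ∧ dist (h.ctl r L y 0) (h.ctl r L y 1) ≤ 1 := by
  constructor
  · have e : h.ctl r L y = fun t => h.ln S.o y (1 / r * t + (r - L) / r) := by
      funext t
      unfold Sp.Geo.ctl
      congr 1
      ring
    rw [e]
    exact h.aff _ (h.ln_mem S.o y) _ _
  · unfold Sp.Geo.ctl
    rw [mem_closedBall, dist_comm] at hy
    rw [h.ln_dist]
    have e : (r - L + 0) / r - (r - L + 1) / r = -(1 / r) := by ring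
    rw [e, abs_neg, abs_of_pos (one_div_pos.2 hr), one_div, inv_mul_le_iff₀ hr, mul_one]
    exact hy

end Pool.Agent.MP_f7db47_al.GF
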