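import Pool.Agent.MP_f7db47_al.GF.FCover

/-!
Spiders from long thin covers.
-/

namespace Pool.Agent.MP_f7db47_al.GF

open GN

variable {Γ : Type} [Group Γ] {Y : Type} [MetricSpace Y] [MulAction Γ Y] (F : Flow Γ Y)

theorem FSpi_exp {b s : ℝ} (j : ℕ) (h : |s| ≤ j * b) :
    Real.exp (F.κ * |s|) ≤ Real.exp (F.κ * b) ^ j := by
  rw [← Real.exp_nat_mul]
  exact Real.exp_le_exp.2 (by nlinarith [F.hκ])

theorem FSpi_one {b : ℝ} (hb : 0 ≤ b) : 1 ≤ Real.exp (F.κ * b) :=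
  Real.one_le_exp (mul_nonneg F.hκ hb)

theorem FSpi_both {β ε : ℝ} {x y : Y} (h : F.Mv β ε x y) :
    F.Mv |β| (ε * Real.exp (F.κ * |β|)) x y ∧ F.Mv |β| (ε * Real.exp (F.κ * |β|)) y x := by
  obtain ⟨s, h1, h2⟩ := h
  have h3 := h1.trans (le_abs_self β)
  have h4 : 0 ≤ ε := dist_nonneg.trans h2
  refine ⟨⟨s, h3, h2.trans (le_mul_of_one_le_right h4 (FSpi_one F (abs_nonneg β)))⟩,
    -s, by rwa [abs_neg], ?_⟩
  have h5 := F.lip (-s) y (F.Φ s x)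
  rw [← F.add, neg_add_cancel, F.zero, dist_comm y, mul_comm] at h5
  refine h5.trans (mul_le_mul h2 ?_ (Real.exp_pos _).le h4)
  simpa using FSpi_exp F 1 (s := -s) (b := |β|) (by simpa using h3)

/-- Closeness after `j` steps. -/
def FSpi_Cl (b ε : ℝ) (j : ℕ) (x y : Y) : Prop :=
  F.Mv (j * b) (j * (ε * Real.exp (F.κ * b) ^ j)) x y

theorem FSpi_refl {b ε : ℝ} (hb : 0 ≤ b) (hε : 0 ≤ ε) (j : ℕ) (y : Y) : FSpi_Cl F b ε j y y :=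
  ⟨0, by rw [abs_zero]; positivity, by rw [F.zero, dist_self]; positivity⟩

theorem FSpi_smul {b ε : ℝ} {j : ℕ} {x y : Y} (γ : Γ) (h : FSpi_Cl F b ε j x y) :
    FSpi_Cl F b ε j (γ • x) (γ • y) := by
  obtain ⟨s, h1, h2⟩ := h
  exact ⟨s, h1, by rwa [F.smul, F.iso]⟩

theorem FSpi_step {b ε : ℝ} (hb : 0 ≤ b) (hε : 0 ≤ ε) {j : ℕ} {y x w : Y}
    (h : F.Mv b (ε * Real.exp (F.κ * b)) y x) (h' : FSpi_Cl F b ε j x w) :
    FSpi_Cl F b ε (j + 1) y w := by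
  obtain ⟨s, h1, h2⟩ := h
  obtain ⟨t, h3, h4⟩ := h'
  refine ⟨t + s, (abs_add_le t s).trans (by push_cast; linarith), ?_⟩
  have h5 := (F.lip t (F.Φ s y) x).trans
    (mul_le_mul (FSpi_exp F j h3) h2 dist_nonneg (by positivity))
  have h6 : ε * Real.exp (F.κ * b) ^ j ≤ ε * Real.exp (F.κ * b) ^ (j + 1) :=
    mul_le_mul_of_nonneg_left (pow_le_pow_right₀ (FSpi_one F hb) j.le_succ) hε
  have h7 := mul_le_mul_of_nonneg_left h6 (Nat.cast_nonneg j)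
  have h8 := dist_triangle (F.Φ t (F.Φ s y)) (F.Φ t x) w
  rw [F.add]
  push_cast
  rw [pow_succ] at h7 ⊢
  linarith

/-- The neighbourhood of depth `j` lies in a translate of `U`. -/
def FSpi_P (U : Set Y) (b ε : ℝ) (y : Y) (j : ℕ) : Prop :=
  ∃ γ : Γ, ∀ w, FSpi_Cl F b ε j y w → γ • w ∈ U

theorem FSpi_inv {U : Set Y} {b ε : ℝ} {y : Y} {j : ℕ} (γ : Γ) (h : FSpi_P F U b ε (γ • y) j) :
    FSpi_P F U b ε y j := by
  obtain ⟨g, hg⟩ := h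
  exact ⟨g * γ, fun w hw => by rw [mul_smul]; exact hg _ (FSpi_smul F γ hw)⟩

open Classical in
/-- The spider of a set of the cover. -/
noncomputable def FSpi_S (U : Set Y) (H : Subgroup Γ) (h1 : ∀ γ ∈ H, ∀ y ∈ U, γ • y ∈ U)
    (h2 : ∀ γ : Γ, ∀ y ∈ U, γ • y ∈ U → γ ∈ H) (b ε : ℝ) (r : ℕ) : Spi Γ Y where
  ht y := Nat.findGreatest (FSpi_P F U b ε y) r
  leg :=
    { r := fun y g y' => (∃ γ : Γ, γ • y ∈ U ∧ (γ * g) • y' ∈ U) ∨ (g = 1 ∧ y = y')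
      refl := fun _ => Or.inr ⟨rfl, rfl⟩
      symm := by
        rintro y g y' (⟨γ, a1, a2⟩ | ⟨rfl, rfl⟩)
        · exact Or.inl ⟨γ * g, a2, by rwa [mul_inv_cancel_right]⟩
        · exact Or.inr ⟨inv_one, rfl⟩
      trans := by
        rintro y g y' g' y'' (⟨γ, a1, a2⟩ | ⟨rfl, rfl⟩) h
        · rcases h with ⟨γ', b1, b2⟩ | ⟨rfl, rfl⟩
          · have h3 := h1 _ (h2 (γ * g * γ'⁻¹) _ b1
              (by rwa [← mul_smul, inv_mul_cancel_right])) _ b2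
            rw [← mul_smul] at h3
            exact Or.inl ⟨γ, a1, by simpa [mul_assoc] using h3⟩
          · exact Or.inl ⟨γ, a1, by rwa [mul_one]⟩
        · rwa [one_mul] }

section
variable {U : Set Y} {H : Subgroup Γ} {h1 : ∀ γ ∈ H, ∀ y ∈ U, γ • y ∈ U}
  {h2 : ∀ γ : Γ, ∀ y ∈ U, γ • y ∈ U → γ ∈ H} {b ε : ℝ} {r : ℕ}

open Classical in
theorem FSpi_le {y : Y} {j : ℕ} (hj : j ≤ r) (h : FSpi_P F U b ε y j) :
    j ≤ (FSpi_S F U H h1 h2 b ε r).ht y := Nat.le_findGreatest hj h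

open Classical in
theorem FSpi_spec {y : Y} {j : ℕ} (h : (FSpi_S F U H h1 h2 b ε r).ht y = j + 1) :
    j + 1 ≤ r ∧ FSpi_P F U b ε y (j + 1) :=
  ⟨h ▸ Nat.findGreatest_le r, Nat.findGreatest_of_ne_zero h j.succ_ne_zero⟩

theorem FSpi_mem (hb : 0 ≤ b) (hε : 0 ≤ ε) {y : Y} (h : 0 < (FSpi_S F U H h1 h2 b ε r).ht y) :
    ∃ γ : Γ, γ • y ∈ U := by
  obtain ⟨j, hj⟩ := Nat.exists_eq_succ_of_ne_zero h.ne'
  obtain ⟨γ, hγ⟩ := (FSpi_spec F hj).2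
  exact ⟨γ, hγ y (FSpi_refl F hb hε _ y)⟩

theorem FSpi_half (hb : 0 ≤ b) (hε : 0 ≤ ε) {y y' : Y} {g g' : Γ}
    (h : F.Mv b (ε * Real.exp (F.κ * b)) (g • y) (g' • y')) :
    (FSpi_S F U H h1 h2 b ε r).ht y ≤ (FSpi_S F U H h1 h2 b ε r).ht y' + 1 ∧
      (0 < (FSpi_S F U H h1 h2 b ε r).ht y → ∃ γ : Γ, γ • g • y ∈ U ∧ γ • g' • y' ∈ U) := by
  rcases hj : (FSpi_S F U H h1 h2 b ε r).ht y with _ | j
  · exact ⟨Nat.zero_le _, fun h => absurd h (lt_irrefl 0)⟩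
  obtain ⟨h3, h4⟩ := FSpi_spec F hj
  obtain ⟨γ, hγ⟩ := FSpi_inv F (y := g • y) g⁻¹ (by rwa [inv_smul_smul])
  exact ⟨Nat.succ_le_succ (FSpi_le F (by omega) (FSpi_inv F g'
    ⟨γ, fun w hw => hγ w (FSpi_step F hb hε h hw)⟩)), fun _ => ⟨γ, hγ _ (FSpi_refl F hb hε _ _),
      hγ _ (FSpi_step F hb hε h (FSpi_refl F hb hε _ _))⟩⟩

end

theorem Flow.spiders (y₀ : Y) (ρ β : ℝ) (r : ℕ) : ∃ ε : ℝ, 0 < ε ∧ ∃ (n : ℕ)
    (S : Fin n → Spi Γ Y), (∀ y, {i | 0 < (S i).ht y}.ncard ≤ 4 * (F.m + 1)) ∧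
    (∀ i y (γ : Γ) y', F.Mv β ε y (γ • y') → (S i).rel 1 y γ y') ∧
    (∀ i y, 0 < (S i).ht y → ∃ z, (S i).leg.grp y ≤ F.Per z) ∧
    ∀ y (γ : Γ), dist (γ • y) y₀ ≤ ρ → ∃ i, r ≤ (S i).ht y := by
  obtain ⟨δ, hδ, n, U, z, h1, h2, h3, h4⟩ := F.cover y₀ ρ (r * |β|)
  have hb := abs_nonneg β
  obtain ⟨ε, hε, e⟩ : ∃ ε : ℝ, 0 < ε ∧ ε * Real.exp (F.κ * |β|) ^ r = δ / (r + 1) :=
    ⟨δ / ((r + 1) * Real.exp (F.κ * |β|) ^ r), by positivity, by field_simp⟩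
  refine ⟨ε, hε, n, fun i => FSpi_S F (U i) (F.Per (z i)) (h1 i) (h2 i) |β| ε r, fun y => ?_,
    fun i y γ y' h => ?_, fun i y h => ?_, fun y γ h => ?_⟩
  · exact (Set.ncard_le_ncard (fun i hi => FSpi_mem F hb hε.le hi) (Set.toFinite _)).trans (h3 y)
  · obtain ⟨a1, a2⟩ := FSpi_both F h
    rw [← one_smul Γ y] at a1 a2
    have b1 := FSpi_half F (h1 := h1 i) (h2 := h2 i) (r := r) hb hε.le a1
    have b2 := FSpi_half F (h1 := h1 i) (h2 := h2 i) (r := r) hb hε.le a2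
    refine ⟨b1.1, b2.1, fun hn => ?_⟩
    by_contra hc
    beta_reduce at hc
    refine hn (Or.inl ?_)
    rcases Nat.eq_zero_or_pos ((FSpi_S F (U i) (F.Per (z i)) (h1 i) (h2 i) |β| ε r).ht y)
      with h0 | h0
    · obtain ⟨g, c1, c2⟩ := b2.2 (by omega)
      exact ⟨g, by rwa [one_smul] at c2, by rwa [mul_smul]⟩
    · obtain ⟨g, c1, c2⟩ := b1.2 h0
      exact ⟨g, by rwa [one_smul] at c1, by rwa [mul_smul]⟩
  · obtain ⟨γ₀, h0⟩ := FSpi_mem F hb hε.le h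
    refine ⟨γ₀⁻¹ • z i, ?_⟩
    rintro g (⟨γ, a1, a2⟩ | ⟨rfl, -⟩)
    · have b1 := h2 i (γ * γ₀⁻¹) _ h0 (by rwa [← mul_smul, inv_mul_cancel_right])
      have b2 := h2 i (γ * g * γ₀⁻¹) _ h0 (by rwa [← mul_smul, inv_mul_cancel_right])
      obtain ⟨t, ht⟩ := mul_mem (inv_mem b1) b2
      refine ⟨t, ?_⟩
      rw [F.smul, ← ht, ← mul_smul, ← mul_smul]
      congr 1
      group
    · exact one_mem _
  · obtain ⟨i, g, hg⟩ := h4 _ h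
    refine ⟨i, FSpi_le F le_rfl (FSpi_inv F γ ⟨g, ?_⟩)⟩
    rintro w ⟨s, a1, a2⟩
    refine hg s w a1 (a2.trans ?_)
    rw [e, mul_div_assoc', div_le_iff₀ (by positivity)]
    linarith

end Pool.Agent.MP_f7db47_al.GF
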