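import Pool.Agent.MP_f7db47_al.GF.DP

/-!
Spaces of norms: basic facts.
-/

set_option linter.unusedSectionVars false

namespace Pool.Agent.MP_f7db47_al.GF

open Matrix

namespace Plc

variable {ι : Type} [Fintype ι] [DecidableEq ι] {P : Plc ι}

theorem ω_single (i : ι) {x : ℝ} (hx : 0 ≤ x) : P.ω (Pi.single i x) = x := by
  have h0 : (0 : ι → ℝ) ≤ Pi.single i x := Pi.single_nonneg.2 hx
  refine le_antisymm ((P.ω_le h0).trans_eq (by simp)) ?_
  simpa using P.le_ω i h0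

theorem nrm_add_const (g : GL ι P.k) (a : ι → ℝ) (r : ℝ) (u : ι → P.k) :
    P.nrm g (fun i => a i + r) u = P.b ^ r * P.nrm g a u := by
  rw [nrm, nrm, ← P.ω_smul (Real.rpow_nonneg b_pos.le _) (co_nonneg g a u)]
  congr 1
  funext i
  rw [Pi.smul_apply, smul_eq_mul, Real.rpow_add b_pos]
  ring

theorem nrm_mono (g : GL ι P.k) {a c : ι → ℝ} (h : a ≤ c) (u : ι → P.k) :
    P.nrm g a u ≤ P.nrm g c u := by
  exact P.ω_mono (co_nonneg g a u) fun i => mul_le_mul_of_nonneg_left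
    (Real.rpow_le_rpow_of_exponent_le P.hb.le (h i)) (norm_nonneg _)

theorem nrm_mul (g h : GL ι P.k) (a : ι → ℝ) (u : ι → P.k) :
    P.nrm (g * h) a u = P.nrm g a (h.val *ᵥ u) := by
  simp only [nrm, Units.val_mul, mulVec_mulVec]

theorem nrm_dual (g : GL ι P.k) (a : ι → ℝ) (i : ι) :
    P.nrm g a ((g⁻¹).val *ᵥ Pi.single i 1) = P.b ^ a i := by
  rw [← nrm_mul, mul_inv_cancel, nrm, ← ω_single (P := P) i (Real.rpow_nonneg b_pos.le (a i))]
  congr 1
  funext l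
  by_cases e : l = i
  · simp [e]
  · simp [e]

theorem nrm_add (g : GL ι P.k) (a : ι → ℝ) (u v : ι → P.k) :
    P.nrm g a (u + v) ≤ P.nrm g a u + P.nrm g a v := by
  refine le_trans (P.ω_mono (co_nonneg g a _) fun i => ?_)
    (P.ω_add (co_nonneg g a u) (co_nonneg g a v))
  simp only [Pi.add_apply, mulVec_add, ← add_mul]
  exact mul_le_mul_of_nonneg_right (norm_add_le _ _) (Real.rpow_nonneg b_pos.le _)

theorem nrm_smul (g : GL ι P.k) (a : ι → ℝ) (d : P.k) (u : ι → P.k) :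
    P.nrm g a (d • u) = ‖d‖ * P.nrm g a u := by
  rw [nrm, nrm, ← P.ω_smul (norm_nonneg _) (co_nonneg g a u)]
  congr 1
  funext i
  rw [mulVec_smul, Pi.smul_apply, Pi.smul_apply, smul_eq_mul, smul_eq_mul, norm_mul, mul_assoc]

theorem nrm_cont (g : GL ι P.k) (a : ι → ℝ) : Continuous (P.nrm g a) := by
  let S : (ι → P.k) → ℝ := fun u => ∑ i, ‖(g.val *ᵥ u) i‖ * P.b ^ a i
  have h1 : ∀ u v, P.nrm g a u ≤ S (u - v) + P.nrm g a v := fun u v => by
    have h2 := nrm_add g a (u - v) v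
    rw [sub_add_cancel] at h2
    exact h2.trans (add_le_add_left (P.ω_le (co_nonneg g a _)) _)
  have h2 : Continuous S := by
    simp only [S, mulVec, dotProduct]
    fun_prop
  have h3 : S 0 = 0 := by simp [S]
  refine continuous_iff_continuousAt.2 fun v => ?_
  refine tendsto_of_tendsto_of_tendsto_of_le_of_le (g := fun u => P.nrm g a v - S (v - u))
    (h := fun u => S (u - v) + P.nrm g a v) (Continuous.tendsto' (by fun_prop) _ _ ?_)
    (Continuous.tendsto' (by fun_prop) _ _ ?_) (fun u => sub_le_iff_le_add'.2 (h1 v u))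
    fun u => h1 u v
  · rw [sub_self, h3, sub_zero]
  · rw [sub_self, h3, zero_add]

theorem nrm_le_iff (g : GL ι P.k) (a c : ι → ℝ) (r : ℝ) :
    P.Le r (P.nrm g a) (P.nrm g c) ↔ ∀ i, a i ≤ c i + r := by
  refine ⟨fun h i => ?_, fun h u => ?_⟩
  · have h1 := h ((g⁻¹).val *ᵥ Pi.single i 1)
    rwa [nrm_dual, nrm_dual, ← Real.rpow_add b_pos, Real.rpow_le_rpow_left_iff P.hb,
      add_comm] at h1
  · rw [← nrm_add_const]
    exact nrm_mono g h u

theorem PBase_conv (hI : P.Interp) {g h : GL ι P.k} {a w c v : ι → ℝ} {l d₀ d₁ : ℝ} (h0 : 0 ≤ l)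
    (h1 : l ≤ 1) (e0 : P.Le d₀ (P.nrm g (a + (0 : ℝ) • w)) (P.nrm h (c + (0 : ℝ) • v)))
    (e1 : P.Le d₁ (P.nrm g (a + (1 : ℝ) • w)) (P.nrm h (c + (1 : ℝ) • v))) :
    P.Le ((1 - l) * d₀ + l * d₁) (P.nrm g (a + l • w)) (P.nrm h (c + l • v)) := fun u => by
  have h2 := hI g h _ _ _ _ l h0 h1 (fun u => (e0 u).trans_eq (nrm_add_const _ _ _ _).symm)
    (fun u => (e1 u).trans_eq (nrm_add_const _ _ _ _).symm) u
  rw [← nrm_add_const]
  convert h2 using 2
  · module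
  · funext i
    simp only [Pi.add_apply, Pi.smul_apply, smul_eq_mul]
    ring

theorem geo (hJ : P.Join) (hI : P.Interp) : P.sp.Geo := by
  refine ⟨?_, fun x y => ?_, ?_⟩
  · rintro c ⟨g, a, w, h⟩ al s
    refine ⟨g, a + s • w, al • w, fun t => (h _).trans (congrArg _ ?_)⟩
    module
  · obtain ⟨g, a, c, hx, hy⟩ := hJ x y
    refine ⟨fun t => ⟨P.nrm g (a + t • (c - a)), g, _, rfl⟩, ⟨g, a, c - a, fun _ => rfl⟩,
      Subtype.ext ?_, Subtype.ext ?_⟩
    · rw [hx]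
      simp
    · rw [hy]
      simp
  · rintro c ⟨g, a, w, h⟩ c' ⟨g', a', w', h'⟩ l h0 h1
    have e0 := (dist_le_iff (P := P) (x := c 0) (y := c' 0) dist_nonneg).1 le_rfl
    have e1 := (dist_le_iff (P := P) (x := c 1) (y := c' 1) dist_nonneg).1 le_rfl
    refine (dist_le_iff (P := P) (x := c l) (y := c' l) (add_nonneg
      (mul_nonneg (sub_nonneg.2 h1) dist_nonneg) (mul_nonneg h0 dist_nonneg))).2 ?_
    rw [h, h'] at e0 e1 ⊢
    exact ⟨PBase_conv hI h0 h1 e0.1 e1.1, PBase_conv hI h0 h1 e0.2 e1.2⟩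

/-- The action of rational matrices and of scalings on the norms. -/
@[reducible] noncomputable def PBase_act (j : ℚ →+* P.k) :
    MulAction (GL ι ℚ × Multiplicative ℤ) P.X where
  smul γ x := ⟨fun u => P.b ^ ((γ.2.toAdd : ℤ) : ℝ) *
      x.1 ((GeneralLinearGroup.map j γ.1)⁻¹.val *ᵥ u), by
    obtain ⟨g, a, h⟩ := x.2
    exact ⟨g * (GeneralLinearGroup.map j γ.1)⁻¹, fun i => a i + (γ.2.toAdd : ℤ),
      funext fun u => by rw [nrm_add_const, nrm_mul, h]⟩⟩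
  one_smul x := Subtype.ext <| funext fun u => by
    change P.b ^ _ * x.1 _ = _
    simp
  mul_smul γ δ x := Subtype.ext <| funext fun u => by
    change P.b ^ _ * x.1 _ = P.b ^ _ * (P.b ^ _ * x.1 _)
    rw [Prod.fst_mul, Prod.snd_mul, toAdd_mul, map_mul, _root_.mul_inv_rev, Units.val_mul,
      Int.cast_add, Real.rpow_add b_pos, mul_assoc, mulVec_mulVec]

theorem nsp (hg : P.sp.Good) (j : ℚ →+* P.k) (hj : DenseRange j) :
    Nonempty (NSp ι (fun a => ‖j a‖) P.b) := by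
  have hd : ∀ (r : ℝ) (x y : P.X), (∀ u : ι → ℚ, x.1 (j ∘ u) ≤ P.b ^ r * y.1 (j ∘ u)) →
      P.Le r x.1 y.1 := by
    rintro r ⟨_, g, a, rfl⟩ ⟨_, h, c, rfl⟩ H u
    exact (DenseRange.piMap fun _ : ι => hj).induction_on u
      (isClosed_le (nrm_cont g a) (continuous_const.mul (nrm_cont h c))) H
  have ho : ∀ u : ι → ℚ, (fun i => ‖((1 : GL ι P.k).val *ᵥ (j ∘ u)) i‖ * P.b ^ (0 : ι → ℝ) i) =
      fun i => ‖j (u i)‖ := fun u => by
    funext i
    simp
  let _ := PBase_act j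
  refine ⟨⟨P.sp, hg, fun x u => x.1 (j ∘ u), MulAction.toPermHom _ P.X, ?_, fun γ x u => ?_,
    fun x y r hr => (dist_le_iff hr).trans ⟨fun h u => ⟨h.1 _, h.2 _⟩, fun h =>
      ⟨hd r x y fun u => (h u).1, hd r y x fun u => (h u).2⟩⟩, ?_, ?_, fun u i => ?_,
    fun u => ?_⟩⟩
  · rintro γ c ⟨g, a, w, h⟩
    refine ⟨g * (GeneralLinearGroup.map j γ.1)⁻¹, fun i => a i + (γ.2.toAdd : ℤ), w,
      fun t => funext fun u => ?_⟩
    change P.b ^ _ * (c t).1 _ = _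
    rw [h, nrm_mul, ← nrm_add_const]
    congr 1
    funext i
    simp only [Pi.add_apply]
    ring
  · have e : j ∘ (γ.1.val *ᵥ u) = (GeneralLinearGroup.map j γ.1).val *ᵥ (j ∘ u) :=
      funext fun i => RingHom.map_mulVec j _ u i
    change P.b ^ _ * x.1 (_ *ᵥ _) = _
    rw [e, mulVec_mulVec, Units.inv_mul, one_mulVec]
  · rintro ⟨_, g, a, rfl⟩ u u'
    exact (congrArg (P.nrm g a) (funext fun i => map_add j (u i) (u' i))).trans_le
      (nrm_add g a (j ∘ u) (j ∘ u'))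
  · rintro ⟨_, g, a, rfl⟩ d u
    exact (congrArg (P.nrm g a) (funext fun i => map_mul j d (u i))).trans
      (nrm_smul g a (j d) (j ∘ u))
  · exact (congrFun (ho u) i).symm.trans_le (P.le_ω i (co_nonneg 1 0 (j ∘ u)))
  · exact (P.ω_le (co_nonneg 1 0 (j ∘ u))).trans_eq
      (Finset.sum_congr rfl fun i _ => congrFun (ho u) i)

end Plc

end Pool.Agent.MP_f7db47_al.GF
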