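import Pool.Agent.MP_f7db47_al.GF.PPJoin

/-!
Interpolation and volumes for ultrametric norms.
-/

namespace Pool.Agent.MP_f7db47_al.GF

open Matrix

variable {p : ℕ} [Fact p.Prime] {ι : Type} [Fintype ι] [DecidableEq ι]

theorem PPInt_one_lt (p : ℕ) [hp : Fact p.Prime] : (1 : ℝ) < p := by
  exact_mod_cast hp.out.one_lt

theorem PPInt_pos (p : ℕ) [Fact p.Prime] : (0 : ℝ) < p := zero_lt_one.trans (PPInt_one_lt p)

theorem PPInt_iff {b : ℝ} (hb : 0 < b) (m a c : ℝ) : m * b ^ a ≤ b ^ c ↔ m ≤ b ^ (c - a) := by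
  rw [Real.rpow_sub hb, le_div_iff₀ (Real.rpow_pos_of_pos hb a)]

theorem plcP_le (g : GL ι ℚ_[p]) (a : ι → ℝ) (u : ι → ℚ_[p]) {r : ℝ} (hr : 0 ≤ r) :
    (plcP p ι).nrm g a u ≤ r ↔ ∀ i, ‖(g.val *ᵥ u) i‖ * (p : ℝ) ^ a i ≤ r := by
  show ‖(fun i => ‖(g.val *ᵥ u) i‖ * (p : ℝ) ^ a i : ι → ℝ)‖ ≤ r ↔ _
  rw [pi_norm_le_iff_of_nonneg hr]
  refine forall_congr' fun i => ?_
  rw [Real.norm_of_nonneg (mul_nonneg (norm_nonneg _) (Real.rpow_nonneg (PPInt_pos p).le _))]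

theorem plcP_le_iff (g h : GL ι ℚ_[p]) (a c : ι → ℝ) :
    (∀ u, (plcP p ι).nrm g a u ≤ (plcP p ι).nrm h c u) ↔
      ∀ i j, ‖(g * h⁻¹).val i j‖ * (p : ℝ) ^ a i ≤ (p : ℝ) ^ c j := by
  have hp := PPInt_pos p
  constructor
  · intro H i j
    have h1 := H ((h⁻¹).val *ᵥ Pi.single j 1)
    have h2 : (plcP p ι).nrm h c ((h⁻¹).val *ᵥ Pi.single j 1) = (p : ℝ) ^ c j :=
      Plc.nrm_dual (P := plcP p ι) h c j
    rw [h2] at h1
    have h3 := (plcP_le g a _ (Real.rpow_nonneg hp.le _)).1 h1 i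
    have e : (g.val *ᵥ ((h⁻¹).val *ᵥ Pi.single j 1)) i = (g * h⁻¹).val i j := by
      rw [mulVec_mulVec, mulVec_single_one]
      rfl
    rw [← e]
    exact h3
  · intro H u
    have hN : 0 ≤ (plcP p ι).nrm h c u := Plc.nrm_nonneg (P := plcP p ι) h c u
    have h1 := (plcP_le h c u hN).1 le_rfl
    refine (plcP_le g a u hN).2 fun i => ?_
    have e : g.val *ᵥ u = (g * h⁻¹).val *ᵥ (h.val *ᵥ u) := by
      simp only [mulVec_mulVec, Units.val_mul, mul_assoc, Units.inv_mul, mul_one]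
    have hpa : 0 < (p : ℝ) ^ a i := Real.rpow_pos_of_pos hp _
    rw [e, ← le_div_iff₀ hpa]
    show ‖∑ j, (g * h⁻¹).val i j * (h.val *ᵥ u) j‖ ≤ _
    refine IsUltrametricDist.norm_sum_le_of_forall_le_of_nonneg (div_nonneg hN hpa.le)
      fun j _ => ?_
    rw [le_div_iff₀ hpa, norm_mul]
    calc ‖(g * h⁻¹).val i j‖ * ‖(h.val *ᵥ u) j‖ * (p : ℝ) ^ a i
        = ‖(h.val *ᵥ u) j‖ * (‖(g * h⁻¹).val i j‖ * (p : ℝ) ^ a i) := by ring
      _ ≤ ‖(h.val *ᵥ u) j‖ * (p : ℝ) ^ c j :=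
          mul_le_mul_of_nonneg_left (H i j) (norm_nonneg _)
      _ ≤ _ := h1 j

theorem plcP_interp : (plcP p ι).Interp := by
  intro g h a a' c c' l h0 h1 H H'
  have hp := PPInt_pos p
  refine (plcP_le_iff g h _ _).2 fun i j => ?_
  have h2 := (PPInt_iff hp _ _ _).1 ((plcP_le_iff g h a c).1 H i j)
  have h3 := (PPInt_iff hp _ _ _).1 ((plcP_le_iff g h a' c').1 H' i j)
  rw [PPInt_iff hp]
  simp only [Pi.add_apply, Pi.smul_apply, smul_eq_mul]
  rcases le_total (c j - a i) (c' j - a' i) with h4 | h4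
  · refine h2.trans (Real.rpow_le_rpow_of_exponent_le (PPInt_one_lt p).le ?_)
    nlinarith [mul_le_mul_of_nonneg_left h4 h0]
  · refine h3.trans (Real.rpow_le_rpow_of_exponent_le (PPInt_one_lt p).le ?_)
    nlinarith [mul_le_mul_of_nonneg_left h4 (sub_nonneg.2 h1)]

theorem plcP_vol (g h : GL ι ℚ_[p]) (a c : ι → ℝ)
    (hle : ∀ u, (plcP p ι).nrm g a u ≤ (plcP p ι).nrm h c u) :
    ‖g.val.det‖ * (p : ℝ) ^ (∑ i, a i) ≤ ‖h.val.det‖ * (p : ℝ) ^ (∑ i, c i) := by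
  have hp := PPInt_pos p
  have H := (plcP_le_iff g h a c).1 hle
  have e : g.val.det = (g * h⁻¹).val.det * h.val.det := by
    rw [← det_mul, ← Units.val_mul, inv_mul_cancel_right]
  have h1 : ‖(g * h⁻¹).val.det‖ ≤ (p : ℝ) ^ (∑ i, c i - ∑ i, a i) := by
    rw [det_apply']
    refine IsUltrametricDist.norm_sum_le_of_forall_le_of_nonneg (Real.rpow_nonneg hp.le _)
      fun s _ => ?_
    have h2 : ‖(((Equiv.Perm.sign s : ℤˣ) : ℤ) : ℚ_[p])‖ = 1 := by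
      rcases Int.units_eq_one_or (Equiv.Perm.sign s) with h3 | h3 <;> simp [h3]
    rw [norm_mul, h2, one_mul, norm_prod, ← Equiv.sum_comp s a, ← Finset.sum_sub_distrib,
      Real.rpow_sum_of_pos hp]
    exact Finset.prod_le_prod (fun i _ => norm_nonneg _)
      fun i _ => (PPInt_iff hp _ _ _).1 (H (s i) i)
  have h4 := (PPInt_iff hp _ _ _).2 h1
  rw [e, norm_mul]
  calc ‖(g * h⁻¹).val.det‖ * ‖h.val.det‖ * (p : ℝ) ^ (∑ i, a i)
      = ‖h.val.det‖ * (‖(g * h⁻¹).val.det‖ * (p : ℝ) ^ (∑ i, a i)) := by ring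
    _ ≤ _ := mul_le_mul_of_nonneg_left h4 (norm_nonneg _)

/-- The logarithm of the volume of a split norm. -/
noncomputable def PPInt_V (g : GL ι ℚ_[p]) (a : ι → ℝ) : ℝ :=
  Real.logb p ‖g.val.det‖ + ∑ i, a i

theorem PPInt_V_le (g h : GL ι ℚ_[p]) (a c : ι → ℝ)
    (hle : ∀ u, (plcP p ι).nrm g a u ≤ (plcP p ι).nrm h c u) : PPInt_V g a ≤ PPInt_V h c := by
  have hp := PPInt_pos p
  have hp1 := PPInt_one_lt p
  have hd : ∀ g : GL ι ℚ_[p], 0 < ‖g.val.det‖ := fun g =>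
    norm_pos_iff.2 (Matrix.GeneralLinearGroup.det_ne_zero g)
  have e : ∀ (g : GL ι ℚ_[p]) (a : ι → ℝ),
      PPInt_V g a = Real.logb p (‖g.val.det‖ * (p : ℝ) ^ (∑ i, a i)) := fun g a => by
    rw [Real.logb_mul (hd g).ne' (Real.rpow_pos_of_pos hp _).ne', Real.logb_rpow hp hp1.ne']
    rfl
  rw [e, e]
  exact Real.logb_le_logb_of_le hp1 (mul_pos (hd g) (Real.rpow_pos_of_pos hp _))
    (plcP_vol g h a c hle)

theorem PPInt_exV : ∃ V : (plcP p ι).X → ℝ, ∀ (x : (plcP p ι).X) (g : GL ι ℚ_[p]) (a : ι → ℝ),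
    x.1 = (plcP p ι).nrm g a → V x = PPInt_V g a := by
  have h : ∀ x : (plcP p ι).X, ∃ (g : GL ι ℚ_[p]) (a : ι → ℝ), x.1 = (plcP p ι).nrm g a :=
    fun x => x.2
  choose G A hGA using h
  refine ⟨fun x => PPInt_V (G x) (A x), fun x g a hx => le_antisymm ?_ ?_⟩
  · exact PPInt_V_le _ _ _ _ fun u => by rw [← hGA x, hx]
  · exact PPInt_V_le _ _ _ _ fun u => by rw [← hGA x, hx]

theorem PPInt_lat (Q : ℕ) (y : (plcP p ι).X) (g : GL ι ℚ_[p]) (a : ι → ℝ)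
    (hy : y.1 = (plcP p ι).nrm g a)
    (hv : ∀ u, u ≠ 0 → ∃ z : ℤ, y.1 u = (p : ℝ) ^ ((z : ℝ) / Q)) (i : ι) :
    ∃ z : ℤ, a i = (z : ℝ) / Q := by
  have hu : ((g⁻¹).val *ᵥ Pi.single i 1 : ι → ℚ_[p]) ≠ 0 := fun h0 => by
    have h1 := congrArg (fun u => (g.val *ᵥ u) i) h0
    simp only [mulVec_mulVec, Units.mul_inv, one_mulVec, Pi.single_eq_same, mulVec_zero,
      Pi.zero_apply] at h1
    exact one_ne_zero h1
  obtain ⟨z, hz⟩ := hv _ hu
  have h2 : (plcP p ι).nrm g a ((g⁻¹).val *ᵥ Pi.single i 1) = (p : ℝ) ^ a i :=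
    Plc.nrm_dual (P := plcP p ι) g a i
  rw [hy] at hz
  exact ⟨z, (Real.rpow_right_inj (PPInt_pos p) (PPInt_one_lt p).ne').1 (h2.symm.trans hz)⟩

open Classical in
theorem plcP_chain (Q : ℕ) (hQ : 0 < Q) (x : ℕ → (plcP p ι).X) (M : ℕ)
    (hx : ∀ j u, (x (j + 1)).1 u ≤ (x j).1 u)
    (hv : ∀ j u, u ≠ 0 → ∃ z : ℤ, (x j).1 u = (p : ℝ) ^ ((z : ℝ) / Q))
    (hM : ∀ u, (x 0).1 u ≤ (p : ℝ) ^ ((1 : ℝ) / Q) * (x M).1 u) :
    ((Finset.range M).filter fun j => x (j + 1) ≠ x j).card ≤ Fintype.card ι := by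
  obtain ⟨V, hV⟩ := PPInt_exV (p := p) (ι := ι)
  have hQ' : (0 : ℝ) < Q := by exact_mod_cast hQ
  have step : ∀ j, x (j + 1) ≠ x j → V (x (j + 1)) + 1 / Q ≤ V (x j) := fun j hj => by
    obtain ⟨g, a, c, ha, hc⟩ := plcP_join p (x (j + 1)) (x j)
    have h1 : ∀ i, a i ≤ c i := fun i => by
      have h2 := (Plc.nrm_le_iff (P := plcP p ι) g a c 0).1 (fun u => by
        rw [Real.rpow_zero, one_mul, ← ha, ← hc]; exact hx j u) i
      rwa [add_zero] at h2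
    have h3 : ∃ i, a i ≠ c i := by
      by_contra h4
      push Not at h4
      exact hj (Subtype.ext (by rw [ha, hc, funext h4]))
    obtain ⟨i, hi⟩ := h3
    obtain ⟨z, hz⟩ := PPInt_lat Q _ g a ha (hv (j + 1)) i
    obtain ⟨w, hw⟩ := PPInt_lat Q _ g c hc (hv j) i
    have h5 : a i + 1 / Q ≤ c i := by
      have h6 : a i < c i := lt_of_le_of_ne (h1 i) hi
      rw [hz, hw, div_lt_div_iff_of_pos_right hQ'] at h6
      have h7 : z + 1 ≤ w := by exact_mod_cast h6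
      have h8 : (z : ℝ) + 1 ≤ w := by exact_mod_cast h7
      rw [hz, hw, ← add_div]
      exact div_le_div_of_nonneg_right h8 hQ'.le
    rw [hV _ g a ha, hV _ g c hc]
    unfold PPInt_V
    rw [← Finset.add_sum_erase _ a (Finset.mem_univ i),
      ← Finset.add_sum_erase _ c (Finset.mem_univ i)]
    have h9 := Finset.sum_le_sum (s := Finset.univ.erase i) fun k _ => h1 k
    linarith
  have tel : ∀ m, V (x m) + (((Finset.range m).filter fun j => x (j + 1) ≠ x j).card : ℝ) / Q ≤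
      V (x 0) := fun m => by
    induction m with
    | zero => simp
    | succ m ih =>
      rw [Finset.range_add_one, Finset.filter_insert]
      split_ifs with h1
      · rw [Finset.card_insert_of_notMem (by simp), Nat.cast_add, Nat.cast_one, add_div]
        have := step m h1
        linarith
      · rw [not_not.1 h1]
        exact ih
  have fin : V (x 0) ≤ V (x M) + (Fintype.card ι : ℝ) / Q := by
    obtain ⟨g, a, ha⟩ := (x 0).2
    obtain ⟨h, c, hc⟩ := (x M).2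
    have h1 := PPInt_V_le g h a (fun i => c i + 1 / Q) fun u => by
      have h2 : (plcP p ι).nrm h (fun i => c i + 1 / Q) u =
          (p : ℝ) ^ ((1 : ℝ) / Q) * (plcP p ι).nrm h c u :=
        Plc.nrm_add_const (P := plcP p ι) h c (1 / Q) u
      rw [h2, ← ha, ← hc]
      exact hM u
    rw [hV _ g a ha, hV _ h c hc]
    refine h1.trans (le_of_eq ?_)
    unfold PPInt_V
    rw [Finset.sum_add_distrib, Finset.sum_const, Finset.card_univ, nsmul_eq_mul]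
    ring
  have h1 := tel M
  have h2 : (((Finset.range M).filter fun j => x (j + 1) ≠ x j).card : ℝ) / Q ≤
      (Fintype.card ι : ℝ) / Q := by linarith
  rw [div_le_div_iff_of_pos_right hQ'] at h2
  exact_mod_cast h2

end Pool.Agent.MP_f7db47_al.GF
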