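import Pool.Agent.MP_f7db47_al.GF.PBase

/-!
Two split ultrametric norms have a common orthogonal basis.
-/

namespace Pool.Agent.MP_f7db47_al.GF

open Matrix

section

variable {K : Type} [NormedField K] [IsUltrametricDist K] {ι : Type} [Fintype ι] [DecidableEq ι]

/-- The weighted sup norm. -/
noncomputable def PPJoin_N (w : ι → ℝ) (v : ι → K) : ℝ := ‖fun i => ‖v i‖ * w i‖

omit [IsUltrametricDist K] [DecidableEq ι] in
theorem PPJoin_le_N (w : ι → ℝ) (v : ι → K) (i : ι) : ‖v i‖ * w i ≤ PPJoin_N w v :=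
  (le_abs_self _).trans (norm_le_pi_norm (fun i => ‖v i‖ * w i) i)

theorem PPJoin_step_le {w : ι → ℝ} (hw : ∀ i, 0 < w i) (t r : ι → K)
    (hb : ∀ k l, ‖t k‖ * ‖r l‖ * w k ≤ w l) (v : ι → K) :
    PPJoin_N w ((1 - vecMulVec t r) *ᵥ v) ≤ PPJoin_N w v := by
  have h0 : 0 ≤ PPJoin_N w v := norm_nonneg _
  refine (pi_norm_le_iff_of_nonneg h0).2 fun k => ?_
  rw [Real.norm_of_nonneg (mul_nonneg (norm_nonneg _) (hw k).le), ← le_div_iff₀ (hw k)]
  have hC : 0 ≤ PPJoin_N w v / w k := div_nonneg h0 (hw k).le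
  have e : ((1 - vecMulVec t r) *ᵥ v) k = v k + -∑ l, t k * r l * v l := by
    rw [sub_mulVec, one_mulVec, Pi.sub_apply, sub_eq_add_neg]
    rfl
  rw [e]
  refine (IsUltrametricDist.norm_add_le_max _ _).trans (max_le ?_ ?_)
  · rw [le_div_iff₀ (hw k)]
    exact PPJoin_le_N w v k
  · rw [norm_neg]
    refine IsUltrametricDist.norm_sum_le_of_forall_le_of_nonneg hC fun l _ => ?_
    rw [le_div_iff₀ (hw k), norm_mul, norm_mul]
    calc ‖t k‖ * ‖r l‖ * ‖v l‖ * w k = ‖v l‖ * (‖t k‖ * ‖r l‖ * w k) := by ring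
      _ ≤ ‖v l‖ * w l := mul_le_mul_of_nonneg_left (hb k l) (norm_nonneg _)
      _ ≤ _ := PPJoin_le_N w v l

omit [IsUltrametricDist K] in
theorem PPJoin_mul_eq (t r : ι → K) (h0 : r ⬝ᵥ t = 0) :
    (1 - vecMulVec t r) * (1 - vecMulVec (-t) r) = 1 := by
  have h : vecMulVec t r * vecMulVec (-t) r = 0 := by
    rw [vecMulVec_mul_vecMulVec, dotProduct_neg, h0]
    simp
  rw [mul_sub, mul_one, sub_mul, one_mul, h, neg_vecMulVec]
  abel

theorem PPJoin_iso {w : ι → ℝ} (hw : ∀ i, 0 < w i) (t r : ι → K) (h0 : r ⬝ᵥ t = 0)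
    (hb : ∀ k l, ‖t k‖ * ‖r l‖ * w k ≤ w l) :
    ∃ E : GL ι K, E.val = 1 - vecMulVec t r ∧ ∀ v, PPJoin_N w (E.val *ᵥ v) = PPJoin_N w v := by
  have h1 := PPJoin_mul_eq t r h0
  have h2 : (1 - vecMulVec (-t) r) * (1 - vecMulVec t r) = 1 := by
    have := PPJoin_mul_eq (-t) r (by rw [dotProduct_neg, h0, neg_zero])
    rwa [neg_neg] at this
  refine ⟨⟨_, _, h1, h2⟩, rfl, fun v => le_antisymm (PPJoin_step_le hw t r hb v) ?_⟩
  have h3 := PPJoin_step_le hw (-t) r (fun k l => by simpa using hb k l)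
    ((1 - vecMulVec t r) *ᵥ v)
  rwa [mulVec_mulVec, h2, one_mulVec] at h3

/-- A finished column. -/
def PPJoin_Fin (M : Matrix ι ι K) (j : ι) : Prop :=
  ∃ i, (∀ k, k ≠ i → M k j = 0) ∧ ∀ l, l ≠ j → M i l = 0

omit [IsUltrametricDist K] in
theorem PPJoin_col (M : GL ι K) (j : ι) : ∃ i, M.val i j ≠ 0 := by
  by_contra h
  push Not at h
  have e : ((M⁻¹).val * M.val) j j = 1 := by rw [Units.inv_mul, one_apply_eq]
  rw [mul_apply] at e
  simp [h] at e

omit [IsUltrametricDist K] in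
theorem PPJoin_mono {γ : ι → ℝ} (hγ : ∀ i, 0 < γ i) (M : GL ι K)
    (h : ∀ j, PPJoin_Fin M.val j) :
    ∃ δ : ι → ℝ, (∀ i, 0 < δ i) ∧ ∀ v, PPJoin_N γ (M.val *ᵥ v) = PPJoin_N δ v := by
  choose s h1 h2 using h
  have hne : ∀ j, M.val (s j) j ≠ 0 := fun j => by
    obtain ⟨i, hi⟩ := PPJoin_col M j
    have : i = s j := by
      by_contra hc
      exact hi (h1 j i hc)
    exact this ▸ hi
  have hinj : Function.Injective s := fun j j' e => by
    by_contra hc
    exact hne j (e ▸ h2 j' j hc)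
  have hs : Function.Surjective s := Finite.surjective_of_injective hinj
  refine ⟨fun j => ‖M.val (s j) j‖ * γ (s j), fun j => mul_pos (norm_pos_iff.2 (hne j)) (hγ _),
    fun v => ?_⟩
  unfold PPJoin_N
  rw [← hs.pi_norm_comp]
  congr 1
  funext j
  have e : (M.val *ᵥ v) (s j) = M.val (s j) j * v j := by
    refine Finset.sum_eq_single j (fun l _ hl => ?_) (fun hj => absurd (Finset.mem_univ j) hj)
    simp [h2 j l hl]
  simp only [Function.comp_apply, e, norm_mul]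
  ring

theorem PPJoin_step {α γ : ι → ℝ} (hα : ∀ i, 0 < α i) (hγ : ∀ i, 0 < γ i) (M : GL ι K)
    (h : ∃ j, ¬ PPJoin_Fin M.val j) :
    ∃ E E' : GL ι K, (∀ v, PPJoin_N γ (E.val *ᵥ v) = PPJoin_N γ v) ∧
      (∀ v, PPJoin_N α (E'.val *ᵥ v) = PPJoin_N α v) ∧
      {j | PPJoin_Fin M.val j} ⊂ {j | PPJoin_Fin (E * M * E').val j} := by
  classical
  obtain ⟨j1, hj1⟩ := h
  obtain ⟨⟨i, j⟩, hij, hmax⟩ := Finset.exists_max_image
    (Finset.univ.filter fun q : ι × ι => ¬ PPJoin_Fin M.val q.2)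
    (fun q => ‖M.val q.1 q.2‖ * γ q.1 / α q.2) ⟨(j1, j1), by simpa using hj1⟩
  have hj : ¬ PPJoin_Fin M.val j := by simpa using hij
  have hm : ∀ k l, ¬ PPJoin_Fin M.val l → ‖M.val k l‖ * γ k / α l ≤ ‖M.val i j‖ * γ i / α j :=
    fun k l hl => hmax (k, l) (by simpa using hl)
  have hne : M.val i j ≠ 0 := by
    obtain ⟨k, hk⟩ := PPJoin_col M j
    intro h0
    have h1 := hm k j hj
    rw [h0, norm_zero, zero_mul, zero_div] at h1
    exact absurd h1 (not_le.2 (div_pos (mul_pos (norm_pos_iff.2 hk) (hγ k)) (hα j)))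
  have hpos : 0 < ‖M.val i j‖ := norm_pos_iff.2 hne
  have hfin : ∀ l, PPJoin_Fin M.val l → M.val i l = 0 := fun l hl => by
    obtain ⟨i0, a1, a2⟩ := hl
    have hlj : j ≠ l := fun e => hj (e ▸ ⟨i0, a1, a2⟩)
    refine a1 i fun e => hne ?_
    rw [e]
    exact a2 j hlj
  obtain ⟨E, hE, hE'⟩ := PPJoin_iso hγ (fun k => if k = i then 0 else M.val k j / M.val i j)
    (Pi.single i 1) (by simp) (fun k l => by
      by_cases hk : k = i
      · simp [hk, (hγ l).le]
      by_cases hl : l = i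
      · subst hl
        have h1 := hm k j hj
        rw [div_le_div_iff_of_pos_right (hα j)] at h1
        simp only [hk, if_false, Pi.single_eq_same, norm_one, mul_one, norm_div]
        rw [div_mul_eq_mul_div, div_le_iff₀ hpos]
        linarith
      · simp [hl, (hγ l).le])
  obtain ⟨F, hF, hF'⟩ := PPJoin_iso hα (Pi.single j 1)
    (fun l => if l = j then 0 else M.val i l / M.val i j) (by simp) (fun k l => by
      by_cases hl : l = j
      · simp [hl, (hα j).le]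
      by_cases hk : k = j
      · subst hk
        by_cases hf : PPJoin_Fin M.val l
        · simp [hfin l hf, (hα l).le]
        have h1 := hm i l hf
        rw [div_le_div_iff₀ (hα l) (hα k)] at h1
        simp only [hl, if_false, Pi.single_eq_same, norm_one, one_mul, norm_div]
        rw [div_mul_eq_mul_div, div_le_iff₀ hpos]
        refine le_of_mul_le_mul_left ?_ (hγ i)
        linarith
      · simp [hk, (hα l).le])
  have e1 : ∀ k l, (E.val * M.val) k l =
      M.val k l - (if k = i then 0 else M.val k j / M.val i j) * M.val i l := fun k l => by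
    rw [hE, sub_mul, one_mul, vecMulVec_mul, Matrix.sub_apply, vecMulVec_apply, single_one_vecMul]
    rfl
  have e2 : ∀ (A : Matrix ι ι K) k l, (A * F.val) k l =
      A k l - A k j * (if l = j then 0 else M.val i l / M.val i j) := fun A k l => by
    rw [hF, mul_sub, mul_one, mul_vecMulVec, Matrix.sub_apply, vecMulVec_apply, mulVec_single_one]
    rfl
  have e3 : ∀ k, k ≠ i → (E * M * F).val k j = 0 := fun k hk => by
    rw [Units.val_mul, Units.val_mul, e2, e1]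
    simp only [hk, if_false, if_true]
    field_simp
    ring
  have e4 : ∀ l, l ≠ j → (E * M * F).val i l = 0 := fun l hl => by
    rw [Units.val_mul, Units.val_mul, e2, e1, e1]
    simp only [hl, if_false, if_true]
    field_simp
    ring
  have e5 : ∀ k l, M.val k l = 0 → M.val k j * M.val i l = 0 → (E * M * F).val k l = 0 :=
    fun k l a1 a2 => by
      by_cases hk : k = i
      · exact hk ▸ e4 l fun e => hne (by rw [← a1, hk, e])
      by_cases hl : l = j
      · exact hl ▸ e3 k hk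
      rw [Units.val_mul, Units.val_mul, e2, e1, e1]
      simp only [hk, hl, if_false, a1]
      field_simp
      linear_combination -a2
  refine ⟨E, F, hE', hF', fun l hl => ?_, fun hc => hj (hc ⟨i, e3, e4⟩)⟩
  have h0 := hfin l hl
  obtain ⟨i0, a1, a2⟩ := hl
  have hlj : j ≠ l := fun e => hj (e ▸ ⟨i0, a1, a2⟩)
  exact ⟨i0, fun k hk => e5 k l (a1 k hk) (by rw [h0, mul_zero]),
    fun m hm' => e5 i0 m (a2 m hm') (by rw [a2 j hlj, zero_mul])⟩

theorem PPJoin_main {α γ : ι → ℝ} (hα : ∀ i, 0 < α i) (hγ : ∀ i, 0 < γ i) (M : GL ι K) :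
    ∃ (F : GL ι K) (δ : ι → ℝ), (∀ i, 0 < δ i) ∧
      (∀ v, PPJoin_N α (F.val *ᵥ v) = PPJoin_N α v) ∧
      ∀ v, PPJoin_N γ (M.val *ᵥ (F.val *ᵥ v)) = PPJoin_N δ v := by
  generalize hS : {j | PPJoin_Fin M.val j} = S
  induction S using WellFoundedGT.induction generalizing M with
  | ind S ih =>
    by_cases h : ∀ j, PPJoin_Fin M.val j
    · obtain ⟨δ, h1, h2⟩ := PPJoin_mono hγ M h
      exact ⟨1, δ, h1, fun v => by simp, fun v => by simpa using h2 v⟩
    push Not at h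
    obtain ⟨E, E', a1, a2, a3⟩ := PPJoin_step hα hγ M h
    obtain ⟨F, δ, b1, b2, b3⟩ := ih _ (hS ▸ a3) (E * M * E') rfl
    refine ⟨E' * F, δ, b1, fun v => ?_, fun v => ?_⟩
    · rw [Units.val_mul, ← mulVec_mulVec, a2, b2]
    · rw [← b3, ← a1]
      simp only [Units.val_mul, mulVec_mulVec, mul_assoc]

end

theorem plcP_join (p : ℕ) [Fact p.Prime] {ι : Type} [Fintype ι] [DecidableEq ι] :
    (plcP p ι).Join := by
  rintro ⟨_, g, a, rfl⟩ ⟨_, h, c, rfl⟩
  change GL ι ℚ_[p] at g h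
  have hp : (1 : ℝ) < p := (plcP p ι).hb
  have hp0 : (0 : ℝ) < p := zero_lt_one.trans hp
  have hn : ∀ (g : GL ι ℚ_[p]) (a : ι → ℝ) (u : ι → ℚ_[p]),
      (plcP p ι).nrm g a u = PPJoin_N (fun i => (p : ℝ) ^ a i) (g.val *ᵥ u) := fun _ _ _ => rfl
  obtain ⟨F, δ, h1, h2, h3⟩ := PPJoin_main (K := ℚ_[p]) (α := fun i => (p : ℝ) ^ a i)
    (γ := fun i => (p : ℝ) ^ c i) (fun _ => Real.rpow_pos_of_pos hp0 _)
    (fun _ => Real.rpow_pos_of_pos hp0 _) (h * g⁻¹ : GL ι ℚ_[p])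
  have key : ∀ (g h : GL ι ℚ_[p]) (u : ι → ℚ_[p]),
      F.val *ᵥ ((F⁻¹ * g).val *ᵥ u) = g.val *ᵥ u ∧
        (h * g⁻¹).val *ᵥ (g.val *ᵥ u) = h.val *ᵥ u := fun g h u => by
    constructor
    · rw [mulVec_mulVec, ← Units.val_mul, mul_inv_cancel_left]
    · rw [mulVec_mulVec, ← Units.val_mul, inv_mul_cancel_right]
  refine ⟨(F⁻¹ * g : GL ι ℚ_[p]), a, fun i => Real.logb p (δ i), funext fun u => ?_,
    funext fun u => ?_⟩
  · exact (hn g a u).trans (((congrArg _ (key g h u).1).symm.trans (h2 _)).trans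
      (hn (F⁻¹ * g : GL ι ℚ_[p]) a u).symm)
  · have e : (fun i => (p : ℝ) ^ Real.logb p (δ i)) = δ :=
      funext fun i => Real.rpow_logb hp0 hp.ne' (h1 i)
    refine (hn h c u).trans (Eq.trans ?_ (hn (F⁻¹ * g : GL ι ℚ_[p]) _ u).symm)
    rw [e, ← h3, (key g h u).1, (key g h u).2]

end Pool.Agent.MP_f7db47_al.GF
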