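import Pool.Agent.MP_f7db47_al.GF.PPInt

/-!
Ultrametric norms in a ball are determined by finitely many values.
-/

namespace Pool.Agent.MP_f7db47_al.GF

open Metric

variable {p : ℕ} [Fact p.Prime] {ι : Type} [Fintype ι] [DecidableEq ι]

theorem PPNet_one_lt : (1 : ℝ) < (p : ℝ) := by
  exact_mod_cast (Fact.out : p.Prime).one_lt

theorem PPNet_pos : (0 : ℝ) < (p : ℝ) := zero_lt_one.trans PPNet_one_lt

theorem PPNet_nonneg (g : GL ι ℚ_[p]) (a : ι → ℝ) (u : ι → ℚ_[p]) :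
    0 ≤ (plcP p ι).nrm g a u := Plc.nrm_nonneg (P := plcP p ι) g a u

theorem PPNet_co (g : GL ι ℚ_[p]) (a : ι → ℝ) (u : ι → ℚ_[p]) (i : ι) :
    ‖(Matrix.mulVec g.val u) i‖ * (p : ℝ) ^ a i ≤ (plcP p ι).nrm g a u :=
  (plcP_le g a u (PPNet_nonneg g a u)).1 le_rfl i

theorem PPNet_o (u : ι → ℚ_[p]) : (plcP p ι).nrm (1 : GL ι ℚ_[p]) 0 u = ‖u‖ := by
  refine le_antisymm ((plcP_le 1 0 u (norm_nonneg u)).2 fun i => ?_) ?_
  · simpa using norm_le_pi_norm u i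
  · refine (pi_norm_le_iff_of_nonneg (PPNet_nonneg 1 0 u)).2 fun i => ?_
    simpa using PPNet_co (1 : GL ι ℚ_[p]) 0 u i

theorem plcP_ball (r : ℝ) (hr : 0 ≤ r) (x : (plcP p ι).X) :
    x ∈ closedBall (plcP p ι).sp.o r ↔
      ∀ u : ι → ℚ_[p], x.1 u ≤ (p : ℝ) ^ r * ‖u‖ ∧ ‖u‖ ≤ (p : ℝ) ^ r * x.1 u := by
  have h := Plc.dist_le_iff (P := plcP p ι) (x := x) (y := (plcP p ι).sp.o) hr
  refine Iff.trans mem_closedBall (h.trans ?_)
  constructor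
  · intro h1 u
    have h2 : x.1 u ≤ (p : ℝ) ^ r * (plcP p ι).nrm (1 : GL ι ℚ_[p]) 0 u := h1.1 u
    have h3 : (plcP p ι).nrm (1 : GL ι ℚ_[p]) 0 u ≤ (p : ℝ) ^ r * x.1 u := h1.2 u
    rw [PPNet_o] at h2 h3
    exact ⟨h2, h3⟩
  · intro h1
    refine ⟨fun u => ?_, fun u => ?_⟩
    · have h2 := (h1 u).1
      rw [← PPNet_o] at h2
      exact h2
    · have h2 := (h1 u).2
      rw [← PPNet_o] at h2
      exact h2

theorem PPNet_ultra (x : (plcP p ι).X) (u v : ι → ℚ_[p]) :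
    x.1 (u + v) ≤ max (x.1 u) (x.1 v) := by
  obtain ⟨_, g, a, rfl⟩ := x
  refine (plcP_le g a (u + v) (le_max_of_le_left (PPNet_nonneg g a u))).2 fun i => ?_
  have h1 := PPNet_co g a u i
  have h2 := PPNet_co g a v i
  have h3 : (0 : ℝ) ≤ (p : ℝ) ^ a i := Real.rpow_nonneg PPNet_pos.le _
  rw [Matrix.mulVec_add, Pi.add_apply]
  rcases le_max_iff.1 (Padic.nonarchimedean ((Matrix.mulVec g.val u) i)
    ((Matrix.mulVec g.val v) i)) with h | h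
  · exact le_max_of_le_left ((mul_le_mul_of_nonneg_right h h3).trans h1)
  · exact le_max_of_le_right ((mul_le_mul_of_nonneg_right h h3).trans h2)

theorem PPNet_smul (x : (plcP p ι).X) (d : ℚ_[p]) (u : ι → ℚ_[p]) :
    x.1 (d • u) = ‖d‖ * x.1 u := by
  obtain ⟨_, g, a, rfl⟩ := x
  exact Plc.nrm_smul (P := plcP p ι) g a d u

theorem PPNet_eq (x : (plcP p ι).X) (u f : ι → ℚ_[p]) (h : x.1 (u - f) < x.1 f) :
    x.1 u = x.1 f := by
  have h1 : x.1 u ≤ x.1 f := by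
    have := PPNet_ultra x (u - f) f
    rw [sub_add_cancel] at this
    exact this.trans (max_le h.le le_rfl)
  have h2 : x.1 (f - u) = x.1 (u - f) := by
    have := PPNet_smul x (-1) (u - f)
    rw [neg_one_smul, neg_sub, norm_neg, norm_one, one_mul] at this
    exact this
  have h3 := PPNet_ultra x (f - u) u
  rw [sub_add_cancel, h2] at h3
  rcases le_max_iff.1 h3 with h4 | h4
  · exact absurd h4 (not_le.2 h)
  · exact le_antisymm h1 h4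

omit [DecidableEq ι] in
theorem PPNet_norm (u : ι → ℚ_[p]) (hu : u ≠ 0) : ∃ z : ℤ, ‖u‖ = (p : ℝ) ^ z := by
  obtain ⟨j, hj⟩ := Function.ne_iff.1 hu
  obtain ⟨i, -, hi⟩ := Finset.exists_max_image Finset.univ (fun i => ‖u i‖) ⟨j, Finset.mem_univ j⟩
  have h1 : ‖u‖ = ‖u i‖ := le_antisymm
    ((pi_norm_le_iff_of_nonneg (norm_nonneg _)).2 fun k => hi k (Finset.mem_univ k))
    (norm_le_pi_norm u i)
  have h2 : u i ≠ 0 := by
    intro h
    rw [h, norm_zero, norm_eq_zero] at h1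
    exact hu h1
  exact ⟨-(u i).valuation, h1.trans (Padic.norm_eq_zpow_neg_valuation h2)⟩

theorem plcP_net (r : ℕ) : ∃ F : Finset (ι → ℚ_[p]), (∀ f ∈ F, f ≠ 0) ∧
    ∀ u : ι → ℚ_[p], u ≠ 0 → ∃ f ∈ F, ∃ z : ℤ, ∀ x : (plcP p ι).X,
      x ∈ closedBall (plcP p ι).sp.o r → x.1 u = (p : ℝ) ^ (z : ℝ) * x.1 f := by
  have hp : (0 : ℝ) < p := PPNet_pos
  have hR : (0 : ℝ) < (p : ℝ) ^ (r : ℝ) := Real.rpow_pos_of_pos hp _
  set R : ℝ := (p : ℝ) ^ (r : ℝ) with hRdef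
  have he : (0 : ℝ) < (R * R)⁻¹ := by positivity
  obtain ⟨t, ht, hf, hc⟩ := finite_cover_balls_of_compact
    (isCompact_sphere (0 : ι → ℚ_[p]) 1) he
  refine ⟨hf.toFinset, fun f hfF => ?_, fun u hu => ?_⟩
  · intro h0
    have := ht (hf.mem_toFinset.1 hfF)
    rw [h0] at this
    simp at this
  obtain ⟨z, hz⟩ := PPNet_norm u hu
  have hpz : (0 : ℝ) < (p : ℝ) ^ z := zpow_pos hp z
  have hp0 : (p : ℚ_[p]) ≠ 0 := Nat.cast_ne_zero.2 (Fact.out : p.Prime).ne_zero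
  have h1 : ‖((p : ℚ_[p]) ^ z) • u‖ = 1 := by
    rw [norm_smul, Padic.norm_p_zpow, hz, zpow_neg, inv_mul_cancel₀ hpz.ne']
  have h2 : ((p : ℚ_[p]) ^ z) • u ∈ sphere (0 : ι → ℚ_[p]) 1 := by
    simpa using h1
  obtain ⟨f, hft, hfb⟩ := Set.mem_iUnion₂.1 (hc h2)
  have hf1 : ‖f‖ = 1 := by simpa using ht hft
  refine ⟨f, hf.mem_toFinset.2 hft, z, fun x hx => ?_⟩
  rw [plcP_ball _ (Nat.cast_nonneg r)] at hx
  have h3 : x.1 (((p : ℚ_[p]) ^ z) • u) = x.1 f := by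
    refine PPNet_eq x _ _ ?_
    have a1 := (hx (((p : ℚ_[p]) ^ z) • u - f)).1
    have a2 := (hx f).2
    have a3 : ‖((p : ℚ_[p]) ^ z) • u - f‖ < (R * R)⁻¹ := by
      rw [← dist_eq_norm]; exact hfb
    rw [hf1] at a2
    have a4 : R * ‖((p : ℚ_[p]) ^ z) • u - f‖ < R * (R * R)⁻¹ := mul_lt_mul_of_pos_left a3 hR
    have a5 : R * (R * R)⁻¹ ≤ x.1 f := by
      have : R * (R * R)⁻¹ = R⁻¹ := by field_simp
      rw [this, inv_le_iff_one_le_mul₀' hR]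
      exact a2
    exact (a1.trans_lt a4).trans_le a5
  rw [PPNet_smul, Padic.norm_p_zpow] at h3
  rw [← h3, Real.rpow_intCast, ← mul_assoc, zpow_neg, mul_inv_cancel₀ hpz.ne', one_mul]

theorem plcP_max (x y : (plcP p ι).X) (c : ℝ) : ∃ w : (plcP p ι).X,
    ∀ u, w.1 u = max (x.1 u) ((p : ℝ) ^ (-c) * y.1 u) := by
  obtain ⟨g, a, a', hx, hy⟩ := plcP_join p x y
  have hp : (0 : ℝ) < p := PPNet_pos
  refine ⟨⟨(plcP p ι).nrm g fun i => max (a i) (a' i + -c), g, _, rfl⟩, fun u => ?_⟩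
  have e : (p : ℝ) ^ (-c) * y.1 u = (plcP p ι).nrm g (fun i => a' i + -c) u := by
    rw [hy]
    exact (Plc.nrm_add_const (P := plcP p ι) g a' (-c) u).symm
  rw [e, hx]
  refine le_antisymm ?_ (max_le ?_ ?_)
  · refine (plcP_le g _ u (le_max_of_le_left (PPNet_nonneg g a u))).2 fun i => ?_
    rcases le_total (a i) (a' i + -c) with h | h
    · rw [max_eq_right h]
      exact le_max_of_le_right (PPNet_co g (fun i => a' i + -c) u i)
    · rw [max_eq_left h]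
      exact le_max_of_le_left (PPNet_co g a u i)
  · exact Plc.nrm_mono (P := plcP p ι) g (fun i => le_max_left _ _) u
  · exact Plc.nrm_mono (P := plcP p ι) g (fun i => le_max_right _ _) u

theorem PPNet_rd (Q : ℕ) (hQ : 0 < Q) (z : ℤ) (a : ℝ) :
    (p : ℝ) ^ z * (p : ℝ) ^ ((⌈(Q : ℝ) * a⌉ : ℝ) / Q) =
      (p : ℝ) ^ ((⌈(Q : ℝ) * (z + a)⌉ : ℝ) / Q) := by
  have hQ' : (Q : ℝ) ≠ 0 := Nat.cast_ne_zero.2 hQ.ne'
  have e : (Q : ℝ) * (z + a) = ((Q * z : ℤ) : ℝ) + Q * a := by push_cast; ring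
  rw [e, Int.ceil_intCast_add, ← Real.rpow_intCast, ← Real.rpow_add PPNet_pos]
  congr 1
  push_cast
  field_simp

theorem PPNet_round (Q : ℕ) (hQ : 0 < Q) (g : GL ι ℚ_[p]) (a : ι → ℝ) (u : ι → ℚ_[p]) (t : ℝ)
    (ht' : (plcP p ι).nrm g a u = (p : ℝ) ^ t) :
    (plcP p ι).nrm g (fun i => (⌈(Q : ℝ) * a i⌉ : ℝ) / Q) u =
      (p : ℝ) ^ ((⌈(Q : ℝ) * t⌉ : ℝ) / Q) := by
  have hp : (0 : ℝ) < p := PPNet_pos
  have hp1 : (1 : ℝ) < p := PPNet_one_lt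
  have hQ' : (0 : ℝ) < Q := Nat.cast_pos.2 hQ
  have hv : ∀ i, (Matrix.mulVec g.val u) i ≠ 0 → ∃ z : ℤ,
      ‖(Matrix.mulVec g.val u) i‖ = (p : ℝ) ^ z := fun i hi =>
    ⟨_, Padic.norm_eq_zpow_neg_valuation hi⟩
  refine le_antisymm ?_ ?_
  · refine (plcP_le g _ u (Real.rpow_nonneg hp.le _)).2 fun i => ?_
    by_cases hi : (Matrix.mulVec g.val u) i = 0
    · rw [hi, norm_zero, zero_mul]
      exact Real.rpow_nonneg hp.le _
    obtain ⟨z, hz⟩ := hv i hi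
    have h1 := PPNet_co g a u i
    rw [ht', hz, ← Real.rpow_intCast, ← Real.rpow_add hp,
      Real.rpow_le_rpow_left_iff hp1] at h1
    rw [hz, PPNet_rd Q hQ]
    refine Real.rpow_le_rpow_of_exponent_le hp1.le (div_le_div_of_nonneg_right ?_ hQ'.le)
    exact Int.cast_le.2 (Int.ceil_mono (mul_le_mul_of_nonneg_left h1 hQ'.le))
  · have hex : ∃ i, (p : ℝ) ^ t ≤ ‖(Matrix.mulVec g.val u) i‖ * (p : ℝ) ^ a i := by
      by_contra hne
      push Not at hne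
      have hpt : (0 : ℝ) < (p : ℝ) ^ t := Real.rpow_pos_of_pos hp _
      have h2 : ‖fun i => ‖(Matrix.mulVec g.val u) i‖ * (p : ℝ) ^ a i‖ < (p : ℝ) ^ t := by
        refine (pi_norm_lt_iff hpt).2 fun i => ?_
        rw [Real.norm_of_nonneg (mul_nonneg (norm_nonneg _) (Real.rpow_nonneg hp.le _))]
        exact hne i
      exact h2.ne ht'
    obtain ⟨i, hi⟩ := hex
    have hi0 : (Matrix.mulVec g.val u) i ≠ 0 := by
      intro h0
      rw [h0, norm_zero, zero_mul] at hi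
      exact absurd hi (not_le.2 (Real.rpow_pos_of_pos hp _))
    obtain ⟨z, hz⟩ := hv i hi0
    refine le_trans ?_ (PPNet_co g (fun i => (⌈(Q : ℝ) * a i⌉ : ℝ) / Q) u i)
    rw [hz, ← Real.rpow_intCast, ← Real.rpow_add hp, Real.rpow_le_rpow_left_iff hp1] at hi
    rw [hz, PPNet_rd Q hQ]
    refine Real.rpow_le_rpow_of_exponent_le hp1.le (div_le_div_of_nonneg_right ?_ hQ'.le)
    exact Int.cast_le.2 (Int.ceil_mono (mul_le_mul_of_nonneg_left hi hQ'.le))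

theorem plcP_round (Q : ℕ) (hQ : 0 < Q) (x : (plcP p ι).X) : ∃ w : (plcP p ι).X,
    ∀ (u : ι → ℚ_[p]) (t : ℝ), x.1 u = (p : ℝ) ^ t →
      w.1 u = (p : ℝ) ^ ((⌈(Q : ℝ) * t⌉ : ℝ) / Q) := by
  obtain ⟨_, g, a, rfl⟩ := x
  exact ⟨⟨(plcP p ι).nrm g fun i => (⌈(Q : ℝ) * a i⌉ : ℝ) / Q, g, _, rfl⟩,
    fun u t ht => PPNet_round Q hQ g a u t ht⟩

end Pool.Agent.MP_f7db47_al.GF
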