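import Pool.Agent.MP_f7db47_al.GF.PBase
import Pool.Agent.MP_f7db47_al.GF.FCov

/-!
Parametrisation of the lines in a space of norms.
-/

namespace Pool.Agent.MP_f7db47_al.GF

open Matrix Metric

section

variable {ι : Type} [Fintype ι] [DecidableEq ι] {P : Plc ι}

open Classical in
/-- The invertible matrix given by a pair of mutually inverse arrays. -/
noncomputable def PPar_unit (q : (ι → ι → P.k) × (ι → ι → P.k)) : GL ι P.k :=
  if h : Matrix.of q.1 * Matrix.of q.2 = 1 then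
    ⟨Matrix.of q.1, Matrix.of q.2, h, mul_eq_one_comm.1 h⟩ else 1

theorem PPar_unit_val {q : (ι → ι → P.k) × (ι → ι → P.k)}
    (h : Matrix.of q.1 * Matrix.of q.2 = 1) :
    (PPar_unit q).val = Matrix.of q.1 ∧ ((PPar_unit q)⁻¹).val = Matrix.of q.2 := by
  rw [PPar_unit, dif_pos h]
  exact ⟨rfl, rfl⟩

theorem PPar_chg (g h : GL ι P.k) (c : ι → ℝ) {T δ : ℝ} (hc : ∀ i, |c i| ≤ T) (hδ : 0 ≤ δ)
    (hM : ∀ i j, ‖((g.val - h.val) * (h⁻¹).val) i j‖ ≤ δ) :
    P.Le ((Fintype.card ι : ℝ) ^ 2 * δ * P.b ^ (2 * T) / Real.log P.b)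
      (P.nrm g c) (P.nrm h c) := fun u => by
  have hb := Plc.b_pos (P := P)
  have hL : 0 < Real.log P.b := Real.log_pos P.hb
  set N := P.nrm h c u with hN
  have hN0 : 0 ≤ N := Plc.nrm_nonneg h c u
  set M := (g.val - h.val) * (h⁻¹).val with hMd
  have e : g.val *ᵥ u = h.val *ᵥ u + M *ᵥ (h.val *ᵥ u) := by
    rw [hMd, mulVec_mulVec, mul_assoc, Units.inv_mul, mul_one, sub_mulVec]
    abel
  have hT : ∀ i, P.b ^ c i ≤ P.b ^ T := fun i =>
    Real.rpow_le_rpow_of_exponent_le P.hb.le ((le_abs_self _).trans (hc i))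
  have hv : ∀ j, ‖(h.val *ᵥ u) j‖ ≤ N * P.b ^ T := fun j => by
    have h1 : ‖(h.val *ᵥ u) j‖ * P.b ^ c j ≤ N := P.le_ω j (Plc.co_nonneg h c u)
    have h2 : 1 ≤ P.b ^ c j * P.b ^ T := by
      rw [← Real.rpow_add hb]
      exact Real.one_le_rpow P.hb.le (by linarith [neg_abs_le (c j), hc j])
    calc ‖(h.val *ᵥ u) j‖ ≤ ‖(h.val *ᵥ u) j‖ * (P.b ^ c j * P.b ^ T) :=
          le_mul_of_one_le_right (norm_nonneg _) h2
      _ = ‖(h.val *ᵥ u) j‖ * P.b ^ c j * P.b ^ T := by ring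
      _ ≤ _ := mul_le_mul_of_nonneg_right h1 (by positivity)
  set y : ℝ := Fintype.card ι * (δ * (N * P.b ^ T)) * P.b ^ T with hy
  have hy0 : 0 ≤ y := by positivity
  have h3 : (fun i => ‖(g.val *ᵥ u) i‖ * P.b ^ c i) ≤
      (fun i => ‖(h.val *ᵥ u) i‖ * P.b ^ c i) + fun _ => y := fun i => by
    have h4 : ‖(M *ᵥ (h.val *ᵥ u)) i‖ ≤ Fintype.card ι * (δ * (N * P.b ^ T)) := by
      refine (norm_sum_le _ _).trans ?_
      refine (Finset.sum_le_card_nsmul _ _ (δ * (N * P.b ^ T)) fun j _ => ?_).trans ?_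
      · rw [norm_mul]
        exact mul_le_mul (hM i j) (hv j) (norm_nonneg _) hδ
      · simp
    have h5 : ‖(g.val *ᵥ u) i‖ ≤ ‖(h.val *ᵥ u) i‖ + ‖(M *ᵥ (h.val *ᵥ u)) i‖ := by
      rw [e]; exact norm_add_le _ _
    have h6 : ‖(M *ᵥ (h.val *ᵥ u)) i‖ * P.b ^ c i ≤ y :=
      mul_le_mul h4 (hT i) (by positivity) (by positivity)
    have h7 : 0 ≤ P.b ^ c i := by positivity
    simp only [Pi.add_apply]
    nlinarith [mul_le_mul_of_nonneg_right h5 h7]
  have h8 : P.nrm g c u ≤ N + Fintype.card ι * y := by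
    refine (P.ω_mono (Plc.co_nonneg g c u) h3).trans ?_
    refine (P.ω_add (Plc.co_nonneg h c u) fun _ => hy0).trans ?_
    refine add_le_add le_rfl ((P.ω_le fun _ => hy0).trans ?_)
    simp
  have h9 : P.b ^ (2 * T) = P.b ^ T * P.b ^ T := by rw [← Real.rpow_add hb]; ring_nf
  set z : ℝ := (Fintype.card ι : ℝ) ^ 2 * δ * P.b ^ (2 * T) with hz
  have h10 : P.b ^ (z / Real.log P.b) = Real.exp z := by
    rw [Real.rpow_def_of_pos hb, mul_div_cancel₀ _ hL.ne']
  rw [h10]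
  calc P.nrm g c u ≤ N + Fintype.card ι * y := h8
    _ = (z + 1) * N := by rw [hz, hy, h9]; ring
    _ ≤ _ := mul_le_mul_of_nonneg_right (Real.add_one_le_exp z) hN0

/-- The space of parameters. -/
abbrev PPar_Q (P : Plc ι) : Type := ((ι → ι → P.k) × (ι → ι → P.k)) × ((ι → ℝ) × (ι → ℝ))

/-- The compact box of parameters. -/
def PPar_box (P : Plc ι) (B : ℝ) : Set (PPar_Q P) :=
  ((Set.univ.pi fun _ => Set.univ.pi fun _ => closedBall 0 B) ×ˢ
    (Set.univ.pi fun _ => Set.univ.pi fun _ => closedBall 0 B)) ×ˢ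
  ((Set.univ.pi fun _ => closedBall 0 1) ×ˢ (Set.univ.pi fun _ => closedBall 0 1))

omit [DecidableEq ι] in
theorem PPar_mem_box {B : ℝ} {p : PPar_Q P} : p ∈ PPar_box P B ↔
    ((∀ i j, ‖p.1.1 i j‖ ≤ B) ∧ ∀ i j, ‖p.1.2 i j‖ ≤ B) ∧
      (∀ i, |p.2.1 i| ≤ 1) ∧ ∀ i, |p.2.2 i| ≤ 1 := by
  simp [PPar_box, Set.mem_pi]

/-- The line given by a parameter. -/
noncomputable def PPar_pi (p : PPar_Q P) (t : ℝ) : P.X :=
  ⟨P.nrm (PPar_unit p.1) (p.2.1 + t • p.2.2), _, _, rfl⟩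

theorem PPar_lip {B : ℝ} (hB : 0 ≤ B) {p q : PPar_Q P} (hq : q ∈ PPar_box P B)
    (hp1 : Matrix.of p.1.1 * Matrix.of p.1.2 = 1) (hq1 : Matrix.of q.1.1 * Matrix.of q.1.2 = 1)
    (t : ℝ) :
    P.Le ((1 + (Fintype.card ι : ℝ) ^ 3 * B * P.b ^ (2 : ℝ) / Real.log P.b) * dist p q *
      Real.exp ((2 * Real.log P.b + 1) * |t|)) (PPar_pi p t).1 (PPar_pi q t).1 := by
  have hb := Plc.b_pos (P := P)
  have hL : 0 < Real.log P.b := Real.log_pos P.hb
  obtain ⟨⟨-, hq2⟩, hq3, hq4⟩ := PPar_mem_box.1 hq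
  have hd : 0 ≤ dist p q := dist_nonneg
  have ha : ∀ i, |p.2.1 i - q.2.1 i| ≤ dist p q := fun i => by
    rw [← Real.dist_eq]
    exact (dist_le_pi_dist _ _ i).trans ((le_max_left _ _).trans (le_max_right _ _))
  have hw : ∀ i, |p.2.2 i - q.2.2 i| ≤ dist p q := fun i => by
    rw [← Real.dist_eq]
    exact (dist_le_pi_dist _ _ i).trans ((le_max_right _ _).trans (le_max_right _ _))
  have hg : ∀ i j, ‖p.1.1 i j - q.1.1 i j‖ ≤ dist p q := fun i j => by
    rw [← dist_eq_norm]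
    exact (dist_le_pi_dist _ _ j).trans ((dist_le_pi_dist _ _ i).trans
      ((le_max_left _ _).trans (le_max_left _ _)))
  have h1 : P.Le (dist p q * (1 + |t|)) (P.nrm (PPar_unit p.1) (p.2.1 + t • p.2.2))
      (P.nrm (PPar_unit p.1) (q.2.1 + t • q.2.2)) := by
    refine (Plc.nrm_le_iff _ _ _ _).2 fun i => ?_
    have h2 : t * (p.2.2 i - q.2.2 i) ≤ |t| * dist p q := by
      refine (le_abs_self _).trans ?_
      rw [abs_mul]
      exact mul_le_mul_of_nonneg_left (hw i) (abs_nonneg t)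
    have h3 := (le_abs_self _).trans (ha i)
    simp only [Pi.add_apply, Pi.smul_apply, smul_eq_mul]
    nlinarith
  have h2 := PPar_chg (PPar_unit p.1) (PPar_unit q.1) (q.2.1 + t • q.2.2) (T := 1 + |t|)
    (δ := Fintype.card ι * (dist p q * B)) (fun i => by
      simp only [Pi.add_apply, Pi.smul_apply, smul_eq_mul]
      refine (abs_add_le _ _).trans (add_le_add (hq3 i) ?_)
      rw [abs_mul]
      exact mul_le_of_le_one_right (abs_nonneg t) (hq4 i)) (by positivity) (fun i j => by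
      rw [(PPar_unit_val hp1).1, (PPar_unit_val hq1).1, (PPar_unit_val hq1).2, mul_apply]
      refine (norm_sum_le _ _).trans ?_
      refine (Finset.sum_le_card_nsmul _ _ (dist p q * B) fun l _ => ?_).trans ?_
      · rw [norm_mul]
        exact mul_le_mul (hg i l) (hq2 l j) (norm_nonneg _) hd
      · simp)
  refine Plc.Le.mono (y := PPar_pi q t) (h1.trans h2) ?_
  have h3 : 1 + |t| ≤ Real.exp ((2 * Real.log P.b + 1) * |t|) := by
    refine le_trans ?_ (Real.add_one_le_exp _)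
    nlinarith [abs_nonneg t]
  have h4 : P.b ^ (2 * (1 + |t|)) ≤ P.b ^ (2 : ℝ) * Real.exp ((2 * Real.log P.b + 1) * |t|) := by
    rw [mul_add, mul_one, Real.rpow_add hb]
    refine mul_le_mul_of_nonneg_left ?_ (by positivity)
    rw [Real.rpow_def_of_pos hb]
    exact Real.exp_le_exp.2 (by nlinarith [abs_nonneg t])
  set E := Real.exp ((2 * Real.log P.b + 1) * |t|)
  have h5 : (Fintype.card ι : ℝ) ^ 2 * (Fintype.card ι * (dist p q * B)) *
      P.b ^ (2 * (1 + |t|)) / Real.log P.b ≤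
      (Fintype.card ι : ℝ) ^ 2 * (Fintype.card ι * (dist p q * B)) *
        (P.b ^ (2 : ℝ) * E) / Real.log P.b := by gcongr
  calc _ ≤ dist p q * E + (Fintype.card ι : ℝ) ^ 2 * (Fintype.card ι * (dist p q * B)) *
        (P.b ^ (2 : ℝ) * E) / Real.log P.b := add_le_add (mul_le_mul_of_nonneg_left h3 hd) h5
    _ = _ := by ring

theorem PPar_norm (hL : P.Loc) (g : GL ι P.k) (a : ι → ℝ) :
    ∃ (g₁ : GL ι P.k) (a₁ : ι → ℝ), (∀ i, 0 ≤ a₁ i ∧ a₁ i ≤ 1) ∧
      ∀ v : ι → ℝ, P.nrm g (a + v) = P.nrm g₁ (a₁ + v) := by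
  have hb := Plc.b_pos (P := P)
  choose d hd0 hd1 hd2 using fun i => hL.gap (a i)
  have hd : ∀ i, 0 < ‖d i‖ := fun i => norm_pos_iff.2 (hd0 i)
  have e1 : ∀ i, P.b ^ Real.logb P.b ‖d i‖ = ‖d i‖ := fun i =>
    Real.rpow_logb hb P.hb.ne' (hd i)
  let D : GL ι P.k := ⟨diagonal d, diagonal fun i => (d i)⁻¹,
    by rw [diagonal_mul_diagonal, ← diagonal_one]; congr 1; funext i; exact mul_inv_cancel₀ (hd0 i),
    by rw [diagonal_mul_diagonal, ← diagonal_one]; congr 1; funext i; exact inv_mul_cancel₀ (hd0 i)⟩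
  refine ⟨D * g, fun i => a i - Real.logb P.b ‖d i‖, fun i => ⟨?_, ?_⟩, fun v => ?_⟩
  · have h := hd1 i
    rw [← e1 i, Real.rpow_le_rpow_left_iff P.hb] at h
    linarith
  · have h := hd2 i
    rw [← e1 i, mul_comm, ← Real.rpow_add_one hb.ne', Real.rpow_le_rpow_left_iff P.hb] at h
    linarith
  · funext u
    unfold Plc.nrm
    congr 1
    funext i
    have e2 : ((D * g).val *ᵥ u) i = d i * (g.val *ᵥ u) i := by
      rw [Units.val_mul, ← mulVec_mulVec]
      exact mulVec_diagonal _ _ _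
    have e3 : P.b ^ (a + v) i = ‖d i‖ * P.b ^ ((fun i => a i - Real.logb P.b ‖d i‖) + v) i := by
      conv_rhs => rw [← e1 i, ← Real.rpow_add hb]
      congr 1
      simp only [Pi.add_apply]
      ring
    rw [e2, e3, norm_mul]
    ring

end

theorem Plc.par {ι : Type} [Fintype ι] [DecidableEq ι] {P : Plc ι} (hL : P.Loc) :
    ∃ κ m, 0 < κ ∧ P.sp.Par κ m := by
  have hb := Plc.b_pos (P := P)
  have hlog : 0 < Real.log P.b := Real.log_pos P.hb
  refine ⟨2 * Real.log P.b + 1,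
    ((∑ _i : ι, ∑ _j : ι, 1) + ∑ _i : ι, ∑ _j : ι, 1) + ((∑ _i : ι, 1) + ∑ _i : ι, 1),
    by positivity, fun C => ?_⟩
  set B := P.b ^ (C + 1) with hB
  have hB0 : 0 ≤ B := by positivity
  refine ⟨PPar_Q P, inferInstance,
    PPar_box P B ∩ {p | Matrix.of p.1.1 * Matrix.of p.1.2 = 1}, PPar_pi,
    1 + (Fintype.card ι : ℝ) ^ 3 * B * P.b ^ (2 : ℝ) / Real.log P.b, ?_, ?_, ?_, ?_, ?_⟩
  · refine IsCompact.inter_right ?_ (isClosed_eq ?_ continuous_const)
    · have h1 : IsCompact (Set.univ.pi fun _ : ι => Set.univ.pi fun _ : ι =>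
          closedBall (0 : P.k) B) :=
        isCompact_univ_pi fun _ => isCompact_univ_pi fun _ => hL.cpt B
      have h2 : IsCompact (Set.univ.pi fun _ : ι => closedBall (0 : ℝ) 1) :=
        isCompact_univ_pi fun _ => isCompact_closedBall _ _
      exact (h1.prod h1).prod (h2.prod h2)
    · exact Continuous.matrix_mul (continuous_fst.comp continuous_fst)
        (continuous_snd.comp continuous_fst)
  · have h1 := Cov.pi (J := ι) fun _ => Cov.pi (J := ι) fun _ => hL.cov B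
    have h2 := Cov.pi (J := ι) fun _ => cov_real 1
    exact Cov.subset ((h1.prod h1).prod (h2.prod h2)) Set.inter_subset_left
  · rintro p ⟨hp, -⟩
    obtain ⟨-, -, hw⟩ := PPar_mem_box.1 hp
    refine ⟨⟨_, _, _, fun t => rfl⟩, (Plc.dist_le_iff zero_le_one).2
      ⟨(Plc.nrm_le_iff _ _ _ _).2 fun i => ?_, (Plc.nrm_le_iff _ _ _ _).2 fun i => ?_⟩⟩
    · simp only [Pi.add_apply, Pi.smul_apply, smul_eq_mul]
      linarith [neg_abs_le (p.2.2 i), hw i]
    · simp only [Pi.add_apply, Pi.smul_apply, smul_eq_mul]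
      linarith [le_abs_self (p.2.2 i), hw i]
  · rintro p ⟨hp, hp1⟩ q ⟨hq, hq1⟩ t
    refine (Plc.dist_le_iff (by positivity)).2 ⟨PPar_lip hB0 hq hp1 hq1 t, ?_⟩
    rw [dist_comm]
    exact PPar_lip hB0 hp hq1 hp1 t
  · rintro c ⟨g, a, w, hc⟩ h0 h1
    obtain ⟨g₁, a₁, ha, hg⟩ := PPar_norm hL g a
    have hC : 0 ≤ C := dist_nonneg.trans h0
    simp only [hg] at hc
    have h2 := (Plc.dist_le_iff (P := P) hC).1 h0
    have h3 := (Plc.dist_le_iff (P := P) zero_le_one).1 h1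
    rw [hc 0, zero_smul, add_zero] at h2 h3
    rw [hc 1, one_smul, Plc.nrm_le_iff, Plc.nrm_le_iff] at h3
    have hm : Matrix.of g₁.val * Matrix.of (g₁⁻¹).val = 1 := g₁.mul_inv
    refine ⟨((g₁.val, (g₁⁻¹).val), (a₁, w)),
      ⟨PPar_mem_box.2 ⟨⟨fun i j => ?_, fun i j => ?_⟩, fun i => ?_, fun i => ?_⟩, hm⟩, ?_⟩
    · have h4 := h2.1 (Pi.single j 1)
      have h5 : P.sp.o.1 (Pi.single j 1) = 1 := by
        have := Plc.nrm_dual (P := P) 1 0 j
        rw [inv_one, Units.val_one, one_mulVec, Pi.zero_apply, Real.rpow_zero] at this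
        exact this
      have h6 := P.le_ω i (Plc.co_nonneg g₁ a₁ (Pi.single j 1))
      have h7 : (g₁.val *ᵥ Pi.single j 1) i = g₁.val i j := by simp
      rw [h5, mul_one] at h4
      rw [h7] at h6
      have h8 : 1 ≤ P.b ^ a₁ i := Real.one_le_rpow P.hb.le (ha i).1
      calc ‖g₁.val i j‖ ≤ ‖g₁.val i j‖ * P.b ^ a₁ i := le_mul_of_one_le_right (norm_nonneg _) h8
        _ ≤ P.b ^ C := h6.trans h4
        _ ≤ B := Real.rpow_le_rpow_of_exponent_le P.hb.le (by linarith)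
    · have h4 := h2.2 ((g₁⁻¹).val *ᵥ Pi.single j 1)
      rw [Plc.nrm_dual, ← Real.rpow_add hb] at h4
      have h6 := P.le_ω i (Plc.co_nonneg (1 : GL ι P.k) 0 ((g₁⁻¹).val *ᵥ Pi.single j 1))
      have h7 : ((1 : GL ι P.k).val *ᵥ ((g₁⁻¹).val *ᵥ Pi.single j 1)) i = (g₁⁻¹).val i j := by
        rw [Units.val_one, one_mulVec, mulVec_single_one]
        rfl
      rw [h7, Pi.zero_apply, Real.rpow_zero, mul_one] at h6
      exact (h6.trans h4).trans
        (Real.rpow_le_rpow_of_exponent_le P.hb.le (by linarith [(ha j).2]))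
    · exact abs_le.2 ⟨by linarith [(ha i).1], (ha i).2⟩
    · have h4 := h3.1 i
      have h5 := h3.2 i
      simp only [Pi.add_apply] at h4 h5
      exact abs_le.2 ⟨by linarith, by linarith⟩
    · funext t
      refine Subtype.ext ?_
      rw [hc t]
      have e : PPar_unit (P := P) (g₁.val, (g₁⁻¹).val) = g₁ := Units.ext (PPar_unit_val hm).1
      simp only [PPar_pi, e]

end Pool.Agent.MP_f7db47_al.GF
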