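import Pool.Agent.MP_f7db47_al.GF.PBase

/-!
Two Euclidean norms have a common orthogonal basis.
-/

namespace Pool.Agent.MP_f7db47_al.GF

open Matrix

variable {ι : Type} [Fintype ι] [DecidableEq ι]

theorem plcR_sq (g : GL ι ℝ) (a : ι → ℝ) (u : ι → ℝ) :
    (plcR ι).nrm g a u ^ 2 = ∑ i, ((g.val *ᵥ u) i * 2 ^ a i) ^ 2 := by
  have h : (plcR ι).nrm g a u = ‖(WithLp.toLp 2 (fun i => ‖(g.val *ᵥ u) i‖ * (2 : ℝ) ^ a i) :
    EuclideanSpace ℝ ι)‖ := rfl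
  rw [h, EuclideanSpace.real_norm_sq_eq]
  refine Finset.sum_congr rfl fun i _ => ?_
  simp [mul_pow]

theorem PRJoin_form (M : Matrix ι ι ℝ) (d u : ι → ℝ) :
    u ⬝ᵥ (Mᵀ * diagonal d * M) *ᵥ u = ∑ i, (M *ᵥ u) i ^ 2 * d i := by
  rw [← mulVec_mulVec, ← mulVec_mulVec, dotProduct_mulVec, vecMul_transpose, dotProduct]
  refine Finset.sum_congr rfl fun i _ => ?_
  rw [mulVec_diagonal]
  ring

theorem PRJoin_pos (g : GL ι ℝ) (a : ι → ℝ) {u : ι → ℝ} (hu : u ≠ 0) :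
    0 < (plcR ι).nrm g a u ^ 2 := by
  have h : g.val *ᵥ u ≠ 0 := fun e => hu (by
    have h1 := congrArg (fun v => (g⁻¹).val *ᵥ v) e
    simpa using h1)
  obtain ⟨i, hi⟩ := Function.ne_iff.1 h
  rw [plcR_sq]
  exact Finset.sum_pos' (fun _ _ => sq_nonneg _) ⟨i, Finset.mem_univ i,
    sq_pos_of_ne_zero (mul_ne_zero hi (Real.rpow_pos_of_pos two_pos _).ne')⟩

theorem PRJoin_ext {g h : GL ι ℝ} {a c : ι → ℝ} {u v : ι → ℝ}
    (e : (plcR ι).nrm g a u ^ 2 = (plcR ι).nrm h c v ^ 2) :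
    (plcR ι).nrm g a u = (plcR ι).nrm h c v :=
  (sq_eq_sq₀ (Plc.nrm_nonneg (P := plcR ι) g a u) (Plc.nrm_nonneg (P := plcR ι) h c v)).1 e

/-- Euclidean norms are the square roots of positive definite quadratic forms. -/
theorem plcR_gram (x : (plcR ι).X) :
    ∃ A : Matrix ι ι ℝ, A.IsSymm ∧ ∀ u : ι → ℝ, x.1 u ^ 2 = u ⬝ᵥ A *ᵥ u := by
  obtain ⟨_, g, a, rfl⟩ := x
  change GL ι ℝ at g
  refine ⟨g.valᵀ * diagonal (fun i => ((2 : ℝ) ^ a i) ^ 2) * g.val, ?_, fun u => ?_⟩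
  · simp [IsSymm, transpose_mul, Matrix.mul_assoc]
  · rw [PRJoin_form]
    refine (plcR_sq g a u).trans (Finset.sum_congr rfl fun i _ => mul_pow _ _ _)

theorem plcR_of_gram (A : Matrix ι ι ℝ) (hA : A.IsSymm)
    (hp : ∀ u : ι → ℝ, u ≠ 0 → 0 < u ⬝ᵥ A *ᵥ u) :
    ∃ (U : GL ι ℝ) (a : ι → ℝ), U.valᵀ * U.val = 1 ∧
      ∀ u : ι → ℝ, (plcR ι).nrm U a u ^ 2 = u ⬝ᵥ A *ᵥ u := by
  have hH : A.IsHermitian := isHermitian_iff_isSymm.2 hA
  have hD : A.PosDef := PosDef.of_dotProduct_mulVec_pos hH fun x hx => by simpa using hp x hx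
  have h1 := hH.spectral_theorem
  rw [Unitary.conjStarAlgAut_apply] at h1
  have h2 : star (hH.eigenvectorUnitary : Matrix ι ι ℝ) * hH.eigenvectorUnitary = 1 :=
    Unitary.coe_star_mul_self _
  have h3 : (hH.eigenvectorUnitary : Matrix ι ι ℝ) * star (hH.eigenvectorUnitary : Matrix ι ι ℝ) =
      1 := Unitary.coe_mul_star_self _
  have h4 := hD.eigenvalues_pos
  generalize (hH.eigenvectorUnitary : Matrix ι ι ℝ) = V at h1 h2 h3
  generalize hH.eigenvalues = d at h1 h4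
  rw [star_eq_conjTranspose, conjTranspose_eq_transpose_of_trivial] at h1 h2 h3
  refine ⟨⟨Vᵀ, V, h2, h3⟩, fun i => Real.logb 2 √(d i), h3, fun u => ?_⟩
  rw [plcR_sq, h1]
  refine Eq.trans ?_ (PRJoin_form Vᵀ d u).symm
  refine Finset.sum_congr rfl fun i _ => ?_
  rw [mul_pow, Real.rpow_logb two_pos (by norm_num) (Real.sqrt_pos.2 (h4 i)),
    Real.sq_sqrt (h4 i).le]

theorem plcR_join : (plcR ι).Join := by
  rintro ⟨_, g, a, rfl⟩ ⟨_, h, c, rfl⟩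
  change GL ι ℝ at g h
  have e : ∀ a : ι → ℝ, diagonal (fun i => (2 : ℝ) ^ a i) * diagonal (fun i => (2 : ℝ) ^ (-a) i) =
      1 := fun a => by
    rw [diagonal_mul_diagonal, ← diagonal_one]
    congr 1
    funext i
    rw [← Real.rpow_add two_pos]
    simp
  let D : GL ι ℝ := ⟨diagonal fun i => (2 : ℝ) ^ a i, diagonal fun i => (2 : ℝ) ^ (-a) i, e a, by
    simpa using e (-a)⟩
  obtain ⟨A, hA, h1⟩ := plcR_gram (ι := ι) ⟨_, h * (D * g)⁻¹, c, rfl⟩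
  obtain ⟨U, c', hU, h2⟩ := plcR_of_gram A hA fun u hu => h1 u ▸ PRJoin_pos _ c hu
  refine ⟨U * (D * g), 0, c', funext fun u => ?_, funext fun u => ?_⟩
  · change ι → ℝ at u
    refine PRJoin_ext ((plcR_sq g a u).trans (Eq.trans ?_ (plcR_sq (U * (D * g)) 0 u).symm))
    have h3 := PRJoin_form U.val (fun _ => 1) ((D * g).val *ᵥ u)
    rw [diagonal_one, Matrix.mul_one, hU, one_mulVec] at h3
    simp only [Pi.zero_apply, Real.rpow_zero, mul_one] at h3 ⊢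
    rw [Units.val_mul U, ← mulVec_mulVec, ← h3, dotProduct]
    refine Finset.sum_congr rfl fun i _ => ?_
    rw [Units.val_mul, ← mulVec_mulVec, mulVec_diagonal]
    ring
  · change ι → ℝ at u
    have h3 := PRJoin_ext ((h1 ((D * g).val *ᵥ u)).trans (h2 _).symm)
    have h4 := Plc.nrm_mul (P := plcR ι) (h * (D * g)⁻¹) (D * g) c u
    have h5 : h * (D * g)⁻¹ * (D * g) = h := inv_mul_cancel_right _ _
    exact ((congrArg (fun z : GL ι ℝ => (plcR ι).nrm z c u) h5).symm.trans h4).trans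
      (h3.trans (Plc.nrm_mul (P := plcR ι) U (D * g) c' u).symm)

end Pool.Agent.MP_f7db47_al.GF
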